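import Pool.Agent.Helper86K9.HK.Crit1

/-!
# Second order criterion for non-primality
-/

set_option autoImplicit false

namespace Pool.Agent.Helper86K9.HK.Cr

open MvPolynomial Matrix

universe u v

variable {k : Type u} [Field k] {K : Type v} [Field K] [Algebra k K]

/-- The derivative in direction `a` of the partial derivatives at `q`. -/
noncomputable def hs {N : ℕ} (q a : Fin N → K) (f : MvPolynomial (Fin N) k) (j : Fin N) : K :=
  ∑ l, a l * aeval q (pderiv l (pderiv j f))

lemma aeval_pt2 {N : ℕ} (q a b w : Fin N → K) (f : MvPolynomial (Fin N) k) :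
    aeval (fun i => (TrivSqZeroExt.inl (TrivSqZeroExt.inl (q i) + TrivSqZeroExt.inr (a i)) +
      TrivSqZeroExt.inr (TrivSqZeroExt.inl (b i) + TrivSqZeroExt.inr (w i)) :
        DualNumber (DualNumber K))) f =
      TrivSqZeroExt.inl (TrivSqZeroExt.inl (aeval q f) +
        TrivSqZeroExt.inr (∑ j, a j * aeval q (pderiv j f))) +
      TrivSqZeroExt.inr (TrivSqZeroExt.inl (∑ j, b j * aeval q (pderiv j f)) +
        TrivSqZeroExt.inr (∑ j, (b j * hs q a f j + w j * aeval q (pderiv j f)))) := by
  have h1 := aeval_dual (k := k) (A := DualNumber K)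
    (fun i => (TrivSqZeroExt.inl (q i) + TrivSqZeroExt.inr (a i) : DualNumber K))
    (fun i => (TrivSqZeroExt.inl (b i) + TrivSqZeroExt.inr (w i) : DualNumber K)) f
  rw [h1]
  simp only [aeval_dual]
  congr 2
  have term : ∀ b w J H : K, (TrivSqZeroExt.inl b + TrivSqZeroExt.inr w : DualNumber K) *
      (TrivSqZeroExt.inl J + TrivSqZeroExt.inr H) =
        TrivSqZeroExt.inl (b * J) + TrivSqZeroExt.inr (b * H + w * J) := by
    intro b w J H
    ext
    · simp
    · simp
  simp only [term, hs]
  rw [Finset.sum_add_distrib, TrivSqZeroExt.inl_sum, TrivSqZeroExt.inr_sum]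

/-- Second order criterion, internal form. -/
theorem crit2' {t m n : ℕ} (ht : 2 ≤ t) (hm : t ≤ m) (hn : t ≤ n) (q : ℕ → K)
    (hq : Van t m n q) (B : Finset (Fin (m + n - 1))) (hB : B.card ≤ t)
    (h : ∀ δ : ℕ → K, Tan t m n q δ → (∀ j ∈ B, δ (j.val + 1) = 0) →
        ∀ j, 1 ≤ j → j ≤ m + n - 1 → δ j = 0) (a b : ℕ → K) (ha : Tan t m n q a)
    (hb : Tan t m n q b) (hab : ∀ w, ¬ Van t m n (pt2 q a b w)) :
    ¬ (hankelIdeal k t m n).IsPrime := by
  classical
  by_cases hB1 : B.card < t
  · exact crit1' ht hm hn q hq B hB1 h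
  have hBt : B.card = t := by omega
  intro hP
  obtain ⟨e, he⟩ := exists_rows k q hq B h
  let q' : Fin (m + n - 1) → K := res (m + n - 1) q
  let a' : Fin (m + n - 1) → K := res (m + n - 1) a
  let b' : Fin (m + n - 1) → K := res (m + n - 1) b
  have hq0 : ∀ i, aeval q' (gen k t m n i) = 0 :=
    (van_iff (k := k) (aeval q').toRingHom q (fun i => by simp [q', res])).1 hq
  have hJa : ∀ i, ∑ j, a' j * aeval q' (pderiv j (gen k t m n i)) = 0 := by
    intro i
    have h1 := congrFun ((tan_iff k q a hq).1 ha) i
    simp only [Matrix.mulVec, dotProduct, jac, of_apply, Pi.zero_apply] at h1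
    rw [← h1]
    exact Finset.sum_congr rfl fun j _ => mul_comm _ _
  have hJb : ∀ i, ∑ j, b' j * aeval q' (pderiv j (gen k t m n i)) = 0 := by
    intro i
    have h1 := congrFun ((tan_iff k q b hq).1 hb) i
    simp only [Matrix.mulVec, dotProduct, jac, of_apply, Pi.zero_apply] at h1
    rw [← h1]
    exact Finset.sum_congr rfl fun j _ => mul_comm _ _
  let c : (Fin t ↪ Fin m) × (Fin t ↪ Fin n) → K := fun i =>
    ∑ j, b' j * hs q' a' (gen k t m n i) j
  have hc : (-c) ∉ LinearMap.range (jac k t m n q).mulVecLin := by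
    rintro ⟨w, hw⟩
    apply hab (ext0 (m + n - 1) w)
    rw [van_iff (k := k) (aeval fun i : Fin (m + n - 1) => (TrivSqZeroExt.inl (TrivSqZeroExt.inl (q' i) +
      TrivSqZeroExt.inr (a' i)) + TrivSqZeroExt.inr (TrivSqZeroExt.inl (b' i) +
        TrivSqZeroExt.inr (w i)) : DualNumber (DualNumber K))).toRingHom _ (fun i => by
          simp only [AlgHom.toRingHom_eq_coe, RingHom.coe_coe, aeval_X, pt2]
          rw [ext0_succ]
          rfl)]
    intro i
    simp only [AlgHom.toRingHom_eq_coe, RingHom.coe_coe]
    rw [aeval_pt2, hq0, hJa, hJb]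
    have h1 := congrFun hw i
    simp only [Matrix.mulVecLin_apply, Matrix.mulVec, dotProduct, jac, of_apply,
      Pi.neg_apply, c] at h1
    have h2 : ∑ j, (b' j * hs q' a' (gen k t m n i) j +
        w j * aeval q' (pderiv j (gen k t m n i))) = 0 := by
      rw [Finset.sum_add_distrib]
      have h3 : ∑ j, w j * aeval q' (pderiv j (gen k t m n i)) =
          -∑ j, b' j * hs q' a' (gen k t m n i) j := by
        rw [← h1]
        exact Finset.sum_congr rfl fun j _ => mul_comm _ _
      rw [h3, add_neg_cancel]
    rw [h2]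
    simp
  obtain ⟨φ, hφ1, hφ2⟩ := Submodule.exists_le_ker_of_notMem hc
  let lam : (Fin t ↪ Fin m) × (Fin t ↪ Fin n) → K := fun i => φ (Pi.single i 1)
  have hlam : ∀ v, φ v = ∑ i, lam i * v i := by
    intro v
    conv_lhs => rw [pi_eq_sum_univ' v]
    rw [map_sum]
    refine Finset.sum_congr rfl fun i _ => ?_
    rw [map_smul, smul_eq_mul, mul_comm]
  have hf1 : ∀ j, ∑ i, lam i * aeval q' (pderiv j (gen k t m n i)) = 0 := by
    intro j
    have h1 : φ ((jac k t m n q).mulVec (Pi.single j 1)) = 0 := by
      have h2 : (jac k t m n q).mulVec (Pi.single j 1) ∈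
          LinearMap.range (jac k t m n q).mulVecLin := ⟨Pi.single j 1, rfl⟩
      exact hφ2 h2
    rw [hlam] at h1
    rw [← h1]
    simp only [Matrix.mulVec_single_one, Matrix.col_apply]
    rfl
  let hh : Fin (m + n - 1) → K := fun j => ∑ i, lam i * hs q' a' (gen k t m n i) j
  have hf2 : ∑ j, b' j * hh j ≠ 0 := by
    intro h0
    apply hφ1
    rw [hlam]
    simp only [Pi.neg_apply, mul_neg, Finset.sum_neg_distrib, neg_eq_zero]
    rw [← h0]
    simp only [hh, c, Finset.mul_sum]
    rw [Finset.sum_comm]
    exact Finset.sum_congr rfl fun i _ => Finset.sum_congr rfl fun l _ => by ring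
  -- the point `q + ε a`
  let ψ : MvPolynomial (Fin (m + n - 1)) k →ₐ[k] DualNumber K :=
    aeval fun i => (TrivSqZeroExt.inl (q' i) + TrivSqZeroExt.inr (a' i) : DualNumber K)
  have hψP : ∀ g ∈ hankelIdeal k t m n, ψ g = 0 := by
    intro g hg
    exact ker_of_van (k := k) ψ.toRingHom _ (fun i => by
      simp only [AlgHom.toRingHom_eq_coe, RingHom.coe_coe, ψ, aeval_X]
      rfl) ha hg
  have hψ : ∀ g, ψ g = TrivSqZeroExt.inl (aeval q' g) +
      TrivSqZeroExt.inr (∑ j, a' j * aeval q' (pderiv j g)) := fun g => aeval_dual _ _ g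
  let D0 : Matrix {j // j ∉ B} {j // j ∉ B} K := Matrix.of fun a b => jac k t m n q (e a) b.1
  have hD0 : IsUnit D0.det := he.isUnit
  let u : {j // j ∉ B} → K := -((fun j : {j // j ∉ B} => hh j.1) ᵥ* D0⁻¹)
  have key : ∀ j, hh j + ∑ a, u a * jac k t m n q (e a) j = 0 := by
    intro j
    by_cases hj : j ∈ B
    · let col : Unit ⊕ {j // j ∉ B} → Fin (m + n - 1) := Sum.elim (fun _ => j) Subtype.val
      have hcol : Function.Injective col := by
        rintro (x | x) (y | y) hxy
        · rfl
        · simp only [col, Sum.elim_inl, Sum.elim_inr] at hxy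
          exact absurd hj (hxy ▸ y.2)
        · simp only [col, Sum.elim_inl, Sum.elim_inr] at hxy
          exact absurd hj (hxy ▸ x.2)
        · exact congrArg _ (Subtype.ext hxy)
      have hcard : m + n - 1 < t + Fintype.card (Unit ⊕ {j // j ∉ B}) := by
        rw [Fintype.card_sum, Fintype.card_unit, Fintype.card_subtype_compl]
        simp only [Fintype.card_fin, Fintype.card_coe]
        omega
      let R : (Fin t ↪ Fin m) × (Fin t ↪ Fin n) → Unit ⊕ {j // j ∉ B} → DualNumber K :=
        fun i b => ψ (pderiv (col b) (gen k t m n i))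
      let M3 : ((Unit ⊕ {j // j ∉ B}) → DualNumber K) →
          Matrix (Unit ⊕ {j // j ∉ B}) (Unit ⊕ {j // j ∉ B}) (DualNumber K) := fun r =>
        Matrix.of (Sum.elim (fun _ => r) (fun a => R (e a)))
      have h1 : ∀ i, (M3 (R i)).det = 0 := by
        intro i
        have h1 := minor_hk (k := k) ht hm hn hP col hcol hcard
          (Sum.elim (fun _ => gen k t m n i) (fun a => gen k t m n (e a)))
          (by rintro (x | x) <;> exact gen_mem _ _ _ _)
        have h2 := hψP _ h1
        rw [← AlgHom.coe_toRingHom, RingHom.map_det] at h2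
        rw [← h2]
        congr 1
        refine Matrix.ext ?_
        rintro (a | a) b <;> rfl
      have h1' : (M3 (fun b => TrivSqZeroExt.inr (hh (col b)))).det = 0 := by
        have h2 : ∀ r, M3 r = (M3 0).updateRow (Sum.inl ()) r := by
          intro r
          refine Matrix.ext ?_
          rintro (a | a) b
          · cases a
            simp [M3]
          · simp [M3]
        have h3 : (fun b => TrivSqZeroExt.inr (hh (col b)) :
            Unit ⊕ {j // j ∉ B} → DualNumber K) =
            ∑ i, (TrivSqZeroExt.inl (lam i) : DualNumber K) • R i := by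
          funext b
          rw [Finset.sum_apply]
          simp only [Pi.smul_apply, smul_eq_mul, R, hψ]
          have h4 : ∀ i, (TrivSqZeroExt.inl (lam i) : DualNumber K) *
              (TrivSqZeroExt.inl (aeval q' (pderiv (col b) (gen k t m n i))) +
                TrivSqZeroExt.inr (∑ j, a' j * aeval q' (pderiv j (pderiv (col b)
                  (gen k t m n i))))) =
              TrivSqZeroExt.inl (lam i * aeval q' (pderiv (col b) (gen k t m n i))) +
                TrivSqZeroExt.inr (lam i * hs q' a' (gen k t m n i) (col b)) := by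
            intro i
            ext
            · simp
            · simp [hs]
          simp only [h4]
          rw [Finset.sum_add_distrib, ← TrivSqZeroExt.inl_sum, ← TrivSqZeroExt.inr_sum, hf1,
            TrivSqZeroExt.inl_zero, zero_add]
        rw [h2, h3]
        have h5 : ∀ s : Finset ((Fin t ↪ Fin m) × (Fin t ↪ Fin n)),
            ((M3 0).updateRow (Sum.inl ()) (∑ i ∈ s,
              (TrivSqZeroExt.inl (lam i) : DualNumber K) • R i)).det = 0 := by
          intro s
          induction s using Finset.induction_on with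
          | empty =>
            refine Matrix.det_eq_zero_of_row_eq_zero (Sum.inl ()) fun j => ?_
            simp
          | insert i s hi ih =>
            rw [Finset.sum_insert hi, Matrix.det_updateRow_add, ih, Matrix.det_updateRow_smul,
              ← h2, h1, mul_zero, add_zero]
        exact h5 _
      let v : Unit ⊕ {j // j ∉ B} → DualNumber K :=
        Sum.elim (fun _ => TrivSqZeroExt.inr 1) (fun _ => 1)
      let M2 : Matrix (Unit ⊕ {j // j ∉ B}) (Unit ⊕ {j // j ∉ B}) (DualNumber K) :=
        Matrix.of (Sum.elim (fun _ b => TrivSqZeroExt.inl (hh (col b))) (fun a => R (e a)))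
      have h3 : M3 (fun b => TrivSqZeroExt.inr (hh (col b))) =
          Matrix.of fun a b => v a * M2 a b := by
        refine Matrix.ext ?_
        rintro (a | a) b
        · simp only [M3, of_apply, Sum.elim_inl, v, M2]
          ext
          · simp
          · simp
        · simp only [M3, of_apply, Sum.elim_inr, v, M2, one_mul]
      have h2 := h1'
      rw [h3, Matrix.det_mul_column] at h2
      have h4 : ∏ i, v i = TrivSqZeroExt.inr 1 := by
        simp [v, Fintype.prod_sum_type]
      have h5 : TrivSqZeroExt.fst M2.det = 0 := by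
        have h6 := congrArg TrivSqZeroExt.snd h2
        rw [h4] at h6
        simpa using h6
      have h6 : (TrivSqZeroExt.fstHom K K K : DualNumber K →+* K) M2.det = 0 := h5
      rw [RingHom.map_det] at h6
      have h7 : (TrivSqZeroExt.fstHom K K K : DualNumber K →+* K).mapMatrix M2 =
          Matrix.fromBlocks (Matrix.of fun _ _ => hh j)
            (Matrix.of fun (_ : Unit) (b : {j // j ∉ B}) => hh b.1)
            (Matrix.of fun (a : {j // j ∉ B}) (_ : Unit) => jac k t m n q (e a) j) D0 := by
        refine Matrix.ext ?_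
        rintro (a | a) (b | b)
        · simp [M2, col]
        · simp [M2, col]
        · simp only [RingHom.mapMatrix_apply, map_apply, M2, R, of_apply, Sum.elim_inr,
            Matrix.fromBlocks_apply₂₁, hψ]
          simp [jac, col, q']
        · simp only [RingHom.mapMatrix_apply, map_apply, M2, R, of_apply, Sum.elim_inr,
            Matrix.fromBlocks_apply₂₂, hψ, D0]
          simp [jac, col, q']
      rw [h7] at h6
      have : Invertible D0 := Matrix.invertibleOfIsUnitDet D0 hD0
      rw [Matrix.det_fromBlocks₂₂] at h6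
      have h8 := (mul_eq_zero.1 h6).resolve_left he
      rw [Matrix.det_unique] at h8
      simp only [Matrix.sub_apply, of_apply, Matrix.mul_apply, Matrix.invOf_eq_nonsing_inv] at h8
      rw [← h8]
      rw [sub_eq_add_neg, ← Finset.sum_neg_distrib]
      congr 1
      refine Finset.sum_congr rfl fun a _ => ?_
      simp only [u, Pi.neg_apply, Matrix.vecMul, dotProduct, neg_mul]
    · have h1 : u ᵥ* D0 = -(fun j : {j // j ∉ B} => hh j.1) := by
        simp only [u, Matrix.neg_vecMul, Matrix.vecMul_vecMul]
        rw [Matrix.nonsing_inv_mul _ hD0, Matrix.vecMul_one]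
      have h2 := congrFun h1 ⟨j, hj⟩
      simp only [Matrix.vecMul, dotProduct, D0, of_apply, Pi.neg_apply] at h2
      rw [h2, add_neg_cancel]
  apply hf2
  have h1 : ∑ j, b' j * (hh j + ∑ a, u a * jac k t m n q (e a) j) = 0 :=
    Finset.sum_eq_zero fun j _ => by rw [key, mul_zero]
  simp only [mul_add, Finset.sum_add_distrib] at h1
  have h2 : ∑ j, b' j * ∑ a, u a * jac k t m n q (e a) j = 0 := by
    simp only [Finset.mul_sum]
    rw [Finset.sum_comm]
    refine Finset.sum_eq_zero fun a _ => ?_
    have h3 := hJb (e a)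
    rw [← mul_zero (u a), ← h3, Finset.mul_sum]
    exact Finset.sum_congr rfl fun j _ => by
      simp only [jac, of_apply, q']
      ring
  rw [h2, add_zero] at h1
  exact h1

end Pool.Agent.Helper86K9.HK.Cr

namespace Pool.Agent.Helper86K9.HK

universe u v

/-- Second order criterion with a point over an extension field. -/
theorem crit2K (k : Type u) (K : Type v) [Field k] [Field K] [Algebra k K] (t m n : ℕ)
    (ht : 2 ≤ t) (hm : t ≤ m) (hn : t ≤ n) (q : ℕ → K) (hq : Van t m n q)
    (B : Finset ℕ) (hB : B.card ≤ t)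
    (h : ∀ δ : ℕ → K, Tan t m n q δ → (∀ j ∈ B, δ j = 0) →
        ∀ j, 1 ≤ j → j ≤ m + n - 1 → δ j = 0) (a b : ℕ → K) (ha : Tan t m n q a)
    (hb : Tan t m n q b) (hab : ∀ w, ¬ Van t m n (pt2 q a b w)) :
    ¬ (hankelIdeal k t m n).IsPrime :=
  Cr.crit2' ht hm hn q hq (posFin (m + n - 1) B) ((card_posFin _ _).trans hB)
    (shrink q hq B h) a b ha hb hab

theorem crit2 : S_CRIT2.{u} := by
  intro k _ t m n ht hm hn q hq B hB h a b ha hb hab
  exact crit2K k k t m n ht hm hn q hq B hB h a b ha hb hab

end Pool.Agent.Helper86K9.HK
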