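import Pool.Agent.Helper86K9.HK.Alg

/-!
# [TAN] Tangent vectors, first and second order
-/

set_option autoImplicit false

namespace Pool.Agent.Helper86K9.HK

open Matrix Finset TrivSqZeroExt

universe u

namespace TanL

/-- The map of dual numbers induced by a ring homomorphism. -/
def dmap {k S : Type*} [CommRing k] [CommRing S] (f : k →+* S) : DualNumber k →+* DualNumber S where
  toFun x := inl (f x.fst) + inr (f x.snd)
  map_one' := by ext <;> simp
  map_mul' x y := by ext <;> simp
  map_zero' := by ext <;> simp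
  map_add' x y := by ext <;> simp

theorem dmap_apply {k S : Type*} [CommRing k] [CommRing S] (f : k →+* S) (a b : k) :
    dmap f (inl a + inr b : DualNumber k) = inl (f a) + inr (f b) := by
  ext <;> simp [dmap]

theorem mul_dual {S : Type*} [CommRing S] (a b c d : S) :
    (inl a + inr b : DualNumber S) * (inl c + inr d) = inl (a * c) + inr (a * d + b * c) := by
  ext <;> simp [mul_comm]

/-- A product of dual numbers. -/
theorem prod_dual {ι S : Type*} [DecidableEq ι] [CommRing S] (T : Finset ι) (a b : ι → S) :
    ∏ r ∈ T, (inl (a r) + inr (b r) : DualNumber S) =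
      inl (∏ r ∈ T, a r) + inr (∑ r ∈ T, b r * ∏ r' ∈ T.erase r, a r') := by
  induction T using Finset.induction_on with
  | empty => simp
  | insert r T hr ih =>
    rw [Finset.prod_insert hr, ih, mul_dual, Finset.prod_insert hr, Finset.sum_insert hr,
      Finset.erase_insert hr]
    have h1 : ∑ x ∈ T, b x * ∏ r' ∈ (insert r T).erase x, a r' =
        a r * ∑ x ∈ T, b x * ∏ r' ∈ T.erase x, a r' := by
      rw [Finset.mul_sum]
      apply Finset.sum_congr rfl
      intro x hx
      have hxr : x ≠ r := by
        rintro rfl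
        exact hr hx
      rw [Finset.erase_insert_of_ne hxr.symm, Finset.prod_insert (by
        intro h
        exact hr (Finset.mem_of_mem_erase h))]
      ring
    rw [h1, add_comm (a r * _)]

/-- The same in any ring with an element of square zero. -/
theorem prod_eps {ι S : Type*} [DecidableEq ι] [CommRing S] {e : S} (he : e * e = 0)
    (T : Finset ι) (a b : ι → S) :
    ∏ r ∈ T, (a r + e * b r) = ∏ r ∈ T, a r + e * ∑ r ∈ T, b r * ∏ r' ∈ T.erase r, a r' := by
  induction T using Finset.induction_on with
  | empty => simp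
  | insert r T hr ih =>
    rw [Finset.prod_insert hr, ih, Finset.prod_insert hr, Finset.sum_insert hr,
      Finset.erase_insert hr]
    have h1 : ∑ x ∈ T, b x * ∏ r' ∈ (insert r T).erase x, a r' =
        a r * ∑ x ∈ T, b x * ∏ r' ∈ T.erase x, a r' := by
      rw [Finset.mul_sum]
      apply Finset.sum_congr rfl
      intro x hx
      have hxr : x ≠ r := by
        rintro rfl
        exact hr hx
      rw [Finset.erase_insert_of_ne hxr.symm, Finset.prod_insert (by
        intro h
        exact hr (Finset.mem_of_mem_erase h))]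
      ring
    rw [h1]
    linear_combination (b r * ∑ x ∈ T, b x * ∏ r' ∈ T.erase x, a r') * he

/-- The rows over the dual numbers. -/
theorem row_dual {k S : Type*} [CommRing k] [CommRing S] (f : k →+* S) (n : ℕ) (q δ : ℕ → k)
    (x : ℕ → S) (r : ℕ) :
    @row (DualNumber k) (DualNumber S) _ _ (dmap f).toAlgebra n
      (fun j => (inl (q j) + inr (δ j) : DualNumber k)) (fun c => inl (x c)) r =
    inl (@row k S _ _ f.toAlgebra n q x r) + inr (@row k S _ _ f.toAlgebra n δ x r) := by
  let i1 := (dmap f).toAlgebra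
  let i2 := f.toAlgebra
  have h1 : ∀ c, (inl (q (r + c)) + inr (δ (r + c)) : DualNumber k) •
      (inl (x c) : DualNumber S) = inl (q (r + c) • x c) + inr (δ (r + c) • x c) := by
    intro c
    rw [Algebra.smul_def, Algebra.smul_def, Algebra.smul_def]
    change dmap f _ * _ = inl (f _ * _) + inr (f _ * _)
    rw [dmap_apply]
    ext <;> simp [mul_comm]
  unfold row
  simp only [h1]
  rw [Finset.sum_add_distrib]
  congr 1
  · rw [TrivSqZeroExt.inl_sum]
  · rw [TrivSqZeroExt.inr_sum]

theorem tan1_aux {k S : Type u} [CommRing k] [CommRing S] (f : k →+* S) (t m n : ℕ)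
    (q δ : ℕ → k) (h : Van t m n fun j => (inl (q j) + inr (δ j) : DualNumber k))
    (x : ℕ → S) (hx : ∀ c, x c * x c = 0) (T : Finset ℕ) (hT : T ⊆ Finset.range m)
    (hc : T.card = t) :
    ∏ r ∈ T, (inl (@row k S _ _ f.toAlgebra n q x r) +
      inr (@row k S _ _ f.toAlgebra n δ x r) : DualNumber S) = 0 := by
  let i1 := (dmap f).toAlgebra
  have h1 := alg1 (DualNumber k) (DualNumber S) t m n _ h (fun c => inl (x c))
    (fun c => by
      ext <;> simp [hx]) T hT hc
  rw [← h1]
  apply Finset.prod_congr rfl
  intro r _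
  exact (row_dual f n q δ x r).symm

end TanL

/-- [TAN1]. -/
theorem tan1 : S_TAN1.{u} := by
  intro k S _ _ alg t m n q δ h x hx T hT hc
  have halg : (algebraMap k S).toAlgebra = alg := by
    apply Algebra.algebra_ext
    intro r
    rfl
  have h1 := TanL.tan1_aux (algebraMap k S) t m n q δ h x hx T hT hc
  rw [halg, TanL.prod_dual] at h1
  have h2 := congrArg TrivSqZeroExt.snd h1
  simpa using h2

/-- [TAN3]. -/
theorem tan3 : S_TAN3.{u} := by
  intro k S _ _ alg t m n q a b w h x hx T hT hc
  have halg : (algebraMap k S).toAlgebra = alg := by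
    apply Algebra.algebra_ext
    intro r
    rfl
  have h0 := TanL.tan1_aux (TanL.dmap (algebraMap k S)) t m n
    (fun j => (inl (q j) + inr (a j) : DualNumber k))
    (fun j => (inl (b j) + inr (w j) : DualNumber k)) h (fun c => inl (x c))
    (fun c => by ext <;> simp [hx]) T hT hc
  have h1 : ∏ r ∈ T, (inl (inl (row n q x r) + inr (row n a x r) : DualNumber S) +
      inr (inl (row n b x r) + inr (row n w x r)) : DualNumber (DualNumber S)) = 0 := by
    rw [← h0]
    apply Finset.prod_congr rfl
    intro r _
    rw [TanL.row_dual, TanL.row_dual, halg]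
  rw [TanL.prod_dual] at h1
  have h2 := congrArg TrivSqZeroExt.snd h1
  have h3 : ∑ r ∈ T, (inl (row n b x r) + inr (row n w x r) : DualNumber S) *
      ∏ r' ∈ T.erase r, (inl (row n q x r') + inr (row n a x r')) = 0 := by
    simpa using h2
  have h4 : ∀ r ∈ T, (inl (row n b x r) + inr (row n w x r) : DualNumber S) *
      ∏ r' ∈ T.erase r, (inl (row n q x r') + inr (row n a x r')) =
      inl (row n b x r * ∏ r' ∈ T.erase r, row n q x r') +
      inr (row n b x r * (∑ r' ∈ T.erase r, row n a x r' *
        ∏ r'' ∈ (T.erase r).erase r', row n q x r'') +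
        row n w x r * ∏ r' ∈ T.erase r, row n q x r') := by
    intro r _
    rw [TanL.prod_dual, TanL.mul_dual]
  rw [Finset.sum_congr rfl h4, Finset.sum_add_distrib] at h3
  have h5 := congrArg TrivSqZeroExt.snd h3
  rw [TrivSqZeroExt.snd_add, TrivSqZeroExt.snd_sum, TrivSqZeroExt.snd_sum] at h5
  simp only [TrivSqZeroExt.snd_inl, TrivSqZeroExt.snd_inr, Finset.sum_const_zero, zero_add,
    TrivSqZeroExt.snd_zero] at h5
  rw [Finset.sum_add_distrib] at h5
  rw [← h5, add_comm]
  congr 1
  -- swap the two indices
  have h6 : ∑ r ∈ T, ∑ r' ∈ T.erase r, row n a x r * row n b x r' *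
      ∏ r'' ∈ (T.erase r).erase r', row n q x r'' =
      ∑ r' ∈ T, ∑ r ∈ T.erase r', row n a x r * row n b x r' *
      ∏ r'' ∈ (T.erase r).erase r', row n q x r'' := by
    apply Finset.sum_comm'
    intro r r'
    simp only [Finset.mem_erase]
    tauto
  rw [h6]
  apply Finset.sum_congr rfl
  intro r _
  rw [Finset.mul_sum]
  apply Finset.sum_congr rfl
  intro r' _
  rw [Finset.erase_right_comm]
  ring

namespace TanL

/-- The canonical map of universal algebras. -/
noncomputable def iot (k : Type*) [CommRing k] : Sq k →+* Sq (DualNumber k) :=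
  Ideal.Quotient.lift _
    ((Ideal.Quotient.mk _).comp (MvPolynomial.map (TrivSqZeroExt.inlHom k k)))
    (by
      intro p hp
      refine Submodule.span_induction (p := fun p _ =>
        ((Ideal.Quotient.mk (Ideal.span (Set.range fun c : ℕ =>
          (MvPolynomial.X c ^ 2 : MvPolynomial ℕ (DualNumber k))))).comp
            (MvPolynomial.map (TrivSqZeroExt.inlHom k k))) p = 0) ?_ ?_ ?_ ?_ hp
      · rintro _ ⟨c, rfl⟩
        rw [RingHom.comp_apply, map_pow, MvPolynomial.map_X, Ideal.Quotient.eq_zero_iff_mem]
        exact Ideal.subset_span ⟨c, rfl⟩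
      · exact map_zero _
      · intro x y _ _ h1 h2
        rw [map_add, h1, h2, add_zero]
      · intro a x _ h
        rw [smul_eq_mul, map_mul, h, mul_zero])

theorem iot_sqx (k : Type*) [CommRing k] (c : ℕ) : iot k (sqx k c) = sqx (DualNumber k) c := by
  rw [iot, sqx, Ideal.Quotient.lift_mk, RingHom.comp_apply, MvPolynomial.map_X]
  rfl

theorem iot_algebraMap (k : Type*) [CommRing k] (a : k) :
    iot k (algebraMap k (Sq k) a) = algebraMap (DualNumber k) (Sq (DualNumber k)) (inl a) := by
  have h : algebraMap k (Sq k) a = Ideal.Quotient.mk _ (MvPolynomial.C a) := rfl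
  rw [h, iot, Ideal.Quotient.lift_mk, RingHom.comp_apply, MvPolynomial.map_C]
  rfl

theorem row_iot {k : Type*} [CommRing k] (n : ℕ) (q δ : ℕ → k) (r : ℕ) :
    row n (fun j => (inl (q j) + inr (δ j) : DualNumber k)) (sqx (DualNumber k)) r =
      iot k (row n q (sqx k) r) +
        algebraMap (DualNumber k) (Sq (DualNumber k)) (inr 1) * iot k (row n δ (sqx k) r) := by
  unfold row
  rw [map_sum, map_sum, Finset.mul_sum, ← Finset.sum_add_distrib]
  apply Finset.sum_congr rfl
  intro c _
  have e1 : ∀ (a : k), a • sqx k c = algebraMap k (Sq k) a * sqx k c := fun a =>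
    Algebra.smul_def (R := k) (A := Sq k) _ _
  have e2 : ∀ (a : DualNumber k), a • sqx (DualNumber k) c =
      algebraMap (DualNumber k) (Sq (DualNumber k)) a * sqx (DualNumber k) c := fun a =>
    Algebra.smul_def (R := DualNumber k) (A := Sq (DualNumber k)) _ _
  rw [e1, e1, e2, map_mul, map_mul, iot_sqx, iot_algebraMap, iot_algebraMap, ← mul_assoc,
    ← map_mul, ← add_mul, ← map_add]
  congr 2
  ext <;> simp

end TanL

/-- [TAN2]. -/
theorem tan2 : S_TAN2.{u} := by
  intro k _ t m n q δ hV h
  obtain ⟨hsq, -⟩ := alg3 k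
  apply alg2 (DualNumber k)
  intro T hT hc
  rw [Finset.prod_congr rfl fun r _ => TanL.row_iot n q δ r, TanL.prod_eps, ← map_prod,
    alg1 k (Sq k) t m n q hV (sqx k) hsq T hT hc, map_zero, zero_add]
  · have h1 : ∑ r ∈ T, TanL.iot k (row n δ (sqx k) r) *
        ∏ r' ∈ T.erase r, TanL.iot k (row n q (sqx k) r') =
        TanL.iot k (∑ r ∈ T, row n δ (sqx k) r * ∏ r' ∈ T.erase r, row n q (sqx k) r') := by
      rw [map_sum]
      apply Finset.sum_congr rfl
      intro r _
      rw [map_mul, map_prod]
    rw [h1, h T hT hc, map_zero, mul_zero]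
  · rw [← map_mul]
    have : (inr 1 * inr 1 : DualNumber k) = 0 := by ext <;> simp
    rw [this, map_zero]

/-- [SHIFT]. -/
theorem shift : S_SHIFT.{u} := by
  intro k _ t m m' n i q δ him h r c
  let r' : Fin t ↪ Fin m := ⟨fun a => ⟨i + (r a).val, by have := (r a).isLt; omega⟩, by
    intro a b hab
    have := congrArg Fin.val hab
    simp only [] at this
    exact r.injective (Fin.ext (by omega))⟩
  have h1 := h r' c
  rw [← h1]
  congr 1
  ext a b
  all_goals
    simp only [hk, Matrix.submatrix_apply, Matrix.of_apply]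
    have : i + ((r a).val + ((c b).val + 1)) = (r' a).val + ((c b).val + 1) := by
      change i + ((r a).val + ((c b).val + 1)) = (i + (r a).val) + ((c b).val + 1)
      omega
    rw [this]

end Pool.Agent.Helper86K9.HK
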