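import Pool.Agent.Helper86K9.HK.Leaves

/-!
# [ALG] Products of rows in algebras with square zero elements
-/

set_option autoImplicit false

namespace Pool.Agent.Helper86K9.HK

open Matrix Finset

universe u

namespace Alg

/-- Expansion of a product of linear forms in square zero elements. -/
theorem expand {A S : Type*} [CommRing A] [CommRing S] [Algebra A S] {t n : ℕ}
    (M : Matrix (Fin t) (Fin n) A) (x : Fin n → S) (hx : ∀ c, x c * x c = 0) :
    ∏ i, ∑ j, M i j • x j = ∑ C ∈ (univ : Finset (Fin n)).powersetCard t,
      (if h : C.card = t then (M.submatrix id (C.orderEmbOfFin h)).permanent else 0) •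
        ∏ j ∈ C, x j := by
  classical
  rw [Finset.prod_univ_sum, Fintype.piFinset_univ]
  have h1 : ∑ f : Fin t → Fin n, ∏ i, M i (f i) • x (f i) =
      ∑ f ∈ univ.filter (fun f : Fin t → Fin n => Function.Injective f),
        ∏ i, M i (f i) • x (f i) := by
    symm
    apply Finset.sum_subset (Finset.filter_subset _ _)
    intro f _ hf
    rw [Finset.mem_filter, not_and] at hf
    have hf := hf (Finset.mem_univ _)
    rw [Function.Injective] at hf
    push Not at hf
    obtain ⟨a, b, hab, hne⟩ := hf
    rw [Finset.prod_smul]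
    have : ∏ i, x (f i) = 0 := by
      rw [← Finset.mul_prod_erase univ _ (Finset.mem_univ a),
        ← Finset.mul_prod_erase (univ.erase a) _ (Finset.mem_erase.2 ⟨hne.symm, Finset.mem_univ b⟩),
        ← mul_assoc, ← hab, hx, zero_mul]
    rw [this, smul_zero]
  rw [h1, ← Finset.sum_fiberwise_of_maps_to (g := fun f : Fin t → Fin n => univ.image f)
    (t := (univ : Finset (Fin n)).powersetCard t)]
  · apply Finset.sum_congr rfl
    intro C hC
    have hCt : C.card = t := (Finset.mem_powersetCard.1 hC).2
    rw [dif_pos hCt, ← Matrix.permanent_transpose, Matrix.permanent, Finset.sum_smul]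
    symm
    refine Finset.sum_bij (fun σ _ => fun i => C.orderEmbOfFin hCt (σ i)) ?_ ?_ ?_ ?_
    · intro σ _
      rw [Finset.mem_filter, Finset.mem_filter]
      refine ⟨⟨Finset.mem_univ _, ?_⟩, ?_⟩
      · exact (C.orderEmbOfFin hCt).injective.comp σ.injective
      · have h2 : univ.image (fun i => C.orderEmbOfFin hCt (σ i)) =
            univ.image (C.orderEmbOfFin hCt) := by
          ext j
          simp only [Finset.mem_image, Finset.mem_univ, true_and]
          constructor
          · rintro ⟨i, rfl⟩
            exact ⟨σ i, rfl⟩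
          · rintro ⟨i, rfl⟩
            exact ⟨σ.symm i, by simp⟩
        rw [h2]
        ext j
        rw [Finset.mem_image]
        constructor
        · rintro ⟨i, _, rfl⟩
          exact C.orderEmbOfFin_mem hCt i
        · intro hj
          have := Finset.range_orderEmbOfFin C hCt
          have hj' : j ∈ Set.range (C.orderEmbOfFin hCt) := by rw [this]; exact hj
          obtain ⟨i, hi⟩ := hj'
          exact ⟨i, Finset.mem_univ _, hi⟩
    · intro σ _ τ _ h
      ext i
      have := congrFun h i
      exact congrArg Fin.val ((C.orderEmbOfFin hCt).injective this)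
    · intro f hf
      rw [Finset.mem_filter, Finset.mem_filter] at hf
      obtain ⟨⟨_, hinj⟩, him⟩ := hf
      have hr := Finset.range_orderEmbOfFin C hCt
      have hex : ∀ i, ∃ j, C.orderEmbOfFin hCt j = f i := by
        intro i
        have : f i ∈ (C : Set (Fin n)) := by
          rw [← him]
          simp
        rw [← hr] at this
        exact this
      choose g hg using hex
      have hgi : Function.Injective g := by
        intro a b hab
        apply hinj
        rw [← hg a, ← hg b, hab]
      refine ⟨Equiv.ofBijective g (Finite.injective_iff_bijective.1 hgi), Finset.mem_univ _, ?_⟩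
      funext i
      simp only [Equiv.ofBijective_apply]
      exact hg i
    · intro σ _
      rw [Finset.prod_smul]
      congr 1
      have h3 : ∏ i, x (C.orderEmbOfFin hCt (σ i)) = ∏ i, x (C.orderEmbOfFin hCt i) :=
        Equiv.prod_comp σ (fun i => x (C.orderEmbOfFin hCt i))
      rw [h3]
      symm
      refine Finset.prod_bij (fun i _ => C.orderEmbOfFin hCt i) ?_ ?_ ?_ ?_
      · intro i _
        exact C.orderEmbOfFin_mem hCt i
      · intro i _ j _ h
        exact (C.orderEmbOfFin hCt).injective h
      · intro j hj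
        have hr := Finset.range_orderEmbOfFin C hCt
        have : j ∈ Set.range (C.orderEmbOfFin hCt) := by rw [hr]; exact hj
        obtain ⟨i, hi⟩ := this
        exact ⟨i, Finset.mem_univ _, hi⟩
      · intro i _
        rfl
  · intro f hf
    rw [Finset.mem_filter] at hf
    rw [Finset.mem_powersetCard]
    refine ⟨Finset.subset_univ _, ?_⟩
    rw [Finset.card_image_of_injective _ hf.2, Finset.card_univ, Fintype.card_fin]

/-- A row is a sum over `Fin n`. -/
theorem row_fin {A S : Type*} [CommRing A] [CommRing S] [Algebra A S] (n : ℕ) (z : ℕ → A)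
    (x : ℕ → S) (r : ℕ) :
    row n z x r = ∑ j : Fin n, z (r + (j.val + 1)) • x (j.val + 1) := by
  rw [row, ← Finset.sum_range (fun j => z (r + (j + 1)) • x (j + 1))]
  symm
  refine Finset.sum_bij (fun j _ => j + 1) ?_ ?_ ?_ ?_
  · intro j hj
    rw [Finset.mem_range] at hj
    rw [Finset.mem_Icc]
    omega
  · intro a _ b _ h
    simpa using h
  · intro b hb
    rw [Finset.mem_Icc] at hb
    exact ⟨b - 1, Finset.mem_range.2 (by omega), by omega⟩
  · intro j _
    rfl

/-- The product of the rows over a set of rows in terms of permanents. -/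
theorem prod_rows {A S : Type*} [CommRing A] [CommRing S] [Algebra A S] {t m n : ℕ} (z : ℕ → A)
    (x : ℕ → S) (hx : ∀ c, x c * x c = 0) (r : Fin t ↪ Fin m) :
    ∏ i, row n z x (r i).val = ∑ C ∈ (univ : Finset (Fin n)).powersetCard t,
      (if h : C.card = t then
        ((hk m n z).submatrix r (C.orderEmbOfFin h).toEmbedding).permanent else 0) •
        ∏ j ∈ C, x (j.val + 1) := by
  have := expand (A := A) (S := S) (t := t) (n := n) ((hk m n z).submatrix r id)
    (fun j => x (j.val + 1)) (fun c => hx _)
  rw [← show ∏ i, ∑ j, ((hk m n z).submatrix r id) i j • x (j.val + 1) =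
    ∏ i, row n z x (r i).val from ?_]
  · rw [this]
    apply Finset.sum_congr rfl
    intro C _
    rfl
  · apply Finset.prod_congr rfl
    intro i _
    rw [row_fin]
    rfl

theorem card_rows {m t : ℕ} {T : Finset ℕ} (hT : T ⊆ Finset.range m) (hc : T.card = t) :
    ∃ r : Fin t ↪ Fin m, ∀ {S : Type*} [CommRing S] (g : ℕ → S),
      ∏ a ∈ T, g a = ∏ i, g (r i).val := by
  have hlt : ∀ i, T.orderEmbOfFin hc i < m := fun i =>
    Finset.mem_range.1 (hT (T.orderEmbOfFin_mem hc i))
  refine ⟨⟨fun i => ⟨T.orderEmbOfFin hc i, hlt i⟩, ?_⟩, ?_⟩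
  · intro a b h
    have := congrArg Fin.val h
    exact (T.orderEmbOfFin hc).injective this
  · intro S _ g
    symm
    refine Finset.prod_bij (fun i _ => T.orderEmbOfFin hc i) ?_ ?_ ?_ ?_
    · intro i _
      exact T.orderEmbOfFin_mem hc i
    · intro a _ b _ h
      exact (T.orderEmbOfFin hc).injective h
    · intro j hj
      have hr := Finset.range_orderEmbOfFin T hc
      have : j ∈ Set.range (T.orderEmbOfFin hc) := by rw [hr]; exact hj
      obtain ⟨i, hi⟩ := this
      exact ⟨i, Finset.mem_univ _, hi⟩
    · intro i _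
      rfl

/-- Elements of the ideal of squares have no square free monomials. -/
theorem coeff_eq_zero {A : Type*} [CommRing A] {p : MvPolynomial ℕ A}
    (hp : p ∈ Ideal.span (Set.range fun c : ℕ => (MvPolynomial.X c ^ 2 : MvPolynomial ℕ A)))
    (s : ℕ →₀ ℕ) (hs : ∀ c, s c ≤ 1) : p.coeff s = 0 := by
  by_contra h
  have hset : (Set.range fun c : ℕ => (MvPolynomial.X c ^ 2 : MvPolynomial ℕ A)) =
      (fun s : ℕ →₀ ℕ => MvPolynomial.monomial s (1 : A)) ''
        (Set.range fun c : ℕ => Finsupp.single c 2) := by
    ext q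
    constructor
    · rintro ⟨c, rfl⟩
      exact ⟨_, ⟨c, rfl⟩, by simp [MvPolynomial.X_pow_eq_monomial]⟩
    · rintro ⟨_, ⟨c, rfl⟩, rfl⟩
      exact ⟨c, by simp [MvPolynomial.X_pow_eq_monomial]⟩
  rw [hset, MvPolynomial.mem_ideal_span_monomial_image] at hp
  obtain ⟨si, ⟨c, rfl⟩, hle⟩ := hp s (MvPolynomial.mem_support_iff.2 h)
  have := hle c
  simp only [Finsupp.single_eq_same] at this
  have := hs c
  omega

end Alg

/-- [ALG1]. -/
theorem alg1 : S_ALG1.{u} := by
  intro A S _ _ _ t m n z hV x hx T hT hc
  obtain ⟨r, hr⟩ := Alg.card_rows hT hc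
  rw [hr (fun a => row n z x a), Alg.prod_rows z x hx r]
  apply Finset.sum_eq_zero
  intro C hC
  rw [dif_pos (Finset.mem_powersetCard.1 hC).2, hV, zero_smul]

/-- [ALG3]. -/
theorem alg3 : S_ALG3.{u} := by
  intro A _
  refine ⟨?_, ?_⟩
  · intro c
    rw [sqx, ← map_mul, Ideal.Quotient.eq_zero_iff_mem, ← pow_two]
    exact Ideal.subset_span ⟨c, rfl⟩
  · intro a C h
    have h1 : algebraMap A (Sq A) a = Ideal.Quotient.mk _ (MvPolynomial.C a) := rfl
    rw [h1] at h
    simp only [sqx] at h
    rw [← map_prod, ← map_mul, Ideal.Quotient.eq_zero_iff_mem] at h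
    have h2 := Alg.coeff_eq_zero h (∑ c ∈ C, Finsupp.single c 1) (by
      intro c
      rw [Finsupp.finsetSum_apply]
      by_cases hc : c ∈ C
      · rw [Finset.sum_eq_single_of_mem c hc]
        · simp
        · intro b _ hb
          rw [Finsupp.single_apply, if_neg hb]
      · rw [Finset.sum_eq_zero]
        · omega
        · intro b hb
          rw [Finsupp.single_apply, if_neg]
          rintro rfl
          exact hc hb)
    have h3 : (∏ c ∈ C, MvPolynomial.X c : MvPolynomial ℕ A) =
        MvPolynomial.monomial (∑ c ∈ C, Finsupp.single c 1) 1 := by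
      rw [MvPolynomial.monomial_sum_one]
      rfl
    rw [h3, MvPolynomial.coeff_C_mul, MvPolynomial.coeff_monomial, if_pos rfl, mul_one] at h2
    exact h2

/-- [ALG2]. -/
theorem alg2 : S_ALG2.{u} := by
  classical
  intro A _ t m n z h r c
  obtain ⟨hsq, hind⟩ := alg3 A
  set C0 : Finset (Fin n) := univ.image c with hC0
  have hcard : C0.card = t := by
    rw [hC0, Finset.card_image_of_injective _ c.injective, Finset.card_univ, Fintype.card_fin]
  -- the product over the rows
  have hT := h (univ.image fun i => (r i).val) (by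
    intro a ha
    obtain ⟨i, _, rfl⟩ := Finset.mem_image.1 ha
    exact Finset.mem_range.2 (r i).isLt) (by
    rw [Finset.card_image_of_injective, Finset.card_univ, Fintype.card_fin]
    intro a b hab
    exact r.injective (Fin.ext hab))
  rw [Finset.prod_image (by
    intro a _ b _ hab
    exact r.injective (Fin.ext hab)), Alg.prod_rows z (sqx A) hsq r] at hT
  -- multiply by the complement
  have h4 : (∑ C ∈ (univ : Finset (Fin n)).powersetCard t,
      (if h : C.card = t then
        ((hk m n z).submatrix r (C.orderEmbOfFin h).toEmbedding).permanent else 0) •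
        ∏ j ∈ C, sqx A (j.val + 1)) * ∏ j ∈ C0ᶜ, sqx A (j.val + 1) = 0 := by
    rw [hT, zero_mul]
  rw [Finset.sum_mul, Finset.sum_eq_single_of_mem C0
    (Finset.mem_powersetCard.2 ⟨Finset.subset_univ _, hcard⟩)] at h4
  · rw [dif_pos hcard, smul_mul_assoc, Finset.prod_mul_prod_compl] at h4
    replace h4 := (Algebra.smul_def (R := A) (A := Sq A) _ _).symm.trans h4
    have h5 := hind _ (univ.image fun j : Fin n => j.val + 1) (by
      rw [Finset.prod_image (by
        intro a _ b _ hab
        exact Fin.ext (by simpa using hab))]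
      exact h4)
    -- reorder the columns
    have hr' := Finset.range_orderEmbOfFin C0 hcard
    have hex : ∀ i, ∃ j, C0.orderEmbOfFin hcard j = c i := by
      intro i
      have : c i ∈ (C0 : Set (Fin n)) := by
        rw [hC0]
        simp
      rw [← hr'] at this
      exact this
    choose g hg using hex
    have hgi : Function.Injective g := by
      intro a b hab
      apply c.injective
      rw [← hg a, ← hg b, hab]
    let σ : Equiv.Perm (Fin t) := Equiv.ofBijective g (Finite.injective_iff_bijective.1 hgi)
    have h6 : (hk m n z).submatrix r c =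
        ((hk m n z).submatrix r (C0.orderEmbOfFin hcard).toEmbedding).submatrix id σ := by
      ext i j
      simp only [Matrix.submatrix_apply, id]
      congr 1
      exact (hg j).symm
    rw [h6, Matrix.permanent_permute_rows]
    exact h5
  · intro C hC hne
    have hCt : C.card = t := (Finset.mem_powersetCard.1 hC).2
    have : ∃ j ∈ C, j ∉ C0 := by
      by_contra hcon
      push Not at hcon
      exact hne (Finset.eq_of_subset_of_card_le hcon (by rw [hCt, hcard]))
    obtain ⟨j, hj, hj0⟩ := this
    rw [smul_mul_assoc, ← Finset.mul_prod_erase C _ hj,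
      ← Finset.mul_prod_erase C0ᶜ _ (Finset.mem_compl.2 hj0)]
    have : sqx A (j.val + 1) * (∏ x ∈ C.erase j, sqx A (x.val + 1)) *
        (sqx A (j.val + 1) * ∏ x ∈ C0ᶜ.erase j, sqx A (x.val + 1)) =
        (sqx A (j.val + 1) * sqx A (j.val + 1)) * ((∏ x ∈ C.erase j, sqx A (x.val + 1)) *
          ∏ x ∈ C0ᶜ.erase j, sqx A (x.val + 1)) := by ring
    rw [this, hsq, zero_mul, smul_zero]

end Pool.Agent.Helper86K9.HK
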