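import Mathlib

/-!
Products of linear forms in elements of square zero: paths and cycles.
-/

set_option autoImplicit false

namespace Pool.Agent.Helper86K9.HK

open Finset

section prods

variable {M : Type*} [CommMonoid M]

lemma prod_range_mul' (f : ℕ → M) (p x : ℕ) :
    ∏ r ∈ range (p * x), f r = ∏ i ∈ range p, ∏ k ∈ range x, f (i * x + k) := by
  induction p with
  | zero => simp
  | succ p ih =>
    rw [Nat.succ_mul, prod_range_add, ih, prod_range_succ]

lemma prod_rows (f : ℕ → M) (p : ℕ) {x y : ℕ} (hx : 1 ≤ x) (hy : 1 ≤ y) :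
    ∏ r ∈ range (p * x + y + 1), f r =
      (∏ i ∈ range p, f (i * x)) * f (p * x) * f (p * x + y) *
        ((∏ k ∈ Ico 1 x, ∏ i ∈ range p, f (i * x + k)) * ∏ k ∈ Ico 1 y, f (p * x + k)) := by
  rw [prod_range_succ, prod_range_add, prod_range_mul',
    prod_range_eq_mul_Ico (fun k => f (p * x + k)) (by omega : 0 < y)]
  have : ∀ i ∈ range p, ∏ k ∈ range x, f (i * x + k) =
      f (i * x) * ∏ k ∈ Ico 1 x, f (i * x + k) := by
    intro i _
    rw [prod_range_eq_mul_Ico _ (by omega), add_zero]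
  rw [prod_congr rfl this, prod_mul_distrib, prod_comm, add_zero]
  simp only [mul_assoc, mul_left_comm, mul_comm]

end prods

section paths

variable {S : Type*} [CommRing S]

lemma path (u : ℕ → S) (hu : ∀ j, u j * u j = 0) (p i : ℕ) (hi : i ≤ p) :
    u i * ∏ j ∈ range p, (u j + u (j + 1)) = ∏ j ∈ range (p + 1), u j := by
  induction p generalizing i with
  | zero =>
    obtain rfl : i = 0 := by omega
    simp
  | succ p ih =>
    rw [prod_range_succ]
    rcases Nat.lt_or_ge p i with h | h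
    · obtain rfl : i = p + 1 := by omega
      have h1 := ih p le_rfl
      rw [prod_range_succ _ (p + 1), ← h1]
      linear_combination (∏ j ∈ range p, (u j + u (j + 1))) * hu (p + 1)
    · rw [← mul_assoc, ih i h, prod_range_succ _ (p + 1), mul_add, prod_range_succ]
      linear_combination (∏ j ∈ range p, u j) * hu p

/-- a path whose last vertex is missing -/
lemma path0 (u : ℕ → S) (hu : ∀ j, u j * u j = 0) (p : ℕ) (h0 : u p = 0) :
    ∏ j ∈ range p, (u j + u (j + 1)) = ∏ j ∈ range p, u j := by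
  cases p with
  | zero => simp
  | succ p =>
    rw [prod_range_succ, h0, add_zero, mul_comm, path u hu p p le_rfl]

variable (u : ℕ → S) (hu : ∀ j, u j * u j = 0) (w : S) (hw : w * w = 0) (p : ℕ)

include hu hw

/-- the product of the rows of the block is zero -/
lemma cyc0 : (∏ j ∈ range p, (u j + u (j + 1))) * (u p + w) * (u 0 - w) = 0 := by
  have h1 := path u hu p p le_rfl
  have h2 := path u hu p 0 (Nat.zero_le _)
  have h3 : (∏ j ∈ range (p + 1), u j) * u 0 = 0 := by
    rw [prod_range_succ', mul_assoc, hu, mul_zero]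
  linear_combination (u 0 - w) * h1 + w * h2 + h3 -
    (∏ j ∈ range p, (u j + u (j + 1))) * hw

/-- omit the row `p` -/
lemma cyc1 : (u p - w) * ((∏ j ∈ range p, (u j + u (j + 1))) * (u 0 - w)) =
    - 2 * ((∏ j ∈ range (p + 1), u j) * w) := by
  have h1 := path u hu p p le_rfl
  have h2 := path u hu p 0 (Nat.zero_le _)
  have h3 : (∏ j ∈ range (p + 1), u j) * u 0 = 0 := by
    rw [prod_range_succ', mul_assoc, hu, mul_zero]
  linear_combination (u 0 - w) * h1 - w * h2 + h3 +
    (∏ j ∈ range p, (u j + u (j + 1))) * hw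

/-- omit the last row -/
lemma cyc2 : (u 0 + w) * ((∏ j ∈ range p, (u j + u (j + 1))) * (u p + w)) =
    2 * ((∏ j ∈ range (p + 1), u j) * w) := by
  have h1 := path u hu p p le_rfl
  have h2 := path u hu p 0 (Nat.zero_le _)
  have h3 : (∏ j ∈ range (p + 1), u j) * u p = 0 := by
    rw [prod_range_succ, mul_assoc, hu, mul_zero]
  linear_combination (u p + w) * h2 + w * h1 + h3 +
    (∏ j ∈ range p, (u j + u (j + 1))) * hw

/-- omit the row `i < p` -/
lemma cyc3 (i : ℕ) (hi : i < p) (f : ℕ → S) (hf : ∀ j ∈ range p, j ≠ i → f j = u j + u (j + 1))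
    (hfi : f i = 1) :
    (u i - u (i + 1)) * ((∏ j ∈ range p, f j) * (u p + w) * (u 0 - w)) =
    - 2 * ((∏ j ∈ range (p + 1), u j) * w) := by
  -- split the path at `i`
  obtain ⟨m, rfl⟩ : ∃ m, p = i + (1 + m) := ⟨p - i - 1, by omega⟩
  have e1 : ∏ j ∈ range (i + (1 + m)), f j =
      (∏ j ∈ range i, (u j + u (j + 1))) * ∏ j ∈ range m, (u (i + 1 + j) + u (i + 1 + (j + 1))) := by
    rw [prod_range_add, prod_range_add]
    congr 1
    · refine prod_congr rfl fun j hj => hf j ?_ ?_
      · simp only [mem_range] at hj ⊢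
        omega
      · simp only [mem_range] at hj
        omega
    · rw [prod_range_one, add_zero, hfi, one_mul]
      refine prod_congr rfl fun j hj => ?_
      rw [hf (i + (1 + j)) (by simp only [mem_range] at hj ⊢; omega) (by omega)]
      rw [show i + (1 + j) = i + 1 + j by ring]
      rfl
  have e2 : ∏ j ∈ range (i + (1 + m) + 1), u j =
      (∏ j ∈ range (i + 1), u j) * ∏ j ∈ range (m + 1), u (i + 1 + j) := by
    rw [← prod_range_add]
    congr 2
    ring
  have a1 := path u hu i i le_rfl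
  have a2 := path u hu i 0 (Nat.zero_le _)
  have b1 := path (fun j => u (i + 1 + j)) (fun j => hu _) m m le_rfl
  have b2 := path (fun j => u (i + 1 + j)) (fun j => hu _) m 0 (Nat.zero_le _)
  simp only [add_zero] at b2
  have e3 : i + (1 + m) = i + 1 + m := by ring
  rw [e1, e2, e3]
  set P1 := ∏ j ∈ range i, (u j + u (j + 1))
  set P2 := ∏ j ∈ range m, (u (i + 1 + j) + u (i + 1 + (j + 1)))
  set Q1 := ∏ j ∈ range (i + 1), u j with hQ1
  set Q2 := ∏ j ∈ range (m + 1), u (i + 1 + j) with hQ2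
  have c1 : Q1 * u 0 = 0 := by rw [hQ1, prod_range_succ', mul_assoc, hu, mul_zero]
  have c2 : Q2 * u (i + 1 + m) = 0 := by rw [hQ2, prod_range_succ, mul_assoc, hu, mul_zero]
  -- u i P1 = Q1, u 0 P1 = Q1, u (i+1+m) P2 = Q2, u (i+1) P2 = Q2
  linear_combination (P2 * (u (i + 1 + m) + w) * (u 0 - w)) * a1 -
    (P1 * (u (i + 1 + m) + w) * (u 0 - w)) * b2 + P2 * (u (i + 1 + m) + w) * c1 -
    Q1 * w * b1 - Q1 * P2 * hw - P1 * (u 0 - w) * c2 - Q2 * w * a2 + Q2 * P1 * hw

end paths

end Pool.Agent.Helper86K9.HK
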