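import Pool.Agent.Helper86K9.HK.Leaves
import Pool.Agent.Helper86K9.HK.Cyc

/-!
The rows of the Hankel matrix of the point `pt p x y A`.
-/

set_option autoImplicit false

namespace Pool.Agent.Helper86K9.HK

open Finset

universe u

/-- `xx` extended by zero to all integers -/
def bz {S : Type*} [Zero S] (n : ℕ) (xx : ℕ → S) (c : ℤ) : S :=
  if 1 ≤ c ∧ c ≤ n then xx c.toNat else 0

section

variable {k S : Type u} [Field k] [CommRing S] [Algebra k S] (n : ℕ) (xx : ℕ → S)

lemma bz_sq (hxx : ∀ c, xx c * xx c = 0) (c : ℤ) : bz n xx c * bz n xx c = 0 := by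
  unfold bz
  split_ifs
  · exact hxx _
  · simp

lemma bz_zero {c : ℤ} (h : ¬ (1 ≤ c ∧ c ≤ n)) : bz n xx c = 0 := if_neg h

lemma bz_nat {c : ℕ} (h1 : 1 ≤ c) (h2 : c ≤ n) : bz n xx (c : ℤ) = xx c := by
  unfold bz
  rw [if_pos ⟨by omega, by omega⟩, Int.toNat_natCast]

lemma sum_single (r : ℕ) (z : ℤ) :
    ∑ c ∈ Icc 1 n, (if ((r + c : ℕ) : ℤ) = z then (1 : k) else 0) • xx c =
      bz n xx (z - r) := by
  by_cases h : 1 ≤ z - r ∧ z - r ≤ n
  · rw [sum_eq_single (z - r).toNat]
    · rw [if_pos (by omega), one_smul, bz, if_pos h]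
    · intro c _ hc
      rw [if_neg (by omega), zero_smul]
    · intro hc
      exact absurd (mem_Icc.2 ⟨by omega, by omega⟩) hc
  · rw [bz_zero n xx h]
    refine sum_eq_zero fun c hc => ?_
    rw [mem_Icc] at hc
    rw [if_neg (by omega), zero_smul]

lemma pt_eq (p x y A : ℕ) (hx : 1 ≤ x) (hy : 1 ≤ y) (j : ℕ) :
    (pt p x y A j : k) =
      (if (j : ℤ) = (if 1 ≤ p then (A : ℤ) + p * x - x else -1) then (1 : k) else 0) +
      (if (j : ℤ) = A + p * x then 1 else 0) +
      (if (j : ℤ) = A + p * x + (p * x + y) then 1 else 0) -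
      (if (j : ℤ) = A + p * x + (p * x + y) + y then 1 else 0) := by
  unfold pt
  have e1 : ((p * x : ℕ) : ℤ) = p * x := by push_cast; ring
  generalize hX : p * x = X at *
  rw [← e1]
  split_ifs <;> first | (exfalso; omega) | simp

/-- row `r` of the point -/
lemma row_pt (p x y A : ℕ) (hx : 1 ≤ x) (hy : 1 ≤ y) (r : ℕ) :
    row n (pt p x y A : ℕ → k) xx r =
      (if 1 ≤ p then bz n xx (A + p * x - x - r) else 0) + bz n xx (A + p * x - r) +
        bz n xx (A + p * x + (p * x + y) - r) - bz n xx (A + p * x + (p * x + y) + y - r) := by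
  unfold row
  simp only [pt_eq p x y A hx hy, add_smul, sub_smul, sum_add_distrib, sum_sub_distrib,
    sum_single]
  congr 3
  split_ifs
  · rfl
  · exact bz_zero _ _ (by omega)

end

end Pool.Agent.Helper86K9.HK
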