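import Pool.Agent.Helper86K9.HK.Crit2
import Pool.Agent.Helper86K9.HK.Rows
import Pool.Agent.Helper86K9.HK.Tan

/-!
# [C2] The case `m = t`, `n = 2t - 2`
-/

set_option autoImplicit false

namespace Pool.Agent.Helper86K9.HK

open Finset

universe u

namespace C2L

/-- The point. -/
def q2 (k : Type*) [CommRing k] (X j : ℕ) : k :=
  if j = X ∨ j = 2 * X then 1 else if j = 3 * X then -1 else 0

/-- The tangent vectors. -/
def u2 (k : Type*) [CommRing k] (X c j : ℕ) : k :=
  if j = c ∨ j = c + 2 * X then 1 else if j = c + X then -1 else 0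

section rows

variable {k S : Type u} [Field k] [CommRing S] [Algebra k S] (X : ℕ) (hX : 2 ≤ X) (x : ℕ → S)

include hX

theorem q2_eq (j : ℕ) : (q2 k X j : k) = (if (j : ℤ) = X then 1 else 0) +
    (if (j : ℤ) = 2 * X then 1 else 0) - (if (j : ℤ) = 3 * X then 1 else 0) := by
  unfold q2
  split_ifs <;> first | (exfalso; omega) | simp

theorem u2_eq (c j : ℕ) : (u2 k X c j : k) = (if (j : ℤ) = c then 1 else 0) -
    (if (j : ℤ) = c + X then 1 else 0) + (if (j : ℤ) = c + 2 * X then 1 else 0) := by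
  unfold u2
  split_ifs <;> first | (exfalso; omega) | simp

theorem row_q2 (r : ℕ) : row (2 * X) (q2 k X) x r = bz (2 * X) x ((X : ℤ) - r) +
    bz (2 * X) x (2 * (X : ℤ) - r) - bz (2 * X) x (3 * (X : ℤ) - r) := by
  unfold row
  simp only [q2_eq X hX, add_smul, sub_smul, sum_add_distrib, sum_sub_distrib, sum_single]

theorem row_u2 (c r : ℕ) : row (2 * X) (u2 k X c) x r = bz (2 * X) x ((c : ℤ) - r) -
    bz (2 * X) x ((c : ℤ) + X - r) + bz (2 * X) x ((c : ℤ) + 2 * (X : ℤ) - r) := by
  unfold row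
  simp only [u2_eq X hX, add_smul, sub_smul, sum_add_distrib, sum_sub_distrib, sum_single]

omit hX in
theorem bz_nat' {n : ℕ} {c : ℤ} (d : ℕ) (h : c = d) (h1 : 1 ≤ d) (h2 : d ≤ n) :
    bz n x c = x d := by
  subst h
  exact bz_nat n x h1 h2

theorem L0 : row (2 * X) (q2 k X) x 0 = x X + x (2 * X) := by
  rw [row_q2 X hX, bz_nat' x X (by simp) (by omega) (by omega),
    bz_nat' x (2 * X) (by push_cast; ring) (by omega) (by omega),
    bz_zero _ _ (by push_cast; omega), sub_zero]

theorem LX : row (2 * X) (q2 k X) x X = x X - x (2 * X) := by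
  rw [row_q2 X hX, bz_zero _ _ (by push_cast; omega),
    bz_nat' x X (by ring) (by omega) (by omega),
    bz_nat' x (2 * X) (by push_cast; ring) (by omega) (by omega), zero_add]

theorem LI (r : ℕ) (h1 : 1 ≤ r) (h2 : r < X) : row (2 * X) (q2 k X) x r =
    x (X - r) + x (2 * X - r) := by
  rw [row_q2 X hX, bz_nat' x (X - r) (by omega) (by omega) (by omega),
    bz_nat' x (2 * X - r) (by omega) (by omega) (by omega),
    bz_zero _ _ (by push_cast; omega), sub_zero]

/-- The product of the rows outside of the block. -/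
theorem prodI : ∏ r ∈ Ico 1 X, row (2 * X) (q2 k X) x r =
    ∏ i ∈ Ico 1 X, (x i + x (X + i)) := by
  refine prod_bij (fun r _ => X - r) ?_ ?_ ?_ ?_
  · intro r hr
    rw [mem_Ico] at hr ⊢
    omega
  · intro r hr r' hr' h
    rw [mem_Ico] at hr hr'
    omega
  · intro i hi
    rw [mem_Ico] at hi
    exact ⟨X - i, by rw [mem_Ico]; omega, by omega⟩
  · intro r hr
    rw [mem_Ico] at hr
    rw [LI X hX x r hr.1 hr.2]
    congr 2
    omega

theorem U0 (c : ℕ) (h1 : 1 ≤ c) (h2 : c < X) : row (2 * X) (u2 k X c) x 0 = x c - x (X + c) := by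
  rw [row_u2 X hX, bz_nat' x c (by simp) (by omega) (by omega),
    bz_nat' x (X + c) (by push_cast; ring) (by omega) (by omega),
    bz_zero _ _ (by omega), add_zero]

theorem UX (c : ℕ) (h1 : 1 ≤ c) (h2 : c < X) : row (2 * X) (u2 k X c) x X =
    - x c + x (X + c) := by
  rw [row_u2 X hX, bz_zero _ _ (by push_cast; omega),
    bz_nat' x c (by ring) (by omega) (by omega),
    bz_nat' x (X + c) (by push_cast; ring) (by omega) (by omega)]
  ring

theorem U1 : row (2 * X) (u2 k X 1) x 1 = - x X + x (2 * X) := by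
  rw [row_u2 X hX, bz_zero _ _ (c := ((1 : ℕ) : ℤ) - ((1 : ℕ) : ℤ)) (by omega),
    bz_nat' x X (by push_cast; ring) (by omega) (by omega),
    bz_nat' x (2 * X) (by push_cast; ring) (by omega) (by omega)]
  ring

theorem U1' (h3 : 3 ≤ X) : row (2 * X) (u2 k X (X - 1)) x 1 = x (X - 2) - x (2 * X - 2) := by
  rw [row_u2 X hX, bz_nat' x (X - 2) (by omega) (by omega) (by omega),
    bz_nat' x (2 * X - 2) (by omega) (by omega) (by omega),
    bz_zero _ _ (by omega)]
  ring

end rows

section sums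

variable {S : Type*} [CommRing S]

theorem prod_two {L : ℕ → S} {a b : ℕ} (hab : a ≠ b) (h : L a * L b = 0) {U : Finset ℕ}
    (ha : a ∈ U) (hb : b ∈ U) : ∏ r ∈ U, L r = 0 := by
  rw [← mul_prod_erase U L ha, ← mul_prod_erase (U.erase a) L (mem_erase.2 ⟨hab.symm, hb⟩),
    ← mul_assoc, h, zero_mul]

/-- The first order sum. -/
theorem sum1 (X : ℕ) (hX : 2 ≤ X) (L D : ℕ → S) (h : L 0 * L X = 0) :
    ∑ r ∈ range (X + 1), D r * ∏ r' ∈ (range (X + 1)).erase r, L r' =
      (D 0 * L X + D X * L 0) * ∏ r ∈ Ico 1 X, L r := by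
  rw [sum_eq_add 0 X (by omega) ?_ (by simp) (by simp)]
  · have e1 : (range (X + 1)).erase 0 = insert X (Ico 1 X) := by
      ext r
      simp only [mem_erase, mem_range, mem_insert, mem_Ico]
      omega
    have e2 : (range (X + 1)).erase X = insert 0 (Ico 1 X) := by
      ext r
      simp only [mem_erase, mem_range, mem_insert, mem_Ico]
      omega
    rw [e1, e2, prod_insert (by simp), prod_insert (by simp)]
    ring
  · intro r hr hr2
    rw [prod_two (a := 0) (b := X) (by omega) h, mul_zero]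
    · simp only [mem_erase, mem_range]
      omega
    · simp only [mem_erase, mem_range]
      omega

/-- The second order sum. -/
theorem sum2 (X : ℕ) (hX : 2 ≤ X) (L A B : ℕ → S) (h : L 0 * L X = 0) (h1 : L 1 = 0) :
    ∑ r ∈ range (X + 1), ∑ r' ∈ (range (X + 1)).erase r, A r * B r' *
      ∏ r'' ∈ ((range (X + 1)).erase r).erase r', L r'' =
      (A 0 * B 1 * L X + A X * B 1 * L 0 + A 1 * B 0 * L X + A 1 * B X * L 0) *
        ∏ r ∈ Ico 2 X, L r := by
  have z1 : ∀ r r', r ≠ 1 → r' ≠ 1 →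
      ∏ r'' ∈ ((range (X + 1)).erase r).erase r', L r'' = 0 := by
    intro r r' hr hr'
    refine prod_eq_zero (i := 1) ?_ h1
    simp only [mem_erase, mem_range]
    omega
  have z2 : ∀ r r', r ≠ 0 → r ≠ X → r' ≠ 0 → r' ≠ X →
      ∏ r'' ∈ ((range (X + 1)).erase r).erase r', L r'' = 0 := by
    intro r r' h1 h2 h3 h4
    refine prod_two (a := 0) (b := X) (by omega) h ?_ ?_
    · simp only [mem_erase, mem_range]
      omega
    · simp only [mem_erase, mem_range]
      omega
  have hT : range (X + 1) = insert 0 (insert X (insert 1 (Ico 2 X))) := by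
    ext r
    simp only [mem_range, mem_insert, mem_Ico]
    omega
  have e1 : ((range (X + 1)).erase 0).erase 1 = insert X (Ico 2 X) := by
    ext r
    simp only [mem_erase, mem_range, mem_insert, mem_Ico]
    omega
  have e2 : ((range (X + 1)).erase X).erase 1 = insert 0 (Ico 2 X) := by
    ext r
    simp only [mem_erase, mem_range, mem_insert, mem_Ico]
    omega
  have e1' : ((range (X + 1)).erase 1).erase 0 = insert X (Ico 2 X) := by
    ext r
    simp only [mem_erase, mem_range, mem_insert, mem_Ico]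
    omega
  have e2' : ((range (X + 1)).erase 1).erase X = insert 0 (Ico 2 X) := by
    ext r
    simp only [mem_erase, mem_range, mem_insert, mem_Ico]
    omega
  have p1 : ∏ r ∈ insert X (Ico 2 X), L r = L X * ∏ r ∈ Ico 2 X, L r := prod_insert (by simp)
  have p2 : ∏ r ∈ insert 0 (Ico 2 X), L r = L 0 * ∏ r ∈ Ico 2 X, L r := prod_insert (by simp)
  have f0 : ∑ r' ∈ (range (X + 1)).erase 0, A 0 * B r' *
      ∏ r'' ∈ ((range (X + 1)).erase 0).erase r', L r'' =
      A 0 * B 1 * (L X * ∏ r ∈ Ico 2 X, L r) := by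
    rw [sum_eq_single 1, e1, p1]
    · intro r' _ hr'
      rw [z1 0 r' (by omega) hr', mul_zero]
    · intro hh
      exact absurd (by simp only [mem_erase, mem_range]; omega) hh
  have fX : ∑ r' ∈ (range (X + 1)).erase X, A X * B r' *
      ∏ r'' ∈ ((range (X + 1)).erase X).erase r', L r'' =
      A X * B 1 * (L 0 * ∏ r ∈ Ico 2 X, L r) := by
    rw [sum_eq_single 1, e2, p2]
    · intro r' _ hr'
      rw [z1 X r' (by omega) hr', mul_zero]
    · intro hh
      exact absurd (by simp only [mem_erase, mem_range]; omega) hh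
  have f1 : ∑ r' ∈ (range (X + 1)).erase 1, A 1 * B r' *
      ∏ r'' ∈ ((range (X + 1)).erase 1).erase r', L r'' =
      A 1 * B 0 * (L X * ∏ r ∈ Ico 2 X, L r) + A 1 * B X * (L 0 * ∏ r ∈ Ico 2 X, L r) := by
    rw [sum_eq_add 0 X (by omega), e1', e2', p1, p2]
    · intro r' _ hr'
      rw [z2 1 r' (by omega) (by omega) hr'.1 hr'.2, mul_zero]
    · intro hh
      exact absurd (by simp only [mem_erase, mem_range]; omega) hh
    · intro hh
      exact absurd (by simp only [mem_erase, mem_range]; omega) hh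
  have fI : ∑ r ∈ Ico 2 X, ∑ r' ∈ (range (X + 1)).erase r, A r * B r' *
      ∏ r'' ∈ ((range (X + 1)).erase r).erase r', L r'' = 0 := by
    refine sum_eq_zero fun r hr => sum_eq_zero fun r' hr' => ?_
    rw [mem_Ico] at hr
    by_cases h' : r' = 1
    · rw [z2 r r' (by omega) (by omega) (by omega) (by omega), mul_zero]
    · rw [z1 r r' (by omega) h', mul_zero]
  have hs : ∀ g : ℕ → S, ∑ r ∈ range (X + 1), g r =
      g 0 + (g X + (g 1 + ∑ r ∈ Ico 2 X, g r)) := by
    intro g
    rw [hT, sum_insert (by simp; omega), sum_insert (by simp; omega), sum_insert (by simp)]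
  rw [hs, f0, fX, f1, fI]
  ring

end sums

/-- The point lies on the variety. -/
theorem van2 (k : Type u) [Field k] (X : ℕ) (hX : 2 ≤ X) :
    Van (X + 1) (X + 1) (2 * X) (q2 k X) := by
  obtain ⟨hsq, -⟩ := alg3 k
  apply alg2 k
  intro T hT hc
  have hT' : T = range (X + 1) := eq_of_subset_of_card_le hT (by rw [card_range, hc])
  rw [hT']
  refine prod_two (a := 0) (b := X) (by omega) ?_ (by simp) (by simp)
  rw [L0 X hX, LX X hX]
  linear_combination hsq X - hsq (2 * X)

/-- The tangent vectors. -/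
theorem tanu (k : Type u) [Field k] (X : ℕ) (hX : 2 ≤ X) (c : ℕ) (h1 : 1 ≤ c) (h2 : c < X) :
    Tan (X + 1) (X + 1) (2 * X) (q2 k X) (u2 k X c) := by
  obtain ⟨hsq, -⟩ := alg3 k
  refine tan2 k _ _ _ _ _ (van2 k X hX) fun T hT hc => ?_
  have hT' : T = range (X + 1) := eq_of_subset_of_card_le hT (by rw [card_range, hc])
  subst hT'
  have h0 : row (2 * X) (q2 k X) (sqx k) 0 * row (2 * X) (q2 k X) (sqx k) X = 0 := by
    rw [L0 X hX, LX X hX]
    linear_combination hsq X - hsq (2 * X)
  rw [sum1 X hX _ _ h0, prodI X hX, ← mul_prod_erase (Ico 1 X) _ (mem_Ico.2 ⟨h1, h2⟩),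
    U0 X hX _ c h1 h2, UX X hX _ c h1 h2, L0 X hX, LX X hX]
  linear_combination (-2 * sqx k (2 * X) * ∏ x ∈ (Ico 1 X).erase c, (sqx k x + sqx k (X + x))) *
    (hsq c - hsq (X + c))

/-- Multiplying a linear form. -/
theorem mul_form {k : Type u} [Field k] {S : Type u} [CommRing S] [Algebra k S] (E : S) (n : ℕ)
    (l : ℕ → k) (r : ℕ) (x : ℕ → S) (J : Finset ℕ) (hJ : J ⊆ Icc 1 n)
    (h : ∀ c ∈ Icc 1 n, c ∉ J → E * x c = 0) :
    E * row n l x r = E * ∑ c ∈ J, algebraMap k S (l (r + c)) * x c := by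
  unfold row
  rw [mul_sum, mul_sum]
  symm
  have h1 : ∀ c, E * (algebraMap k S (l (r + c)) * x c) = E * l (r + c) • x c := by
    intro c
    rw [Algebra.smul_def]
  rw [sum_congr rfl fun c _ => h1 c]
  apply sum_subset hJ
  intro c hc hcJ
  rw [mul_smul_comm, h c hc hcJ, smul_zero]

/-- The substitution for the first two relations. -/
noncomputable def xs (k : Type u) [Field k] (X c0 : ℕ) (s : k) (c : ℕ) : Sq k :=
  if c = 2 * X then algebraMap k (Sq k) s * sqx k X
  else if X < c ∧ c < 2 * X ∧ c ≠ X + c0 then 0 else sqx k c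

theorem xs_sq (k : Type u) [Field k] (X c0 : ℕ) (s : k) (c : ℕ) :
    xs k X c0 s c * xs k X c0 s c = 0 := by
  obtain ⟨hsq, -⟩ := alg3 k
  unfold xs
  split_ifs
  · linear_combination (algebraMap k (Sq k) s) ^ 2 * hsq X
  · simp
  · exact hsq c

theorem lin (k : Type u) [Field k] (X : ℕ) (hX : 2 ≤ X) (c0 : ℕ) (h1 : 1 ≤ c0) (h2 : c0 < X)
    (s : k) (l : ℕ → k) (r : ℕ)
    (h : (sqx k X * ∏ i ∈ Ico 1 X, (xs k X c0 s i + xs k X c0 s (X + i))) *
      row (2 * X) l (xs k X c0 s) r = 0) : l (r + c0) + l (r + (X + c0)) = 0 := by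
  classical
  obtain ⟨hsq, hind⟩ := alg3 k
  have x1 : ∀ c, c ≤ X → xs k X c0 s c = sqx k c := by
    intro c hc
    unfold xs
    rw [if_neg (by omega), if_neg (by omega)]
  have x2 : xs k X c0 s (X + c0) = sqx k (X + c0) := by
    unfold xs
    rw [if_neg (by omega), if_neg (by omega)]
  have x3 : ∀ i, 1 ≤ i → i < X → i ≠ c0 → xs k X c0 s (X + i) = 0 := by
    intro i hi hi' hne
    unfold xs
    rw [if_neg (by omega), if_pos (by omega)]
  have x4 : xs k X c0 s (2 * X) = algebraMap k (Sq k) s * sqx k X := by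
    unfold xs
    rw [if_pos rfl]
  have hP : ∏ i ∈ Ico 1 X, (xs k X c0 s i + xs k X c0 s (X + i)) =
      (sqx k c0 + sqx k (X + c0)) * ∏ i ∈ (Ico 1 X).erase c0, sqx k i := by
    rw [← mul_prod_erase (Ico 1 X) _ (mem_Ico.2 ⟨h1, h2⟩), x1 c0 (by omega), x2]
    congr 1
    refine prod_congr rfl fun i hi => ?_
    rw [mem_erase, mem_Ico] at hi
    rw [x1 i (by omega), x3 i (by omega) (by omega) (by omega), add_zero]
  rw [hP, mul_form _ _ _ _ _ {c0, X + c0}] at h
  · rw [sum_pair (by omega), x1 c0 (by omega), x2] at h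
    have h3 : algebraMap k (Sq k) (l (r + c0) + l (r + (X + c0))) *
        ∏ c ∈ insert (X + c0) (insert X (insert c0 ((Ico 1 X).erase c0))), sqx k c = 0 := by
      rw [prod_insert, prod_insert, prod_insert, map_add]
      · linear_combination h - (sqx k X * (∏ i ∈ (Ico 1 X).erase c0, sqx k i) *
          algebraMap k (Sq k) (l (r + c0))) * hsq c0 - (sqx k X *
          (∏ i ∈ (Ico 1 X).erase c0, sqx k i) * algebraMap k (Sq k) (l (r + (X + c0)))) *
            hsq (X + c0)
      · simp
      · simp only [mem_insert, mem_erase, mem_Ico]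
        omega
      · simp only [mem_insert, mem_erase, mem_Ico]
        omega
    exact hind _ _ h3
  · intro c hc
    rw [mem_insert, mem_singleton] at hc
    rw [mem_Icc]
    omega
  · intro c hc hcJ
    rw [mem_insert, mem_singleton] at hcJ
    rw [mem_Icc] at hc
    rcases Nat.lt_trichotomy c X with hcX | rfl | hcX
    · rw [x1 c (by omega), ← mul_prod_erase ((Ico 1 X).erase c0) _ (mem_erase.2
        ⟨(by omega : c ≠ c0), mem_Ico.2 ⟨hc.1, hcX⟩⟩)]
      linear_combination (sqx k X * (sqx k c0 + sqx k (X + c0)) *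
        ∏ x ∈ ((Ico 1 X).erase c0).erase c, sqx k x) * hsq c
    · rw [x1 c le_rfl]
      linear_combination ((sqx k c0 + sqx k (c + c0)) *
        ∏ x ∈ (Ico 1 c).erase c0, sqx k x) * hsq c
    · rcases Nat.lt_or_ge c (2 * X) with hc2 | hc2
      · obtain ⟨i, rfl⟩ : ∃ i, c = X + i := ⟨c - X, by omega⟩
        rw [x3 i (by omega) (by omega) (by omega), mul_zero]
      · obtain rfl : c = 2 * X := by omega
        rw [x4]
        linear_combination (algebraMap k (Sq k) s * (sqx k c0 + sqx k (X + c0)) *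
          ∏ x ∈ (Ico 1 X).erase c0, sqx k x) * hsq X

/-- The relations for tangent vectors. -/
theorem relu (k : Type u) [Field k] (h2 : (2 : k) ≠ 0) (X : ℕ) (hX : 2 ≤ X) (δ : ℕ → k)
    (hδ : Tan (X + 1) (X + 1) (2 * X) (q2 k X) δ) :
    (∀ c, 1 ≤ c → c < X → δ c + δ (X + c) = 0 ∧ δ (X + c) + δ (2 * X + c) = 0) ∧
      -δ X + 2 * δ (2 * X) + δ (3 * X) = 0 := by
  classical
  obtain ⟨hsq, hind⟩ := alg3 k
  have two : ∀ z : Sq k, (2 : Sq k) * z = 0 → z = 0 := by
    intro z hz
    have : algebraMap k (Sq k) 2⁻¹ * (2 * z) = z := by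
      rw [← mul_assoc, ← map_ofNat (algebraMap k (Sq k)) 2, ← map_mul, inv_mul_cancel₀ h2,
        map_one, one_mul]
    rw [← this, hz, mul_zero]
  have key : ∀ x : ℕ → Sq k, (∀ c, x c * x c = 0) →
      (row (2 * X) δ x 0 * (x X - x (2 * X)) + row (2 * X) δ x X * (x X + x (2 * X))) *
        ∏ i ∈ Ico 1 X, (x i + x (X + i)) = 0 := by
    intro x hx
    have h := tan1 k (Sq k) _ _ _ _ _ hδ x hx (range (X + 1)) subset_rfl (card_range _)
    have h0 : row (2 * X) (q2 k X) x 0 * row (2 * X) (q2 k X) x X = 0 := by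
      rw [L0 X hX, LX X hX]
      linear_combination hx X - hx (2 * X)
    rwa [sum1 X hX _ _ h0, prodI X hX, L0 X hX, LX X hX] at h
  refine ⟨fun c h1 h3 => ⟨?_, ?_⟩, ?_⟩
  · have h := key (xs k X c (-1)) (xs_sq k X c (-1))
    have e1 : xs k X c (-1) X = sqx k X := by
      unfold xs
      rw [if_neg (by omega), if_neg (by omega)]
    have e2 : xs k X c (-1) (2 * X) = - sqx k X := by
      unfold xs
      rw [if_pos rfl, map_neg, map_one]
      ring
    rw [e1, e2] at h
    have h4 := lin k X hX c h1 h3 (-1) δ 0 (two _ (by linear_combination h))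
    simpa using h4
  · have h := key (xs k X c 1) (xs_sq k X c 1)
    have e1 : xs k X c 1 X = sqx k X := by
      unfold xs
      rw [if_neg (by omega), if_neg (by omega)]
    have e2 : xs k X c 1 (2 * X) = sqx k X := by
      unfold xs
      rw [if_pos rfl, map_one, one_mul]
    rw [e1, e2] at h
    have h4 := lin k X hX c h1 h3 1 δ X (two _ (by linear_combination h))
    rw [show 2 * X + c = X + (X + c) by ring]
    exact h4
  · let x : ℕ → Sq k := fun c => if X < c ∧ c < 2 * X then 0 else sqx k c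
    have hx : ∀ c, x c * x c = 0 := by
      intro c
      simp only [x]
      split_ifs
      · simp
      · exact hsq c
    have x1 : ∀ c, c ≤ X → x c = sqx k c := by
      intro c hc
      simp only [x]
      rw [if_neg (by omega)]
    have x2 : x (2 * X) = sqx k (2 * X) := by
      simp only [x]
      rw [if_neg (by omega)]
    have x3 : ∀ c, X < c → c < 2 * X → x c = 0 := by
      intro c hc hc'
      simp only [x]
      rw [if_pos ⟨hc, hc'⟩]
    have hP : ∏ i ∈ Ico 1 X, (x i + x (X + i)) = ∏ i ∈ Ico 1 X, sqx k i := by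
      refine prod_congr rfl fun i hi => ?_
      rw [mem_Ico] at hi
      rw [x1 i (by omega), x3 (X + i) (by omega) (by omega), add_zero]
    have h := key x hx
    rw [hP, x1 X le_rfl, x2] at h
    have hm : ∀ r : ℕ, (∏ i ∈ Ico 1 X, sqx k i) * row (2 * X) δ x r =
        (∏ i ∈ Ico 1 X, sqx k i) * (algebraMap k (Sq k) (δ (r + X)) * sqx k X +
          algebraMap k (Sq k) (δ (r + 2 * X)) * sqx k (2 * X)) := by
      intro r
      rw [mul_form _ _ _ _ _ {X, 2 * X}, sum_pair (by omega), x1 X le_rfl, x2]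
      · intro c hc
        rw [mem_insert, mem_singleton] at hc
        rw [mem_Icc]
        omega
      · intro c hc hcJ
        rw [mem_insert, mem_singleton] at hcJ
        rw [mem_Icc] at hc
        rcases Nat.lt_or_ge c X with hcX | hcX
        · rw [x1 c (by omega), ← mul_prod_erase (Ico 1 X) _ (mem_Ico.2 ⟨hc.1, hcX⟩)]
          linear_combination (∏ x ∈ (Ico 1 X).erase c, sqx k x) * hsq c
        · rw [x3 c (by omega) (by omega), mul_zero]
    have h5 : algebraMap k (Sq k) (-δ X + 2 * δ (2 * X) + δ (3 * X)) *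
        ∏ c ∈ insert (2 * X) (insert X (Ico 1 X)), sqx k c = 0 := by
      rw [prod_insert, prod_insert]
      · have m0 := hm 0
        have mX := hm X
        simp only [zero_add] at m0
        rw [show X + X = 2 * X by ring, show X + 2 * X = 3 * X by ring] at mX
        rw [map_add, map_add, map_neg, map_mul, map_ofNat]
        linear_combination h - (sqx k X - sqx k (2 * X)) * m0 - (sqx k X + sqx k (2 * X)) * mX -
          (∏ i ∈ Ico 1 X, sqx k i) * (algebraMap k (Sq k) (δ X) +
            algebraMap k (Sq k) (δ (2 * X))) * hsq X +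
          (∏ i ∈ Ico 1 X, sqx k i) * (algebraMap k (Sq k) (δ (2 * X)) -
            algebraMap k (Sq k) (δ (3 * X))) * hsq (2 * X)
      · simp
      · simp only [mem_insert, mem_Ico]
        omega
    exact hind _ _ h5

/-- The substitution for the second order. -/
noncomputable def ys (k : Type u) [Field k] (X c : ℕ) : Sq k :=
  if c = 2 * X - 1 then - sqx k (X - 1) else sqx k c

theorem no_w (k : Type u) [Field k] (h2 : (2 : k) ≠ 0) (X : ℕ) (hX : 2 ≤ X) (w : ℕ → k) :
    ¬ Van (X + 1) (X + 1) (2 * X) (pt2 (q2 k X) (u2 k X 1) (u2 k X (X - 1)) w) := by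
  classical
  intro hv
  obtain ⟨hsq, hind⟩ := alg3 k
  have hys : ∀ c, ys k X c * ys k X c = 0 := by
    intro c
    unfold ys
    split_ifs
    · linear_combination hsq (X - 1)
    · exact hsq c
  have y1 : ∀ c, c ≠ 2 * X - 1 → ys k X c = sqx k c := by
    intro c hc
    unfold ys
    rw [if_neg hc]
  have y2 : ys k X (2 * X - 1) = - sqx k (X - 1) := by
    unfold ys
    rw [if_pos rfl]
  have h := tan3 k (Sq k) _ _ _ _ _ _ _ hv (ys k X) hys (range (X + 1)) subset_rfl
    (card_range _)
  have e0X : row (2 * X) (q2 k X) (ys k X) 0 * row (2 * X) (q2 k X) (ys k X) X = 0 := by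
    rw [L0 X hX, LX X hX]
    linear_combination hys X - hys (2 * X)
  have e1 : row (2 * X) (q2 k X) (ys k X) 1 = 0 := by
    rw [LI X hX _ 1 le_rfl (by omega), y1 (X - 1) (by omega), y2]
    ring
  rw [sum1 X hX _ _ e0X, sum2 X hX _ _ _ e0X e1, prod_eq_zero (i := 1) (by simp; omega) e1,
    mul_zero, zero_add, L0 X hX, LX X hX, U1 X hX, U0 X hX _ (X - 1) (by omega) (by omega),
    UX X hX _ (X - 1) (by omega) (by omega), U0 X hX _ 1 (by omega) (by omega),
    UX X hX _ 1 (by omega) (by omega), y1 X (by omega), y1 (2 * X) (by omega),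
    y1 (X - 1) (by omega), show X + (X - 1) = 2 * X - 1 by omega, y2] at h
  rcases Nat.lt_or_ge X 3 with h3 | h3
  · obtain rfl : X = 2 := by omega
    have e3 : ys k 2 (2 + 1) = - sqx k 1 := y2
    have e4 : row (2 * 2) (u2 k 2 (2 - 1)) (ys k 2) 1 = - sqx k 2 + sqx k 4 := by
      have := U1 (k := k) 2 hX (ys k 2)
      rw [y1 2 (by omega), y1 (2 * 2) (by omega)] at this
      exact this
    rw [e3, e4, y1 1 (by omega)] at h
    simp only [Ico_self, prod_empty] at h
    norm_num at h
    have h5 : algebraMap k (Sq k) 8 * ∏ c ∈ ({1, 2, 4} : Finset ℕ), sqx k c = 0 := by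
      rw [prod_insert (by decide), prod_pair (by decide), map_ofNat]
      linear_combination h + 8 * sqx k 1 * hsq 4
    have h6 := hind _ _ h5
    have h7 : (2 : k) ^ 3 = 0 := by
      rw [← h6]
      norm_num
    exact h2 (pow_eq_zero_iff (by norm_num) |>.1 h7)
  · rw [U1' X hX _ h3, y1 (X - 2) (by omega), y1 (2 * X - 2) (by omega)] at h
    have hG : ∏ r ∈ Ico 2 X, row (2 * X) (q2 k X) (ys k X) r =
        ∏ i ∈ Ico 1 (X - 1), (sqx k i + sqx k (X + i)) := by
      refine prod_bij (fun r _ => X - r) ?_ ?_ ?_ ?_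
      · intro r hr
        rw [mem_Ico] at hr ⊢
        omega
      · intro r hr r' hr' h
        rw [mem_Ico] at hr hr'
        omega
      · intro i hi
        rw [mem_Ico] at hi
        exact ⟨X - i, by rw [mem_Ico]; omega, by omega⟩
      · intro r hr
        rw [mem_Ico] at hr
        rw [LI X hX _ r (by omega) hr.2, y1 (X - r) (by omega), y1 (2 * X - r) (by omega),
          show 2 * X - r = X + (X - r) by omega]
    rw [hG] at h
    have hB : (sqx k (X - 2) - sqx k (2 * X - 2)) *
        ∏ i ∈ Ico 1 (X - 1), (sqx k i + sqx k (X + i)) = 0 := by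
      rw [← mul_prod_erase (Ico 1 (X - 1)) _ (mem_Ico.2
        ⟨(by omega : 1 ≤ X - 2), by omega⟩), show X + (X - 2) = 2 * X - 2 by omega]
      linear_combination (∏ x ∈ (Ico 1 (X - 1)).erase (X - 2), (sqx k x + sqx k (X + x))) *
        (hsq (X - 2) - hsq (2 * X - 2))
    have h5 : algebraMap k (Sq k) 4 *
        ∏ c ∈ insert (2 * X) (insert X (insert (X - 1) (Ico 1 (X - 1) ∪
          (Ico 1 (X - 1)).image fun i => X + i))), sqx k c = 0 := by
      rw [prod_insert, prod_insert, prod_insert, prod_union, prod_image, ← prod_mul_distrib,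
        map_ofNat]
      · have hQ : (∏ i ∈ Ico 1 (X - 1), sqx k i) *
            ∏ i ∈ Ico 1 (X - 1), (sqx k i + sqx k (X + i)) =
            ∏ i ∈ Ico 1 (X - 1), sqx k i * sqx k (X + i) := by
          rw [← prod_mul_distrib]
          refine prod_congr rfl fun i _ => ?_
          linear_combination hsq i
        linear_combination (∏ i ∈ Ico 1 (X - 1), sqx k i) * h - (4 * sqx k (2 * X) * sqx k X *
          sqx k (X - 1)) * hQ + (2 * sqx k (2 * X) * (∏ i ∈ Ico 1 (X - 1), sqx k i) *
          (ys k X 1 - ys k X (X + 1))) * hB + (4 * sqx k (X - 1) *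
          (∏ i ∈ Ico 1 (X - 1), sqx k i) *
          (∏ i ∈ Ico 1 (X - 1), (sqx k i + sqx k (X + i)))) * hsq (2 * X)
      · intro a _ b _ hab
        simpa using hab
      · rw [disjoint_left]
        intro a ha hb
        rw [mem_Ico] at ha
        rw [mem_image] at hb
        obtain ⟨i, hi, rfl⟩ := hb
        omega
      · simp only [mem_union, mem_Ico, mem_image, not_or, not_exists, not_and]
        refine ⟨by omega, fun i hi => by omega⟩
      · simp only [mem_insert, mem_union, mem_Ico, mem_image, not_or, not_exists, not_and]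
        refine ⟨by omega, by omega, fun i hi => by omega⟩
      · simp only [mem_insert, mem_union, mem_Ico, mem_image, not_or, not_exists, not_and]
        refine ⟨by omega, by omega, by omega, fun i hi => by omega⟩
    have h6 := hind _ _ h5
    have h7 : (2 : k) ^ 2 = 0 := by
      rw [← h6]
      norm_num
    exact h2 (pow_eq_zero_iff (by norm_num) |>.1 h7)

end C2L

theorem c2 (k : Type u) [Field k] (h2 : (2 : k) ≠ 0) (X : ℕ) (hX : 2 ≤ X) :
    ¬ (hankelIdeal k (X + 1) (X + 1) (2 * X)).IsPrime := by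
  refine crit2 k (X + 1) (X + 1) (2 * X) (by omega) le_rfl (by omega) (C2L.q2 k X)
    (C2L.van2 k X hX) (insert (2 * X) (Icc 1 X)) ?_ ?_ (C2L.u2 k X 1) (C2L.u2 k X (X - 1))
    (C2L.tanu k X hX 1 le_rfl (by omega)) (C2L.tanu k X hX (X - 1) (by omega) (by omega))
    (C2L.no_w k h2 X hX)
  · refine (card_insert_le _ _).trans ?_
    rw [Nat.card_Icc]
    omega
  · intro δ hδ hB j h1 hj
    obtain ⟨r1, r3⟩ := C2L.relu k h2 X hX δ hδ
    have b1 : ∀ c, 1 ≤ c → c ≤ X → δ c = 0 := fun c h1 h2 =>
      hB c (mem_insert_of_mem (mem_Icc.2 ⟨h1, h2⟩))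
    have b2 : δ (2 * X) = 0 := hB _ (mem_insert_self _ _)
    have b3 : ∀ c, 1 ≤ c → c < X → δ (X + c) = 0 := by
      intro c h1 h2
      have := (r1 c h1 h2).1
      rwa [b1 c h1 (by omega), zero_add] at this
    have b4 : ∀ c, 1 ≤ c → c < X → δ (2 * X + c) = 0 := by
      intro c h1 h2
      have := (r1 c h1 h2).2
      rwa [b3 c h1 (by omega), zero_add] at this
    have b5 : δ (3 * X) = 0 := by
      rw [b1 X (by omega) le_rfl, b2] at r3
      simpa using r3
    rcases Nat.lt_or_ge X j with hj1 | hj1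
    · rcases Nat.lt_trichotomy j (2 * X) with hj2 | rfl | hj2
      · obtain ⟨i, rfl⟩ : ∃ i, j = X + i := ⟨j - X, by omega⟩
        exact b3 i (by omega) (by omega)
      · exact b2
      · rcases Nat.lt_or_ge j (3 * X) with hj3 | hj3
        · obtain ⟨i, rfl⟩ : ∃ i, j = 2 * X + i := ⟨j - 2 * X, by omega⟩
          exact b4 i (by omega) (by omega)
        · obtain rfl : j = 3 * X := by omega
          exact b5
    · exact b1 j h1 hj1

/-- The form used in the assembly. -/
theorem c2' : ∀ (k : Type u) [Field k], (2 : k) ≠ 0 → ∀ t : ℕ, 3 ≤ t →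
    ¬ (hankelIdeal k t t (2 * t - 2)).IsPrime := by
  intro k _ h2 t ht
  obtain ⟨X, rfl⟩ : ∃ X, t = X + 1 := ⟨t - 1, by omega⟩
  have := c2 k h2 X (by omega)
  rwa [show 2 * X = 2 * (X + 1) - 2 by omega] at this

end Pool.Agent.Helper86K9.HK
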