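import Pool.Agent.Helper86K9.HK.Crit0

/-!
# First order criterion for non-primality
-/

set_option autoImplicit false

namespace Pool.Agent.Helper86K9.HK

universe u v

/-- Positions in `{1, …, N}` as elements of `Fin N`. -/
def posFin (N : ℕ) (B : Finset ℕ) : Finset (Fin N) := Finset.univ.filter fun i => i.val + 1 ∈ B

lemma card_posFin (N : ℕ) (B : Finset ℕ) : (posFin N B).card ≤ B.card := by
  refine Finset.card_le_card_of_injOn (fun i => i.val + 1) (fun i hi => ?_) (fun i _ j _ h => ?_)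
  · simpa [posFin] using hi
  · exact Fin.ext (by simpa using h)

/-- Coordinates outside `1, …, N` do not matter. -/
lemma shrink {K : Type v} [Field K] {t m n : ℕ} (q : ℕ → K) (hq : Van t m n q) (B : Finset ℕ)
    (h : ∀ δ : ℕ → K, Tan t m n q δ → (∀ j ∈ B, δ j = 0) →
        ∀ j, 1 ≤ j → j ≤ m + n - 1 → δ j = 0) (δ : ℕ → K) (hδ : Tan t m n q δ)
    (hδB : ∀ j ∈ posFin (m + n - 1) B, δ (j.val + 1) = 0) :
    ∀ j, 1 ≤ j → j ≤ m + n - 1 → δ j = 0 := by
  let δ' : ℕ → K := Cr.ext0 (m + n - 1) (Cr.res (m + n - 1) δ)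
  have hr : Cr.res (m + n - 1) δ' = Cr.res (m + n - 1) δ := by
    funext i
    exact Cr.ext0_succ _ _ _
  have h1 : Tan t m n q δ' := by
    rw [Cr.tan_iff K _ _ hq, hr, ← Cr.tan_iff K _ _ hq]
    exact hδ
  have h2 := h δ' h1 (fun j hj => by
    by_cases hj1 : 1 ≤ j ∧ j - 1 < m + n - 1
    · have h3 := hδB ⟨j - 1, hj1.2⟩ (by
        simp only [posFin, Finset.mem_filter, Finset.mem_univ, true_and]
        rwa [Nat.sub_add_cancel hj1.1])
      simp only [δ', Cr.ext0, dif_pos hj1, Cr.res]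
      exact h3
    · simp only [δ', Cr.ext0, dif_neg hj1])
  intro j hj1 hj2
  have h3 := h2 j hj1 hj2
  have h4 := congrFun hr ⟨j - 1, by omega⟩
  simp only [Cr.res] at h4
  rw [Nat.sub_add_cancel hj1] at h4
  rw [← h4]
  exact h3

/-- First order criterion with a point over an extension field. -/
theorem crit1K (k : Type u) (K : Type v) [Field k] [Field K] [Algebra k K] (t m n : ℕ)
    (ht : 2 ≤ t) (hm : t ≤ m) (hn : t ≤ n) (q : ℕ → K) (hq : Van t m n q)
    (B : Finset ℕ) (hB : B.card < t)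
    (h : ∀ δ : ℕ → K, Tan t m n q δ → (∀ j ∈ B, δ j = 0) →
        ∀ j, 1 ≤ j → j ≤ m + n - 1 → δ j = 0) : ¬ (hankelIdeal k t m n).IsPrime :=
  Cr.crit1' ht hm hn q hq (posFin (m + n - 1) B) ((card_posFin _ _).trans_lt hB)
    (shrink q hq B h)

theorem crit1 : S_CRIT1.{u} := by
  intro k _ t m n ht hm hn q hq B hB h
  exact crit1K k k t m n ht hm hn q hq B hB h

end Pool.Agent.Helper86K9.HK
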