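import Pool.Agent.Helper86K9.HK.Tan
import Pool.Agent.Helper86K9.HK.Rows
import Pool.Agent.Helper86K9.HK.Crit1

/-!
# [C4] The case `m = t`, `n = 2t - 3`
-/

set_option autoImplicit false

namespace Pool.Agent.Helper86K9.HK

open Finset

universe u

namespace C4L

theorem mul_prod_congr' {S : Type*} [CommRing S] {s : Finset ℕ} (e : S) (f g : ℕ → S)
    (h : ∀ i ∈ s, e * f i = e * g i) : e * ∏ i ∈ s, f i = e * ∏ i ∈ s, g i := by
  classical
  induction s using Finset.induction_on with
  | empty => simp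
  | insert a s ha ih =>
    rw [prod_insert ha, prod_insert ha]
    have h1 := h a (mem_insert_self _ _)
    have h2 := ih fun i hi => h i (mem_insert_of_mem hi)
    linear_combination (∏ i ∈ s, f i) * h1 + g a * h2

theorem four {S : Type*} [CommRing S] (two : ∀ z : S, 2 * z = 0 → z = 0)
    (F0 F1 F2 a b c d G : S) (ha : a * a = 0) (hb : b * b = 0) (hc : c * c = 0) (hd : d * d = 0)
    (H : F0 * (a - c) * (-b - d) * G + F1 * (a + b + c - d) * (-b - d) * G +
      F2 * (a + b + c - d) * (a - c) * G = 0) :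
    (a * c * (b + d) * F1 * G = 0) ∧ (b * d * ((a - c) * F0 + (a + c) * F1) * G = 0) ∧
      (a * c * ((b + d) * F0 - (b - d) * F2) * G = 0) ∧ a * b * c * d * F0 * G = 0 ∧
      a * b * c * d * F1 * G = 0 ∧ a * b * c * d * F2 * G = 0 := by
  have R1 : a * c * (b + d) * F1 * G = 0 := by
    apply two
    linear_combination (-(a + c)) * H +
      (F0 * (-b - d) * G + F2 * (a + b + c - d) * G - F1 * G * (b + d)) * ha +
      (-(F0 * (-b - d) * G + F2 * (a + b + c - d) * G) - F1 * G * (b + d)) * hc +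
      (-F1 * G * (a + c)) * hb + (F1 * G * (a + c)) * hd
  have R2 : b * d * ((a - c) * F0 + (a + c) * F1) * G = 0 := by
    apply two
    linear_combination (-(b + d)) * H + (F2 * (b + d) * G) * ha - (F2 * (b + d) * G) * hc +
      (-F0 * (a - c) * G - F1 * (a + c) * G - F1 * (b + d) * G + F2 * (a - c) * G) * hb +
      (-F0 * (a - c) * G - F1 * (a + c) * G + F1 * (b + d) * G - F2 * (a - c) * G) * hd
  have R3 : a * c * ((b + d) * F0 - (b - d) * F2) * G = 0 := by
    apply two
    linear_combination (a - c) * H +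
      (F0 * (b + d) * G + F1 * (b + d) * G - F2 * (a - c) * G - F2 * (b - d) * G) * ha +
      (F0 * (b + d) * G - F1 * (b + d) * G + F2 * (a - c) * G - F2 * (b - d) * G) * hc +
      (F1 * (a - c) * G) * hb - (F1 * (a - c) * G) * hd
  refine ⟨R1, R2, R3, ?_, ?_, ?_⟩
  · apply two
    linear_combination (b + d) * R3 - (a * c * F0 * G) * (hb + hd) + (a * c * F2 * G) * (hb - hd)
  · linear_combination b * R1 - (a * c * F1 * G) * hb
  · apply two
    linear_combination (b - d) * R3 - (a * c * F0 * G) * (hb - hd) + (a * c * F2 * G) * (hb + hd)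

/-- The point. -/
def q4 (k : Type*) [CommRing k] (M j : ℕ) : k :=
  if j = 1 ∨ j = M + 1 ∨ j = M + 2 then 1 else if j = 2 * M + 3 ∨ j = 3 * M + 5 then -1 else 0

section rows

variable {k S : Type u} [Field k] [CommRing S] [Algebra k S] (M : ℕ) (hM : 1 ≤ M) (x : ℕ → S)

include hM

theorem q4_eq (j : ℕ) : (q4 k M j : k) = (if (j : ℤ) = 1 then 1 else 0) +
    (if (j : ℤ) = M + 1 then 1 else 0) + (if (j : ℤ) = M + 2 then 1 else 0) -
    (if (j : ℤ) = 2 * M + 3 then 1 else 0) - (if (j : ℤ) = 3 * M + 5 then 1 else 0) := by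
  unfold q4
  split_ifs <;> first | (exfalso; omega) | simp

theorem row_q4 (r : ℕ) : row (2 * M + 3) (q4 k M) x r = bz (2 * M + 3) x (1 - r) +
    bz (2 * M + 3) x ((M : ℤ) + 1 - r) + bz (2 * M + 3) x ((M : ℤ) + 2 - r) -
    bz (2 * M + 3) x (2 * (M : ℤ) + 3 - r) - bz (2 * M + 3) x (3 * (M : ℤ) + 5 - r) := by
  unfold row
  simp only [q4_eq M hM, add_smul, sub_smul, sum_add_distrib, sum_sub_distrib, sum_single]

omit hM in
theorem bz_nat' {n : ℕ} {c : ℤ} (d : ℕ) (h : c = d) (h1 : 1 ≤ d) (h2 : d ≤ n) :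
    bz n x c = x d := by
  subst h
  exact bz_nat n x h1 h2

theorem row0 : row (2 * M + 3) (q4 k M) x 0 = x 1 + x (M + 1) + x (M + 2) - x (2 * M + 3) := by
  rw [row_q4 M hM, bz_nat' x 1 (by simp) le_rfl (by omega),
    bz_nat' x (M + 1) (by push_cast; ring) (by omega) (by omega),
    bz_nat' x (M + 2) (by push_cast; ring) (by omega) (by omega),
    bz_nat' x (2 * M + 3) (by push_cast; ring) (by omega) (by omega),
    bz_zero _ _ (by push_cast; omega), sub_zero]

theorem rowM1 : row (2 * M + 3) (q4 k M) x (M + 1) = x 1 - x (M + 2) := by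
  rw [row_q4 M hM, bz_zero _ _ (by push_cast; omega),
    bz_zero _ _ (c := (M : ℤ) + 1 - ((M + 1 : ℕ) : ℤ)) (by push_cast; omega),
    bz_nat' x 1 (by push_cast; ring) le_rfl (by omega),
    bz_nat' x (M + 2) (by push_cast; ring) (by omega) (by omega),
    bz_zero _ _ (by push_cast; omega)]
  ring

theorem rowM2 : row (2 * M + 3) (q4 k M) x (M + 2) = - x (M + 1) - x (2 * M + 3) := by
  rw [row_q4 M hM, bz_zero _ _ (by push_cast; omega),
    bz_zero _ _ (c := (M : ℤ) + 1 - ((M + 2 : ℕ) : ℤ)) (by push_cast; omega),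
    bz_zero _ _ (c := (M : ℤ) + 2 - ((M + 2 : ℕ) : ℤ)) (by push_cast; omega),
    bz_nat' x (M + 1) (by push_cast; ring) (by omega) (by omega),
    bz_nat' x (2 * M + 3) (by push_cast; ring) (by omega) (by omega)]
  ring

theorem rowI (r : ℕ) (h1 : 1 ≤ r) (h2 : r ≤ M) : row (2 * M + 3) (q4 k M) x r =
    x (M + 1 - r) + x (M + 1 - r + 1) - x (M + 2 + (M + 1 - r)) := by
  rw [row_q4 M hM, bz_zero _ _ (by push_cast; omega),
    bz_nat' x (M + 1 - r) (by omega) (by omega) (by omega),
    bz_nat' x (M + 1 - r + 1) (by omega) (by omega) (by omega),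
    bz_nat' x (M + 2 + (M + 1 - r)) (by omega) (by omega) (by omega),
    bz_zero _ _ (by push_cast; omega)]
  ring

/-- The product of the rows outside of the block. -/
theorem prodI : ∏ r ∈ Icc 1 M, row (2 * M + 3) (q4 k M) x r =
    ∏ i ∈ Icc 1 M, (x i + x (i + 1) - x (M + 2 + i)) := by
  refine prod_bij (fun r _ => M + 1 - r) ?_ ?_ ?_ ?_
  · intro r hr
    rw [mem_Icc] at hr ⊢
    omega
  · intro r hr r' hr' h
    rw [mem_Icc] at hr hr'
    omega
  · intro i hi
    rw [mem_Icc] at hi
    exact ⟨M + 1 - i, by rw [mem_Icc]; omega, by omega⟩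
  · intro r hr
    rw [mem_Icc] at hr
    exact rowI M hM x r hr.1 hr.2

end rows

theorem ranges (M : ℕ) :
    (range (M + 3)).erase 0 = insert (M + 1) (insert (M + 2) (Icc 1 M)) ∧
    (range (M + 3)).erase (M + 1) = insert 0 (insert (M + 2) (Icc 1 M)) ∧
    (range (M + 3)).erase (M + 2) = insert 0 (insert (M + 1) (Icc 1 M)) ∧
    range (M + 3) = insert 0 (insert (M + 1) (insert (M + 2) (Icc 1 M))) := by
  refine ⟨?_, ?_, ?_, ?_⟩ <;>
  · ext r
    simp only [mem_erase, mem_range, mem_insert, mem_Icc]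
    omega

/-- The point lies on the variety. -/
theorem van4 (k : Type u) [Field k] (M : ℕ) (hM : 1 ≤ M) :
    Van (M + 3) (M + 3) (2 * M + 3) (q4 k M) := by
  obtain ⟨hsq, -⟩ := alg3 k
  apply alg2 k
  intro T hT hc
  have hT' : T = range (M + 3) := eq_of_subset_of_card_le hT (by rw [card_range, hc])
  rw [hT', (ranges M).2.2.2, prod_insert (by simp), prod_insert (by simp),
    prod_insert (by simp), row0 M hM, rowM1 M hM, rowM2 M hM]
  linear_combination ((-sqx k (M + 1) - sqx k (2 * M + 3)) *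
      (∏ r ∈ Icc 1 M, row (2 * M + 3) (q4 k M) (sqx k) r)) * (hsq 1 - hsq (M + 2)) -
    ((sqx k 1 - sqx k (M + 2)) *
      (∏ r ∈ Icc 1 M, row (2 * M + 3) (q4 k M) (sqx k) r)) * (hsq (M + 1) - hsq (2 * M + 3))

/-- The relation for tangent vectors. -/
theorem rel {k S : Type u} [Field k] [CommRing S] [Algebra k S] (h2 : (2 : k) ≠ 0) (M : ℕ)
    (hM : 1 ≤ M) (δ : ℕ → k)
    (hδ : Tan (M + 3) (M + 3) (2 * M + 3) (q4 k M) δ) (x : ℕ → S) (hx : ∀ c, x c * x c = 0)
    (G : S) (hG : G = ∏ i ∈ Icc 1 M, (x i + x (i + 1) - x (M + 2 + i))) :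
    (x 1 * x (M + 2) * (x (M + 1) + x (2 * M + 3)) * row (2 * M + 3) δ x (M + 1) * G = 0) ∧
    (x (M + 1) * x (2 * M + 3) * ((x 1 - x (M + 2)) * row (2 * M + 3) δ x 0 +
      (x 1 + x (M + 2)) * row (2 * M + 3) δ x (M + 1)) * G = 0) ∧
    (x 1 * x (M + 2) * ((x (M + 1) + x (2 * M + 3)) * row (2 * M + 3) δ x 0 -
      (x (M + 1) - x (2 * M + 3)) * row (2 * M + 3) δ x (M + 2)) * G = 0) ∧
    x 1 * x (M + 1) * x (M + 2) * x (2 * M + 3) * row (2 * M + 3) δ x 0 * G = 0 ∧
    x 1 * x (M + 1) * x (M + 2) * x (2 * M + 3) * row (2 * M + 3) δ x (M + 1) * G = 0 ∧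
    x 1 * x (M + 1) * x (M + 2) * x (2 * M + 3) * row (2 * M + 3) δ x (M + 2) * G = 0 := by
  have two : ∀ z : S, (2 : S) * z = 0 → z = 0 := by
    intro z hz
    have : algebraMap k S 2⁻¹ * (2 * z) = z := by
      rw [← mul_assoc, ← map_ofNat (algebraMap k S) 2, ← map_mul, inv_mul_cancel₀ h2,
        map_one, one_mul]
    rw [← this, hz, mul_zero]
  have key := tan1 k S _ _ _ _ _ hδ x hx (range (M + 3)) subset_rfl (card_range _)
  obtain ⟨r0, r1, r2, r3⟩ := ranges M
  have hzero : ∀ r ∈ Icc 1 M, row (2 * M + 3) δ x r *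
      ∏ r' ∈ (range (M + 3)).erase r, row (2 * M + 3) (q4 k M) x r' = 0 := by
    intro r hr
    rw [mem_Icc] at hr
    have e : (range (M + 3)).erase r =
        insert 0 (insert (M + 1) (insert (M + 2) ((Icc 1 M).erase r))) := by
      ext s
      simp only [mem_erase, mem_range, mem_insert, mem_Icc]
      omega
    rw [e, prod_insert (by simp), prod_insert (by simp),
      prod_insert (by simp), row0 M hM, rowM1 M hM, rowM2 M hM]
    have e1 : (x 1 + x (M + 1) + x (M + 2) - x (2 * M + 3)) * ((x 1 - x (M + 2)) *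
        ((-x (M + 1) - x (2 * M + 3)) *
          ∏ r' ∈ (Icc 1 M).erase r, row (2 * M + 3) (q4 k M) x r')) = 0 := by
      linear_combination ((-x (M + 1) - x (2 * M + 3)) *
        (∏ r' ∈ (Icc 1 M).erase r, row (2 * M + 3) (q4 k M) x r')) * (hx 1 - hx (M + 2)) -
        ((x 1 - x (M + 2)) *
        (∏ r' ∈ (Icc 1 M).erase r, row (2 * M + 3) (q4 k M) x r')) *
          (hx (M + 1) - hx (2 * M + 3))
    rw [e1, mul_zero]
  have key2 : row (2 * M + 3) δ x 0 *
      ∏ r' ∈ (range (M + 3)).erase 0, row (2 * M + 3) (q4 k M) x r' +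
      (row (2 * M + 3) δ x (M + 1) *
      ∏ r' ∈ (range (M + 3)).erase (M + 1), row (2 * M + 3) (q4 k M) x r' +
      row (2 * M + 3) δ x (M + 2) *
      ∏ r' ∈ (range (M + 3)).erase (M + 2), row (2 * M + 3) (q4 k M) x r') = 0 := by
    have e2 : ∑ r ∈ range (M + 3), row (2 * M + 3) δ x r *
        ∏ r' ∈ (range (M + 3)).erase r, row (2 * M + 3) (q4 k M) x r' =
        ∑ r ∈ insert 0 (insert (M + 1) (insert (M + 2) (Icc 1 M))), row (2 * M + 3) δ x r *
        ∏ r' ∈ (range (M + 3)).erase r, row (2 * M + 3) (q4 k M) x r' := by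
      congr 1
    rw [e2, sum_insert (by simp), sum_insert (by simp), sum_insert (by simp),
      sum_eq_zero hzero, add_zero] at key
    exact key
  rw [r0, r1, r2, prod_insert (by simp), prod_insert (by simp), prod_insert (by simp),
    prod_insert (by simp), prod_insert (by simp), prod_insert (by simp), row0 M hM, rowM1 M hM,
    rowM2 M hM, prodI M hM, ← hG] at key2
  apply four two _ _ _ _ _ _ _ _ (hx _) (hx _) (hx _) (hx _)
  linear_combination key2

/-- The window relations for a window `l`. -/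
def Win (k : Type u) [Field k] (M : ℕ) (l : ℕ → k) : Prop :=
  ∀ x : ℕ → Sq k, (∀ c, x c * x c = 0) →
    x 1 * x (M + 1) * x (M + 2) * x (2 * M + 3) * (∑ c ∈ Icc 1 (2 * M + 3), l c • x c) *
      ∏ i ∈ Icc 1 M, (x i + x (i + 1) - x (M + 2 + i)) = 0

/-- Multiplying a linear form. -/
theorem mul_form {k : Type u} [Field k] {S : Type u} [CommRing S] [Algebra k S] (E : S) (n : ℕ)
    (l : ℕ → k) (x : ℕ → S) (J : Finset ℕ) (hJ : J ⊆ Icc 1 n)
    (h : ∀ c ∈ Icc 1 n, c ∉ J → E * x c = 0) :
    E * ∑ c ∈ Icc 1 n, l c • x c = E * ∑ c ∈ J, algebraMap k S (l c) * x c := by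
  rw [mul_sum, mul_sum]
  symm
  have h1 : ∀ c, E * (algebraMap k S (l c) * x c) = E * l c • x c := by
    intro c
    rw [Algebra.smul_def]
  rw [sum_congr rfl fun c _ => h1 c]
  apply sum_subset hJ
  intro c hc hcJ
  rw [mul_smul_comm, h c hc hcJ, smul_zero]

theorem T1 {k : Type u} [Field k] (M : ℕ) (l : ℕ → k) (H : Win k M l)
    (c0 : ℕ) (h1 : 2 ≤ c0) (h2 : c0 ≤ M) : l c0 = l (M + 2 + c0) + l (M + 1 + c0) := by
  classical
  obtain ⟨hsq, hind⟩ := alg3 k
  set x : ℕ → Sq k := fun c => if c = 1 ∨ c = M + 1 ∨ c = M + 2 ∨ c = 2 * M + 3 ∨ c = c0 then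
    sqx k c else if M + 3 ≤ c ∧ c ≤ 2 * M + 2 then - sqx k c else 0 with hxd
  have hx : ∀ c, x c * x c = 0 := by
    intro c
    simp only [hxd]
    split_ifs
    · exact hsq c
    · linear_combination hsq c
    · simp
  have x1 : x 1 = sqx k 1 := by simp [hxd]
  have x2 : x (M + 1) = sqx k (M + 1) := by simp [hxd]
  have x3 : x (M + 2) = sqx k (M + 2) := by simp [hxd]
  have x4 : x (2 * M + 3) = sqx k (2 * M + 3) := by simp [hxd]
  have x5 : x c0 = sqx k c0 := by simp [hxd]
  have xp : ∀ i ∈ Icc 1 M, x (M + 2 + i) = - sqx k (M + 2 + i) := by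
    intro i hi
    rw [mem_Icc] at hi
    simp only [hxd]
    rw [if_neg (by omega), if_pos (by omega)]
  have xz : ∀ c, 2 ≤ c → c ≤ M → c ≠ c0 → x c = 0 := by
    intro c hc hc' hne
    simp only [hxd]
    rw [if_neg (by omega), if_neg (by omega)]
  have H1 := H x hx
  rw [x1, x2, x3, x4] at H1
  set A := sqx k 1 * sqx k (M + 1) * sqx k (M + 2) * sqx k (2 * M + 3) with hA
  have a1 : A * sqx k 1 = 0 := by
    rw [hA]
    linear_combination (sqx k (M + 1) * sqx k (M + 2) * sqx k (2 * M + 3)) * hsq 1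
  have a2 : A * sqx k (M + 1) = 0 := by
    rw [hA]
    linear_combination (sqx k 1 * sqx k (M + 2) * sqx k (2 * M + 3)) * hsq (M + 1)
  have a3 : A * sqx k (M + 2) = 0 := by
    rw [hA]
    linear_combination (sqx k 1 * sqx k (M + 1) * sqx k (2 * M + 3)) * hsq (M + 2)
  have a4 : A * sqx k (2 * M + 3) = 0 := by
    rw [hA]
    linear_combination (sqx k 1 * sqx k (M + 1) * sqx k (M + 2)) * hsq (2 * M + 3)
  -- shared columns
  have as : ∀ c, 1 ≤ c → c ≤ M + 1 → c ≠ c0 → A * x c = 0 := by
    intro c hc hc' hne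
    rcases Nat.lt_or_ge c 2 with h | h
    · obtain rfl : c = 1 := by omega
      rw [x1, a1]
    · rcases Nat.lt_or_ge M c with h' | h'
      · obtain rfl : c = M + 1 := by omega
        rw [x2, a2]
      · rw [xz c h h' hne, mul_zero]
  set v := sqx k c0 with hv
  set y := sqx k (M + 1 + c0) with hy
  set y' := sqx k (M + 2 + c0) with hy'
  set R := ∏ i ∈ Icc 1 M \ {c0 - 1, c0}, sqx k (M + 2 + i) with hR
  have hsub : ({c0 - 1, c0} : Finset ℕ) ⊆ Icc 1 M := by
    intro i hi
    rw [mem_insert, mem_singleton] at hi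
    rw [mem_Icc]
    omega
  have hG : A * ∏ i ∈ Icc 1 M, (x i + x (i + 1) - x (M + 2 + i)) =
      A * (R * ((v + y) * (v + y'))) := by
    rw [← prod_sdiff hsub, prod_pair (by omega : c0 - 1 ≠ c0)]
    have e1 : A * ∏ i ∈ Icc 1 M \ {c0 - 1, c0}, (x i + x (i + 1) - x (M + 2 + i)) = A * R := by
      rw [hR]
      apply mul_prod_congr'
      intro i hi
      rw [mem_sdiff, mem_insert, mem_singleton] at hi
      have hi1 := mem_Icc.1 hi.1
      rw [xp i hi.1]
      linear_combination as i hi1.1 (by omega) (by tauto) +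
        as (i + 1) (by omega) (by omega) (by omega)
    have e2 : A * (x (c0 - 1) + x (c0 - 1 + 1) - x (M + 2 + (c0 - 1))) = A * (v + y) := by
      rw [xp (c0 - 1) (by rw [mem_Icc]; omega), show c0 - 1 + 1 = c0 by omega,
        show M + 2 + (c0 - 1) = M + 1 + c0 by omega, x5]
      linear_combination as (c0 - 1) (by omega) (by omega) (by omega)
    have e3 : A * (x c0 + x (c0 + 1) - x (M + 2 + c0)) = A * (v + y') := by
      rw [xp c0 (by rw [mem_Icc]; omega), x5]
      linear_combination as (c0 + 1) (by omega) (by omega) (by omega)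
    linear_combination ((x (c0 - 1) + x (c0 - 1 + 1) - x (M + 2 + (c0 - 1))) *
      (x c0 + x (c0 + 1) - x (M + 2 + c0))) * e1 +
      (R * (x c0 + x (c0 + 1) - x (M + 2 + c0))) * e2 + (R * (v + y)) * e3
  -- the linear form
  have hL := mul_form (k := k) (A * R) (2 * M + 3) l x {c0, M + 1 + c0, M + 2 + c0} (by
    intro i hi
    rw [mem_insert, mem_insert, mem_singleton] at hi
    rw [mem_Icc]
    omega) (by
    intro c hc hcJ
    rw [mem_Icc] at hc
    rw [mem_insert, mem_insert, mem_singleton] at hcJ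
    rcases Nat.lt_or_ge (M + 1) c with h | h
    · rcases Nat.lt_or_ge (M + 2) c with h' | h'
      · rcases Nat.lt_or_ge (2 * M + 2) c with h'' | h''
        · obtain rfl : c = 2 * M + 3 := by omega
          rw [x4]
          linear_combination R * a4
        · obtain ⟨i, rfl⟩ : ∃ i, c = M + 2 + i := ⟨c - (M + 2), by omega⟩
          have hi : i ∈ Icc 1 M := by rw [mem_Icc]; omega
          rw [xp i hi]
          have hi' : i ∈ Icc 1 M \ {c0 - 1, c0} := by
            rw [mem_sdiff, mem_insert, mem_singleton]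
            refine ⟨hi, ?_⟩
            omega
          have : R * sqx k (M + 2 + i) = 0 := by
            rw [hR, ← mul_prod_erase _ _ hi']
            linear_combination
              (∏ x ∈ (Icc 1 M \ {c0 - 1, c0}).erase i, sqx k (M + 2 + x)) * hsq (M + 2 + i)
          linear_combination (-A) * this
      · obtain rfl : c = M + 2 := by omega
        rw [x3]
        linear_combination R * a3
    · linear_combination R * as c (by omega) (by omega) (by tauto))
  rw [sum_insert (by
    rw [mem_insert, mem_singleton]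
    omega), sum_pair (by omega)] at hL
  rw [x5, show M + 1 + c0 = M + 2 + (c0 - 1) by omega, xp (c0 - 1) (by rw [mem_Icc]; omega),
    show M + 2 + (c0 - 1) = M + 1 + c0 by omega, xp c0 (by rw [mem_Icc]; omega)] at hL
  have hfin : algebraMap k (Sq k) (l c0 - l (M + 2 + c0) - l (M + 1 + c0)) *
      (A * R * v * y * y') = 0 := by
    rw [map_sub, map_sub]
    have hv2 : v * v = 0 := hsq _
    have hy2 : y * y = 0 := hsq _
    have hy'2 : y' * y' = 0 := hsq _
    have H2 : A * (∑ c ∈ Icc 1 (2 * M + 3), l c • x c) * (R * ((v + y) * (v + y'))) = 0 := by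
      linear_combination H1 - (∑ c ∈ Icc 1 (2 * M + 3), l c • x c) * hG
    have H3 : A * R * (algebraMap k (Sq k) (l c0) * v +
        (algebraMap k (Sq k) (l (M + 1 + c0)) * -y +
          algebraMap k (Sq k) (l (M + 2 + c0)) * -y')) * ((v + y) * (v + y')) = 0 := by
      linear_combination H2 - ((v + y) * (v + y')) * hL
    linear_combination H3 - (A * R * algebraMap k (Sq k) (l c0) * (v + y + y')) * hv2 +
      (A * R * algebraMap k (Sq k) (l (M + 1 + c0)) * (v + y')) * hy2 +
      (A * R * algebraMap k (Sq k) (l (M + 2 + c0)) * (v + y)) * hy'2 +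
      (A * R * (algebraMap k (Sq k) (l (M + 1 + c0)) * y +
        algebraMap k (Sq k) (l (M + 2 + c0)) * y')) * hv2
  have hC := hind (l c0 - l (M + 2 + c0) - l (M + 1 + c0))
    (insert 1 (insert (M + 1) (insert (M + 2) (insert (2 * M + 3) (insert c0
      (insert (M + 1 + c0) (insert (M + 2 + c0)
        ((Icc 1 M \ {c0 - 1, c0}).image fun i => M + 2 + i)))))))) (by
    have himg : ∀ c, c ∈ (Icc 1 M \ {c0 - 1, c0}).image (fun i => M + 2 + i) →
        M + 3 ≤ c ∧ c ≤ 2 * M + 2 ∧ c ≠ M + 1 + c0 ∧ c ≠ M + 2 + c0 := by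
      intro c hc
      obtain ⟨i, hi, rfl⟩ := mem_image.1 hc
      rw [mem_sdiff, mem_insert, mem_singleton, mem_Icc] at hi
      refine ⟨by omega, by omega, by omega, by omega⟩
    rw [prod_insert, prod_insert, prod_insert, prod_insert, prod_insert, prod_insert,
      prod_insert, prod_image]
    · rw [← hfin, hA]
      ring
    · intro a _ b _ hab
      simpa using hab
    all_goals
      try simp only [mem_insert, not_or]
    all_goals
      repeat' apply And.intro
    all_goals
      first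
      | omega
      | (intro hcon
         have := himg _ hcon
         omega))
  have hC' := hC
  linear_combination hC'

theorem T2 {k : Type u} [Field k] (M : ℕ) (l : ℕ → k) (H : Win k M l)
    (c0 : ℕ) (h1 : 2 ≤ c0) (h2 : c0 + 1 ≤ M) :
    l c0 + l (c0 + 1) = l (M + 1 + c0) + l (M + 3 + c0) := by
  classical
  obtain ⟨hsq, hind⟩ := alg3 k
  set x : ℕ → Sq k := fun c => if c = 1 ∨ c = M + 1 ∨ c = M + 2 ∨ c = 2 * M + 3 ∨ c = c0 ∨
      c = c0 + 1 then
    sqx k c else if M + 3 ≤ c ∧ c ≤ 2 * M + 2 ∧ c ≠ M + 2 + c0 then - sqx k c else 0 with hxd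
  have hx : ∀ c, x c * x c = 0 := by
    intro c
    simp only [hxd]
    split_ifs
    · exact hsq c
    · linear_combination hsq c
    · simp
  have x1 : x 1 = sqx k 1 := by simp [hxd]
  have x2 : x (M + 1) = sqx k (M + 1) := by simp [hxd]
  have x3 : x (M + 2) = sqx k (M + 2) := by simp [hxd]
  have x4 : x (2 * M + 3) = sqx k (2 * M + 3) := by simp [hxd]
  have x5 : x c0 = sqx k c0 := by simp [hxd]
  have x6 : x (c0 + 1) = sqx k (c0 + 1) := by simp [hxd]
  have x7 : x (M + 2 + c0) = 0 := by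
    simp only [hxd]
    rw [if_neg (by omega), if_neg (by omega)]
  have xp : ∀ i ∈ Icc 1 M, i ≠ c0 → x (M + 2 + i) = - sqx k (M + 2 + i) := by
    intro i hi hne
    rw [mem_Icc] at hi
    simp only [hxd]
    rw [if_neg (by omega), if_pos (by omega)]
  have xz : ∀ c, 2 ≤ c → c ≤ M → c ≠ c0 → c ≠ c0 + 1 → x c = 0 := by
    intro c hc hc' hne hne'
    simp only [hxd]
    rw [if_neg (by omega), if_neg (by omega)]
  have H1 := H x hx
  rw [x1, x2, x3, x4] at H1
  set A := sqx k 1 * sqx k (M + 1) * sqx k (M + 2) * sqx k (2 * M + 3) with hA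
  have a1 : A * sqx k 1 = 0 := by
    rw [hA]
    linear_combination (sqx k (M + 1) * sqx k (M + 2) * sqx k (2 * M + 3)) * hsq 1
  have a2 : A * sqx k (M + 1) = 0 := by
    rw [hA]
    linear_combination (sqx k 1 * sqx k (M + 2) * sqx k (2 * M + 3)) * hsq (M + 1)
  have a3 : A * sqx k (M + 2) = 0 := by
    rw [hA]
    linear_combination (sqx k 1 * sqx k (M + 1) * sqx k (2 * M + 3)) * hsq (M + 2)
  have a4 : A * sqx k (2 * M + 3) = 0 := by
    rw [hA]
    linear_combination (sqx k 1 * sqx k (M + 1) * sqx k (M + 2)) * hsq (2 * M + 3)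
  -- shared columns
  have as : ∀ c, 1 ≤ c → c ≤ M + 1 → c ≠ c0 → c ≠ c0 + 1 → A * x c = 0 := by
    intro c hc hc' hne hne'
    rcases Nat.lt_or_ge c 2 with h | h
    · obtain rfl : c = 1 := by omega
      rw [x1, a1]
    · rcases Nat.lt_or_ge M c with h' | h'
      · obtain rfl : c = M + 1 := by omega
        rw [x2, a2]
      · rw [xz c h h' hne hne', mul_zero]
  set v := sqx k c0 with hv
  set v' := sqx k (c0 + 1) with hv'
  set y := sqx k (M + 1 + c0) with hy
  set y' := sqx k (M + 3 + c0) with hy'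
  set J : Finset ℕ := {c0 - 1, c0, c0 + 1} with hJ
  have hJm : ∀ i, i ∈ J ↔ i = c0 - 1 ∨ i = c0 ∨ i = c0 + 1 := by
    intro i
    rw [hJ, mem_insert, mem_insert, mem_singleton]
  set R := ∏ i ∈ Icc 1 M \ J, sqx k (M + 2 + i) with hR
  have hsub : J ⊆ Icc 1 M := by
    intro i hi
    rw [hJm] at hi
    rw [mem_Icc]
    omega
  have hG : A * ∏ i ∈ Icc 1 M, (x i + x (i + 1) - x (M + 2 + i)) =
      A * (R * ((v + y) * ((v + v') * (v' + y')))) := by
    rw [← prod_sdiff hsub]
    have hpJ : ∏ i ∈ J, (x i + x (i + 1) - x (M + 2 + i)) =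
        (x (c0 - 1) + x (c0 - 1 + 1) - x (M + 2 + (c0 - 1))) *
        ((x c0 + x (c0 + 1) - x (M + 2 + c0)) *
          (x (c0 + 1) + x (c0 + 1 + 1) - x (M + 2 + (c0 + 1)))) := by
      rw [hJ, prod_insert (by
        rw [mem_insert, mem_singleton]
        omega), prod_pair (by omega)]
    rw [hpJ]
    have e1 : A * ∏ i ∈ Icc 1 M \ J, (x i + x (i + 1) - x (M + 2 + i)) = A * R := by
      rw [hR]
      apply mul_prod_congr'
      intro i hi
      rw [mem_sdiff, hJm] at hi
      have hi1 := mem_Icc.1 hi.1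
      rw [xp i hi.1 (by omega)]
      linear_combination as i hi1.1 (by omega) (by omega) (by omega) +
        as (i + 1) (by omega) (by omega) (by omega) (by omega)
    have e2 : A * (x (c0 - 1) + x (c0 - 1 + 1) - x (M + 2 + (c0 - 1))) = A * (v + y) := by
      rw [xp (c0 - 1) (by rw [mem_Icc]; omega) (by omega), show c0 - 1 + 1 = c0 by omega,
        show M + 2 + (c0 - 1) = M + 1 + c0 by omega, x5]
      linear_combination as (c0 - 1) (by omega) (by omega) (by omega) (by omega)
    have e3 : x c0 + x (c0 + 1) - x (M + 2 + c0) = v + v' := by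
      rw [x5, x6, x7, sub_zero]
    have e4 : A * (x (c0 + 1) + x (c0 + 1 + 1) - x (M + 2 + (c0 + 1))) = A * (v' + y') := by
      rw [xp (c0 + 1) (by rw [mem_Icc]; omega) (by omega), x6,
        show M + 2 + (c0 + 1) = M + 3 + c0 by omega]
      linear_combination as (c0 + 1 + 1) (by omega) (by omega) (by omega) (by omega)
    rw [e3]
    linear_combination ((x (c0 - 1) + x (c0 - 1 + 1) - x (M + 2 + (c0 - 1))) *
      ((v + v') * (x (c0 + 1) + x (c0 + 1 + 1) - x (M + 2 + (c0 + 1))))) * e1 +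
      (R * ((v + v') * (x (c0 + 1) + x (c0 + 1 + 1) - x (M + 2 + (c0 + 1))))) * e2 +
      (R * (v + y) * (v + v')) * e4
  -- the linear form
  have hL := mul_form (k := k) (A * R) (2 * M + 3) l x {c0, c0 + 1, M + 1 + c0, M + 3 + c0} (by
    intro i hi
    rw [mem_insert, mem_insert, mem_insert, mem_singleton] at hi
    rw [mem_Icc]
    omega) (by
    intro c hc hcJ
    rw [mem_Icc] at hc
    rw [mem_insert, mem_insert, mem_insert, mem_singleton] at hcJ
    rcases Nat.lt_or_ge (M + 1) c with h | h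
    · rcases Nat.lt_or_ge (M + 2) c with h' | h'
      · rcases Nat.lt_or_ge (2 * M + 2) c with h'' | h''
        · obtain rfl : c = 2 * M + 3 := by omega
          rw [x4]
          linear_combination R * a4
        · obtain ⟨i, rfl⟩ : ∃ i, c = M + 2 + i := ⟨c - (M + 2), by omega⟩
          have hi : i ∈ Icc 1 M := by rw [mem_Icc]; omega
          by_cases hic : i = c0
          · rw [hic, x7, mul_zero]
          rw [xp i hi hic]
          have hi' : i ∈ Icc 1 M \ J := by
            rw [mem_sdiff, hJm]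
            refine ⟨hi, ?_⟩
            omega
          have : R * sqx k (M + 2 + i) = 0 := by
            rw [hR, ← mul_prod_erase _ _ hi']
            linear_combination
              (∏ x ∈ (Icc 1 M \ J).erase i, sqx k (M + 2 + x)) * hsq (M + 2 + i)
          linear_combination (-A) * this
      · obtain rfl : c = M + 2 := by omega
        rw [x3]
        linear_combination R * a3
    · linear_combination R * as c (by omega) (by omega) (by omega) (by omega))
  rw [sum_insert (by
    rw [mem_insert, mem_insert, mem_singleton]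
    omega), sum_insert (by
    rw [mem_insert, mem_singleton]
    omega), sum_pair (by omega)] at hL
  rw [x5, x6, show M + 1 + c0 = M + 2 + (c0 - 1) by omega,
    xp (c0 - 1) (by rw [mem_Icc]; omega) (by omega),
    show M + 2 + (c0 - 1) = M + 1 + c0 by omega, show M + 3 + c0 = M + 2 + (c0 + 1) by omega,
    xp (c0 + 1) (by rw [mem_Icc]; omega) (by omega),
    show M + 2 + (c0 + 1) = M + 3 + c0 by omega] at hL
  have hfin : algebraMap k (Sq k) (l c0 + l (c0 + 1) - l (M + 1 + c0) - l (M + 3 + c0)) *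
      (A * R * v * v' * y * y') = 0 := by
    rw [map_sub, map_sub, map_add]
    have hv2 : v * v = 0 := hsq _
    have hv'2 : v' * v' = 0 := hsq _
    have hy2 : y * y = 0 := hsq _
    have hy'2 : y' * y' = 0 := hsq _
    have H2 : A * (∑ c ∈ Icc 1 (2 * M + 3), l c • x c) *
        (R * ((v + y) * ((v + v') * (v' + y')))) = 0 := by
      linear_combination H1 - (∑ c ∈ Icc 1 (2 * M + 3), l c • x c) * hG
    generalize algebraMap k (Sq k) (l c0) = p1 at *
    generalize algebraMap k (Sq k) (l (c0 + 1)) = p2 at *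
    generalize algebraMap k (Sq k) (l (M + 1 + c0)) = p3 at *
    generalize algebraMap k (Sq k) (l (M + 3 + c0)) = p4 at *
    have H3 : A * R * (p1 * v + (p2 * v' + (p3 * -y + p4 * -y'))) *
        ((v + y) * ((v + v') * (v' + y'))) = 0 := by
      linear_combination H2 - ((v + y) * ((v + v') * (v' + y'))) * hL
    -- expand the product of the three rows
    have e5 : (v + y) * ((v + v') * (v' + y')) =
        v * v' * y + v * v' * y' + v * y * y' + v' * y * y' := by
      linear_combination (v' + y') * hv2 + (v + y) * hv'2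
    rw [e5] at H3
    have f1 : (p1 * v + (p2 * v' + (p3 * -y + p4 * -y'))) *
        (v * v' * y + v * v' * y' + v * y * y' + v' * y * y') =
        (p1 + p2 - p3 - p4) * (v * v' * y * y') := by
      linear_combination (p1 * (v' * y + v' * y' + y * y')) * hv2 +
        (p2 * (v * y + v * y' + y * y')) * hv'2 - (p3 * (v * v' + v * y' + v' * y')) * hy2 -
        (p4 * (v * v' + v * y + v' * y)) * hy'2
    linear_combination H3 - (A * R) * f1
  have hC := hind (l c0 + l (c0 + 1) - l (M + 1 + c0) - l (M + 3 + c0))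
    (insert 1 (insert (M + 1) (insert (M + 2) (insert (2 * M + 3) (insert c0 (insert (c0 + 1)
      (insert (M + 1 + c0) (insert (M + 3 + c0)
        ((Icc 1 M \ J).image fun i => M + 2 + i))))))))) (by
    have himg : ∀ c, c ∈ (Icc 1 M \ J).image (fun i => M + 2 + i) →
        M + 3 ≤ c ∧ c ≤ 2 * M + 2 ∧ c ≠ M + 1 + c0 ∧ c ≠ M + 3 + c0 := by
      intro c hc
      obtain ⟨i, hi, rfl⟩ := mem_image.1 hc
      rw [mem_sdiff, hJm, mem_Icc] at hi
      refine ⟨by omega, by omega, by omega, by omega⟩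
    rw [prod_insert, prod_insert, prod_insert, prod_insert, prod_insert, prod_insert,
      prod_insert, prod_insert, prod_image]
    · rw [← hfin, hA]
      ring
    · intro a _ b _ hab
      simpa using hab
    all_goals
      try simp only [mem_insert, not_or]
    all_goals
      repeat' apply And.intro
    all_goals
      first
      | omega
      | (intro hcon
         have := himg _ hcon
         omega))
  have hC' := hC
  linear_combination hC'

/-- Consequences for one window. -/
theorem win {k : Type u} [Field k] (h2 : (2 : k) ≠ 0) (M : ℕ) (hM : 3 ≤ M) (l : ℕ → k)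
    (H : Win k M l) :
    (∀ c, 2 ≤ c → c + 1 ≤ M → l (M + 2 + c) = 0) ∧ (∀ c, 3 ≤ c → c + 1 ≤ M → l c = 0) ∧
      l 2 = l (M + 3) ∧ l M = l (2 * M + 2) := by
  have hp : ∀ c, 2 ≤ c → c + 1 ≤ M → l (M + 2 + c) = 0 := by
    intro c hc hcM
    have t1 := T1 M l H c hc (by omega)
    have t2 := T1 M l H (c + 1) (by omega) hcM
    have t3 := T2 M l H c hc hcM
    rw [show M + 2 + (c + 1) = M + 3 + c by omega, show M + 1 + (c + 1) = M + 2 + c by omega]
      at t2
    have : 2 * l (M + 2 + c) = 0 := by linear_combination t3 - t1 - t2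
    exact (mul_eq_zero.1 this).resolve_left h2
  refine ⟨hp, ?_, ?_, ?_⟩
  · intro c hc hcM
    have t1 := T1 M l H c (by omega) (by omega)
    have e1 := hp c (by omega) hcM
    have e2 := hp (c - 1) (by omega) (by omega)
    rw [show M + 2 + (c - 1) = M + 1 + c by omega] at e2
    rw [t1, e1, e2, add_zero]
  · have t1 := T1 M l H 2 le_rfl (by omega)
    have e1 := hp 2 le_rfl (by omega)
    rw [t1, e1, zero_add]
  · have t1 := T1 M l H M (by omega) le_rfl
    have e2 := hp (M - 1) (by omega) (by omega)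
    rw [show M + 2 + (M - 1) = M + 1 + M by omega] at e2
    rw [t1, e2, add_zero]
    congr 1
    omega

/-- The test elements for the last step: the block and the private columns. -/
noncomputable def xs (k : Type u) [Field k] (M c : ℕ) : Sq k :=
  if c = 1 ∨ c = M + 1 ∨ c = M + 2 ∨ c = 2 * M + 3 then sqx k c
  else if M + 3 ≤ c ∧ c ≤ 2 * M + 2 then - sqx k c else 0

theorem xs_sq (k : Type u) [Field k] (M c : ℕ) : xs k M c * xs k M c = 0 := by
  obtain ⟨hsq, -⟩ := alg3 k
  unfold xs
  split_ifs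
  · exact hsq c
  · linear_combination hsq c
  · simp

/-- A window on the test elements. -/
theorem row_xs {k : Type u} [Field k] (M : ℕ) (hM : 1 ≤ M) (δ : ℕ → k) (r : ℕ)
    (h : ∀ c, M + 3 ≤ c → c ≤ 2 * M + 2 → δ (r + c) = 0) :
    row (2 * M + 3) δ (xs k M) r = algebraMap k (Sq k) (δ (r + 1)) * sqx k 1 +
      algebraMap k (Sq k) (δ (r + (M + 1))) * sqx k (M + 1) +
      algebraMap k (Sq k) (δ (r + (M + 2))) * sqx k (M + 2) +
      algebraMap k (Sq k) (δ (r + (2 * M + 3))) * sqx k (2 * M + 3) := by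
  have hJ : ({1, M + 1, M + 2, 2 * M + 3} : Finset ℕ) ⊆ Icc 1 (2 * M + 3) := by
    intro i hi
    rw [mem_insert, mem_insert, mem_insert, mem_singleton] at hi
    rw [mem_Icc]
    omega
  unfold row
  rw [← sum_subset hJ]
  · rw [sum_insert (by
      rw [mem_insert, mem_insert, mem_singleton]
      omega), sum_insert (by
      rw [mem_insert, mem_singleton]
      omega), sum_pair (by omega)]
    have e1 : xs k M 1 = sqx k 1 := by simp [xs]
    have e2 : xs k M (M + 1) = sqx k (M + 1) := by simp [xs]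
    have e3 : xs k M (M + 2) = sqx k (M + 2) := by simp [xs]
    have e4 : xs k M (2 * M + 3) = sqx k (2 * M + 3) := by simp [xs]
    have e : ∀ (a : k) (s : Sq k), a • s = algebraMap k (Sq k) a * s := fun a s =>
      Algebra.smul_def (R := k) (A := Sq k) _ _
    rw [e1, e2, e3, e4, e, e, e, e]
    ring
  · intro c hc hcJ
    rw [mem_Icc] at hc
    rw [mem_insert, mem_insert, mem_insert, mem_singleton] at hcJ
    by_cases h3 : M + 3 ≤ c ∧ c ≤ 2 * M + 2
    · rw [h c h3.1 h3.2, zero_smul]
    · have : xs k M c = 0 := by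
        unfold xs
        rw [if_neg (by omega), if_neg h3]
      rw [this, smul_zero]

/-- The four relations on the test elements. -/
theorem last {k : Type u} [Field k] (M : ℕ) (hM : 1 ≤ M) (a : k)
    (h : algebraMap k (Sq k) a * (sqx k 1 * sqx k (M + 1) * sqx k (M + 2) * sqx k (2 * M + 3) *
      ∏ i ∈ Icc 1 M, (xs k M i + xs k M (i + 1) - xs k M (M + 2 + i))) = 0) : a = 0 := by
  classical
  obtain ⟨hsq, hind⟩ := alg3 k
  set A := sqx k 1 * sqx k (M + 1) * sqx k (M + 2) * sqx k (2 * M + 3) with hA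
  have a1 : A * sqx k 1 = 0 := by
    rw [hA]
    linear_combination (sqx k (M + 1) * sqx k (M + 2) * sqx k (2 * M + 3)) * hsq 1
  have a2 : A * sqx k (M + 1) = 0 := by
    rw [hA]
    linear_combination (sqx k 1 * sqx k (M + 2) * sqx k (2 * M + 3)) * hsq (M + 1)
  have as : ∀ c, 1 ≤ c → c ≤ M + 1 → A * xs k M c = 0 := by
    intro c hc hc'
    rcases Nat.lt_or_ge c 2 with h | h
    · obtain rfl : c = 1 := by omega
      rw [show xs k M 1 = sqx k 1 by simp [xs], a1]
    · rcases Nat.lt_or_ge M c with h' | h'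
      · obtain rfl : c = M + 1 := by omega
        rw [show xs k M (M + 1) = sqx k (M + 1) by simp [xs], a2]
      · have : xs k M c = 0 := by
          unfold xs
          rw [if_neg (by omega), if_neg (by omega)]
        rw [this, mul_zero]
  have e1 : A * ∏ i ∈ Icc 1 M, (xs k M i + xs k M (i + 1) - xs k M (M + 2 + i)) =
      A * ∏ i ∈ Icc 1 M, sqx k (M + 2 + i) := by
    apply mul_prod_congr'
    intro i hi
    rw [mem_Icc] at hi
    have : xs k M (M + 2 + i) = - sqx k (M + 2 + i) := by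
      unfold xs
      rw [if_neg (by omega), if_pos (by omega)]
    rw [this]
    linear_combination as i hi.1 (by omega) + as (i + 1) (by omega) (by omega)
  rw [e1] at h
  apply hind a (insert 1 (insert (M + 1) (insert (M + 2) (insert (2 * M + 3)
    ((Icc 1 M).image fun i => M + 2 + i)))))
  have himg : ∀ c, c ∈ (Icc 1 M).image (fun i => M + 2 + i) → M + 3 ≤ c ∧ c ≤ 2 * M + 2 := by
    intro c hc
    obtain ⟨i, hi, rfl⟩ := mem_image.1 hc
    rw [mem_Icc] at hi
    refine ⟨by omega, by omega⟩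
  rw [prod_insert, prod_insert, prod_insert, prod_insert, prod_image]
  · rw [← h, hA]
    ring
  · intro a _ b _ hab
    simpa using hab
  all_goals
    try simp only [mem_insert, not_or]
  all_goals
    repeat' apply And.intro
  all_goals
    first
    | omega
    | (intro hcon
       have := himg _ hcon
       omega)

end C4L

open C4L in
/-- [C4]. -/
theorem c4 : S_C4.{u} := by
  intro k _ h2 X hX
  obtain ⟨M, rfl⟩ : ∃ M, X = M + 2 := ⟨X - 2, by omega⟩
  have hM : 3 ≤ M := by omega
  rw [show M + 2 + 1 = M + 3 by omega, show 2 * (M + 2) - 1 = 2 * M + 3 by omega]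
  apply crit1 k (M + 3) (M + 3) (2 * M + 3) (by omega) le_rfl (by omega) (q4 k M)
    (van4 k M (by omega)) {1, 2, M + 1, M + 2}
  · have := card_le_four (a := 1) (b := 2) (c := M + 1) (d := M + 2)
    omega
  intro δ hδ hB
  have b1 : δ 1 = 0 := hB 1 (by simp)
  have b2 : δ 2 = 0 := hB 2 (by simp)
  have b3 : δ (M + 1) = 0 := hB (M + 1) (by simp)
  have b4 : δ (M + 2) = 0 := hB (M + 2) (by simp)
  have R := fun x hx => rel (S := Sq k) h2 M (by omega) δ hδ x hx _ rfl
  obtain ⟨p0, s0, t0, u0⟩ := win h2 M hM (fun c => δ (0 + c)) (fun x hx => (R x hx).2.2.2.1)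
  obtain ⟨p1, s1, t1, u1⟩ := win h2 M hM (fun c => δ (M + 1 + c))
    (fun x hx => (R x hx).2.2.2.2.1)
  obtain ⟨p2, s2, t2, u2⟩ := win h2 M hM (fun c => δ (M + 2 + c))
    (fun x hx => (R x hx).2.2.2.2.2)
  simp only [zero_add] at p0 s0 t0 u0
  obtain ⟨hsq, -⟩ := alg3 k
  -- zeros
  have z0 : δ (M + 3) = 0 := by rw [← t0, b2]
  have z1 : ∀ j, M + 3 ≤ j → j ≤ 2 * M + 1 → δ j = 0 := by
    intro j hj hj'
    rcases Nat.eq_or_lt_of_le hj with h | h
    · rw [← h, z0]
    · have := p0 (j - (M + 2)) (by omega) (by omega)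
      rwa [show M + 2 + (j - (M + 2)) = j by omega] at this
  have z2 : δ (2 * M + 4) = 0 := by
    rw [show M + 1 + 2 = M + 3 by omega, show M + 1 + (M + 3) = 2 * M + 4 by omega] at t1
    rw [← t1, z0]
  have z3 : δ (3 * M + 3) = 0 := by
    rw [show M + 1 + M = 2 * M + 1 by omega,
      show M + 1 + (2 * M + 2) = 3 * M + 3 by omega] at u1
    rw [← u1, z1 (2 * M + 1) (by omega) (by omega)]
  have z4 : ∀ j, 2 * M + 4 ≤ j → j ≤ 3 * M + 3 → δ j = 0 := by
    intro j hj hj'
    rcases Nat.eq_or_lt_of_le hj with h | h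
    · rw [← h, z2]
    · rcases Nat.eq_or_lt_of_le hj' with h' | h'
      · rw [h', z3]
      · have := p1 (j - (2 * M + 3)) (by omega) (by omega)
        rwa [show M + 1 + (M + 2 + (j - (2 * M + 3))) = j by omega] at this
  have hα : δ (3 * M + 4) = δ (2 * M + 2) := by
    rw [show M + 2 + M = 2 * M + 2 by omega,
      show M + 2 + (2 * M + 2) = 3 * M + 4 by omega] at u2
    exact u2.symm
  -- the last step
  have x1 : xs k M 1 = sqx k 1 := by simp [xs]
  have x2 : xs k M (M + 1) = sqx k (M + 1) := by simp [xs]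
  have x3 : xs k M (M + 2) = sqx k (M + 2) := by simp [xs]
  have x4 : xs k M (2 * M + 3) = sqx k (2 * M + 3) := by simp [xs]
  obtain ⟨R1, R2, R3, -⟩ := R (xs k M) (xs_sq k M)
  rw [x1, x2, x3, x4] at R1 R2 R3
  have r1 : row (2 * M + 3) δ (xs k M) (M + 1) =
      algebraMap k (Sq k) (δ (2 * M + 2)) * (sqx k (M + 1) + sqx k (2 * M + 3)) +
      algebraMap k (Sq k) (δ (2 * M + 3)) * sqx k (M + 2) := by
    rw [row_xs M (by omega) δ (M + 1) (fun c h h' => z4 _ (by omega) (by omega)),
      show M + 1 + 1 = M + 2 by omega, b4, show M + 1 + (M + 1) = 2 * M + 2 by omega,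
      show M + 1 + (M + 2) = 2 * M + 3 by omega,
      show M + 1 + (2 * M + 3) = 3 * M + 4 by omega, hα, map_zero]
    ring
  set G := ∏ i ∈ Icc 1 M, (xs k M i + xs k M (i + 1) - xs k M (M + 2 + i)) with hG
  have α0 : δ (2 * M + 2) = 0 := by
    have : 2 * δ (2 * M + 2) = 0 := by
      apply last M (by omega)
      rw [← hG, map_mul, map_ofNat]
      rw [r1] at R1
      linear_combination R1 - (sqx k 1 * sqx k (M + 2) * algebraMap k (Sq k) (δ (2 * M + 2)) *
        G) * (hsq (M + 1) + hsq (2 * M + 3)) -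
        (sqx k 1 * (sqx k (M + 1) + sqx k (2 * M + 3)) *
          algebraMap k (Sq k) (δ (2 * M + 3)) * G) * hsq (M + 2)
    exact (mul_eq_zero.1 this).resolve_left h2
  have r0 : row (2 * M + 3) δ (xs k M) 0 =
      algebraMap k (Sq k) (δ (2 * M + 3)) * sqx k (2 * M + 3) := by
    rw [row_xs M (by omega) δ 0 (fun c h h' => by
      rw [zero_add]
      rcases Nat.eq_or_lt_of_le h' with h1 | h1
      · rw [h1, α0]
      · exact z1 c h (by omega)), zero_add, zero_add, zero_add, zero_add, b1, b3, b4, map_zero]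
    ring
  rw [α0, map_zero, zero_mul, zero_add] at r1
  have β0 : δ (2 * M + 3) = 0 := by
    apply last M (by omega)
    rw [← hG]
    rw [r0, r1] at R2
    linear_combination R2 - (sqx k (M + 1) * (sqx k 1 - sqx k (M + 2)) *
      algebraMap k (Sq k) (δ (2 * M + 3)) * G) * hsq (2 * M + 3) -
      (sqx k (M + 1) * sqx k (2 * M + 3) * algebraMap k (Sq k) (δ (2 * M + 3)) * G) *
        hsq (M + 2)
  have r2 : row (2 * M + 3) δ (xs k M) (M + 2) =
      algebraMap k (Sq k) (δ (3 * M + 5)) * sqx k (2 * M + 3) := by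
    rw [row_xs M (by omega) δ (M + 2) (fun c h h' => by
      rcases Nat.eq_or_lt_of_le h' with h1 | h1
      · rw [h1, show M + 2 + (2 * M + 2) = 3 * M + 4 by omega, hα, α0]
      · exact z4 _ (by omega) (by omega)), show M + 2 + 1 = M + 3 by omega, z0,
      show M + 2 + (M + 1) = 2 * M + 3 by omega, β0,
      show M + 2 + (M + 2) = 2 * M + 4 by omega, z2,
      show M + 2 + (2 * M + 3) = 3 * M + 5 by omega, map_zero]
    ring
  rw [β0, map_zero, zero_mul] at r0
  have γ0 : δ (3 * M + 5) = 0 := by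
    apply last M (by omega)
    rw [← hG]
    rw [r0, r2] at R3
    linear_combination -R3 + (sqx k 1 * sqx k (M + 2) *
      algebraMap k (Sq k) (δ (3 * M + 5)) * G) * hsq (2 * M + 3)
  intro j hj hj'
  rcases Nat.lt_or_ge j 3 with h | h
  · obtain rfl | rfl : j = 1 ∨ j = 2 := by omega
    · exact b1
    · exact b2
  rcases Nat.lt_or_ge j M with h' | h'
  · exact s0 j h (by omega)
  rcases Nat.lt_or_ge j (M + 3) with h3 | h3
  · obtain rfl | rfl | rfl : j = M ∨ j = M + 1 ∨ j = M + 2 := by omega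
    · rw [u0, α0]
    · exact b3
    · exact b4
  rcases Nat.lt_or_ge j (2 * M + 2) with h4 | h4
  · exact z1 j h3 (by omega)
  rcases Nat.lt_or_ge j (2 * M + 4) with h5 | h5
  · obtain rfl | rfl : j = 2 * M + 2 ∨ j = 2 * M + 3 := by omega
    · exact α0
    · exact β0
  rcases Nat.lt_or_ge j (3 * M + 4) with h6 | h6
  · exact z4 j h5 (by omega)
  obtain rfl | rfl : j = 3 * M + 4 ∨ j = 3 * M + 5 := by omega
  · rw [hα, α0]
  · exact γ0

end Pool.Agent.Helper86K9.HK
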