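import Pool.Agent.Helper86K9.HK.Alg
import Pool.Agent.Helper86K9.HK.Rows

/-!
# [MEM] The points `pt p x y A` lie on the permanental variety
-/

set_option autoImplicit false

namespace Pool.Agent.Helper86K9.HK

open Finset

universe u

/-- [MEM]. -/
theorem mem : S_MEM.{u} := by
  classical
  intro k _ p x y A μ ν hμ hν hμA hAν P
  have hx := P.hx
  have hA := P.hA
  have hAy := P.hAy
  have hy := P.hy
  have hAx := P.hAx
  have hx' := P.hx'
  obtain ⟨hsq, -⟩ := alg3 k
  apply alg2 k
  intro T hT hc
  set X := p * x + y with hX
  -- the blocks
  let B : ℕ → Finset ℕ := fun i =>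
    insert (i + X) ((range (p + 1)).image fun j => i + j * x)
  have hle : ∀ j ≤ p, j * x ≤ p * x := fun j hj => Nat.mul_le_mul_right x hj
  have hBsub : ∀ i < μ, B i ⊆ range (X + μ) := by
    intro i hi r hr
    rw [mem_insert, mem_image] at hr
    rw [mem_range]
    rcases hr with rfl | ⟨j, hj, rfl⟩
    · omega
    · have := hle j (by rw [mem_range] at hj; omega)
      omega
  have hdisj : ∀ i < μ, ∀ i' < μ, ∀ r, r ∈ B i → r ∈ B i' → i = i' := by
    -- it suffices to treat `i ≤ i'`
    have key : ∀ i < μ, ∀ i' < μ, i ≤ i' → ∀ r, r ∈ B i → r ∈ B i' → i = i' := by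
      intro i hi i' hi' hii r h1 h2
      rw [mem_insert, mem_image] at h1 h2
      by_contra hne
      have hlt : i < i' := by omega
      rcases h1 with h1 | ⟨j, hj, h1⟩ <;> rcases h2 with h2 | ⟨j', hj', h2⟩
      · omega
      · have := hle j' (by rw [mem_range] at hj'; omega)
        omega
      · have := hle j (by rw [mem_range] at hj; omega)
        omega
      · rw [mem_range] at hj hj'
        -- `i + j x = i' + j' x`
        have hjj : j' < j := by
          by_contra hcon
          have := Nat.mul_le_mul_right x (not_lt.1 hcon)
          omega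
        have h3 : (j' + 1) * x ≤ j * x := Nat.mul_le_mul_right x hjj
        rw [Nat.succ_mul] at h3
        have h4 := hx' (by omega)
        omega
    intro i hi i' hi' r h1 h2
    rcases le_total i i' with h | h
    · exact key i hi i' hi' h r h1 h2
    · exact (key i' hi' i hi h r h2 h1).symm
  -- a full block
  have hfull : ∃ i < μ, B i ⊆ T := by
    by_contra hcon
    push Not at hcon
    have hex : ∀ i : ℕ, ∃ r, i < μ → r ∈ B i ∧ r ∉ T := by
      intro i
      by_cases hi : i < μ
      · obtain ⟨r, h1, h2⟩ := Finset.not_subset.1 (hcon i hi)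
        exact ⟨r, fun _ => ⟨h1, h2⟩⟩
      · exact ⟨0, fun h => absurd h hi⟩
    choose f hf using hex
    have h1 : (range μ).card ≤ (range (X + μ) \ T).card := by
      apply Finset.card_le_card_of_injOn f
      · intro i hi
        have hi : i < μ := by simpa using hi
        rw [mem_coe, mem_sdiff]
        exact ⟨hBsub i hi (hf i hi).1, (hf i hi).2⟩
      · intro i hi i' hi' h
        have hi : i < μ := by simpa using hi
        have hi' : i' < μ := by simpa using hi'
        exact hdisj i hi i' hi' (f i) (hf i hi).1 (h ▸ (hf i' hi').1)
    rw [card_sdiff_of_subset hT, card_range, card_range, hc] at h1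
    omega
  obtain ⟨i, hi, hB⟩ := hfull
  rw [← Finset.prod_sdiff hB]
  have hprod : ∏ r ∈ B i, row (X + ν) (pt p x y A : ℕ → k) (sqx k) r = 0 := by
    have hnot : i + X ∉ (range (p + 1)).image fun j => i + j * x := by
      intro h
      obtain ⟨j, hj, h1⟩ := mem_image.1 h
      have := hle j (by rw [mem_range] at hj; omega)
      omega
    have hinj : Set.InjOn (fun j => i + j * x) (range (p + 1) : Set ℕ) := by
      intro j _ j' _ h
      have h : i + j * x = i + j' * x := h
      exact Nat.eq_of_mul_eq_mul_right (by omega : 0 < x) (by omega)
    rw [prod_insert hnot, prod_image hinj, prod_range_succ]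
    set n := X + ν with hn
    set u : ℕ → Sq k := fun s => bz n (sqx k) ((A : ℤ) - i + p * x - s * x) with hu
    set w : Sq k := bz n (sqx k) ((A : ℤ) - i + X) with hw
    have husq : ∀ j, u j * u j = 0 := fun j => bz_sq _ _ hsq _
    have hwsq : w * w = 0 := bz_sq _ _ hsq _
    have hXc : (X : ℤ) = p * x + y := by rw [hX]; push_cast; ring
    have r1 : ∀ j ∈ range p, row n (pt p x y A : ℕ → k) (sqx k) (i + j * x) =
        u j + u (j + 1) := by
      intro j hj
      rw [mem_range] at hj
      have h1 := hx' (by omega)
      have h5 : (j + 1) * x ≤ p * x := Nat.mul_le_mul_right x hj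
      rw [Nat.succ_mul] at h5
      have h6 : ((j * x : ℕ) : ℤ) + x ≤ ((p * x : ℕ) : ℤ) := by exact_mod_cast h5
      push_cast at h6
      rw [row_pt _ _ _ _ _ _ hx (by omega), if_pos (by omega), ← hXc]
      rw [bz_zero _ _ (c := (A : ℤ) + p * x + X - ((i + j * x : ℕ) : ℤ)),
        bz_zero _ _ (c := (A : ℤ) + p * x + X + y - ((i + j * x : ℕ) : ℤ))]
      · rw [add_zero, sub_zero, add_comm]
        simp only [hu]
        congr 2
        · push_cast
          ring
        · push_cast
          ring
      · push_cast
        generalize (p : ℤ) * x = a at *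
        generalize (j : ℤ) * x = b at *
        omega
      · push_cast
        generalize (p : ℤ) * x = a at *
        generalize (j : ℤ) * x = b at *
        omega
    have r2 : row n (pt p x y A : ℕ → k) (sqx k) (i + p * x) = u p + w := by
      rw [row_pt _ _ _ _ _ _ hx (by omega), ← hXc]
      rw [bz_zero _ _ (c := (A : ℤ) + p * x + X + y - ((i + p * x : ℕ) : ℤ))]
      · have : (if 1 ≤ p then bz n (sqx k) ((A : ℤ) + p * x - x - ((i + p * x : ℕ) : ℤ)) else 0)
            = 0 := by
          split_ifs with h
          · apply bz_zero
            have := hAx h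
            push_cast
            generalize (p : ℤ) * x = a at *
            omega
          · rfl
        rw [this, zero_add, sub_zero]
        simp only [hu, hw]
        congr 2
        · push_cast
          ring
        · push_cast
          ring
      · push_cast
        generalize (p : ℤ) * x = a at *
        omega
    have r3 : row n (pt p x y A : ℕ → k) (sqx k) (i + X) = u 0 - w := by
      rw [row_pt _ _ _ _ _ _ hx (by omega), ← hXc]
      rw [bz_zero _ _ (c := (A : ℤ) + p * x - ((i + X : ℕ) : ℤ))]
      · have : (if 1 ≤ p then bz n (sqx k) ((A : ℤ) + p * x - x - ((i + X : ℕ) : ℤ)) else 0)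
            = 0 := by
          split_ifs with h
          · apply bz_zero
            push_cast
            generalize (p : ℤ) * x = a at *
            omega
          · rfl
        rw [this, zero_add, zero_add]
        simp only [hu, hw]
        congr 2
        · push_cast
          ring
        · push_cast
          rw [hXc]
          ring
      · push_cast
        generalize (p : ℤ) * x = a at *
        omega
    rw [prod_congr rfl r1, r2, r3]
    have h0 := cyc0 u husq w hwsq p
    rw [mul_comm]
    exact h0
  rw [hprod, mul_zero]

end Pool.Agent.Helper86K9.HK
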