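import Pool.Agent.Helper86K9.HK.Crit2
import Pool.Agent.Helper86K9.HK.Mem
import Pool.Agent.Helper86K9.HK.Tan

/-!
# The shape `t = m = 9`, `n = 12`
-/

set_option autoImplicit false

namespace Pool.Agent.Helper86K9.HK.C5L

universe u

variable {k : Type u} [Field k]

lemma icc12 : Finset.Icc 1 12 = ({1, 2, 3, 4, 5, 6, 7, 8, 9, 10, 11, 12} : Finset ℕ) := by
  decide

/-- The point. -/
def q5 (j : ℕ) : k := if j = 3 ∨ j = 6 ∨ j = 14 then 1 else if j = 19 then -1 else 0

/-- The tangent vector. -/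
def a5 (j : ℕ) : k := if j = 2 ∨ j = 8 then 1 else if j = 5 then -1 else 0

lemma q5_eq : (pt 1 3 5 3 : ℕ → k) = q5 := by
  funext j
  unfold pt q5
  have e1 : ((1 ≤ 1 ∧ j + 3 = 3 + 1 * 3) ∨ j = 3 + 1 * 3 ∨ j = 3 + 1 * 3 + (1 * 3 + 5)) ↔
      (j = 3 ∨ j = 6 ∨ j = 14) := by omega
  have e2 : j = 3 + 1 * 3 + (1 * 3 + 5) + 5 ↔ j = 19 := by omega
  simp only [e1, e2]

section rows

variable {S : Type*} [CommRing S] [Algebra k S] (x : ℕ → S)

lemma q0 : row 12 (q5 : ℕ → k) x 0 = x 3 + x 6 := by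
  rw [row, icc12]; simp [q5]
lemma q1 : row 12 (q5 : ℕ → k) x 1 = x 2 + x 5 := by
  rw [row, icc12]; simp [q5]
lemma q2 : row 12 (q5 : ℕ → k) x 2 = x 1 + x 4 + x 12 := by
  rw [row, icc12]; simp [q5]; ring
lemma q3 : row 12 (q5 : ℕ → k) x 3 = x 3 + x 11 := by
  rw [row, icc12]; simp [q5]
lemma q4 : row 12 (q5 : ℕ → k) x 4 = x 2 + x 10 := by
  rw [row, icc12]; simp [q5]
lemma q5' : row 12 (q5 : ℕ → k) x 5 = x 1 + x 9 := by
  rw [row, icc12]; simp [q5]
lemma q6 : row 12 (q5 : ℕ → k) x 6 = x 8 := by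
  rw [row, icc12]; simp [q5]
lemma q7 : row 12 (q5 : ℕ → k) x 7 = x 7 - x 12 := by
  rw [row, icc12]; simp [q5]; ring
lemma q8 : row 12 (q5 : ℕ → k) x 8 = x 6 - x 11 := by
  rw [row, icc12]; simp [q5]; ring

lemma a0 : row 12 (a5 : ℕ → k) x 0 = x 2 - x 5 + x 8 := by
  rw [row, icc12]; simp [a5]; ring
lemma a1 : row 12 (a5 : ℕ → k) x 1 = x 1 - x 4 + x 7 := by
  rw [row, icc12]; simp [a5]; ring
lemma a3 : row 12 (a5 : ℕ → k) x 3 = x 5 - x 2 := by
  rw [row, icc12]; simp [a5]; ring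
lemma a8 : row 12 (a5 : ℕ → k) x 8 = 0 := by
  rw [row, icc12]; simp [a5]

end rows

lemma prod_sub_zero {S : Type*} [CommRing S] {T R : Finset ℕ} (hR : R ⊆ T) (L : ℕ → S) (f : S)
    (h : f * ∏ r ∈ R, L r = 0) : f * ∏ r ∈ T, L r = 0 := by
  rw [← Finset.prod_sdiff hR, mul_left_comm, h, mul_zero]

lemma tan_a (hq : Van 9 9 12 (q5 : ℕ → k)) : Tan 9 9 12 (q5 : ℕ → k) a5 := by
  refine tan2 k 9 9 12 q5 a5 hq fun T hT hc => ?_
  have hT' : T = Finset.range 9 := Finset.eq_of_subset_of_card_le hT (by rw [hc]; simp)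
  subst hT'
  have hs := (alg3 k).1
  refine Finset.sum_eq_zero fun r hr => ?_
  by_cases h0 : r = 0
  · subst h0
    refine prod_sub_zero (R := {1, 6}) (by decide) _ _ ?_
    rw [Finset.prod_pair (by norm_num), a0, q1, q6]
    linear_combination sqx k 8 * hs 2 - sqx k 8 * hs 5 +
      (sqx k 2 + sqx k 5) * hs 8
  by_cases h3 : r = 3
  · subst h3
    refine prod_sub_zero (R := {1}) (by decide) _ _ ?_
    rw [Finset.prod_singleton, a3, q1]
    linear_combination hs 5 - hs 2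
  by_cases h8 : r = 8
  · subst h8
    rw [a8, zero_mul]
  refine prod_sub_zero (R := {0, 3, 8}) ?_ _ _ ?_
  · intro i hi
    simp only [Finset.mem_insert, Finset.mem_singleton] at hi
    rw [Finset.mem_erase, Finset.mem_range]
    omega
  · rw [Finset.prod_insert (by decide), Finset.prod_pair (by norm_num), q0, q3, q8]
    have h : (sqx k 3 + sqx k 6) * ((sqx k 3 + sqx k 11) * (sqx k 6 - sqx k 11)) = 0 := by
      linear_combination (sqx k 6 - sqx k 11) * hs 3 + (sqx k 3 + sqx k 11) * hs 6 -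
        (sqx k 3 + sqx k 6) * hs 11
    rw [h, mul_zero]

/-- The substitution `x 5 = - x 2`, `x 6 = - x 3`. -/
noncomputable def xs (k : Type u) [Field k] (c : ℕ) : Sq k :=
  if c = 5 then -sqx k 2 else if c = 6 then -sqx k 3 else sqx k c

lemma no_w (h2 : (2 : k) ≠ 0) (w : ℕ → k) : ¬ Van 9 9 12 (pt2 (q5 : ℕ → k) a5 a5 w) := by
  intro hv
  have hs := (alg3 k).1
  have hxs : ∀ c, xs k c * xs k c = 0 := by
    intro c
    unfold xs
    split_ifs
    · linear_combination hs 2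
    · linear_combination hs 3
    · exact hs c
  have h1 := tan3 k (Sq k) 9 9 12 q5 a5 a5 w hv (xs k) hxs (Finset.range 9) (by simp) (by simp)
  have e0 : row 12 (q5 : ℕ → k) (xs k) 0 = 0 := by rw [q0]; simp [xs]
  have e1 : row 12 (q5 : ℕ → k) (xs k) 1 = 0 := by rw [q1]; simp [xs]
  rw [Finset.sum_eq_zero, zero_add] at h1
  swap
  · intro r hr
    by_cases hr0 : r = 0
    · rw [Finset.prod_eq_zero (i := 1) (by subst hr0; decide) e1, mul_zero]
    · rw [Finset.prod_eq_zero (i := 0) (by simp; omega) e0, mul_zero]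
  have hz : ∀ r r', ¬ (r = 0 ∧ r' = 1) → ¬ (r = 1 ∧ r' = 0) → r ≠ r' →
      ∏ r'' ∈ ((Finset.range 9).erase r).erase r', row 12 (q5 : ℕ → k) (xs k) r'' = 0 := by
    intro r r' hA hB hC
    by_cases h0 : r ≠ 0 ∧ r' ≠ 0
    · exact Finset.prod_eq_zero (i := 0) (by simp; omega) e0
    · exact Finset.prod_eq_zero (i := 1) (by simp; omega) e1
  rw [Finset.sum_eq_add (0 : ℕ) 1 (by norm_num) ?_ (by simp) (by simp)] at h1
  swap
  · intro r _ hr
    exact Finset.sum_eq_zero fun r' hr' => by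
      rw [hz r r' (by omega) (by omega) (by
        intro h; subst h; simp at hr'), mul_zero]
  rw [Finset.sum_eq_single 1 (fun r' hr' hr2 => by
      rw [hz 0 r' (by omega) (by omega) (by
        intro h; subst h; simp at hr'), mul_zero]) (by simp),
    Finset.sum_eq_single 0 (fun r' hr' hr2 => by
      rw [hz 1 r' (by omega) (by omega) (by
        intro h; subst h; simp at hr'), mul_zero]) (by simp)] at h1
  have hset1 : ((Finset.range 9).erase 0).erase 1 = ({2, 3, 4, 5, 6, 7, 8} : Finset ℕ) := by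
    decide
  have hset2 : ((Finset.range 9).erase 1).erase 0 = ({2, 3, 4, 5, 6, 7, 8} : Finset ℕ) := by
    decide
  rw [hset1, hset2] at h1
  have hp : ∏ r ∈ ({2, 3, 4, 5, 6, 7, 8} : Finset ℕ), row 12 (q5 : ℕ → k) (xs k) r =
      (sqx k 1 + sqx k 4 + sqx k 12) * ((sqx k 3 + sqx k 11) * ((sqx k 2 + sqx k 10) *
        ((sqx k 1 + sqx k 9) * (sqx k 8 * ((sqx k 7 - sqx k 12) * (-sqx k 3 - sqx k 11)))))) := by
    rw [Finset.prod_insert (by decide), Finset.prod_insert (by decide),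
      Finset.prod_insert (by decide), Finset.prod_insert (by decide),
      Finset.prod_insert (by decide), Finset.prod_pair (by norm_num), q2, q3, q4, q5', q6, q7, q8]
    simp [xs]
  rw [hp, a0, a1] at h1
  have hx2 : xs k 2 - xs k 5 + xs k 8 = 2 * sqx k 2 + sqx k 8 := by simp [xs]; ring
  have hx1 : xs k 1 - xs k 4 + xs k 7 = sqx k 1 - sqx k 4 + sqx k 7 := by simp [xs]
  rw [hx2, hx1] at h1
  have f1 : (sqx k 1 - sqx k 4 + sqx k 7) * (sqx k 1 + sqx k 4 + sqx k 12) *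
      (sqx k 7 - sqx k 12) = -2 * sqx k 4 * sqx k 7 * sqx k 12 := by
    linear_combination (sqx k 7 - sqx k 12) * hs 1 - (sqx k 7 - sqx k 12) * hs 4 +
      (-(sqx k 1 - sqx k 4) - sqx k 7) * hs 12 + (sqx k 1 + sqx k 4 + sqx k 12) * hs 7
  have f2 : (2 * sqx k 2 + sqx k 8) * (sqx k 2 + sqx k 10) * sqx k 8 =
      2 * sqx k 2 * sqx k 8 * sqx k 10 := by
    linear_combination 2 * sqx k 8 * hs 2 + (sqx k 2 + sqx k 10) * hs 8
  have f3 : (sqx k 3 + sqx k 11) * (-sqx k 3 - sqx k 11) = -2 * sqx k 3 * sqx k 11 := by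
    linear_combination -hs 3 - hs 11
  have f4 : 16 * (sqx k 2 * sqx k 3 * sqx k 4 * sqx k 7 * sqx k 8 * sqx k 10 * sqx k 11 *
      sqx k 12) * (sqx k 1 + sqx k 9) = 0 := by
    rw [← h1]
    have f5 : (2 * sqx k 2 + sqx k 8) * (sqx k 1 - sqx k 4 + sqx k 7) *
        ((sqx k 1 + sqx k 4 + sqx k 12) * ((sqx k 3 + sqx k 11) * ((sqx k 2 + sqx k 10) *
        ((sqx k 1 + sqx k 9) * (sqx k 8 * ((sqx k 7 - sqx k 12) *
        (-sqx k 3 - sqx k 11))))))) =
        ((sqx k 1 - sqx k 4 + sqx k 7) * (sqx k 1 + sqx k 4 + sqx k 12) *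
          (sqx k 7 - sqx k 12)) * ((2 * sqx k 2 + sqx k 8) * (sqx k 2 + sqx k 10) * sqx k 8) *
        ((sqx k 3 + sqx k 11) * (-sqx k 3 - sqx k 11)) * (sqx k 1 + sqx k 9) := by ring
    have f6 : (sqx k 1 - sqx k 4 + sqx k 7) * (2 * sqx k 2 + sqx k 8) *
        ((sqx k 1 + sqx k 4 + sqx k 12) * ((sqx k 3 + sqx k 11) * ((sqx k 2 + sqx k 10) *
        ((sqx k 1 + sqx k 9) * (sqx k 8 * ((sqx k 7 - sqx k 12) *
        (-sqx k 3 - sqx k 11))))))) =
        ((sqx k 1 - sqx k 4 + sqx k 7) * (sqx k 1 + sqx k 4 + sqx k 12) *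
          (sqx k 7 - sqx k 12)) * ((2 * sqx k 2 + sqx k 8) * (sqx k 2 + sqx k 10) * sqx k 8) *
        ((sqx k 3 + sqx k 11) * (-sqx k 3 - sqx k 11)) * (sqx k 1 + sqx k 9) := by ring
    rw [f5, f6, f1, f2, f3]
    ring
  have f7 : algebraMap k (Sq k) 16 * ∏ c ∈ ({1, 2, 3, 4, 7, 8, 9, 10, 11, 12} : Finset ℕ),
      sqx k c = 0 := by
    rw [Finset.prod_insert (by decide), Finset.prod_insert (by decide),
      Finset.prod_insert (by decide), Finset.prod_insert (by decide),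
      Finset.prod_insert (by decide), Finset.prod_insert (by decide),
      Finset.prod_insert (by decide), Finset.prod_insert (by decide),
      Finset.prod_pair (by norm_num)]
    have h16 : algebraMap k (Sq k) 16 = 16 := by
      rw [map_ofNat]
    rw [h16]
    linear_combination sqx k 9 * f4 - 16 * (sqx k 2 * sqx k 3 * sqx k 4 * sqx k 7 * sqx k 8 *
      sqx k 10 * sqx k 11 * sqx k 12) * hs 9
  have f8 := (alg3 k).2 _ _ f7
  have f9 : (2 : k) ^ 4 = 0 := by
    rw [← f8]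
    norm_num
  exact h2 (pow_eq_zero_iff (by norm_num) |>.1 f9)

end Pool.Agent.Helper86K9.HK.C5L

namespace Pool.Agent.Helper86K9.HK

universe u

open C5L in
theorem c5 (hD : S_DREL.{u}) : S_C5.{u} := by
  intro k _ h2
  have hPar : Par 1 3 5 3 4 := ⟨by norm_num, by norm_num, by norm_num, by norm_num,
    by norm_num, fun _ => by norm_num, fun _ => by norm_num⟩
  have hq : Van 9 9 12 (q5 : ℕ → k) := by
    have h := mem k 1 3 5 3 1 4 (by norm_num) (by norm_num) (by norm_num) (by norm_num) hPar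
    rw [q5_eq] at h
    exact h
  refine crit2 k 9 9 12 (by norm_num) (by norm_num) (by norm_num) q5 hq
    {1, 2, 3, 5, 6, 8, 11, 14, 16} (by decide) ?_ a5 a5 (tan_a hq) (tan_a hq) (no_w h2)
  intro δ hT hB
  have hT' : Tan (1 * 3 + 5 + 1) (1 * 3 + 5 + 1) (1 * 3 + 5 + 4) (pt 1 3 5 3 : ℕ → k) δ := by
    rw [q5_eq]
    exact hT
  obtain ⟨r1, r2, r3, -, r5⟩ := hD k h2 1 3 5 3 4 hPar δ hT'
  have R0 : InR 1 3 5 0 := Or.inl ⟨0, by norm_num, by norm_num⟩
  have R3 : InR 1 3 5 3 := Or.inl ⟨1, by norm_num, by norm_num⟩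
  have R8 : InR 1 3 5 8 := Or.inr (by norm_num)
  have b : ∀ j ∈ ({1, 2, 3, 5, 6, 8, 11, 14, 16} : Finset ℕ), δ j = 0 := hB
  have b1 := b 1 (by decide)
  have b2 := b 2 (by decide)
  have b3 := b 3 (by decide)
  have b5 := b 5 (by decide)
  have b6 := b 6 (by decide)
  have b8 := b 8 (by decide)
  have b11 := b 11 (by decide)
  have b14 := b 14 (by decide)
  have b16 := b 16 (by decide)
  have b4 : δ 4 = 0 := by
    have h := r3 1 0 (by norm_num) (by norm_num) (by norm_num) (by norm_num) R0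
    simpa using h
  have b7 : δ 7 = 0 := by
    have h := r3 1 3 (by norm_num) (by norm_num) (by norm_num) (by norm_num) R3
    simpa using h
  have b12 : δ 12 = 0 := by
    have h := r3 1 8 (by norm_num) (by norm_num) (by norm_num) (by norm_num) R8
    simpa using h
  have b9 : δ 9 = 0 := by
    have h := r1 1 0 (by norm_num) (by norm_num) R0
    simpa [Finset.sum_range_succ, b1, b4] using h
  have b17 : δ 17 = 0 := by
    have h := r1 1 8 (by norm_num) (by norm_num) R8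
    simpa [Finset.sum_range_succ, b9, b12] using h
  have b10 : δ 10 = 0 := by
    have h := r1 2 0 (by norm_num) (by norm_num) R0
    simpa [Finset.sum_range_succ, b2, b5] using h
  have b13 : δ 13 = 0 := by
    have h := r1 2 3 (by norm_num) (by norm_num) R3
    simpa [Finset.sum_range_succ, b5, b8] using h
  have b18 : δ 18 = 0 := by
    have h := r1 2 8 (by norm_num) (by norm_num) R8
    simpa [Finset.sum_range_succ, b10, b13] using h
  have b15 : δ 15 = 0 := by
    have h := r2 4 3 (by norm_num) (by norm_num) R3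
    simpa [Finset.sum_range_succ, b7, b10] using h
  have b20 : δ 20 = 0 := by
    have h := r2 4 8 (by norm_num) (by norm_num) R8
    simpa [Finset.sum_range_succ, b12, b15] using h
  have b19 : δ 19 = 0 := by
    refine r5 fun r c hr hc hrc => ?_
    have hR : ∀ r, InR 1 3 5 r → r = 0 ∨ r = 3 ∨ r = 8 := by
      rintro r (⟨i, hi, rfl⟩ | rfl)
      · interval_cases i <;> simp
      · simp
    rcases hR r hr with rfl | rfl | rfl <;> rcases hR c hc with rfl | rfl | rfl <;>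
      first
      | assumption
      | exact absurd ⟨rfl, rfl⟩ hrc
  intro j hj1 hj2
  interval_cases j <;> assumption

end Pool.Agent.Helper86K9.HK
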