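import Pool.Agent.Helper86K9.HK.Low

/-!
The relation of the block.
-/

set_option autoImplicit false

namespace Pool.Agent.Helper86K9.HK

open Finset

universe u

section

variable {k : Type u} [Field k] {p x y A e : ℕ}

theorem drel_blk (hT : S_TAN1.{u}) (h3 : S_ALG3.{u}) (P : Par p x y A e)
    (δ : ℕ → k)
    (hδ : Tan (p * x + y + 1) (p * x + y + 1) (p * x + y + e) (pt p x y A) δ)
    (h0 : ∀ r c, InR p x y r → InR p x y c → ¬ (r = p * x + y ∧ c = p * x + y) →
        δ (A + r + c) = 0) : δ (A + (p * x + y) + (p * x + y)) = 0 := by
  classical
  have hx := P.hx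
  have hA := P.hA
  have hAy := P.hAy
  have hy : 1 ≤ y := le_trans hA hAy
  have hAe := P.hAe
  have hAx := P.hAx
  have hx' := P.hx'
  have hey := P.hy
  set C : Finset ℕ := Icc A (A + (p * x + y)) with hCdef
  have memC : ∀ c, c ∈ C ↔ (A ≤ c ∧ c ≤ A + (p * x + y)) := by
    intro c
    rw [hCdef, mem_Icc]
  set xx := xc k C with hxx
  have hsq : ∀ c, xx c * xx c = 0 := xc_sq h3 C
  have px : ∀ i, i ≤ p → i * x ≤ p * x := fun i hi => Nat.mul_le_mul_right x hi
  have px' : ∀ i, i < p → i * x + x ≤ p * x := by
    intro i hi
    have := Nat.mul_le_mul_right x (Nat.succ_le_of_lt hi)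
    rwa [Nat.succ_mul] at this
  have key := hT k (Sq k) _ _ _ _ _ hδ xx hsq (range (p * x + y + 1)) subset_rfl (card_range _)
  set g : ℕ → Sq k := row (p * x + y + e) (pt p x y A : ℕ → k) xx with hg
  have hu : ∀ j, uu p x y A e xx j * uu p x y A e xx j = 0 := fun j => bz_sq _ _ hsq _
  have hw : ww p x y A e xx * ww p x y A e xx = 0 := bz_sq _ _ hsq _
  have hgi : ∀ i, i < p → g (i * x) = uu p x y A e xx i + uu p x y A e xx (i + 1) :=
    fun i hi => row_blk xx P i hi
  have hgp : g (p * x) = uu p x y A e xx p + ww p x y A e xx := row_blk_p xx P
  have hgX : g (p * x + y) = uu p x y A e xx 0 - ww p x y A e xx := row_blk_X xx P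
  -- the rows outside the block
  have hfirst : ∀ j, 1 ≤ j → j < x → ∏ i ∈ range p, g (i * x + j) =
      ∏ i ∈ range p, xx (A + p * x - (i * x + j)) := by
    intro j hj hjx
    have e1 : ∀ i ∈ range p, g (i * x + j) =
        bz (p * x + y + e) xx (A + p * x - (i : ℕ) * x - j) +
        bz (p * x + y + e) xx (A + p * x - (i + 1 : ℕ) * x - j) := by
      intro i hi
      rw [mem_range] at hi
      have h6 := px' i hi
      rw [hg, row_first P xx hi hjx, bz_xc_zero (z := (A : ℤ) + p * x + (p * x + y) - i * x - j),
        add_zero]
      intro c hc
      rw [memC] at hc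
      have e1 : ((i * x : ℕ) : ℤ) = i * x := by push_cast; ring
      have e2 : ((p * x : ℕ) : ℤ) = p * x := by push_cast; ring
      rw [← e1, ← e2]
      omega
    rw [prod_congr rfl e1, path0 (fun i => bz (p * x + y + e) xx (A + p * x - (i : ℕ) * x - j))
      (fun i => bz_sq _ _ hsq _)]
    · refine prod_congr rfl fun i hi => ?_
      rw [mem_range] at hi
      have h6 := px' i hi
      apply bz_eq
      · rw [Nat.cast_sub (by omega)]
        push_cast
        ring
      · omega
      · omega
    · apply bz_xc_zero
      intro c hc
      rw [memC] at hc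
      omega
  have hsecond : ∀ j, 1 ≤ j → j < y → g (p * x + j) = xx (A + (p * x + y) - j) := by
    intro j hj hjy
    rw [hg, row_second P xx hj, bz_xc_zero (z := (A : ℤ) - j),
      bz_xc_zero (z := (A : ℤ) + (p * x + y) + y - j), zero_add, sub_zero]
    · apply bz_eq
      · rw [Nat.cast_sub (by omega)]
        push_cast
        ring
      · omega
      · omega
    · intro c hc
      rw [memC] at hc
      have e2 : ((p * x : ℕ) : ℤ) = p * x := by push_cast; ring
      rw [← e2]
      omega
    · intro c hc
      rw [memC] at hc
      omega
  have Z := zed (k := k) P xx xx (fun _ => 1) (fun _ => 1) (by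
      intro i hi
      have h5 := px i hi
      unfold uu
      symm
      apply bz_eq
      · rw [Nat.cast_sub (by omega)]
        push_cast
        ring
      · omega
      · omega) (by
      unfold ww
      symm
      apply bz_eq
      · push_cast
        ring
      · omega
      · omega) (by
      intro j hj hjx
      rw [mul_one]
      exact hfirst j hj hjx) (by
      intro j hj hjy
      rw [mul_one]
      exact hsecond j hj hjy)
  rw [prod_const_one, prod_const_one, mul_one, mul_one] at Z
  have hprod : ∏ c ∈ Icc A (A + (p * x + y)), xx c = ∏ c ∈ C, sqx k c :=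
    prod_congr rfl fun c hc => xc_mem hc
  rw [hprod] at Z
  -- private columns
  have hpriv : ∀ c ∈ C, (∀ s, InR p x y s → c ≠ A + s) → xx c * GG k p x y A e xx = 0 := by
    intro c hc hs
    have hdvd : xx c ∣ GG k p x y A e xx := by
      unfold GG
      rw [memC] at hc
      rcases Nat.lt_or_ge c (A + p * x) with h | h
      · apply Dvd.dvd.mul_right
        have hp : 1 ≤ p := by
          by_contra hp
          obtain rfl : p = 0 := by omega
          simp at h
          omega
        -- c = A + p x - (i x + j)
        set q := A + p * x - c with hq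
        have hqx : q < p * x ∨ q = p * x := by omega
        have hq' : q % x ≠ 0 := by
          intro h7
          have h8 : q = q / x * x := by
            have := Nat.div_add_mod q x
            rw [h7, add_zero, mul_comm] at this
            exact this.symm
          have h9 : q / x ≤ p := by
            apply Nat.div_le_of_le_mul
            rw [mul_comm]
            omega
          have h13 : (p - q / x) * x = p * x - q := by
            rw [Nat.sub_mul]
            exact congrArg _ h8.symm
          refine hs ((p - q / x) * x) (Or.inl ⟨p - q / x, Nat.sub_le _ _, rfl⟩) ?_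
          rw [h13]
          omega
        have h9 : q / x < p := by
          apply Nat.div_lt_of_lt_mul
          rw [mul_comm]
          rcases hqx with h | h
          · exact h
          · exfalso
            apply hq'
            rw [h]
            exact Nat.mul_mod_left p x
        have h10 : q / x * x + q % x = q := by
          rw [mul_comm]
          exact Nat.div_add_mod q x
        have h11 : q % x < x := Nat.mod_lt _ (by omega)
        refine Dvd.dvd.trans ?_ (dvd_prod_of_mem _ (mem_Ico.2 ⟨Nat.pos_of_ne_zero hq', h11⟩))
        have h12 := hfirst (q % x) (Nat.pos_of_ne_zero hq') h11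
        rw [hg] at h12
        rw [h12]
        refine Dvd.dvd.trans ?_ (dvd_prod_of_mem _ (mem_range.2 h9))
        rw [h10]
        apply dvd_of_eq
        congr 1
        omega
      · apply Dvd.dvd.mul_left
        have h1 : c ≠ A + p * x := by
          have := hs (p * x) (Or.inl ⟨p, le_rfl, rfl⟩)
          exact this
        have h2 : c ≠ A + (p * x + y) := hs _ (Or.inr rfl)
        have h12 := hsecond (A + (p * x + y) - c) (by omega) (by omega)
        refine Dvd.dvd.trans ?_ (dvd_prod_of_mem _ (mem_Ico.2
          ⟨(by omega : 1 ≤ A + (p * x + y) - c), by omega⟩))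
        rw [hg] at h12
        rw [h12]
        apply dvd_of_eq
        congr 1
        omega
    obtain ⟨z, hz⟩ := hdvd
    rw [hz, ← mul_assoc, hsq, zero_mul]
  have hXT : p * x + y ∈ range (p * x + y + 1) := mem_range.2 (by omega)
  -- products with one row omitted
  have upd : ∀ r ∈ range (p * x + y + 1), ∏ r' ∈ (range (p * x + y + 1)).erase r, g r' =
      ∏ r' ∈ range (p * x + y + 1), Function.update g r 1 r' := by
    intro r hr
    rw [← mul_prod_erase _ _ hr, Function.update_self, one_mul]
    refine prod_congr rfl fun s hs => ?_
    rw [Function.update_of_ne (mem_erase.1 hs).1]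
  have hXne : ∀ i, i ≤ p → i * x ≠ p * x + y := by
    intro i hi h
    have := px i hi
    omega
  -- for a row of the block, the rest is a multiple of GG
  have hblk : ∀ r, InR p x y r → ∃ w : Sq k,
      ∏ r' ∈ (range (p * x + y + 1)).erase r, g r' = w * GG k p x y A e xx := by
    intro r hr
    have hlt : r ∈ range (p * x + y + 1) := by
      rw [mem_range]
      rcases hr with ⟨i, hi, rfl⟩ | rfl
      · have := px i hi
        omega
      · omega
    rw [upd r hlt, prod_rows _ p hx hy]
    refine ⟨_, congrArg₂ _ rfl ?_⟩
    unfold GG
    congr 1
    · refine prod_congr rfl fun j hj => prod_congr rfl fun i hi => ?_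
      rw [mem_Ico] at hj
      rw [mem_range] at hi
      rw [Function.update_of_ne]
      rcases hr with ⟨i', hi', rfl⟩ | rfl
      · intro h
        rcases Nat.lt_or_ge i i' with h5 | h5
        · have := Nat.mul_le_mul_right x (Nat.succ_le_of_lt h5)
          rw [Nat.succ_mul] at this
          omega
        · have := Nat.mul_le_mul_right x h5
          omega
      · have := px' i hi
        omega
    · refine prod_congr rfl fun j hj => ?_
      rw [mem_Ico] at hj
      rw [Function.update_of_ne]
      rcases hr with ⟨i', hi', rfl⟩ | rfl
      · have := px i' hi'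
        omega
      · omega
  have hnon : ∀ r ∈ range (p * x + y + 1), ¬ InR p x y r →
      ∏ r' ∈ (range (p * x + y + 1)).erase r, g r' = 0 := by
    intro r hr hnr
    rw [upd r hr, prod_rows _ p hx hy]
    have a1 : Function.update g r 1 (p * x) = g (p * x) := by
      rw [Function.update_of_ne]
      intro h
      exact hnr (Or.inl ⟨p, le_rfl, h.symm⟩)
    have a2 : Function.update g r 1 (p * x + y) = g (p * x + y) := by
      rw [Function.update_of_ne]
      intro h
      exact hnr (Or.inr h.symm)
    have a3 : ∏ i ∈ range p, Function.update g r 1 (i * x) =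
        ∏ i ∈ range p, (uu p x y A e xx i + uu p x y A e xx (i + 1)) := by
      refine prod_congr rfl fun i hi => ?_
      rw [mem_range] at hi
      rw [Function.update_of_ne, hgi i hi]
      intro h
      exact hnr (Or.inl ⟨i, hi.le, h.symm⟩)
    rw [a1, a2, a3, hgp, hgX, cyc0 _ hu _ hw, zero_mul]
  have hmain : row (p * x + y + e) δ xx (p * x + y) *
      ∏ r' ∈ (range (p * x + y + 1)).erase (p * x + y), g r' =
      algebraMap k (Sq k) (δ (A + (p * x + y) + (p * x + y))) * ∏ c ∈ C, sqx k c := by
    have hXC : A + (p * x + y) ∈ Icc 1 (p * x + y + e) := mem_Icc.2 ⟨by omega, by omega⟩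
    unfold row
    rw [sum_mul, sum_eq_single_of_mem _ hXC]
    · rw [show p * x + y + (A + (p * x + y)) = A + (p * x + y) + (p * x + y) by ring,
        Algebra.smul_def, mul_assoc]
      congr 1
      rw [← Z, upd _ hXT, prod_rows _ p hx hy, Function.update_self]
      have a1 : Function.update g (p * x + y) 1 (p * x) = g (p * x) := by
        rw [Function.update_of_ne (hXne p le_rfl)]
      have a3 : ∏ i ∈ range p, Function.update g (p * x + y) 1 (i * x) =
          ∏ i ∈ range p, (uu p x y A e xx i + uu p x y A e xx (i + 1)) := by
        refine prod_congr rfl fun i hi => ?_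
        rw [mem_range] at hi
        rw [Function.update_of_ne (hXne i hi.le), hgi i hi]
      have a4 : (∏ j ∈ Ico 1 x, ∏ i ∈ range p, Function.update g (p * x + y) 1 (i * x + j)) *
          ∏ j ∈ Ico 1 y, Function.update g (p * x + y) 1 (p * x + j) = GG k p x y A e xx := by
        unfold GG
        congr 1
        · refine prod_congr rfl fun j hj => prod_congr rfl fun i hi => ?_
          rw [mem_Ico] at hj
          rw [mem_range] at hi
          rw [Function.update_of_ne]
          have := px' i hi
          omega
        · refine prod_congr rfl fun j hj => ?_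
          rw [mem_Ico] at hj
          rw [Function.update_of_ne]
          omega
      have a5 : xx (A + (p * x + y)) = ww p x y A e xx := by
        unfold ww
        symm
        apply bz_eq
        · push_cast
          ring
        · omega
        · omega
      rw [a1, a3, a4, hgp, a5]
      unfold BB
      have := path (uu p x y A e xx) hu p p le_rfl
      rw [← this]
      linear_combination ((∏ i ∈ range p, (uu p x y A e xx i + uu p x y A e xx (i + 1))) *
        GG k p x y A e xx) * hw
    · intro c hc hne
      by_cases hcC : c ∈ C
      · by_cases hs : ∀ s, InR p x y s → c ≠ A + s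
        · obtain ⟨w, hw'⟩ := hblk (p * x + y) (Or.inr rfl)
          rw [hw', Algebra.smul_def]
          linear_combination (algebraMap k (Sq k) (δ (p * x + y + c)) * w) * hpriv c hcC hs
        · push Not at hs
          obtain ⟨s, hs, rfl⟩ := hs
          have : δ (p * x + y + (A + s)) = 0 := by
            rw [show p * x + y + (A + s) = A + (p * x + y) + s by ring]
            refine h0 _ _ (Or.inr rfl) hs ?_
            rintro ⟨_, h⟩
            exact hne (by rw [h])
          rw [this, zero_smul, zero_mul]
      · have : xx c = 0 := xc_not hcC
        rw [this, smul_zero, zero_mul]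
  have hrest : ∀ r ∈ range (p * x + y + 1), r ≠ p * x + y → row (p * x + y + e) δ xx r *
      ∏ r' ∈ (range (p * x + y + 1)).erase r, g r' = 0 := by
    intro r hr hrX
    by_cases hrR : InR p x y r
    · unfold row
      rw [sum_mul]
      refine sum_eq_zero fun c hc => ?_
      by_cases hcC : c ∈ C
      · by_cases hs : ∀ s, InR p x y s → c ≠ A + s
        · obtain ⟨w, hw'⟩ := hblk r hrR
          rw [hw', Algebra.smul_def]
          linear_combination (algebraMap k (Sq k) (δ (r + c)) * w) * hpriv c hcC hs
        · push Not at hs
          obtain ⟨s, hs, rfl⟩ := hs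
          have : δ (r + (A + s)) = 0 := by
            rw [show r + (A + s) = A + r + s by ring]
            exact h0 _ _ hrR hs fun h => hrX h.1
          rw [this, zero_smul, zero_mul]
      · have : xx c = 0 := xc_not hcC
        rw [this, smul_zero, zero_mul]
    · rw [hnon r hr hrR, mul_zero]
  rw [← add_sum_erase _ _ hXT, hmain, sum_eq_zero, add_zero] at key
  · exact (h3 k).2 _ _ key
  · intro r hr
    rw [mem_erase] at hr
    exact hrest r hr.2 hr.1

end

end Pool.Agent.Helper86K9.HK
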