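import Pool.Agent.Helper86K9.HK.Eq2
import Pool.Agent.Helper86K9.HK.BlkEq

/-!
All relations for tangent vectors at the point.
-/

set_option autoImplicit false

namespace Pool.Agent.Helper86K9.HK

open Finset

universe u

theorem drel (hT : S_TAN1.{u}) (h3 : S_ALG3.{u}) : S_DREL.{u} := by
  intro k _ h2 p x y A e P δ hδ
  have hx := P.hx
  have low := fun D r hD hDA hr => drel_low (k := k) hT h3 h2 P δ hδ D r hD hDA hr
  have high := fun D r hD hDA hr => drel_high (k := k) hT h3 h2 P δ hδ D r hD hDA hr
  have two : ∀ z : k, 2 * z = 0 → z = 0 := fun z hz => (mul_eq_zero.1 hz).resolve_left h2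
  have comb : ∀ D r, 1 ≤ p → 1 ≤ D → D < A → D + x ≤ e → InR p x y r →
      (∑ i ∈ range p, δ (D + r + (i + 1) * x)) + δ (r + D) + δ (r + (D + (p * x + y))) = 0 ∧
      (∑ i ∈ range p, δ (D + r + (i + 1) * x)) - δ (r + (D + x + p * x)) +
        δ (r + (D + x + (p * x + y))) = 0 := by
    intro D r hp hD hDA hDx hr
    have l := low D r hD hDA hr
    have h := high (D + x) r hDx (by have := P.hAx hp; omega) hr
    rw [sum_range_succ', zero_mul, add_zero] at l
    constructor
    · rw [show r + D = D + r by omega, show r + (D + (p * x + y)) = D + r + (p * x + y) by omega]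
      exact l
    · rw [show r + (D + x + p * x) = D + x + r + p * x by omega,
        show r + (D + x + (p * x + y)) = D + x + r + (p * x + y) by omega]
      rw [← h]
      congr 2
      refine sum_congr rfl fun i _ => ?_
      congr 1
      rw [Nat.succ_mul]
      omega
  have eqs : ∀ D r, 1 ≤ p → y = x → 1 ≤ D → D < A → D + x ≤ e → InR p x y r →
      ∑ i ∈ range p, δ (D + r + (i + 1) * x) = 0 ∧ δ (D + r + (p * x + y)) = 0 := by
    intro D r hp hyx hD hDA hDx hr
    obtain ⟨c1, c2⟩ := comb D r hp hD hDA hDx hr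
    have e1 := drel_eq1 (k := k) hT h3 h2 P δ hδ D r hp hyx hD hDA hDx hr
    have e2 := drel_eq2 (k := k) hT h3 h2 P δ hδ D r hp hyx hD hDA hDx hr
    have z1 : δ (r + D) = 0 := two _ (by linear_combination e1 - e2)
    have z2 : δ (r + (D + x + (p * x + y))) = 0 := by linear_combination e1 - z1
    rw [show D + x + p * x = D + (p * x + y) by omega, z2] at c2
    rw [z1] at c1
    have z3 : δ (r + (D + (p * x + y))) = 0 := two _ (by linear_combination c1 - c2)
    rw [show D + r + (p * x + y) = r + (D + (p * x + y)) by omega]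
    exact ⟨by linear_combination c1 - z3, z3⟩
  refine ⟨low, fun D r hDA hD hr => high D r hD hDA hr, ?_, ?_, ?_⟩
  · intro D r hp hD hDA hDx hr
    by_cases hyx : y = x
    · exact (eqs D r hp hyx hD hDA hDx hr).1
    · obtain ⟨c1, c2⟩ := comb D r hp hD hDA hDx hr
      have t := drel_third (k := k) hT h3 h2 P δ hδ D r hp hyx hD hDA hDx hr
      exact two _ (by linear_combination c1 + c2 - t)
  · intro D r hp hyx hD hDA hDx hr
    exact (eqs D r hp hyx hD hDA hDx hr).2
  · exact drel_blk hT h3 P δ hδ

end Pool.Agent.Helper86K9.HK
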