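import Pool.Agent.Helper86K9.HK.Crit1
import Pool.Agent.Helper86K9.HK.Mem
import Pool.Agent.Helper86K9.HK.Tan

/-!
# The case `t < m ≤ n ≤ 2 t - 2`
-/

set_option autoImplicit false

namespace Pool.Agent.Helper86K9.HK.Fin2L

universe u

variable {k : Type u} [Field k]

lemma pt_shift (p x y A i : ℕ) (hi : i < A) :
    (fun j => (pt p x y A (i + j) : k)) = pt p x y (A - i) := by
  funext j
  unfold pt
  obtain ⟨P, hP⟩ : ∃ P, p * x = P := ⟨_, rfl⟩
  rw [hP]
  have e1 : ((1 ≤ p ∧ i + j + x = A + P) ∨ i + j = A + P ∨ i + j = A + P + (P + y)) ↔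
      ((1 ≤ p ∧ j + x = A - i + P) ∨ j = A - i + P ∨ j = A - i + P + (P + y)) := by omega
  have e2 : i + j = A + P + (P + y) + y ↔ j = A - i + P + (P + y) + y := by omega
  simp only [e1, e2]

lemma steps (hD : S_DREL.{u}) (h2 : (2 : k) ≠ 0) (p x y A μ ν : ℕ) (hμ : 1 ≤ μ) (hμA : μ ≤ A)
    (hAν : A ≤ ν) (hPar : Par p x y A (μ + ν - 1)) (δ : ℕ → k)
    (hT : Tan (p * x + y + 1) (p * x + y + μ) (p * x + y + ν) (pt p x y A) δ) :
    (∀ D r, 1 ≤ D → D ≤ μ + ν - 1 → D ≠ A → InR p x y r →
      (∀ h, 1 ≤ h → h < D + r + (p * x + y) → δ h = 0) → δ (D + r + (p * x + y)) = 0) ∧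
    ((∀ h, 1 ≤ h → h < A + (p * x + y) + (p * x + y) → δ h = 0) →
      δ (A + (p * x + y) + (p * x + y)) = 0) := by
  have hx := hPar.hx
  have hA := hPar.hA
  have hAy := hPar.hAy
  have hy := hPar.hy
  have key : ∀ i, i + 1 ≤ μ → _ := fun i hi => by
    have h1 := shift k (p * x + y + 1) (p * x + y + μ) (p * x + y + 1) (p * x + y + ν) i
      (pt p x y A) δ (by omega) hT
    rw [pt_shift p x y A i (by omega)] at h1
    exact hD k h2 p x y (A - i) ν ⟨hx, by omega, by omega, by omega, by omega,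
      fun hp => by have := hPar.hAx hp; omega, fun hp => by have := hPar.hx' hp; omega⟩
      (fun j => δ (i + j)) h1
  refine ⟨fun D r hD1 hD2 hDA hr hh => ?_, fun hh => ?_⟩
  · obtain ⟨i, hi1, hi2, hi3⟩ : ∃ i, i + 1 ≤ μ ∧ i + 1 ≤ D ∧ D ≤ i + ν := by
      by_cases h : D ≤ ν
      · exact ⟨0, by omega, by omega, by omega⟩
      · exact ⟨D - ν, by omega, by omega, by omega⟩
    obtain ⟨r1, r2, -, -, -⟩ := key i hi1
    rcases lt_or_gt_of_ne hDA with h | h
    · have h3 := r1 (D - i) r (by omega) (by omega) hr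
      rw [Finset.sum_eq_zero, zero_add] at h3
      · rwa [show i + (D - i + r + (p * x + y)) = D + r + (p * x + y) by omega] at h3
      · intro j hj
        rw [Finset.mem_range] at hj
        have h4 : j * x ≤ p * x := Nat.mul_le_mul_right _ (by omega)
        exact hh _ (by omega) (by omega)
    · have h3 := r2 (D - i) r (by omega) (by omega) hr
      rw [Finset.sum_eq_zero, zero_sub, hh (i + (D - i + r + p * x)) (by omega) (by omega),
        neg_zero, zero_add] at h3
      · rwa [show i + (D - i + r + (p * x + y)) = D + r + (p * x + y) by omega] at h3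
      · intro j hj
        rw [Finset.mem_range] at hj
        have h4 : j * x ≤ p * x := Nat.mul_le_mul_right _ (by omega)
        exact hh _ (by omega) (by omega)
  · obtain ⟨-, -, -, -, r5⟩ := key 0 hμ
    have h3 := r5 (fun r c hr hc hrc => by
      have hR : ∀ r, InR p x y r → r ≤ p * x + y ∧ (r ≠ p * x + y → r < p * x + y) := by
        rintro r (⟨i, hi, rfl⟩ | rfl)
        · have h4 : i * x ≤ p * x := Nat.mul_le_mul_right _ hi
          exact ⟨by omega, fun _ => by omega⟩
        · exact ⟨le_rfl, fun h => absurd rfl h⟩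
      have h5 := hR r hr
      have h6 := hR c hc
      refine hh _ (by omega) ?_
      by_cases h7 : r = p * x + y
      · have h8 : c ≠ p * x + y := fun h => hrc ⟨h7, h⟩
        have := h6.2 h8
        omega
      · have := h5.2 h7
        omega)
    rwa [show 0 + (A - 0 + (p * x + y) + (p * x + y)) = A + (p * x + y) + (p * x + y) by omega]
      at h3

theorem core (hD : S_DREL.{u}) (hV : S_VREL.{u}) (h2 : (2 : k) ≠ 0) (p x y A μ ν : ℕ)
    (hμ : 2 ≤ μ) (hμA : μ ≤ A) (hAν : A ≤ ν) (hPar : Par p x y A (μ + ν - 1)) (B : Finset ℕ)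
    (hB : B.card ≤ p * x + y)
    (hcase : ∀ h, 1 ≤ h → h ≤ 2 * (p * x + y) + (μ + ν - 1) → h ∈ B ∨
      (∃ r c, InR p x y r ∧ InR p x y c ∧ (h = A + 1 + r + c ∨ h = A - 1 + r + c)) ∨
      (∃ D r, 1 ≤ D ∧ D ≤ μ + ν - 1 ∧ D ≠ A ∧ InR p x y r ∧ h = D + r + (p * x + y)) ∨
      h = A + (p * x + y) + (p * x + y)) :
    ¬ (hankelIdeal k (p * x + y + 1) (p * x + y + μ) (p * x + y + ν)).IsPrime := by
  have hA := hPar.hA
  have hAy := hPar.hAy
  refine crit1 k _ _ _ (by omega) (by omega) (by omega) (pt p x y A)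
    (mem k p x y A μ ν (by omega) (by omega) hμA hAν hPar) B (by omega) ?_
  intro δ hT hδB
  obtain ⟨s1, s5⟩ := steps hD h2 p x y A μ ν (by omega) hμA hAν hPar δ hT
  have h1 := shift k (p * x + y + 1) (p * x + y + μ) (p * x + y + 2) (p * x + y + ν) 0
    (pt p x y A) δ (by omega) hT
  simp only [zero_add] at h1
  have hv := hV k h2 p x y A ν (by omega) hAν ⟨hPar.hx, hA, by omega, hAy,
    by have := hPar.hy; omega, hPar.hAx, fun hp => by have := hPar.hx' hp; omega⟩ δ h1
  intro h
  induction h using Nat.strong_induction_on with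
  | _ h ih =>
    intro hh1 hh2
    rcases hcase h hh1 (by omega) with hc | ⟨r, c, hr, hc, hrc⟩ | ⟨D, r, hD1, hD2, hDA, hr, rfl⟩ |
      rfl
    · exact hδB h hc
    · rcases hrc with rfl | rfl
      · exact (hv r c hr hc).1
      · exact (hv r c hr hc).2
    · exact s1 D r hD1 hD2 hDA hr fun h' h1' h2' => ih h' h2' h1' (by omega)
    · exact s5 fun h' h1' h2' => ih h' h2' h1' (by omega)

lemma case1 (hD : S_DREL.{u}) (hV : S_VREL.{u}) (h2 : (2 : k) ≠ 0) (X μ ν : ℕ) (hX : 1 ≤ X)
    (hμ : 2 ≤ μ) (hμν : μ ≤ ν) (hνX : ν ≤ X) (hc : X ≤ μ + ν) :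
    ¬ (hankelIdeal k (X + 1) (X + μ) (X + ν)).IsPrime := by
  have hPar : Par 0 1 X μ (μ + ν - 1) :=
    ⟨le_rfl, by omega, by omega, by omega, by omega, fun h => absurd h (by omega),
      fun h => absurd h (by omega)⟩
  have h0 : InR 0 1 X 0 := Or.inl ⟨0, le_rfl, by simp⟩
  have hX' : InR 0 1 X X := Or.inr (by simp)
  have hcard : (Finset.Icc 1 X).card = X := by simp
  by_cases hs : μ + ν = X
  · have h := core (k := k) hD hV h2 0 1 X μ μ ν hμ le_rfl hμν hPar
      (insert (2 * X) (insert (X + μ) (((Finset.Icc 1 X).erase (μ - 1)).erase (μ + 1)))) ?_ ?_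
    · rwa [show 0 * 1 + X = X by simp] at h
    · refine (Finset.card_insert_le _ _).trans ?_
      have h1 := Finset.card_insert_le (X + μ) (((Finset.Icc 1 X).erase (μ - 1)).erase (μ + 1))
      rw [Finset.card_erase_of_mem (by simp; omega), Finset.card_erase_of_mem (by simp; omega),
        hcard] at h1
      omega
    · intro h hh1 hh2
      simp only [zero_mul, zero_add] at hh2 ⊢
      simp only [Finset.mem_insert, Finset.mem_erase, Finset.mem_Icc]
      by_cases h3 : h ≤ X
      · by_cases h4 : h = μ - 1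
        · exact Or.inr (Or.inl ⟨0, 0, h0, h0, Or.inr (by omega)⟩)
        by_cases h5 : h = μ + 1
        · exact Or.inr (Or.inl ⟨0, 0, h0, h0, Or.inl (by omega)⟩)
        exact Or.inl (by omega)
      by_cases h4 : h ≤ 2 * X
      · by_cases h5 : h = X + μ
        · exact Or.inl (by omega)
        by_cases h6 : h = 2 * X
        · exact Or.inl (by omega)
        exact Or.inr (Or.inr (Or.inl ⟨h - X, 0, by omega, by omega, by omega, h0, by omega⟩))
      by_cases h5 : h = μ + X + X
      · exact Or.inr (Or.inr (Or.inr h5))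
      exact Or.inr (Or.inr (Or.inl ⟨h - 2 * X, X, by omega, by omega, by omega, hX', by omega⟩))
  · have h := core (k := k) hD hV h2 0 1 X μ μ ν hμ le_rfl hμν hPar
      (insert (X + μ) ((Finset.Icc 1 X).erase (μ - 1))) ?_ ?_
    · rwa [show 0 * 1 + X = X by simp] at h
    · have h1 := Finset.card_insert_le (X + μ) ((Finset.Icc 1 X).erase (μ - 1))
      rw [Finset.card_erase_of_mem (by simp; omega), hcard] at h1
      omega
    · intro h hh1 hh2
      simp only [zero_mul, zero_add] at hh2 ⊢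
      simp only [Finset.mem_insert, Finset.mem_erase, Finset.mem_Icc]
      by_cases h3 : h ≤ X
      · by_cases h4 : h = μ - 1
        · exact Or.inr (Or.inl ⟨0, 0, h0, h0, Or.inr (by omega)⟩)
        exact Or.inl (by omega)
      by_cases h4 : h ≤ 2 * X
      · by_cases h5 : h = X + μ
        · exact Or.inl (by omega)
        exact Or.inr (Or.inr (Or.inl ⟨h - X, 0, by omega, by omega, by omega, h0, by omega⟩))
      by_cases h5 : h = μ + X + X
      · exact Or.inr (Or.inr (Or.inr h5))
      exact Or.inr (Or.inr (Or.inl ⟨h - 2 * X, X, by omega, by omega, by omega, hX', by omega⟩))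

lemma case2 (hD : S_DREL.{u}) (hV : S_VREL.{u}) (h2 : (2 : k) ≠ 0) (p x s μ ν : ℕ) (hp : 1 ≤ p)
    (hμ : 2 ≤ μ) (hμν : μ ≤ ν) (hx1 : μ + ν = 2 * x ∨ μ + ν + 1 = 2 * x) (hs : s < x)
    (hc : μ + ν - 1 ≤ p * x + x + s) :
    ¬ (hankelIdeal k (p * x + (x + s) + 1) (p * x + (x + s) + μ)
      (p * x + (x + s) + ν)).IsPrime := by
  classical
  have hPar : Par p x (x + s) x (μ + ν - 1) :=
    ⟨by omega, by omega, by omega, by omega, by omega, fun _ => le_rfl, fun _ => by omega⟩
  have hR : ∀ i, i ≤ p → InR p x (x + s) (i * x) := fun i hi => Or.inl ⟨i, hi, rfl⟩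
  have hX : InR p x (x + s) (p * x + (x + s)) := Or.inr rfl
  set X := p * x + (x + s) with hXdef
  have hcard : (Finset.Icc 1 X).card = X := by simp
  let C := (Finset.range (p + 1)).image fun i => x - 1 + i * x
  let E := (Finset.range (p + 1)).image fun i => X + x + i * x
  have hmul : ∀ i, i ≤ p → i * x ≤ p * x := fun i hi => Nat.mul_le_mul_right _ hi
  have hC : C.card = p + 1 := by
    rw [Finset.card_image_of_injOn, Finset.card_range]
    intro a _ b _ hab
    have h3 : a * x = b * x := by simpa using hab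
    exact Nat.eq_of_mul_eq_mul_right (by omega) h3
  have hE : E.card ≤ p + 1 := by
    refine Finset.card_image_le.trans ?_
    rw [Finset.card_range]
  have hCs : C ⊆ Finset.Icc 1 X := by
    intro h hh
    simp only [C, Finset.mem_image, Finset.mem_range] at hh
    obtain ⟨i, hi, rfl⟩ := hh
    have := hmul i (by omega)
    rw [Finset.mem_Icc]
    omega
  have hpX : p + 1 ≤ X := by
    rw [← hC, ← hcard]
    exact Finset.card_le_card hCs
  have hB0 : ((Finset.Icc 1 X \ C) ∪ E).card ≤ X := by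
    refine (Finset.card_union_le _ _).trans ?_
    rw [Finset.card_sdiff_of_subset hCs, hC, hcard]
    omega
  -- the classification
  have hcl : ∀ h, 1 ≤ h → h ≤ 2 * X + (μ + ν - 1) →
      ((h ∈ (Finset.Icc 1 X \ C) ∪ E) ∨ (h = 2 * X ∧ s = x - 1 ∧ μ + ν + 1 = 2 * x) ∨
      (∃ r c, InR p x (x + s) r ∧ InR p x (x + s) c ∧ (h = x + 1 + r + c ∨ h = x - 1 + r + c)) ∨
      (∃ D r, 1 ≤ D ∧ D ≤ μ + ν - 1 ∧ D ≠ x ∧ InR p x (x + s) r ∧ h = D + r + X) ∨
      h = x + X + X) := by
    intro h hh1 hh2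
    by_cases h3 : h ≤ X
    · by_cases h4 : h ∈ C
      · simp only [C, Finset.mem_image, Finset.mem_range] at h4
        obtain ⟨i, hi, rfl⟩ := h4
        exact Or.inr (Or.inr (Or.inl ⟨i * x, 0 * x, hR i (by omega), hR 0 (by omega),
          Or.inr (by omega)⟩))
      · refine Or.inl ?_
        rw [Finset.mem_union, Finset.mem_sdiff, Finset.mem_Icc]
        exact Or.inl ⟨⟨hh1, h3⟩, h4⟩
    by_cases h4 : h ≤ 2 * X
    · obtain ⟨D, rfl⟩ : ∃ D, h = D + X := ⟨h - X, by omega⟩
      obtain ⟨j, D', hml, rfl⟩ : ∃ j D', D' < x ∧ D = j * x + D' :=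
        ⟨D / x, D % x, Nat.mod_lt _ (by omega), by rw [mul_comm]; exact (Nat.div_add_mod D x).symm⟩
      have hjp : j ≤ p + 1 := by
        by_contra hcon
        have : (p + 2) * x ≤ j * x := Nat.mul_le_mul_right _ (by omega)
        have h5 : (p + 2) * x = p * x + 2 * x := by ring
        omega
      by_cases h5 : D' = 0
      · refine Or.inl ?_
        rw [Finset.mem_union]
        right
        simp only [E, Finset.mem_image, Finset.mem_range]
        have h7 : 1 ≤ j := by
          by_contra hcon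
          have : j = 0 := by omega
          rw [this] at h3
          omega
        refine ⟨j - 1, by omega, ?_⟩
        have h8 : j * x = (j - 1) * x + x := by
          obtain ⟨j', hj'⟩ : ∃ j', j = j' + 1 := ⟨j - 1, by omega⟩
          rw [hj']
          simp
          ring
        omega
      · by_cases h7 : j ≤ p
        · exact Or.inr (Or.inr (Or.inr (Or.inl ⟨D', j * x, by omega, by omega, by omega,
            hR j h7, by omega⟩)))
        · have h8 : j = p + 1 := by omega
          have h9 : j * x = p * x + x := by rw [h8]; ring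
          by_cases h10 : D' + x ≤ μ + ν - 1
          · exact Or.inr (Or.inr (Or.inr (Or.inl ⟨D' + x, p * x, by omega, by omega, by omega,
              hR p le_rfl, by omega⟩)))
          · exact Or.inr (Or.inl ⟨by omega, by omega, by omega⟩)
    by_cases h5 : h = x + X + X
    · exact Or.inr (Or.inr (Or.inr (Or.inr h5)))
    · exact Or.inr (Or.inr (Or.inr (Or.inl ⟨h - 2 * X, X, by omega, by omega, by omega,
        hX, by omega⟩)))
  by_cases hsp : s = x - 1 ∧ μ + ν + 1 = 2 * x
  · have hmem : x + 1 ∈ (Finset.Icc 1 X \ C) ∪ E := by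
      rw [Finset.mem_union, Finset.mem_sdiff, Finset.mem_Icc]
      refine Or.inl ⟨⟨by omega, by omega⟩, ?_⟩
      intro hh
      simp only [C, Finset.mem_image, Finset.mem_range] at hh
      obtain ⟨i, hi, hi2⟩ := hh
      rcases Nat.eq_zero_or_pos i with h0 | h0
      · rw [h0] at hi2
        omega
      · have : 1 * x ≤ i * x := Nat.mul_le_mul_right _ h0
        omega
    refine core (k := k) hD hV h2 p x (x + s) x μ ν hμ (by omega) (by omega) hPar
      (insert (2 * X) (((Finset.Icc 1 X \ C) ∪ E).erase (x + 1))) ?_ ?_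
    · refine (Finset.card_insert_le _ _).trans ?_
      rw [Finset.card_erase_of_mem hmem]
      omega
    intro h hh1 hh2
    rcases hcl h hh1 hh2 with h3 | h3 | h3 | h3 | h3
    · by_cases h4 : h = x + 1
      · exact Or.inr (Or.inl ⟨0 * x, 0 * x, hR 0 (by omega), hR 0 (by omega),
          Or.inl (by omega)⟩)
      · exact Or.inl (Finset.mem_insert_of_mem (Finset.mem_erase.2 ⟨h4, h3⟩))
    · rw [h3.1]
      exact Or.inl (Finset.mem_insert_self _ _)
    · exact Or.inr (Or.inl h3)
    · exact Or.inr (Or.inr (Or.inl h3))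
    · exact Or.inr (Or.inr (Or.inr h3))
  · refine core (k := k) hD hV h2 p x (x + s) x μ ν hμ (by omega) (by omega) hPar _ hB0 ?_
    intro h hh1 hh2
    rcases hcl h hh1 hh2 with h3 | h3 | h3 | h3 | h3
    · exact Or.inl h3
    · exact absurd h3.2 hsp
    · exact Or.inr (Or.inl h3)
    · exact Or.inr (Or.inr (Or.inl h3))
    · exact Or.inr (Or.inr (Or.inr h3))

end Pool.Agent.Helper86K9.HK.Fin2L

namespace Pool.Agent.Helper86K9.HK

universe u

theorem fin2 (hD : S_DREL.{u}) (hV : S_VREL.{u}) : S_FIN2.{u} := by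
  intro k _ h2 X μ ν hX hμ hμν hνX
  by_cases hc : X ≤ μ + ν
  · exact Fin2L.case1 hD hV h2 X μ ν hX hμ hμν hνX hc
  · -- `x = ⌊(μ + ν + 1) / 2⌋`
    obtain ⟨x, hx⟩ : ∃ x, μ + ν = 2 * x ∨ μ + ν + 1 = 2 * x :=
      ⟨(μ + ν + 1) / 2, by omega⟩
    have hx0 : 0 < x := by omega
    obtain ⟨q, s, hs, hq⟩ : ∃ q s, s < x ∧ X = q * x + s :=
      ⟨X / x, X % x, Nat.mod_lt _ hx0, by rw [mul_comm]; exact (Nat.div_add_mod X x).symm⟩
    have hq2 : 2 ≤ q := by
      by_contra hcon
      have : q * x ≤ 1 * x := Nat.mul_le_mul_right _ (by omega)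
      omega
    obtain ⟨p, rfl⟩ : ∃ p, q = p + 1 := ⟨q - 1, by omega⟩
    have h1 : X = p * x + (x + s) := by rw [hq]; ring
    have h3 := Fin2L.case2 (k := k) hD hV h2 p x s μ ν (by omega) hμ hμν hx hs (by omega)
    rwa [← h1] at h3

end Pool.Agent.Helper86K9.HK
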