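import Pool.Agent.Helper86K9.HK.FiveN

/-!
# The Hankel case `t = m = 5`, `n = 6`
-/

set_option autoImplicit false
set_option linter.unusedSimpArgs false
set_option linter.style.longLine false

namespace Pool.Agent.Helper86K9.HK

universe u

/-- The point `(1, 1, -1, 0, -1, -1, 1, 0, -1, -1)`. -/
def q5 (k : Type*) [CommRing k] (j : ℕ) : k :=
  ((([0, 1, 1, -1, 0, -1, -1, 1, 0, -1, -1] : List ℤ).getD j 0 : ℤ) : k)

lemma icc6 {S : Type*} [CommRing S] (f : ℕ → S) :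
    ∑ c ∈ Finset.Icc 1 6, f c = f 1 + f 2 + f 3 + f 4 + f 5 + f 6 := by
  simp [Finset.sum_Icc_succ_top]

section

variable {k S : Type*} [CommRing k] [CommRing S] [Algebra k S] (x : ℕ → S)


lemma q5_row0 : row 6 (q5 k) x 0 = x 1 + x 2 - x 3 - x 5 - x 6 := by
  rw [row, icc6]
  simp [q5]
  try ring


lemma q5_row1 : row 6 (q5 k) x 1 = x 1 - x 2 - x 4 - x 5 + x 6 := by
  rw [row, icc6]
  simp [q5]
  try ring


lemma q5_row2 : row 6 (q5 k) x 2 = -x 1 - x 3 - x 4 + x 5 := by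
  rw [row, icc6]
  simp [q5]
  try ring


lemma q5_row3 : row 6 (q5 k) x 3 = -x 2 - x 3 + x 4 - x 6 := by
  rw [row, icc6]
  simp [q5]
  try ring


lemma q5_row4 : row 6 (q5 k) x 4 = -x 1 - x 2 + x 3 - x 5 - x 6 := by
  rw [row, icc6]
  simp [q5]
  try ring


end


set_option maxRecDepth 10000 in
set_option maxHeartbeats 4000000 in
lemma five_rel {S : Type*} [CommRing S] (x d : ℕ → S) (hx : ∀ c, x c * x c = 0)
    (h : (d 1 * x 1 + d 2 * x 2 + d 3 * x 3 + d 4 * x 4 + d 5 * x 5 + d 6 * x 6) *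
        (3 * (x 1 * x 2 * x 3 * x 4) - 2 * (x 1 * x 2 * x 3 * x 6) - 2 * (x 1 * x 2 * x 4 * x 5) + 4 * (x 1 * x 2 * x 5 * x 6) + 2 * (x 1 * x 3 * x 4 * x 5) + x 1 * x 3 * x 4 * x 6 - 2 * (x 1 * x 4 * x 5 * x 6) - x 2 * x 3 * x 4 * x 5 + 2 * (x 2 * x 3 * x 4 * x 6) + 2 * (x 2 * x 3 * x 5 * x 6) + x 3 * x 4 * x 5 * x 6) +
      (d 2 * x 1 + d 3 * x 2 + d 4 * x 3 + d 5 * x 4 + d 6 * x 5 + d 7 * x 6) *
        (-1 * (2 * (x 1 * x 2 * x 4 * x 5)) - 2 * (x 1 * x 2 * x 4 * x 6) + 4 * (x 1 * x 2 * x 5 * x 6) + 2 * (x 1 * x 3 * x 4 * x 5) + 2 * (x 1 * x 3 * x 4 * x 6) - 2 * (x 1 * x 4 * x 5 * x 6) + 2 * (x 2 * x 3 * x 4 * x 5) + 2 * (x 2 * x 3 * x 4 * x 6) + 2 * (x 2 * x 4 * x 5 * x 6)) +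
      (d 3 * x 1 + d 4 * x 2 + d 5 * x 3 + d 6 * x 4 + d 7 * x 5 + d 8 * x 6) *
        (2 * (x 1 * x 2 * x 4 * x 5) - 4 * (x 1 * x 2 * x 4 * x 6) - 4 * (x 1 * x 2 * x 5 * x 6) - 2 * (x 1 * x 3 * x 4 * x 5) + 4 * (x 1 * x 3 * x 4 * x 6) + 2 * (x 1 * x 4 * x 5 * x 6) - 2 * (x 2 * x 3 * x 4 * x 5) + 4 * (x 2 * x 3 * x 4 * x 6) + 4 * (x 2 * x 3 * x 5 * x 6) + 2 * (x 3 * x 4 * x 5 * x 6)) +
      (d 4 * x 1 + d 5 * x 2 + d 6 * x 3 + d 7 * x 4 + d 8 * x 5 + d 9 * x 6) *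
        (2 * (x 1 * x 2 * x 4 * x 6) - 2 * (x 1 * x 3 * x 4 * x 6) - 2 * (x 2 * x 3 * x 4 * x 6) + 4 * (x 2 * x 3 * x 5 * x 6) + 2 * (x 2 * x 4 * x 5 * x 6) + 2 * (x 3 * x 4 * x 5 * x 6)) +
      (d 5 * x 1 + d 6 * x 2 + d 7 * x 3 + d 8 * x 4 + d 9 * x 5 + d 10 * x 6) *
        (-1 * (3 * (x 1 * x 2 * x 3 * x 4)) + 2 * (x 1 * x 2 * x 3 * x 6) - 2 * (x 1 * x 2 * x 4 * x 6) + x 1 * x 3 * x 4 * x 6 + 3 * (x 2 * x 3 * x 4 * x 5) - 2 * (x 2 * x 3 * x 5 * x 6) + 2 * (x 2 * x 4 * x 5 * x 6) - x 3 * x 4 * x 5 * x 6) = 0) :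
    (d 2 + 6 * d 4 + 4 * d 5 + 6 * d 6 + 12 * d 7 - 6 * d 8 + 3 * d 10) * (x 1 * x 2 * x 3 * x 4 * x 5 * x 6) = 0 ∧
      (d 1 + 2 * d 5 + 4 * d 6 + 6 * d 7 - 4 * d 8 + d 9) * (x 1 * x 2 * x 3 * x 4 * x 5 * x 6) = 0 ∧
      (-2 * d 3 + 8 * d 4 + 6 * d 5 - 8 * d 6 - 6 * d 7 + 4 * d 8 - 2 * d 9) * (x 1 * x 2 * x 3 * x 4 * x 5 * x 6) = 0 ∧
      (2 * d 1 + 8 * d 3 + 8 * d 4 - 8 * d 5 + 2 * d 9) * (x 1 * x 2 * x 3 * x 4 * x 5 * x 6) = 0 ∧
      (2 * d 1 + 3 * d 2 + 6 * d 3 - 2 * d 4 - 6 * d 5 + 6 * d 6 - 2 * d 7 + 2 * d 8 - 3 * d 10) * (x 1 * x 2 * x 3 * x 4 * x 5 * x 6) = 0 ∧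
      (-d 1 + 4 * d 2 - 2 * d 3 - 4 * d 4 + 8 * d 5 - 3 * d 9) * (x 1 * x 2 * x 3 * x 4 * x 5 * x 6) = 0 := by
  obtain ⟨a1, b1, -, -⟩ := five_pow (hx 1)
  obtain ⟨a2, b2, -, -⟩ := five_pow (hx 2)
  obtain ⟨a3, b3, -, -⟩ := five_pow (hx 3)
  obtain ⟨a4, b4, -, -⟩ := five_pow (hx 4)
  obtain ⟨a5, b5, -, -⟩ := five_pow (hx 5)
  obtain ⟨a6, b6, -, -⟩ := five_pow (hx 6)
  refine ⟨?_, ?_, ?_, ?_, ?_, ?_⟩
  · have h' := congrArg (fun y => x 1 * y) h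
    ring_nf at h'
    simp only [a1, a2, a3, a4, a5, a6, b1, b2, b3, b4, b5, b6, mul_zero, zero_mul, add_zero,
      zero_add, sub_zero, zero_sub, neg_zero] at h'
    linear_combination h'
  · have h' := congrArg (fun y => x 2 * y) h
    ring_nf at h'
    simp only [a1, a2, a3, a4, a5, a6, b1, b2, b3, b4, b5, b6, mul_zero, zero_mul, add_zero,
      zero_add, sub_zero, zero_sub, neg_zero] at h'
    linear_combination h'
  · have h' := congrArg (fun y => x 3 * y) h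
    ring_nf at h'
    simp only [a1, a2, a3, a4, a5, a6, b1, b2, b3, b4, b5, b6, mul_zero, zero_mul, add_zero,
      zero_add, sub_zero, zero_sub, neg_zero] at h'
    linear_combination h'
  · have h' := congrArg (fun y => x 4 * y) h
    ring_nf at h'
    simp only [a1, a2, a3, a4, a5, a6, b1, b2, b3, b4, b5, b6, mul_zero, zero_mul, add_zero,
      zero_add, sub_zero, zero_sub, neg_zero] at h'
    linear_combination h'
  · have h' := congrArg (fun y => x 5 * y) h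
    ring_nf at h'
    simp only [a1, a2, a3, a4, a5, a6, b1, b2, b3, b4, b5, b6, mul_zero, zero_mul, add_zero,
      zero_add, sub_zero, zero_sub, neg_zero] at h'
    linear_combination h'
  · have h' := congrArg (fun y => x 6 * y) h
    ring_nf at h'
    simp only [a1, a2, a3, a4, a5, a6, b1, b2, b3, b4, b5, b6, mul_zero, zero_mul, add_zero,
      zero_add, sub_zero, zero_sub, neg_zero] at h'
    linear_combination h'

set_option maxRecDepth 10000 in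
lemma five_tan {k : Type u} [Field k] (h2 : (2 : k) ≠ 0) (δ : ℕ → k) (h : Tan 5 5 6 (q5 k) δ)
    (hB : ∀ j ∈ ({1, 4, 5, 10} : Finset ℕ), δ j = 0) : ∀ j, 1 ≤ j → j ≤ 10 → δ j = 0 := by
  have hx := (alg3.{u} k).1
  have h1 := tan1 k (Sq k) 5 5 6 (q5 k) δ h (sqx k) hx (Finset.range 5) (Finset.Subset.refl _)
    (Finset.card_range 5)
  have er : ∀ r : ℕ, row 6 δ (sqx k) r = algebraMap k _ (δ (r + 1)) * sqx k 1 +
      algebraMap k _ (δ (r + 2)) * sqx k 2 + algebraMap k _ (δ (r + 3)) * sqx k 3 +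
      algebraMap k _ (δ (r + 4)) * sqx k 4 + algebraMap k _ (δ (r + 5)) * sqx k 5 +
      algebraMap k _ (δ (r + 6)) * sqx k 6 := by
    intro r
    rw [row, icc6]
    simp only [Algebra.smul_def]
  have e0 : (Finset.range 5).erase 0 = {1, 2, 3, 4} := by decide
  have e1 : (Finset.range 5).erase 1 = {0, 2, 3, 4} := by decide
  have e2 : (Finset.range 5).erase 2 = {0, 1, 3, 4} := by decide
  have e3 : (Finset.range 5).erase 3 = {0, 1, 2, 4} := by decide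
  have e4 : (Finset.range 5).erase 4 = {0, 1, 2, 3} := by decide
  have p : ∀ (a b c d : ℕ), a ≠ b → a ≠ c → a ≠ d → b ≠ c → b ≠ d → c ≠ d →
      ∀ f : ℕ → Sq k, ∏ r ∈ ({a, b, c, d} : Finset ℕ), f r = f a * f b * f c * f d := by
    intro a b c d hab hac had hbc hbd hcd f
    rw [Finset.prod_insert (by simp [hab, hac, had]), Finset.prod_insert (by simp [hbc, hbd]),
      Finset.prod_insert (by simp [hcd]), Finset.prod_singleton]
    ring
  rw [Finset.sum_range_succ, Finset.sum_range_succ, Finset.sum_range_succ, Finset.sum_range_succ,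
    Finset.sum_range_succ, Finset.sum_range_zero, e0, e1, e2, e3, e4] at h1
  rw [p 1 2 3 4 (by decide) (by decide) (by decide) (by decide) (by decide) (by decide),
    p 0 2 3 4 (by decide) (by decide) (by decide) (by decide) (by decide) (by decide),
    p 0 1 3 4 (by decide) (by decide) (by decide) (by decide) (by decide) (by decide),
    p 0 1 2 4 (by decide) (by decide) (by decide) (by decide) (by decide) (by decide),
    p 0 1 2 3 (by decide) (by decide) (by decide) (by decide) (by decide) (by decide),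
    q5_row0, q5_row1, q5_row2, q5_row3, q5_row4,
    five_N0 (hx 1) (hx 2) (hx 3) (hx 4) (hx 5) (hx 6),
    five_N1 (hx 1) (hx 2) (hx 3) (hx 4) (hx 5) (hx 6),
    five_N2 (hx 1) (hx 2) (hx 3) (hx 4) (hx 5) (hx 6),
    five_N3 (hx 1) (hx 2) (hx 3) (hx 4) (hx 5) (hx 6),
    five_N4 (hx 1) (hx 2) (hx 3) (hx 4) (hx 5) (hx 6), er, er, er, er, er, zero_add] at h1
  obtain ⟨r1, r2, r3, r4, r5, r6⟩ := five_rel (sqx k) (fun j => algebraMap k _ (δ j)) hx h1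
  have red : ∀ a : k, algebraMap k (Sq k) a *
      (sqx k 1 * sqx k 2 * sqx k 3 * sqx k 4 * sqx k 5 * sqx k 6) = 0 → a = 0 := by
    intro a ha
    refine (alg3.{u} k).2 a ({1, 2, 3, 4, 5, 6} : Finset ℕ) ?_
    rw [← ha]
    congr 1
    rw [Finset.prod_insert (by decide), Finset.prod_insert (by decide),
      Finset.prod_insert (by decide), Finset.prod_insert (by decide),
      Finset.prod_insert (by decide), Finset.prod_singleton]
    ring
  replace r1 : δ 2 + 6 * δ 4 + 4 * δ 5 + 6 * δ 6 + 12 * δ 7 - 6 * δ 8 + 3 * δ 10 = 0 := by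
    refine red _ ?_
    rw [← r1]
    congr 1
    simp only [map_add, map_sub, map_mul, map_neg, map_ofNat]
  replace r2 : δ 1 + 2 * δ 5 + 4 * δ 6 + 6 * δ 7 - 4 * δ 8 + δ 9 = 0 := by
    refine red _ ?_
    rw [← r2]
    congr 1
    simp only [map_add, map_sub, map_mul, map_neg, map_ofNat]
  replace r3 : -2 * δ 3 + 8 * δ 4 + 6 * δ 5 - 8 * δ 6 - 6 * δ 7 + 4 * δ 8 - 2 * δ 9 = 0 := by
    refine red _ ?_
    rw [← r3]
    congr 1
    simp only [map_add, map_sub, map_mul, map_neg, map_ofNat]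
  replace r4 : 2 * δ 1 + 8 * δ 3 + 8 * δ 4 - 8 * δ 5 + 2 * δ 9 = 0 := by
    refine red _ ?_
    rw [← r4]
    congr 1
    simp only [map_add, map_sub, map_mul, map_neg, map_ofNat]
  replace r5 : 2 * δ 1 + 3 * δ 2 + 6 * δ 3 - 2 * δ 4 - 6 * δ 5 + 6 * δ 6 - 2 * δ 7 + 2 * δ 8 - 3 * δ 10 = 0 := by
    refine red _ ?_
    rw [← r5]
    congr 1
    simp only [map_add, map_sub, map_mul, map_neg, map_ofNat]
  replace r6 : -δ 1 + 4 * δ 2 - 2 * δ 3 - 4 * δ 4 + 8 * δ 5 - 3 * δ 9 = 0 := by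
    refine red _ ?_
    rw [← r6]
    congr 1
    simp only [map_add, map_sub, map_mul, map_neg, map_ofNat]
  have b1 : δ 1 = 0 := hB 1 (by decide)
  have b4 : δ 4 = 0 := hB 4 (by decide)
  have b5 : δ 5 = 0 := hB 5 (by decide)
  have b10 : δ 10 = 0 := hB 10 (by decide)
  have two : ∀ a : k, (2 : k) ^ 8 * a = 0 → a = 0 := fun a ha =>
    (mul_eq_zero.1 ha).resolve_left (pow_ne_zero _ h2)
  have b2 : δ 2 = 0 := two _ (by linear_combination -320 * r1 + 2880 * r2 + 1920 * r3 - 384 * r4 + 960 * r5 - 576 * r6 - 4608 * b1 - 10752 * b4 - 8704 * b5 + 3840 * b10)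
  have b3 : δ 3 = 0 := two _ (by linear_combination 128 * r1 - 1152 * r2 - 768 * r3 + 192 * r4 - 384 * r5 + 256 * r6 + 1792 * b1 + 4096 * b4 + 3584 * b5 - 1536 * b10)
  have b6 : δ 6 = 0 := two _ (by linear_combination 64 * r1 - 640 * r2 - 448 * r3 + 64 * r4 - 192 * r5 + 128 * r6 + 1024 * b1 + 2816 * b4 + 2048 * b5 - 768 * b10)
  have b7 : δ 7 = 0 := two _ (by linear_combination -64 * r1 + 1216 * r2 + 896 * r3 - 192 * r4 + 448 * r5 - 320 * r6 - 2048 * b1 - 5632 * b4 - 3840 * b5 + 1536 * b10)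
  have b8 : δ 8 = 0 := two _ (by linear_combination -160 * r1 + 2272 * r2 + 1664 * r3 - 384 * r4 + 864 * r5 - 608 * r6 - 3840 * b1 - 9984 * b4 - 6912 * b5 + 3072 * b10)
  have b9 : δ 9 = 0 := two _ (by linear_combination -512 * r1 + 4608 * r2 + 3072 * r3 - 640 * r4 + 1536 * r5 - 1024 * r6 - 7424 * b1 - 17408 * b4 - 13312 * b5 + 6144 * b10)
  intro j hj1 hj2
  obtain rfl | rfl | rfl | rfl | rfl | rfl | rfl | rfl | rfl | rfl :
      j = 1 ∨ j = 2 ∨ j = 3 ∨ j = 4 ∨ j = 5 ∨ j = 6 ∨ j = 7 ∨ j = 8 ∨ j = 9 ∨ j = 10 := by omega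
  all_goals assumption

lemma five_van {k : Type u} [Field k] : Van 5 5 6 (q5 k) := by
  refine alg2 k 5 5 6 (q5 k) fun T hT hc => ?_
  have hx := (alg3.{u} k).1
  have hT' : T = Finset.range 5 := Finset.eq_of_subset_of_card_le hT (by simp [hc])
  rw [hT', Finset.prod_range_succ, Finset.prod_range_succ, Finset.prod_range_succ,
    Finset.prod_range_succ, Finset.prod_range_succ, Finset.prod_range_zero, one_mul,
    q5_row0, q5_row1, q5_row2, q5_row3, q5_row4]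
  have h := five_N4 (hx 1) (hx 2) (hx 3) (hx 4) (hx 5) (hx 6)
  obtain ⟨a1, -, -, -⟩ := five_pow (hx 1)
  obtain ⟨a2, -, -, -⟩ := five_pow (hx 2)
  obtain ⟨a3, -, -, -⟩ := five_pow (hx 3)
  obtain ⟨a4, -, -, -⟩ := five_pow (hx 4)
  obtain ⟨a5, -, -, -⟩ := five_pow (hx 5)
  obtain ⟨a6, -, -, -⟩ := five_pow (hx 6)
  rw [h]
  ring_nf
  simp only [a1, a2, a3, a4, a5, a6, mul_zero, zero_mul, add_zero,
      zero_add, sub_zero, zero_sub, neg_zero]
  try ring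

theorem five (k : Type u) [Field k] (h2 : (2 : k) ≠ 0) : ¬ (hankelIdeal k 5 5 6).IsPrime := by
  refine crit1 k 5 5 6 (by norm_num) le_rfl (by norm_num) (q5 k) five_van {1, 4, 5, 10}
    (by decide) fun δ hδ hB => ?_
  exact five_tan h2 δ hδ hB

end Pool.Agent.Helper86K9.HK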