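import Pool.Agent.Helper86K9.HK.Leaves

/-!
# Permanents of square generic, symmetric and Hankel matrices are prime elements
-/

set_option autoImplicit false

namespace Pool.Agent.Helper86K9.HK.PrmL

open MvPolynomial Matrix

universe u

section perm

variable {R : Type*} [CommRing R]

/-- Expansion of the permanent with respect to the corner entry. -/
lemma perm_split {n : ℕ} (M : Matrix (Fin (n + 1)) (Fin (n + 1)) R) :
    M.permanent = (M.submatrix Fin.succ Fin.succ).permanent * M 0 0 +
      (Matrix.of fun i j => if i = 0 ∧ j = 0 then 0 else M i j).permanent := by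
  unfold permanent
  rw [← Equiv.sum_comp Equiv.Perm.decomposeFin.symm (fun σ => ∏ i, M (σ i) i),
    ← Equiv.sum_comp Equiv.Perm.decomposeFin.symm (fun σ => ∏ i,
      (Matrix.of fun i j => if i = 0 ∧ j = 0 then 0 else M i j) (σ i) i),
    Fintype.sum_prod_type, Fintype.sum_prod_type, Fin.sum_univ_succ, Fin.sum_univ_succ]
  have h1 : ∑ y : Equiv.Perm (Fin n), ∏ i, (Matrix.of fun i j => if i = 0 ∧ j = 0 then 0
      else M i j) ((Equiv.Perm.decomposeFin.symm (0, y)) i) i = 0 := by
    refine Finset.sum_eq_zero fun y _ => ?_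
    rw [Fin.prod_univ_succ]
    simp
  rw [h1, zero_add]
  congr 1
  · rw [Finset.sum_mul]
    refine Finset.sum_congr rfl fun y _ => ?_
    rw [Fin.prod_univ_succ, mul_comm]
    simp
  · refine Finset.sum_congr rfl fun p _ => Finset.sum_congr rfl fun y _ => ?_
    refine Finset.prod_congr rfl fun i _ => ?_
    rw [of_apply, if_neg]
    rintro ⟨h2, h3⟩
    subst h3
    simp at h2

/-- The permanent of the antidiagonal matrix. -/
lemma perm_antidiag (n : ℕ) :
    (Matrix.of fun i j : Fin n => if i.val + j.val + 1 = n then (1 : R) else 0).permanent = 1 := by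
  have h1 : (Matrix.of fun i j : Fin n => if i.val + j.val + 1 = n then (1 : R) else 0) =
      (1 : Matrix (Fin n) (Fin n) R).submatrix Fin.revPerm id := by
    refine Matrix.ext fun i j => ?_
    simp only [of_apply, submatrix_apply, Fin.revPerm_apply, id, Matrix.one_apply]
    congr 1
    rw [Fin.ext_iff, Fin.val_rev]
    apply propext
    omega
  rw [h1, permanent_permute_cols, permanent_one]

end perm

variable {k : Type u} [Field k] {V : Type}

lemma map_perm {A B : Type*} [CommRing A] [CommRing B] (φ : A →+* B) {n : ℕ}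
    (M : Matrix (Fin n) (Fin n) A) : φ M.permanent = (M.map φ).permanent := by
  unfold permanent
  simp only [map_sum, map_prod, map_apply]

lemma vars_perm {n : ℕ} (s : Set V) (M : Matrix (Fin n) (Fin n) (MvPolynomial V k))
    (h : ∀ i j, M i j ∈ supported k s) : M.permanent ∈ supported k s := by
  unfold permanent
  exact Subalgebra.sum_mem _ fun σ _ => Subalgebra.prod_mem _ fun i _ => h _ _

theorem prime_perm (n0 : ℕ) (v : ℕ → ℕ → V) (w : V → ℕ)
    (hw : ∀ i j, i < n0 → j < n0 → w (v i j) = i + j) (n : ℕ) :
    ∀ a, a + (n + 1) ≤ n0 →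
      Prime (Matrix.of fun i j : Fin (n + 1) =>
        (X (v (a + i.val) (a + j.val)) : MvPolynomial V k)).permanent := by
  induction n with
  | zero =>
    intro a ha
    have : Subsingleton (Fin (0 + 1)) := inferInstanceAs (Subsingleton (Fin 1))
    rw [permanent_eq_elem_of_subsingleton _ (0 : Fin (0 + 1))]
    exact X_prime
  | succ n ih =>
    intro a ha
    rw [← UniqueFactorizationMonoid.irreducible_iff_prime, perm_split]
    have h1 : ((Matrix.of fun i j : Fin (n + 1 + 1) =>
        (X (v (a + i.val) (a + j.val)) : MvPolynomial V k)).submatrix Fin.succ Fin.succ) =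
        Matrix.of fun i j : Fin (n + 1) =>
          (X (v (a + 1 + i.val) (a + 1 + j.val)) : MvPolynomial V k) := by
      refine Matrix.ext fun i j => ?_
      simp only [submatrix_apply, of_apply, Fin.val_succ]
      rw [show a + (i.val + 1) = a + 1 + i.val by ring, show a + (j.val + 1) = a + 1 + j.val by ring]
    rw [h1]
    have hP := ih (a + 1) (by omega)
    set P := (Matrix.of fun i j : Fin (n + 1) =>
          (X (v (a + 1 + i.val) (a + 1 + j.val)) : MvPolynomial V k)).permanent with hPdef
    set Q := (Matrix.of fun i j : Fin (n + 1 + 1) => if i = 0 ∧ j = 0 then 0 else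
      (Matrix.of fun i j : Fin (n + 1 + 1) =>
        (X (v (a + i.val) (a + j.val)) : MvPolynomial V k)) i j).permanent with hQdef
    have h00 : (Matrix.of fun i j : Fin (n + 1 + 1) =>
        (X (v (a + i.val) (a + j.val)) : MvPolynomial V k)) 0 0 = X (v a a) := by simp
    rw [h00]
    have hPs : P ∈ supported k {u : V | 2 * a < w u} := by
      refine vars_perm _ _ fun i j => ?_
      rw [of_apply]
      refine X_mem_supported.2 ?_
      simp only [Set.mem_ofPred_eq]
      rw [hw _ _ (by omega) (by omega)]
      omega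
    have hQs : Q ∈ supported k {u : V | 2 * a < w u} := by
      refine vars_perm _ _ fun i j => ?_
      rw [of_apply]
      split_ifs with h
      · exact Subalgebra.zero_mem _
      · rw [of_apply]
        refine X_mem_supported.2 ?_
        simp only [Set.mem_ofPred_eq]
        rw [hw _ _ (by omega) (by omega)]
        have h2 : 0 < i.val + j.val := by
          by_contra hcon
          exact h ⟨Fin.ext (by rw [Fin.val_zero]; omega), Fin.ext (by rw [Fin.val_zero]; omega)⟩
        omega
    have hnot : ∀ f : MvPolynomial V k, f ∈ supported k {u : V | 2 * a < w u} →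
        v a a ∉ f.vars := by
      intro f hf hv
      have h2 := mem_supported.1 hf hv
      simp only [Set.mem_ofPred_eq] at h2
      rw [hw _ _ (by omega) (by omega)] at h2
      omega
    refine irreducible_mul_X_add P Q (v a a) hP.ne_zero (hnot _ hPs) (hnot _ hQs) ?_
    rw [hP.irreducible.isRelPrime_iff_not_dvd]
    intro hdvd
    let φ : MvPolynomial V k →ₐ[k] k := aeval fun u => if w u = 2 * a + (n + 1) then 1 else 0
    have hφP : φ P = 0 := by
      have h2 := map_perm φ.toRingHom (Matrix.of fun i j : Fin (n + 1) =>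
          (X (v (a + 1 + i.val) (a + 1 + j.val)) : MvPolynomial V k))
      refine h2.trans ?_
      refine Pool.Agent.R831.PermIdeal.perm_zero_row _ (Fin.last n) fun j => ?_
      simp only [map_apply, of_apply, AlgHom.toRingHom_eq_coe, RingHom.coe_coe, φ, aeval_X]
      rw [hw _ _ (by simp; omega) (by omega), if_neg]
      simp
      omega
    have hφQ : φ Q = 1 := by
      have h2 := map_perm φ.toRingHom (Matrix.of fun i j : Fin (n + 1 + 1) =>
        if i = 0 ∧ j = 0 then 0 else (Matrix.of fun i j : Fin (n + 1 + 1) =>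
          (X (v (a + i.val) (a + j.val)) : MvPolynomial V k)) i j)
      refine h2.trans ?_
      rw [← perm_antidiag (R := k) (n + 1 + 1)]
      congr 1
      refine Matrix.ext fun i j => ?_
      simp only [map_apply, of_apply, AlgHom.toRingHom_eq_coe, RingHom.coe_coe, φ]
      by_cases h : i = 0 ∧ j = 0
      · rw [if_pos h, map_zero, if_neg]
        rw [h.1, h.2]
        simp
      · rw [if_neg h, aeval_X, hw _ _ (by omega) (by omega)]
        congr 1
        apply propext
        omega
    obtain ⟨G, hG⟩ := hdvd
    have h3 := congrArg φ hG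
    rw [hφQ, map_mul, hφP, zero_mul] at h3
    exact one_ne_zero h3

lemma isPrime_of {n : ℕ} (Y : Matrix (Fin n) (Fin n) (MvPolynomial V k))
    (h : Prime Y.permanent) : (Pool.Agent.R831.PermIdeal.permIdeal n Y).IsPrime := by
  have h1 : Pool.Agent.R831.PermIdeal.permIdeal n Y = Ideal.span {Y.permanent} := by
    unfold Pool.Agent.R831.PermIdeal.permIdeal
    congr 1
    ext x
    simp only [Set.mem_ofPred_eq, Set.mem_singleton_iff]
    have hr : ∀ r : Fin n ↪o Fin n, (r : Fin n → Fin n) = id := by
      intro r
      have h2 : StrictMono.orderIsoOfSurjective r r.strictMono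
          (Finite.injective_iff_surjective.1 r.injective) = OrderIso.refl _ :=
        Subsingleton.elim _ _
      funext i
      exact congrArg (fun e : Fin n ≃o Fin n => e i) h2
    constructor
    · rintro ⟨r, c, rfl⟩
      rw [hr r, hr c, submatrix_id_id]
    · rintro rfl
      exact ⟨OrderEmbedding.ofStrictMono id strictMono_id,
        OrderEmbedding.ofStrictMono id strictMono_id, rfl⟩
  rw [h1]
  exact (Ideal.span_singleton_prime h.ne_zero).2 h

end Pool.Agent.Helper86K9.HK.PrmL

namespace Pool.Agent.Helper86K9.HK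

open MvPolynomial Matrix

universe u

theorem prmh : S_PRMH.{u} := by
  intro k _ n hn
  obtain ⟨n, rfl⟩ : ∃ n', n = n' + 1 := ⟨n - 1, by omega⟩
  unfold hankelIdeal
  refine PrmL.isPrime_of _ ?_
  have h := PrmL.prime_perm (k := k) (V := Fin (n + 1 + (n + 1) - 1)) (n + 1)
    (fun i j => if h : i + j < n + 1 + (n + 1) - 1 then ⟨i + j, h⟩ else ⟨0, by omega⟩) Fin.val
    (fun i j hi hj => by rw [dif_pos (by omega)]) n 0 (by omega)
  convert h using 2
  refine Matrix.ext fun i j => ?_
  simp only [hankelX, of_apply]
  rw [dif_pos (by omega)]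
  congr 1
  simp

theorem prmg : S_PRMG.{u} := by
  intro k _ n hn
  obtain ⟨n, rfl⟩ : ∃ n', n = n' + 1 := ⟨n - 1, by omega⟩
  refine PrmL.isPrime_of _ ?_
  have h := PrmL.prime_perm (k := k) (V := Fin (n + 1) × Fin (n + 1)) (n + 1)
    (fun i j => (Fin.ofNat (n + 1) i, Fin.ofNat (n + 1) j)) (fun p => p.1.val + p.2.val)
    (fun i j hi hj => by
      simp only [Fin.val_ofNat]
      rw [Nat.mod_eq_of_lt hi, Nat.mod_eq_of_lt hj]) n 0 (by omega)
  convert h using 2
  refine Matrix.ext fun i j => ?_
  simp

theorem prms : S_PRMS.{u} := by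
  intro k _ n hn
  obtain ⟨n, rfl⟩ : ∃ n', n = n' + 1 := ⟨n - 1, by omega⟩
  refine PrmL.isPrime_of _ ?_
  have h := PrmL.prime_perm (k := k) (V := Sym2 (Fin (n + 1))) (n + 1)
    (fun i j => s(Fin.ofNat (n + 1) i, Fin.ofNat (n + 1) j))
    (Sym2.lift ⟨fun a b => a.val + b.val, fun a b => add_comm _ _⟩)
    (fun i j hi hj => by
      simp only [Sym2.lift_mk, Fin.val_ofNat]
      rw [Nat.mod_eq_of_lt hi, Nat.mod_eq_of_lt hj]) n 0 (by omega)
  convert h using 2
  refine Matrix.ext fun i j => ?_
  simp

end Pool.Agent.Helper86K9.HK
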