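import Pool.Agent.Helper86K9.HK.Vrel2

/-!
The additional relations for `m = t + 1`, end.
-/

set_option autoImplicit false

namespace Pool.Agent.Helper86K9.HK

open Finset

universe u

lemma row_shift {k S : Type u} [Field k] [CommRing S] [Algebra k S] (xx : ℕ → S) (n p x y A r : ℕ)
    (hA : 1 ≤ A) : row n (pt p x y A : ℕ → k) xx (r + 1) =
      row n (pt p x y (A - 1) : ℕ → k) xx r := by
  unfold row
  refine sum_congr rfl fun c _ => ?_
  congr 1
  unfold pt
  generalize p * x = X
  congr 1
  · simp only [eq_iff_iff]
    omega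
  · congr 1
    simp only [eq_iff_iff]
    omega

/-- elements of `R` have distance at least two -/
lemma R_gap {p x y r r' : ℕ} (hx : p = 0 ∨ 2 ≤ x) (hy : 2 ≤ y) (hr : InR p x y r)
    (hr' : InR p x y r') : r + 1 ≠ r' := by
  rcases hr with ⟨i, hi, rfl⟩ | rfl <;> rcases hr' with ⟨i', hi', rfl⟩ | rfl
  · rcases hx with rfl | hx
    · obtain rfl : i = 0 := by omega
      obtain rfl : i' = 0 := by omega
      omega
    · intro h
      have : 1 + i * x = 0 + i' * x := by omega
      have := no_coll this (by omega) (by omega)
      omega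
  · have := Nat.mul_le_mul_right x hi
    omega
  · have := Nat.mul_le_mul_right x hi'
    omega
  · omega

/-- the rows outside of the two blocks -/
def rst {M : Type*} [CommMonoid M] (p x y : ℕ) (f : ℕ → M) : M :=
  (∏ k ∈ Ico 2 x, ∏ i ∈ range p, f (i * x + k)) * ∏ k ∈ Ico 2 y, f (p * x + k)

lemma rst_update {M : Type*} [CommMonoid M] {p x y : ℕ} (f : ℕ → M) (s : ℕ) (a : M)
    (hs : InR p x y s ∨ ∃ r, InR p x y r ∧ s = r + 1) :
    rst p x y (Function.update f s a) = rst p x y f := by
  have key : ∀ i j, i < p → 2 ≤ j → j < x → ∀ r, InR p x y r → i * x + j ≠ r ∧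
      i * x + j ≠ r + 1 := by
    intro i j hi hj hjx r hr
    rcases hr with ⟨i', hi', rfl⟩ | rfl
    · constructor
      · intro h
        have : j + i * x = 0 + i' * x := by omega
        have := no_coll this (by omega) (by omega)
        omega
      · intro h
        have : j + i * x = 1 + i' * x := by omega
        have := no_coll this (by omega) (by omega)
        omega
    · have := Nat.mul_le_mul_right x (Nat.succ_le_of_lt hi)
      rw [Nat.succ_mul] at this
      omega
  have key2 : ∀ j, 2 ≤ j → j < y → ∀ r, InR p x y r → p * x + j ≠ r ∧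
      p * x + j ≠ r + 1 := by
    intro j hj hjx r hr
    rcases hr with ⟨i', hi', rfl⟩ | rfl
    · have := Nat.mul_le_mul_right x hi'
      omega
    · omega
  unfold rst
  congr 1
  · refine prod_congr rfl fun j hj => prod_congr rfl fun i hi => ?_
    rw [mem_Ico] at hj
    rw [mem_range] at hi
    rw [Function.update_of_ne]
    rcases hs with hs | ⟨r, hr, rfl⟩
    · exact (key i j hi hj.1 hj.2 s hs).1
    · exact (key i j hi hj.1 hj.2 r hr).2
  · refine prod_congr rfl fun j hj => ?_
    rw [mem_Ico] at hj
    rw [Function.update_of_ne]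
    rcases hs with hs | ⟨r, hr, rfl⟩
    · exact (key2 j hj.1 hj.2 s hs).1
    · exact (key2 j hj.1 hj.2 r hr).2

theorem vrel (hT : S_TAN1.{u}) (h3 : S_ALG3.{u}) : S_VREL.{u} := by
  intro k _ h2 p x y A ν hA2 hAν P δ hδ
  classical
  have hx := P.hx
  have hAy := P.hAy
  have hey := P.hy
  have hAx := P.hAx
  have hx' := P.hx'
  have hy2 : 2 ≤ y := by omega
  have hx2 : p = 0 ∨ 2 ≤ x := by
    rcases Nat.eq_zero_or_pos p with h | h
    · exact Or.inl h
    · have := hAx h
      omega
  have P0 : Par p x y A ν := ⟨hx, by omega, hAν, hAy, by omega, hAx, fun h => by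
    have := hx' h; omega⟩
  have P1 : Par p x y (A - 1) ν := ⟨hx, by omega, by omega, by omega, by omega, fun h => by
    have := hAx h; omega, fun h => by have := hx' h; omega⟩
  set C : Finset ℕ := insert (A - 1) (Icc A (A + (p * x + y))) with hCdef
  have memC : ∀ c, c ∈ C ↔ A - 1 ≤ c ∧ c ≤ A + (p * x + y) := by
    intro c
    rw [hCdef, mem_insert, mem_Icc]
    omega
  set xx := xc k C with hxx
  have hsq : ∀ c, xx c * xx c = 0 := xc_sq h3 C
  have px : ∀ i, i ≤ p → i * x ≤ p * x := fun i hi => Nat.mul_le_mul_right x hi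
  have px' : ∀ i, i < p → i * x + x ≤ p * x := by
    intro i hi
    have := Nat.mul_le_mul_right x (Nat.succ_le_of_lt hi)
    rwa [Nat.succ_mul] at this
  set n := p * x + y + ν with hn
  set g : ℕ → Sq k := row n (pt p x y A : ℕ → k) xx with hg
  set g' : ℕ → Sq k := row n (pt p x y (A - 1) : ℕ → k) xx with hg'
  have hgg : ∀ r, g (r + 1) = g' r := fun r => row_shift xx n p x y A r (by omega)
  have gap : ∀ r r', InR p x y r → InR p x y r' → r + 1 ≠ r' := fun r r' => R_gap hx2 hy2
  have Rlt : ∀ r, InR p x y r → r < p * x + y + 1 := by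
    intro r hr
    rcases hr with ⟨i, hi, rfl⟩ | rfl
    · have := px i hi
      omega
    · omega
  have Ri : ∀ i, i ≤ p → InR p x y (i * x) := fun i hi => Or.inl ⟨i, hi, rfl⟩
  -- the rest is a product of variables
  have hrest : rst p x y g = (∏ j ∈ Ico 2 x, ∏ i ∈ range p, xx (A + p * x - (i * x + j))) *
          ∏ j ∈ Ico 2 y, xx (A + (p * x + y) - j) := by
    unfold rst
    congr 1
    · refine prod_congr rfl fun j hj => ?_
      rw [mem_Ico] at hj
      have e1 : ∀ i ∈ range p, g (i * x + j) =
          bz (p * x + y + ν) xx (A + p * x - (i : ℕ) * x - j) +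
          bz (p * x + y + ν) xx (A + p * x - (i + 1 : ℕ) * x - j) := by
        intro i hi
        rw [mem_range] at hi
        have h6 := px' i hi
        rw [hg, row_first P0 xx hi hj.2,
          bz_xc_zero (z := (A : ℤ) + p * x + (p * x + y) - i * x - j), add_zero]
        intro c hc
        rw [memC] at hc
        have e1 : ((i * x : ℕ) : ℤ) = i * x := by push_cast; ring
        have e2 : ((p * x : ℕ) : ℤ) = p * x := by push_cast; ring
        rw [← e1, ← e2]
        omega
      rw [prod_congr rfl e1, path0 (fun i => bz (p * x + y + ν) xx (A + p * x - (i : ℕ) * x - j))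
        (fun i => bz_sq _ _ hsq _)]
      · refine prod_congr rfl fun i hi => ?_
        rw [mem_range] at hi
        have h6 := px' i hi
        apply bz_eq
        · rw [Nat.cast_sub (by omega)]
          push_cast
          ring
        · omega
        · omega
      · apply bz_xc_zero
        intro c hc
        rw [memC] at hc
        omega
    · refine prod_congr rfl fun j hj => ?_
      rw [mem_Ico] at hj
      rw [hg, row_second P0 xx (by omega), bz_xc_zero (z := (A : ℤ) - j),
        bz_xc_zero (z := (A : ℤ) + (p * x + y) + y - j), zero_add, sub_zero]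
      · apply bz_eq
        · rw [Nat.cast_sub (by omega)]
          push_cast
          ring
        · omega
        · omega
      · intro c hc
        rw [memC] at hc
        have e2 : ((p * x : ℕ) : ℤ) = p * x := by push_cast; ring
        rw [← e2]
        omega
      · intro c hc
        rw [memC] at hc
        omega
  -- product with two rows omitted
  have hprod : ∀ a b, InR p x y a → InR p x y b →
      ∏ r ∈ range (p * x + y + 2), Function.update (Function.update g a 1) (b + 1) 1 r =
        blk p x y (Function.update g a 1) * blk p x y (Function.update g' b 1) *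
          rst p x y g := by
    intro a b ha hb
    rw [prod_rows2 _ p hx2 hx hy2]
    congr 1
    · congr 1
      · unfold blk
        congr 1
        · congr 1
          · refine prod_congr rfl fun i hi => ?_
            rw [Function.update_of_ne]
            exact (gap b _ hb (Ri i (mem_range.1 hi).le)).symm
          · rw [Function.update_of_ne]
            exact (gap b _ hb (Ri p le_rfl)).symm
        · rw [Function.update_of_ne]
          exact (gap b _ hb (Or.inr rfl)).symm
      · have e : ∀ s, InR p x y s → Function.update (Function.update g a 1) (b + 1) 1 (s + 1) =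
            Function.update g' b 1 s := by
          intro s hs
          by_cases hsb : s = b
          · rw [hsb, Function.update_self, Function.update_self]
          · rw [Function.update_of_ne (by omega), Function.update_of_ne (gap s a hs ha),
              Function.update_of_ne hsb, hgg]
        unfold blk
        congr 1
        · congr 1
          · exact prod_congr rfl fun i hi => e _ (Ri i (mem_range.1 hi).le)
          · exact e _ (Ri p le_rfl)
        · exact e _ (Or.inr rfl)
    · show rst p x y _ = _
      rw [rst_update _ _ _ (Or.inr ⟨b, hb, rfl⟩), rst_update _ _ _ (Or.inl ha)]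
  have herase : ∀ a b, InR p x y a → InR p x y b →
      ∏ r ∈ ((range (p * x + y + 2)).erase (b + 1)).erase a, g r =
      ∏ r ∈ range (p * x + y + 2), Function.update (Function.update g a 1) (b + 1) 1 r := by
    intro a b ha hb
    have h1 := Rlt a ha
    have h2 := Rlt b hb
    have h4 : b + 1 ∈ range (p * x + y + 2) := mem_range.2 (by omega)
    have h5 : a ∈ (range (p * x + y + 2)).erase (b + 1) :=
      mem_erase.2 ⟨(gap b a hb ha).symm, mem_range.2 (by omega)⟩
    rw [← mul_prod_erase _ _ h4, Function.update_self, one_mul, ← mul_prod_erase _ _ h5,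
      Function.update_of_ne (gap b a hb ha).symm, Function.update_self, one_mul]
    refine prod_congr rfl fun s hs => ?_
    rw [mem_erase, mem_erase] at hs
    rw [Function.update_of_ne hs.2.1, Function.update_of_ne hs.1]
  -- isolating a row
  have iso : ∀ (q s : ℕ) (cj : Sq k), q ∈ range (p * x + y + 2) → s ∈ range (p * x + y + 2) →
      q ≠ s → cj * g q = 0 → cj * (row n δ xx q *
        ∏ r ∈ ((range (p * x + y + 2)).erase s).erase q, g r) = 0 := by
    intro q s cj hq hs hqs hcj
    have key := hT k (Sq k) _ _ _ _ _ hδ xx hsq ((range (p * x + y + 2)).erase s)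
      (erase_subset _ _) (by rw [card_erase_of_mem hs, card_range]; rfl)
    have hq' : q ∈ (range (p * x + y + 2)).erase s := mem_erase.2 ⟨hqs, hq⟩
    rw [← mul_zero cj, ← key, ← add_sum_erase _ _ hq', mul_add, left_eq_add, mul_sum]
    refine sum_eq_zero fun v hv => ?_
    have h4 : q ∈ ((range (p * x + y + 2)).erase s).erase v :=
      mem_erase.2 ⟨(mem_erase.1 hv).1.symm, hq'⟩
    rw [← mul_prod_erase _ _ h4]
    linear_combination (row n δ xx v *
      ∏ r' ∈ (((range (p * x + y + 2)).erase s).erase v).erase q, g r') * hcj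
  have two : ∀ z : Sq k, (2 : Sq k) * z = 0 → z = 0 := by
    intro z hz
    have : algebraMap k (Sq k) 2⁻¹ * (2 * z) = z := by
      rw [← mul_assoc, ← map_ofNat (algebraMap k (Sq k)) 2, ← map_mul, inv_mul_cancel₀ h2,
        map_one, one_mul]
    rw [← this, hz, mul_zero]
  have hCn : C ⊆ Icc 1 n := by
    intro c hc
    rw [memC] at hc
    rw [mem_Icc]
    omega
  have Psum : ∀ i, i ≤ p → (p - i) * x = p * x - i * x := fun i _ => Nat.sub_mul _ _ _
  have uux : ∀ (A' : ℕ) (i : ℕ), (A' = A ∨ A' = A - 1) → i ≤ p →
      uu p x y A' ν xx i = xx (A' + p * x - i * x) := by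
    intro A' i hA' hi
    have h5 := px i hi
    unfold uu
    apply bz_eq
    · rw [Nat.cast_sub (by omega)]
      push_cast
      ring
    · omega
    · omega
  have wwx : ∀ (A' : ℕ), (A' = A ∨ A' = A - 1) → ww p x y A' ν xx = xx (A' + (p * x + y)) := by
    intro A' hA'
    unfold ww
    apply bz_eq
    · push_cast
      ring
    · omega
    · omega
  -- membership facts
  have m0 : ∀ i, i ≤ p → A + p * x - i * x ∈ chn p x y A := by
    intro i hi
    rw [mem_chn]
    right
    refine ⟨p - i, by omega, ?_⟩
    rw [Psum i hi]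
    have := px i hi
    omega
  have m1 : ∀ i, i ≤ p → A - 1 + p * x - i * x ∈ chn p x y (A - 1) := by
    intro i hi
    rw [mem_chn]
    right
    refine ⟨p - i, by omega, ?_⟩
    rw [Psum i hi]
    have := px i hi
    omega
  have inR : ∀ D c, c ∈ chn p x y D → ∃ s, InR p x y s ∧ c = D + s := by
    intro D c hc
    rcases mem_chn.1 hc with rfl | ⟨i, hi, rfl⟩
    · exact ⟨_, Or.inr rfl, rfl⟩
    · exact ⟨_, Or.inl ⟨i, hi, rfl⟩, rfl⟩
  have dis : ∀ c, c ∈ chn p x y A → c ∉ chn p x y (A - 1) := by
    intro c hc hc'
    obtain ⟨s, hs, rfl⟩ := inR _ _ hc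
    obtain ⟨s', hs', h⟩ := inR _ _ hc'
    exact gap s s' hs hs' (by omega)
  have oth1 : ∀ j, 2 ≤ j → j < x → ∀ i, i < p → A + p * x - (i * x + j) ∉ chn p x y A ∧
      A + p * x - (i * x + j) ∉ chn p x y (A - 1) := by
    intro j hj hjx i hi
    have h6 := px' i hi
    constructor
    · intro h
      rcases mem_chn.1 h with h | ⟨i', hi', h⟩
      · omega
      · have h7 : j + (i' + i) * x = 0 + p * x := by
          rw [Nat.add_mul]
          omega
        have := no_coll h7 (by omega) (by omega)
        omega
    · intro h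
      rcases mem_chn.1 h with h | ⟨i', hi', h⟩
      · omega
      · have h7 : j + (i' + i) * x = 1 + p * x := by
          rw [Nat.add_mul]
          omega
        have := no_coll h7 (by omega) (by omega)
        omega
  have oth2 : ∀ j, 2 ≤ j → j < y → A + (p * x + y) - j ∉ chn p x y A ∧
      A + (p * x + y) - j ∉ chn p x y (A - 1) := by
    intro j hj hjy
    constructor
    · intro h
      rcases mem_chn.1 h with h | ⟨i', hi', h⟩
      · omega
      · have := px i' hi'
        omega
    · intro h
      rcases mem_chn.1 h with h | ⟨i', hi', h⟩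
      · omega
      · have := px i' hi'
        omega
  have wA : A + (p * x + y) ∈ chn p x y A := mem_chn.2 (Or.inl rfl)
  have wA1 : A - 1 + (p * x + y) ∈ chn p x y (A - 1) := mem_chn.2 (Or.inl rfl)
  -- the two products of variables
  have W0 : (∏ c ∈ C, if c ∈ chn p x y (A - 1) then 1 else xx c) =
      BB p x y A ν xx * rst p x y g := by
    rw [hCdef, mon2 _ p A hx2 hx hy2 (by omega), hrest]
    unfold BB
    have e1 : (∏ i ∈ range (p + 1), if A - 1 + p * x - i * x ∈ chn p x y (A - 1) then (1 : Sq k)
        else xx (A - 1 + p * x - i * x)) = 1 :=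
      prod_eq_one fun i hi => if_pos (m1 i (by rw [mem_range] at hi; omega))
    have e2 : (∏ i ∈ range (p + 1), if A + p * x - i * x ∈ chn p x y (A - 1) then (1 : Sq k)
        else xx (A + p * x - i * x)) = ∏ i ∈ range (p + 1), uu p x y A ν xx i := by
      refine prod_congr rfl fun i hi => ?_
      rw [mem_range] at hi
      rw [if_neg (dis _ (m0 i (by omega))), uux A i (Or.inl rfl) (by omega)]
    have e3 : (∏ j ∈ Ico 2 x, ∏ i ∈ range p,
        if A + p * x - (i * x + j) ∈ chn p x y (A - 1) then (1 : Sq k)
        else xx (A + p * x - (i * x + j))) =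
        ∏ j ∈ Ico 2 x, ∏ i ∈ range p, xx (A + p * x - (i * x + j)) := by
      refine prod_congr rfl fun j hj => prod_congr rfl fun i hi => ?_
      rw [mem_Ico] at hj
      exact if_neg (oth1 j hj.1 hj.2 i (mem_range.1 hi)).2
    have e4 : (∏ j ∈ Ico 2 y, if A + (p * x + y) - j ∈ chn p x y (A - 1) then (1 : Sq k)
        else xx (A + (p * x + y) - j)) = ∏ j ∈ Ico 2 y, xx (A + (p * x + y) - j) := by
      refine prod_congr rfl fun j hj => ?_
      rw [mem_Ico] at hj
      exact if_neg (oth2 j hj.1 hj.2).2
    rw [e1, e2, e3, e4, if_pos wA1, if_neg (dis _ wA), wwx A (Or.inl rfl)]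
    ring
  have W1 : (∏ c ∈ C, if c ∈ chn p x y A then 1 else xx c) =
      BB p x y (A - 1) ν xx * rst p x y g := by
    have dis' : ∀ c, c ∈ chn p x y (A - 1) → c ∉ chn p x y A := fun c hc hc' => dis c hc' hc
    rw [hCdef, mon2 _ p A hx2 hx hy2 (by omega), hrest]
    unfold BB
    have e1 : (∏ i ∈ range (p + 1), if A + p * x - i * x ∈ chn p x y A then (1 : Sq k)
        else xx (A + p * x - i * x)) = 1 :=
      prod_eq_one fun i hi => if_pos (m0 i (by rw [mem_range] at hi; omega))
    have e2 : (∏ i ∈ range (p + 1), if A - 1 + p * x - i * x ∈ chn p x y A then (1 : Sq k)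
        else xx (A - 1 + p * x - i * x)) = ∏ i ∈ range (p + 1), uu p x y (A - 1) ν xx i := by
      refine prod_congr rfl fun i hi => ?_
      rw [mem_range] at hi
      rw [if_neg (dis' _ (m1 i (by omega))), uux (A - 1) i (Or.inr rfl) (by omega)]
    have e3 : (∏ j ∈ Ico 2 x, ∏ i ∈ range p,
        if A + p * x - (i * x + j) ∈ chn p x y A then (1 : Sq k)
        else xx (A + p * x - (i * x + j))) =
        ∏ j ∈ Ico 2 x, ∏ i ∈ range p, xx (A + p * x - (i * x + j)) := by
      refine prod_congr rfl fun j hj => prod_congr rfl fun i hi => ?_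
      rw [mem_Ico] at hj
      exact if_neg (oth1 j hj.1 hj.2 i (mem_range.1 hi)).1
    have e4 : (∏ j ∈ Ico 2 y, if A + (p * x + y) - j ∈ chn p x y A then (1 : Sq k)
        else xx (A + (p * x + y) - j)) = ∏ j ∈ Ico 2 y, xx (A + (p * x + y) - j) := by
      refine prod_congr rfl fun j hj => ?_
      rw [mem_Ico] at hj
      exact if_neg (oth2 j hj.1 hj.2).1
    rw [e1, e2, e3, e4, if_pos wA, if_neg (dis' _ wA1), wwx (A - 1) (Or.inr rfl)]
    ring
  -- first case: the block at `A` is complete
  have case0 : ∀ r, InR p x y r → ∀ c ∈ chn p x y (A - 1), δ (r + c) = 0 := by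
    intro r hr
    refine solve (e := ν) h2 xx hsq P1 (by omega) (fun c => δ (r + c)) ?_
    intro s hs κ hκ
    refine finish (k := k) h3 hCn ?_ rfl κ
      (blk p x y (Function.update g' s 1)) hκ δ r ?_
    · intro c hc
      rw [memC]
      rcases mem_chn.1 hc with rfl | ⟨i, hi, rfl⟩
      · omega
      · have := px i hi
        omega
    · rw [W0]
      obtain ⟨cj, hcj, hcj2⟩ := conj (k := k) xx P0 hsq r hr
      have h1 := Rlt r hr
      have h4 := Rlt s hs
      have h5 := iso r (s + 1) cj (mem_range.2 (by omega)) (mem_range.2 (by omega))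
        (gap s r hs hr).symm hcj
      rw [herase r s hr hs, hprod r s hr hs] at h5
      apply two
      rcases hcj2 with h6 | h6
      · linear_combination h5 - row n δ xx r * blk p x y (Function.update g' s 1) *
          rst p x y g * h6
      · linear_combination -h5 + row n δ xx r * blk p x y (Function.update g' s 1) *
          rst p x y g * h6
  have case1 : ∀ r, InR p x y r → ∀ c ∈ chn p x y A, δ (r + 1 + c) = 0 := by
    intro r hr
    refine solve (e := ν) h2 xx hsq P0 (by omega) (fun c => δ (r + 1 + c)) ?_
    intro s hs κ hκ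
    refine finish (k := k) h3 hCn ?_ rfl κ
      (blk p x y (Function.update g s 1)) hκ δ (r + 1) ?_
    · intro c hc
      rw [memC]
      rcases mem_chn.1 hc with rfl | ⟨i, hi, rfl⟩
      · omega
      · have := px i hi
        omega
    · rw [W1]
      obtain ⟨cj, hcj, hcj2⟩ := conj (k := k) xx P1 hsq r hr
      have h1 := Rlt r hr
      have h4 := Rlt s hs
      have h5 := iso (r + 1) s cj (mem_range.2 (by omega)) (mem_range.2 (by omega))
        (gap r s hr hs) (by rw [hgg]; exact hcj)
      rw [erase_right_comm, herase s r hs hr, hprod s r hs hr] at h5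
      apply two
      rcases hcj2 with h6 | h6
      · linear_combination h5 - row n δ xx (r + 1) * blk p x y (Function.update g s 1) *
          rst p x y g * h6
      · linear_combination -h5 + row n δ xx (r + 1) * blk p x y (Function.update g s 1) *
          rst p x y g * h6
  have toChn : ∀ D s, InR p x y s → D + s ∈ chn p x y D := by
    intro D s hs
    rcases hs with ⟨i, hi, rfl⟩ | rfl
    · exact mem_chn.2 (Or.inr ⟨i, hi, rfl⟩)
    · exact mem_chn.2 (Or.inl rfl)
  intro r c hr hc
  constructor
  · rw [show A + 1 + r + c = r + 1 + (A + c) by omega]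
    exact case1 r hr _ (toChn A c hc)
  · rw [show A - 1 + r + c = r + (A - 1 + c) by omega]
    exact case0 r hr _ (toChn (A - 1) c hc)

end Pool.Agent.Helper86K9.HK
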