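import Pool.Agent.Helper86K9.HK.Fin1
import Pool.Agent.Helper86K9.HK.Fin2
import Pool.Agent.Helper86K9.HK.C2
import Pool.Agent.Helper86K9.HK.Five
import Pool.Agent.Helper86K9.HK.Vrel3
import Pool.Agent.Helper86K9.HK.Drel
import Pool.Agent.Helper86K9.HK.C4
import Pool.Agent.Helper86K9.HK.C5
import Pool.Agent.Helper86K9.HK.Prm
import Pool.Agent.Helper55K9.HK.Two
import Pool.Agent.Helper55K9.HK.Big

/-!
# Hankel permanental ideals: the case distinction
-/

set_option autoImplicit false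

namespace Pool.Agent.Helper86K9.HK

open Matrix

universe u

/-- [E2] The case `m = t`, `n = t + 1`. -/
def S_E2 : Prop :=
  ∀ (k : Type u) [Field k], (2 : k) ≠ 0 → ∀ t : ℕ, 4 ≤ t →
    ¬ (hankelIdeal k t t (t + 1)).IsPrime

/-- [FOUR] The case `t = 4` of [E2]. -/
def S_FOUR : Prop :=
  ∀ (k : Type u) [Field k], (2 : k) ≠ 0 → ¬ (hankelIdeal k 4 4 5).IsPrime

/-- [EVEN] The case `t = 2 s`, `3 ≤ s`, of [E2]. -/
def S_EVEN : Prop :=
  ∀ (k : Type u) [Field k], (2 : k) ≠ 0 → ∀ s : ℕ, 3 ≤ s →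
    ¬ (hankelIdeal k (2 * s) (2 * s) (2 * s + 1)).IsPrime

/-- [ODD] The case `t = 2 s - 1`, `4 ≤ s`, of [E2]. -/
def S_ODD : Prop :=
  ∀ (k : Type u) [Field k], (2 : k) ≠ 0 → ∀ s : ℕ, 4 ≤ s →
    ¬ (hankelIdeal k (2 * s - 1) (2 * s - 1) (2 * s)).IsPrime

theorem e2_of (h4 : S_FOUR.{u}) (he : S_EVEN.{u}) (ho : S_ODD.{u}) : S_E2.{u} := by
  intro k _ h2 t ht
  rcases Nat.even_or_odd' t with ⟨s, rfl | rfl⟩
  · rcases Nat.lt_or_ge s 3 with h | h
    · obtain rfl : s = 2 := by omega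
      exact h4 k h2
    · exact he k h2 s h
  · rcases Nat.lt_or_ge s 3 with h | h
    · obtain rfl : s = 2 := by omega
      exact five k h2
    · have := ho k h2 (s + 1) (by omega)
      rwa [show 2 * (s + 1) - 1 = 2 * s + 1 by omega] at this

lemma hankelIdeal_eq55 (k : Type u) [Field k] (t m n : ℕ) :
    hankelIdeal k t m n =
      Pool.Agent.R831.PermIdeal.permIdeal t (Pool.Agent.Helper55K9.HK.hankel k m n) := rfl

/-- The case `m ≤ n`. -/
theorem main_le (he2 : S_E2.{u}) (k : Type u) [Field k]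
    (h2 : (2 : k) ≠ 0) (t m n : ℕ) (ht : 2 ≤ t) (hm : t ≤ m) (hmn : m ≤ n) (hne : t < n) :
    ¬ (hankelIdeal k t m n).IsPrime := by
  have hD : S_DREL.{u} := drel tan1 alg3
  have hV : S_VREL.{u} := vrel tan1 alg3
  have hf1 : S_FIN1.{u} := fin1 hD
  rcases Nat.lt_or_ge t 3 with h3 | h3
  · -- `t = 2`
    obtain rfl : t = 2 := by omega
    exact Pool.Agent.Helper55K9.HK.Two.not_prime k h2 m n hm hne
  rcases Nat.lt_or_ge n (2 * t - 1) with hn | hn
  swap
  · exact Pool.Agent.Helper55K9.HK.Big.not_prime k h2 m n t h3 hm hn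
  rcases Nat.lt_or_ge t m with htm | htm
  · -- `t < m`
    have := fin2 hD hV k h2 (t - 1) (m - (t - 1)) (n - (t - 1)) (by omega) (by omega) (by omega)
      (by omega)
    rw [show t - 1 + 1 = t by omega, show t - 1 + (m - (t - 1)) = m by omega,
      show t - 1 + (n - (t - 1)) = n by omega] at this
    exact this
  obtain rfl : t = m := by omega
  obtain ⟨X, rfl⟩ : ∃ X, t = X + 1 := ⟨t - 1, by omega⟩
  obtain ⟨e, rfl⟩ : ∃ e, n = X + e := ⟨n - X, by omega⟩
  rcases Nat.lt_or_ge e X with heX | heX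
  swap
  · -- `n = 2 t - 2`
    obtain rfl : X = e := by omega
    have := c2' k h2 (X + 1) h3
    rwa [show 2 * (X + 1) - 2 = X + X by omega] at this
  rcases Nat.lt_or_ge e 3 with he3 | he3
  · -- `n = t + 1`
    obtain rfl : e = 2 := by omega
    exact he2 k h2 (X + 1) (by omega)
  obtain ⟨x, hx⟩ : ∃ x, x = (e + 2) / 2 := ⟨_, rfl⟩
  have hxe : e = 2 * x - 1 ∨ e = 2 * x - 2 := by omega
  have hx2 : 2 ≤ x := by omega
  rcases Nat.lt_or_ge X (2 * x) with hX | hX
  · -- `n = 2 t - 3`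
    have := c4 k h2 X (by omega)
    rwa [show 2 * X - 1 = X + e by omega] at this
  · obtain ⟨p, hp⟩ : ∃ p, X / x = p + 1 :=
      ⟨X / x - 1, by have := (Nat.le_div_iff_mul_le (by omega : 0 < x)).2 hX; omega⟩
    obtain ⟨y, hy⟩ : ∃ y, X = p * x + y ∧ x ≤ y ∧ y ≤ 2 * x - 1 := by
      have h1 := Nat.div_add_mod X x
      have h4 := Nat.mod_lt X (by omega : 0 < x)
      rw [hp] at h1
      refine ⟨x + X % x, ?_, by omega, by omega⟩
      calc X = x * (p + 1) + X % x := h1.symm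
        _ = p * x + (x + X % x) := by ring
    obtain ⟨hy1, hy2, hy3⟩ := hy
    have hp1 : 1 ≤ p := by
      have := (Nat.le_div_iff_mul_le (by omega : 0 < x)).2 hX
      omega
    subst hy1
    by_cases hex : p = 1 ∧ x = 3 ∧ y = 5 ∧ e = 4
    · obtain ⟨rfl, rfl, rfl, rfl⟩ := hex
      exact c5 hD k h2
    · exact hf1 k h2 p x y e hp1 hx2 hy2 hy3 (by omega) hex

/-- Transposition. -/
lemma prime_transpose (k : Type u) [Field k] (t m n : ℕ) (h : (hankelIdeal k t m n).IsPrime) :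
    (hankelIdeal k t n m).IsPrime := by
  let e : Fin (m + n - 1) ≃ Fin (n + m - 1) := finCongr (by omega)
  let φ : MvPolynomial (Fin (m + n - 1)) k ≃+* MvPolynomial (Fin (n + m - 1)) k :=
    (MvPolynomial.renameEquiv k e).toRingEquiv
  have hφ : ∀ v, φ (MvPolynomial.X v) = MvPolynomial.X (e v) := fun v =>
    MvPolynomial.rename_X _ _
  have h1 : (hankelX k n m)ᵀ = (hankelX k m n).map φ := by
    ext1 i j
    simp only [hankelX, transpose_apply, of_apply, map_apply]
    rw [hφ]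
    refine congrArg MvPolynomial.X (Fin.ext ?_)
    simp [e, Nat.add_comm]
  have key : hankelIdeal k t n m = (hankelIdeal k t m n).map φ := by
    unfold hankelIdeal
    rw [← Pool.Agent.R831.PermIdeal.permIdeal_transpose (hankelX k n m), h1]
    unfold Pool.Agent.R831.PermIdeal.permIdeal
    rw [Ideal.map_span]
    congr 1
    ext f
    constructor
    · rintro ⟨r, c, rfl⟩
      refine ⟨_, ⟨r, c, rfl⟩, ?_⟩
      simp only [permanent, map_sum, map_prod, submatrix_apply, map_apply]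
    · rintro ⟨_, ⟨r, c, rfl⟩, rfl⟩
      refine ⟨r, c, ?_⟩
      simp only [permanent, map_sum, map_prod, submatrix_apply, map_apply]
  rw [key]
  exact Ideal.map_isPrime_of_equiv φ

/-- The theorem for Hankel matrices. -/
theorem hankel_main (he2 : S_E2.{u}) (k : Type u) [Field k]
    (h2 : (2 : k) ≠ 0) (t m n : ℕ) (ht : 2 ≤ t) (hm : t ≤ m) (hn : t ≤ n) :
    (hankelIdeal k t m n).IsPrime ↔ t = m ∧ t = n := by
  constructor
  · intro h
    by_contra hne
    rcases Nat.lt_or_ge n m with hmn | hmn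
    · exact main_le he2 k h2 t n m ht hn hmn.le (by omega) (prime_transpose k t m n h)
    · exact main_le he2 k h2 t m n ht hm hmn (by omega) h
  · rintro ⟨rfl, rfl⟩
    exact prmh k t (by omega)

end Pool.Agent.Helper86K9.HK
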