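import Pool.Agent.Helper86K9.HK.Rows

/-!
Isolating one row of the block.
-/

set_option autoImplicit false

namespace Pool.Agent.Helper86K9.HK

open Finset

universe u

section

variable {k S : Type u} [Field k] [CommRing S] [Algebra k S] (xx : ℕ → S)
  {p x y A e : ℕ} (P : Par p x y A e)

/-- the vertices of the block -/
def uu {S : Type*} [Zero S] (p x y A e : ℕ) (xx : ℕ → S) (i : ℕ) : S :=
  bz (p * x + y + e) xx (A + p * x - i * x)

/-- the last vertex of the block -/
def ww {S : Type*} [Zero S] (p x y A e : ℕ) (xx : ℕ → S) : S :=
  bz (p * x + y + e) xx (A + p * x + y)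

include P

lemma row_blk (i : ℕ) (hi : i < p) :
    row (p * x + y + e) (pt p x y A : ℕ → k) xx (i * x) =
      uu p x y A e xx i + uu p x y A e xx (i + 1) := by
  have h1 := P.hx
  have h2 := P.hx' (by omega)
  have h3 := P.hA
  have h4 := P.hAy
  have h5 : (i + 1) * x ≤ p * x := Nat.mul_le_mul_right x hi
  rw [row_pt _ _ _ _ _ _ h1 (by omega), if_pos (by omega)]
  rw [Nat.succ_mul] at h5
  have e1 : ((i * x : ℕ) : ℤ) = i * x := by push_cast; ring
  have e2 : ((p * x : ℕ) : ℤ) = p * x := by push_cast; ring
  rw [bz_zero _ _ (c := (A : ℤ) + p * x + (p * x + y) - ((i * x : ℕ) : ℤ)),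
    bz_zero _ _ (c := (A : ℤ) + p * x + (p * x + y) + y - ((i * x : ℕ) : ℤ))]
  · unfold uu
    rw [add_zero, sub_zero, add_comm]
    congr 2
    push_cast
    ring
  · rw [← e2]
    generalize p * x = X at *
    generalize i * x = I at *
    omega
  · rw [← e2]
    generalize p * x = X at *
    generalize i * x = I at *
    omega

lemma row_blk_p : row (p * x + y + e) (pt p x y A : ℕ → k) xx (p * x) =
      uu p x y A e xx p + ww p x y A e xx := by
  have h1 := P.hx
  have h2 := P.hAx
  have h3 := P.hA
  have h4 := P.hAy
  have h5 := P.hy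
  rw [row_pt _ _ _ _ _ _ h1 (by omega)]
  have e2 : ((p * x : ℕ) : ℤ) = p * x := by push_cast; ring
  rw [bz_zero _ _ (c := (A : ℤ) + p * x + (p * x + y) + y - ((p * x : ℕ) : ℤ))]
  · have : (if 1 ≤ p then bz (p * x + y + e) xx ((A : ℤ) + p * x - x - ((p * x : ℕ) : ℤ)) else 0)
        = 0 := by
      split_ifs with h
      · apply bz_zero
        have := h2 h
        rw [← e2]
        omega
      · rfl
    rw [this, zero_add, sub_zero]
    unfold uu ww
    congr 2
    · rw [← e2]
      ring
  · rw [← e2]
    generalize p * x = X at *
    omega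

lemma row_blk_X : row (p * x + y + e) (pt p x y A : ℕ → k) xx (p * x + y) =
      uu p x y A e xx 0 - ww p x y A e xx := by
  have h1 := P.hx
  have h2 := P.hAx
  have h3 := P.hA
  have h4 := P.hAy
  have h5 := P.hy
  rw [row_pt _ _ _ _ _ _ h1 (by omega)]
  have e2 : ((p * x : ℕ) : ℤ) = p * x := by push_cast; ring
  rw [bz_zero _ _ (c := (A : ℤ) + p * x - ((p * x + y : ℕ) : ℤ))]
  · have : (if 1 ≤ p then bz (p * x + y + e) xx ((A : ℤ) + p * x - x - ((p * x + y : ℕ) : ℤ))
        else 0) = 0 := by
      split_ifs with h
      · apply bz_zero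
        rw [← e2]
        generalize p * x = X at *
        omega
      · rfl
    rw [this, zero_add, zero_add]
    unfold uu ww
    congr 2
    · rw [← e2]
      push_cast
      ring
    · rw [← e2]
      push_cast
      ring
  · rw [← e2]
    generalize p * x = X at *
    omega

end

section

variable {k S : Type u} [Field k] [CommRing S] [Algebra k S] (xx : ℕ → S)
  {p x y A e : ℕ}

/-- the product of the rows outside the block -/
noncomputable def GG (k : Type u) {S : Type u} [Field k] [CommRing S] [Algebra k S]
    (p x y A e : ℕ) (xx : ℕ → S) : S :=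
  (∏ j ∈ Ico 1 x, ∏ i ∈ range p, row (p * x + y + e) (pt p x y A : ℕ → k) xx (i * x + j)) *
    ∏ j ∈ Ico 1 y, row (p * x + y + e) (pt p x y A : ℕ → k) xx (p * x + j)

/-- the product of the variables of the block -/
def BB {S : Type*} [CommRing S] (p x y A e : ℕ) (xx : ℕ → S) : S :=
  (∏ i ∈ range (p + 1), uu p x y A e xx i) * ww p x y A e xx

/-- The essential step: every row of the block gives an equation for one window of `δ`. -/
theorem isolate (hT : S_TAN1.{u}) (h2 : (2 : k) ≠ 0) (P : Par p x y A e)
    (hxx : ∀ c, xx c * xx c = 0) (δ : ℕ → k)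
    (hδ : Tan (p * x + y + 1) (p * x + y + 1) (p * x + y + e) (pt p x y A) δ) (r : ℕ)
    (hr : InR p x y r) :
    row (p * x + y + e) δ xx r * (BB p x y A e xx * GG k p x y A e xx) = 0 := by
  classical
  have hx := P.hx
  have hy : 1 ≤ y := le_trans P.hA P.hAy
  have key := hT k S _ _ _ _ _ hδ xx hxx (range (p * x + y + 1)) subset_rfl (card_range _)
  set g : ℕ → S := row (p * x + y + e) (pt p x y A : ℕ → k) xx with hg
  -- it suffices to multiply by a conjugate
  have main : ∀ cj : S, cj * g r = 0 → r < p * x + y + 1 →
      cj * (row (p * x + y + e) δ xx r * ∏ r' ∈ (range (p * x + y + 1)).erase r, g r') = 0 := by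
    intro cj h1 h3
    rw [← mul_zero cj, ← key, ← add_sum_erase _ _ (mem_range.2 h3), mul_add, left_eq_add,
      mul_sum]
    refine sum_eq_zero fun s hs => ?_
    rw [mem_erase] at hs
    have h4 : r ∈ (range (p * x + y + 1)).erase s := mem_erase.2 ⟨hs.1.symm, mem_range.2 h3⟩
    rw [← mul_prod_erase _ _ h4]
    linear_combination (row (p * x + y + e) δ xx s *
      ∏ r' ∈ ((range (p * x + y + 1)).erase s).erase r, g r') * h1
  have upd : ∏ r' ∈ (range (p * x + y + 1)).erase r, g r' =
      ∏ r' ∈ range (p * x + y + 1), Function.update g r 1 r' := by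
    have hlt : r < p * x + y + 1 := by
      rcases hr with ⟨i, hi, rfl⟩ | rfl
      · have := Nat.mul_le_mul_right x hi
        omega
      · omega
    rw [← mul_prod_erase _ _ (mem_range.2 hlt), Function.update_self, one_mul]
    refine prod_congr rfl fun s hs => ?_
    rw [Function.update_of_ne (mem_erase.1 hs).1]
  have hu : ∀ j, uu p x y A e xx j * uu p x y A e xx j = 0 := fun j => bz_sq _ _ hxx _
  have hw : ww p x y A e xx * ww p x y A e xx = 0 := bz_sq _ _ hxx _
  have hgi : ∀ i, i < p → g (i * x) = uu p x y A e xx i + uu p x y A e xx (i + 1) :=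
    fun i hi => row_blk xx P i hi
  have hgp : g (p * x) = uu p x y A e xx p + ww p x y A e xx := row_blk_p xx P
  have hgX : g (p * x + y) = uu p x y A e xx 0 - ww p x y A e xx := row_blk_X xx P
  -- the rows outside of the block are not changed by the update
  have hG : (∏ j ∈ Ico 1 x, ∏ i ∈ range p, Function.update g r 1 (i * x + j)) *
      ∏ j ∈ Ico 1 y, Function.update g r 1 (p * x + j) = GG k p x y A e xx := by
    unfold GG
    congr 1
    · refine prod_congr rfl fun j hj => prod_congr rfl fun i hi => ?_
      rw [mem_Ico] at hj
      rw [mem_range] at hi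
      rw [Function.update_of_ne]
      rcases hr with ⟨i', hi', rfl⟩ | rfl
      · intro h
        rcases Nat.lt_or_ge i i' with h5 | h5
        · have := Nat.mul_le_mul_right x (Nat.succ_le_of_lt h5)
          rw [Nat.succ_mul] at this
          omega
        · have := Nat.mul_le_mul_right x h5
          omega
      · have := Nat.mul_le_mul_right x (Nat.succ_le_of_lt hi)
        rw [Nat.succ_mul] at this
        omega
    · refine prod_congr rfl fun j hj => ?_
      rw [mem_Ico] at hj
      rw [Function.update_of_ne]
      rcases hr with ⟨i', hi', rfl⟩ | rfl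
      · have := Nat.mul_le_mul_right x hi'
        omega
      · omega
  have two : ∀ z : S, (2 : S) * z = 0 → z = 0 := by
    intro z hz
    have : algebraMap k S 2⁻¹ * (2 * z) = z := by
      rw [← mul_assoc, ← map_ofNat (algebraMap k S) 2, ← map_mul, inv_mul_cancel₀ h2,
        map_one, one_mul]
    rw [← this, hz, mul_zero]
  have hXne : ∀ i, i ≤ p → i * x ≠ p * x + y := by
    intro i hi h
    have := Nat.mul_le_mul_right x hi
    omega
  have hne : ∀ i j, i * x = j * x → i = j := fun i j h => Nat.eq_of_mul_eq_mul_right (by omega) h
  rw [prod_rows _ p hx hy, hG] at upd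
  rcases hr with ⟨i, hi, hri⟩ | hri
  · rcases Nat.lt_or_ge i p with hip | hip
    · have hlt : r < p * x + y + 1 := by
        rw [hri]
        have := Nat.mul_le_mul_right x hi
        omega
      have m := main (uu p x y A e xx i - uu p x y A e xx (i + 1)) (by
        rw [hri, hgi i hip]
        linear_combination hu i - hu (i + 1)) hlt
      rw [upd, Function.update_of_ne (by rw [hri]; exact fun h => hip.ne' (hne _ _ h)),
        Function.update_of_ne (by rw [hri]; exact (hXne i hi).symm), hgp, hgX] at m
      have c3 := cyc3 (uu p x y A e xx) hu (ww p x y A e xx) hw p i hip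
        (fun j => Function.update g r 1 (j * x)) (by
          intro j hj hji
          show Function.update g r 1 (j * x) = _
          rw [Function.update_of_ne (by rw [hri]; exact fun h => hji (hne _ _ h)),
            hgi j (mem_range.1 hj)]) (by
          show Function.update g r 1 (i * x) = 1
          rw [hri, Function.update_self])
      apply two
      unfold BB
      linear_combination -m + row (p * x + y + e) δ xx r * GG k p x y A e xx * c3
    · obtain rfl : i = p := by omega
      have hlt : r < i * x + y + 1 := by
        rw [hri]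
        omega
      have m := main (uu i x y A e xx i - ww i x y A e xx) (by
        rw [hri, hgp]
        linear_combination hu i - hw) hlt
      have hpr : ∏ j ∈ range i, Function.update g r 1 (j * x) =
          ∏ j ∈ range i, (uu i x y A e xx j + uu i x y A e xx (j + 1)) := by
        refine prod_congr rfl fun j hj => ?_
        have hji := mem_range.1 hj
        rw [Function.update_of_ne (by rw [hri]; exact fun h => hji.ne (hne _ _ h)), hgi j hji]
      rw [upd, hpr, show Function.update g r 1 (i * x) = 1 by rw [hri, Function.update_self],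
        Function.update_of_ne (by rw [hri]; exact (hXne i le_rfl).symm), hgX] at m
      have c3 := cyc1 (uu i x y A e xx) hu (ww i x y A e xx) hw i
      apply two
      unfold BB
      linear_combination -m + row (i * x + y + e) δ xx r * GG k i x y A e xx * c3
  · have hlt : r < p * x + y + 1 := by
      rw [hri]
      omega
    have m := main (uu p x y A e xx 0 + ww p x y A e xx) (by
      rw [hri, hgX]
      linear_combination hu 0 - hw) hlt
    have hpr : ∏ j ∈ range p, Function.update g r 1 (j * x) =
        ∏ j ∈ range p, (uu p x y A e xx j + uu p x y A e xx (j + 1)) := by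
      refine prod_congr rfl fun j hj => ?_
      have hji := mem_range.1 hj
      rw [Function.update_of_ne (by rw [hri]; exact hXne j hji.le), hgi j hji]
    rw [upd, hpr, show Function.update g r 1 (p * x + y) = 1 by rw [hri, Function.update_self],
      Function.update_of_ne (by rw [hri]; exact (hXne p le_rfl)), hgp] at m
    have c3 := cyc2 (uu p x y A e xx) hu (ww p x y A e xx) hw p
    apply two
    unfold BB
    linear_combination m - row (p * x + y + e) δ xx r * GG k p x y A e xx * c3

end

end Pool.Agent.Helper86K9.HK
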