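import Pool.Agent.Helper86K9.HK.Leaves

/-!
# Jacobian minors of a prime ideal of large transcendence degree
-/

set_option autoImplicit false
set_option linter.unusedSectionVars false

namespace Pool.Agent.Helper86K9.HK.Cr

open MvPolynomial

universe u v

section Gen

variable {k : Type u} [Field k] {σ : Type} [Fintype σ] [DecidableEq σ]

/-- chain rule -/
lemma der_aeval {K : Type u} [Field K] [Algebra k K] (d : Derivation k K K) (x : σ → K)
    (f : MvPolynomial σ k) :
    d (aeval x f) = ∑ j, aeval x (pderiv j f) * d (x j) := by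
  induction f using MvPolynomial.induction_on with
  | C a => simp
  | add p q hp hq => simp [hp, hq, add_mul, Finset.sum_add_distrib]
  | mul_X p i hp =>
    rw [map_mul, aeval_X, Derivation.leibniz, hp]
    simp only [Derivation.leibniz, pderiv_X, map_add, smul_eq_mul, map_mul, aeval_X, add_mul,
      Finset.sum_add_distrib]
    congr 1
    · rw [Finset.sum_eq_single i]
      · simp
      · intro j _ hj
        simp [hj.symm]
      · simp
    · rw [Finset.mul_sum]
      exact Finset.sum_congr rfl fun j _ => by ring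

lemma der_zero {K : Type u} [Field K] [Algebra k K] (x : σ → K)
    (hfrac : ∀ y : K, ∃ a b : MvPolynomial σ k, aeval x b ≠ 0 ∧ y * aeval x b = aeval x a)
    (B : Finset σ) (f : {j // j ∉ B} → MvPolynomial σ k) (hf : ∀ i, aeval x (f i) = 0)
    (hdet : (Matrix.of fun i j : {j // j ∉ B} => aeval x (pderiv j.1 (f i))).det ≠ 0)
    (d : Derivation k K K) (hd : ∀ j ∈ B, d (x j) = 0) (y : K) : d y = 0 := by
  have h1 : ∀ j, d (x j) = 0 := by
    intro j
    by_cases hj : j ∈ B
    · exact hd j hj
    · have h2 : (Matrix.of fun i j : {j // j ∉ B} => aeval x (pderiv j.1 (f i))).mulVec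
          (fun j => d (x j.1)) = 0 := by
        ext i
        simp only [Matrix.mulVec, dotProduct, Matrix.of_apply, Pi.zero_apply]
        have h3 := der_aeval d x (f i)
        rw [hf i, map_zero] at h3
        rw [h3]
        rw [← Finset.sum_filter_of_ne (p := fun j => j ∉ B) (s := Finset.univ)
          (f := fun j => aeval x (pderiv j (f i)) * d (x j))
          (fun j _ hj2 hj3 => hj2 (by rw [hd j hj3, mul_zero]))]
        exact (Finset.sum_subtype (Finset.univ.filter fun j => j ∉ B) (by simp)
          (fun j => aeval x (pderiv j (f i)) * d (x j))).symm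
      have h4 := Matrix.eq_zero_of_mulVec_eq_zero hdet h2
      exact congrFun h4 ⟨j, hj⟩
  have h5 : ∀ f : MvPolynomial σ k, d (aeval x f) = 0 := by
    intro f
    rw [der_aeval]
    exact Finset.sum_eq_zero fun j _ => by rw [h1, mul_zero]
  obtain ⟨a, b, hb, hab⟩ := hfrac y
  have h6 := h5 a
  rw [← hab, Derivation.leibniz, h5 b, smul_zero, zero_add, smul_eq_mul] at h6
  exact (mul_eq_zero.1 h6).resolve_left hb

open scoped IntermediateField.algebraAdjoinAdjoin in
lemma trdeg_le {K : Type u} [Field K] [Algebra k K] (x : σ → K)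
    (hfrac : ∀ y : K, ∃ a b : MvPolynomial σ k, aeval x b ≠ 0 ∧ y * aeval x b = aeval x a)
    (hfin : Algebra.EssFiniteType k K)
    (B : Finset σ) (f : {j // j ∉ B} → MvPolynomial σ k) (hf : ∀ i, aeval x (f i) = 0)
    (hdet : (Matrix.of fun i j : {j // j ∉ B} => aeval x (pderiv j.1 (f i))).det ≠ 0) :
    Algebra.trdeg k K ≤ B.card := by
  classical
  set s : Set K := x '' (B : Set σ) with hs
  let F := IntermediateField.adjoin k s
  have h1 : Algebra.FormallyUnramified F K := by
    refine ⟨⟨fun a b => ?_⟩⟩
    suffices h : ∀ ω : Ω[K⁄F], ω = 0 by rw [h a, h b]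
    intro ω
    rw [← Module.forall_dual_apply_eq_zero_iff K ω]
    intro φ
    have h2 : φ.compDer (KaehlerDifferential.D F K) = 0 := by
      ext y
      let d : Derivation k K K := (φ.compDer (KaehlerDifferential.D F K)).restrictScalars k
      have h3 : d y = 0 := by
        refine der_zero x hfrac B f hf hdet d ?_ y
        intro j hj
        have h4 : x j ∈ F := IntermediateField.subset_adjoin _ _ ⟨j, hj, rfl⟩
        have h5 : (φ.compDer (KaehlerDifferential.D F K)) (algebraMap F K ⟨x j, h4⟩) = 0 :=
          Derivation.map_algebraMap _ _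
        exact h5
      exact h3
    have h6 : φ = 0 := by
      apply Derivation.liftKaehlerDifferential_unique
      rw [h2]
      ext y
      rfl
    rw [h6, LinearMap.zero_apply]
  have h2 : Algebra.EssFiniteType F K := Algebra.EssFiniteType.of_comp k F K
  have h3 : Algebra.IsSeparable F K := (Algebra.FormallyUnramified.iff_isSeparable F K).1 h1
  have h4 : Algebra.IsAlgebraic F K := inferInstance
  have h5 : Algebra.IsAlgebraic (Algebra.adjoin k s) K := by
    rw [IsFractionRing.comap_isAlgebraic_iff (K := F)]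
    exact h4
  have h6 : Algebra.trdeg k K ≤ Cardinal.mk s := Algebra.IsAlgebraic.trdeg_le_cardinalMk k s
  refine h6.trans ?_
  have h7 : (s : Set K) = ((B.image x : Finset K) : Set K) := by simp [hs]
  have h8 : Cardinal.mk ↑((B.image x : Finset K) : Set K) = ((B.image x).card : Cardinal) :=
    Cardinal.mk_coe_finset
  rw [h7, h8]
  exact_mod_cast Finset.card_image_le

/-- Jacobian minors with more than `|σ| - t` columns vanish modulo a prime ideal of transcendence
degree at least `t`. -/
theorem minor_mem (P : Ideal (MvPolynomial σ k)) [hP : P.IsPrime] {t : ℕ}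
    (z : Fin t → MvPolynomial σ k) (hz : ∀ F : MvPolynomial (Fin t) k, aeval z F ∈ P → F = 0)
    (B : Finset σ) (hB : B.card < t) (f : {j // j ∉ B} → MvPolynomial σ k)
    (hf : ∀ i, f i ∈ P) :
    (Matrix.of fun i j : {j // j ∉ B} => pderiv j.1 (f i)).det ∈ P := by
  by_contra hD
  let A := MvPolynomial σ k ⧸ P
  let K := FractionRing A
  let x : σ → K := fun j => algebraMap A K (Ideal.Quotient.mk P (X j))
  have hx : ∀ g : MvPolynomial σ k, aeval x g = algebraMap A K (Ideal.Quotient.mk P g) := by
    intro g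
    have h1 : (aeval x : MvPolynomial σ k →ₐ[k] K) =
        (IsScalarTower.toAlgHom k A K).comp (Ideal.Quotient.mkₐ k P) := by
      ext j
      simp [x]
      rfl
    rw [h1]
    rfl
  have hx0 : ∀ g : MvPolynomial σ k, aeval x g = 0 ↔ g ∈ P := by
    intro g
    rw [hx, ← Ideal.Quotient.eq_zero_iff_mem]
    exact (map_eq_zero_iff _ (IsFractionRing.injective A K))
  have hfrac : ∀ y : K, ∃ a b : MvPolynomial σ k, aeval x b ≠ 0 ∧
      y * aeval x b = aeval x a := by
    intro y
    obtain ⟨⟨a, b⟩, hab⟩ := IsLocalization.surj (nonZeroDivisors A) y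
    obtain ⟨a', ha'⟩ := Ideal.Quotient.mk_surjective a
    obtain ⟨b', hb'⟩ := Ideal.Quotient.mk_surjective b.1
    refine ⟨a', b', ?_, ?_⟩
    · rw [hx, hb']
      exact IsFractionRing.to_map_ne_zero_of_mem_nonZeroDivisors b.2
    · rw [hx, hb', hx, ha']
      exact hab
  have hfin : Algebra.EssFiniteType k K := by
    have h1 : Algebra.EssFiniteType A K :=
      Algebra.EssFiniteType.of_isLocalization K (nonZeroDivisors A)
    exact Algebra.EssFiniteType.comp k A K
  have hdet : (Matrix.of fun i j : {j // j ∉ B} => aeval x (pderiv j.1 (f i))).det ≠ 0 := by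
    intro h
    apply hD
    rw [← hx0, ← AlgHom.coe_toRingHom, RingHom.map_det]
    exact h
  have h1 := trdeg_le x hfrac hfin B f (fun i => (hx0 _).2 (hf i)) hdet
  have h2 : AlgebraicIndependent k (fun i : Fin t => aeval x (z i)) := by
    rw [algebraicIndependent_iff]
    intro p hp
    apply hz
    rw [← hx0]
    rw [← hp]
    have h3 : (aeval x : MvPolynomial σ k →ₐ[k] K).comp (aeval z) =
        aeval (fun i : Fin t => aeval x (z i)) := by
      ext j
      simp
    rw [← h3]
    rfl
  have h3 := h2.lift_cardinalMk_le_trdeg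
  have h4 : (t : Cardinal.{u}) ≤ B.card := by
    refine le_trans ?_ h1
    simpa using h3
  exact absurd (by exact_mod_cast h4) (not_le.2 hB)

/-- `minor_mem` for arbitrary index types. -/
theorem minor_mem' (P : Ideal (MvPolynomial σ k)) [hP : P.IsPrime] {t : ℕ}
    (z : Fin t → MvPolynomial σ k) (hz : ∀ F : MvPolynomial (Fin t) k, aeval z F ∈ P → F = 0)
    {κ : Type} [Fintype κ] [DecidableEq κ] (col : κ → σ) (hcol : Function.Injective col)
    (hcard : Fintype.card σ < t + Fintype.card κ) (f : κ → MvPolynomial σ k)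
    (hf : ∀ i, f i ∈ P) :
    (Matrix.of fun i j : κ => pderiv (col j) (f i)).det ∈ P := by
  classical
  let B : Finset σ := (Finset.univ.image col)ᶜ
  have hB : B.card < t := by
    rw [Finset.card_compl, Finset.card_image_of_injective _ hcol, Finset.card_univ]
    have : Fintype.card κ ≤ Fintype.card σ := Fintype.card_le_of_injective _ hcol
    omega
  let e : κ ≃ {j // j ∉ B} := Equiv.ofBijective (fun a => ⟨col a, by simp [B]⟩) (by
    constructor
    · intro a b hab
      exact hcol (congrArg Subtype.val hab)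
    · rintro ⟨j, hj⟩
      have : ∃ a, col a = j := by simpa [B] using hj
      obtain ⟨a, ha⟩ := this
      exact ⟨a, Subtype.ext ha⟩)
  have h1 := minor_mem P z hz B hB (fun i => f (e.symm i)) (fun i => hf _)
  rw [← Matrix.det_submatrix_equiv_self e] at h1
  have h2 : ((Matrix.of fun i j : {j // j ∉ B} => pderiv j.1 (f (e.symm i))).submatrix e e) =
      Matrix.of fun i j : κ => pderiv (col j) (f i) := by
    refine Matrix.ext fun i j => ?_
    simp only [Matrix.submatrix_apply, Matrix.of_apply, Equiv.symm_apply_apply]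
    rfl
  rw [← h2]
  exact h1

/-- selecting a nonzero minor -/
lemma exists_minor {ι κ : Type} [Fintype ι] [Fintype κ] [DecidableEq κ] (M : Matrix ι κ k)
    (h : ∀ v : κ → k, M.mulVec v = 0 → v = 0) :
    ∃ e : κ → ι, (Matrix.of fun a b => M (e a) b).det ≠ 0 := by
  classical
  have h1 : M.rank = Fintype.card κ := by
    have h2 : Function.Injective M.mulVecLin := by
      rw [injective_iff_map_eq_zero]
      intro v hv
      exact h v (by simpa using hv)
    rw [Matrix.rank, LinearMap.finrank_range_of_inj h2, Module.finrank_fintype_fun_eq_card]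
  rw [Matrix.rank_eq_finrank_span_row] at h1
  obtain ⟨f, hf, -, hli⟩ := Submodule.exists_fun_fin_finrank_span_eq k (Set.range M.row)
  choose e he using hf
  let c : κ ≃ Fin (Module.finrank k (Submodule.span k (Set.range M.row))) :=
    (Fintype.equivFin κ).trans (finCongr h1.symm)
  refine ⟨fun a => e (c a), ?_⟩
  have h2 : LinearIndependent k (Matrix.of fun a b => M (e (c a)) b).row := by
    have h3 := hli.comp c c.injective
    have h4 : (Matrix.of fun a b => M (e (c a)) b).row = f ∘ c := by
      funext a b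
      exact congrFun (he (c a)) b
    rw [h4]
    exact h3
  rw [Matrix.linearIndependent_rows_iff_isUnit, Matrix.isUnit_iff_isUnit_det] at h2
  exact h2.ne_zero

/-- Taylor expansion to first order. -/
lemma aeval_dual {A : Type*} [CommRing A] [Algebra k A] (x δ : σ → A) (f : MvPolynomial σ k) :
    aeval (fun i => (TrivSqZeroExt.inl (x i) + TrivSqZeroExt.inr (δ i) : DualNumber A)) f =
      TrivSqZeroExt.inl (aeval x f) +
        TrivSqZeroExt.inr (∑ j, δ j * aeval x (pderiv j f)) := by
  induction f using MvPolynomial.induction_on with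
  | C a =>
    simp
    rfl
  | add p q hp hq =>
    rw [map_add, hp, hq]
    ext <;> simp [mul_add, Finset.sum_add_distrib]
  | mul_X p i hp =>
    rw [map_mul, aeval_X, hp]
    have h1 : ∑ j, δ j * aeval x (pderiv j (p * X i)) =
        (∑ j, δ j * aeval x (pderiv j p)) * x i + aeval x p * δ i := by
      simp only [Derivation.leibniz, pderiv_X, map_add, smul_eq_mul, map_mul, aeval_X, mul_add,
        Finset.sum_add_distrib]
      rw [add_comm]
      congr 1
      · rw [Finset.sum_mul]
        exact Finset.sum_congr rfl fun j _ => by ring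
      · rw [Finset.sum_eq_single i]
        · simp [mul_comm]
        · intro j _ hj
          simp [hj.symm]
        · simp
    rw [h1]
    ext
    · simp
    · simp
      ring

end Gen

section Hankel

open Matrix

variable {k : Type u} [Field k]

/-- The indeterminates as a sequence. -/
lemma ker_of_van {A : Type*} [CommRing A] {t m n : ℕ}
    (φ : MvPolynomial (Fin (m + n - 1)) k →+* A) (z : ℕ → A)
    (hz : ∀ i : Fin (m + n - 1), φ (X i) = z (i.val + 1)) (h : Van t m n z)
    {f : MvPolynomial (Fin (m + n - 1)) k} (hf : f ∈ hankelIdeal k t m n) : φ f = 0 := by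
  have h1 : hankelIdeal k t m n ≤ RingHom.ker φ := by
    refine Pool.Agent.R831.PermIdeal.permIdeal_le_ker φ _ fun r c => ?_
    rw [← h r c]
    congr 1
    refine Matrix.ext fun i j => ?_
    simp only [submatrix_apply, map_apply, hankelX, hk, of_apply, hz]
    congr 1
  exact h1 hf

/-- The generators. -/
noncomputable def gen (k : Type u) [Field k] (t m n : ℕ)
    (i : (Fin t ↪ Fin m) × (Fin t ↪ Fin n)) : MvPolynomial (Fin (m + n - 1)) k :=
  ((hankelX k m n).submatrix i.1 i.2).permanent

lemma gen_mem (t m n : ℕ) (i : (Fin t ↪ Fin m) × (Fin t ↪ Fin n)) :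
    gen k t m n i ∈ hankelIdeal k t m n :=
  Pool.Agent.R831.PermIdeal.mem_permIdeal _ _ _

lemma map_gen {A : Type*} [CommRing A] {t m n : ℕ}
    (φ : MvPolynomial (Fin (m + n - 1)) k →+* A) (z : ℕ → A)
    (hz : ∀ i : Fin (m + n - 1), φ (X i) = z (i.val + 1))
    (i : (Fin t ↪ Fin m) × (Fin t ↪ Fin n)) :
    φ (gen k t m n i) = ((hk m n z).submatrix i.1 i.2).permanent := by
  unfold gen permanent
  simp only [map_sum, map_prod, submatrix_apply, hankelX, hk, of_apply, hz]
  rfl

lemma van_iff {A : Type*} [CommRing A] {t m n : ℕ}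
    (φ : MvPolynomial (Fin (m + n - 1)) k →+* A) (z : ℕ → A)
    (hz : ∀ i : Fin (m + n - 1), φ (X i) = z (i.val + 1)) :
    Van t m n z ↔ ∀ i, φ (gen k t m n i) = 0 := by
  constructor
  · intro h i
    rw [map_gen φ z hz]
    exact h _ _
  · intro h r c
    rw [← map_gen φ z hz (r, c)]
    exact h _

lemma van_small {A : Type*} [CommRing A] {t m n : ℕ} (ht : 1 ≤ t) (z : ℕ → A)
    (hz : ∀ j, t ≤ j → z j = 0) : Van t m n z := by
  intro r c
  have h1 : ∃ i : Fin t, t ≤ (c i).val + 1 := by
    by_contra hcon
    push Not at hcon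
    have h2 : Fintype.card (Fin t) ≤ Fintype.card (Fin (t - 1)) :=
      Fintype.card_le_of_injective (fun i => (⟨(c i).val, by have := hcon i; omega⟩ : Fin (t - 1)))
        (fun a b hab => c.injective (Fin.ext (by simpa using hab)))
    rw [Fintype.card_fin, Fintype.card_fin] at h2
    omega
  obtain ⟨i, hi⟩ := h1
  refine Pool.Agent.R831.PermIdeal.perm_zero_col _ i fun j => ?_
  simp only [submatrix_apply, hk, of_apply]
  exact hz _ (by omega)

lemma van_eps {A : Type*} [CommRing A] {t m n : ℕ} (ht : 2 ≤ t) (δ : ℕ → A) :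
    Van t m n (fun j => (TrivSqZeroExt.inr (δ j) : DualNumber A)) := by
  intro r c
  unfold permanent
  refine Finset.sum_eq_zero fun σ _ => ?_
  obtain ⟨s, rfl⟩ : ∃ s, t = s + 2 := ⟨t - 2, by omega⟩
  rw [Fin.prod_univ_succ, Fin.prod_univ_succ, ← mul_assoc]
  simp only [submatrix_apply, hk, of_apply, TrivSqZeroExt.inr_mul_inr, zero_mul]

lemma X_notMem {t m n : ℕ} (ht : 2 ≤ t) (i : Fin (m + n - 1)) :
    (X i : MvPolynomial (Fin (m + n - 1)) k) ∉ hankelIdeal k t m n := by
  intro h
  have h1 := ker_of_van (k := k) (A := DualNumber k)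
    (aeval fun j : Fin (m + n - 1) => (TrivSqZeroExt.inr 1 : DualNumber k)).toRingHom
    (fun _ => TrivSqZeroExt.inr 1) (fun i => by simp) (van_eps ht _) h
  have h2 := congrArg TrivSqZeroExt.snd h1
  simp at h2

/-- The first `t` indeterminates are algebraically independent modulo `P`. -/
lemma indep {t m n : ℕ} (ht : 2 ≤ t) (hm : t ≤ m) (hn : t ≤ n)
    (hP : (hankelIdeal k t m n).IsPrime) (F : MvPolynomial (Fin t) k)
    (hF : aeval (fun i : Fin t => (X ⟨i.val, by omega⟩ : MvPolynomial (Fin (m + n - 1)) k)) F ∈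
      hankelIdeal k t m n) : F = 0 := by
  induction hd : F.totalDegree using Nat.strong_induction_on generalizing F with
  | _ d ih =>
    let l : Fin t := ⟨t - 1, by omega⟩
    let ρ : MvPolynomial (Fin t) k →ₐ[k] MvPolynomial (Fin t) k :=
      aeval fun i => if i = l then 0 else X i
    let φ : MvPolynomial (Fin (m + n - 1)) k →ₐ[k] MvPolynomial (Fin t) k :=
      aeval fun i => if h : i.val + 1 < t then X ⟨i.val, by omega⟩ else 0
    have h1 : φ (aeval (fun i : Fin t =>
        (X ⟨i.val, by omega⟩ : MvPolynomial (Fin (m + n - 1)) k)) F) = ρ F := by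
      rw [← AlgHom.comp_apply]
      congr 1
      ext i : 1
      simp only [AlgHom.comp_apply, aeval_X, φ, ρ]
      by_cases h : i = l
      · subst h
        rw [if_pos rfl, dif_neg]
        simp only [l]
        omega
      · rw [if_neg h, dif_pos]
        have : i.val ≠ t - 1 := fun h' => h (Fin.ext h')
        omega
    have h2 : φ (aeval (fun i : Fin t =>
        (X ⟨i.val, by omega⟩ : MvPolynomial (Fin (m + n - 1)) k)) F) = 0 := by
      refine ker_of_van (k := k) (A := MvPolynomial (Fin t) k) φ.toRingHom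
        (fun j => if h : 1 ≤ j ∧ j < t then X ⟨j - 1, by omega⟩ else 0) (fun i => ?_)
        (van_small (by omega) _ fun j hj => dif_neg (by omega)) hF
      simp only [AlgHom.toRingHom_eq_coe, RingHom.coe_coe, φ, aeval_X]
      by_cases h : i.val + 1 < t
      · rw [dif_pos h, dif_pos ⟨by omega, h⟩]
        congr 1
      · rw [dif_neg h, dif_neg (by omega)]
    have h3 : ∀ G : MvPolynomial (Fin t) k, X l ∣ G - ρ G := by
      intro G
      induction G using MvPolynomial.induction_on with
      | C a => simp [ρ]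
      | add p q hp hq =>
        rw [map_add, add_sub_add_comm]
        exact dvd_add hp hq
      | mul_X p i hp =>
        rw [map_mul]
        have h4 : ρ (X i) = if i = l then 0 else X i := by simp [ρ]
        rw [h4]
        split_ifs with h
        · rw [h, mul_zero, sub_zero]
          exact dvd_mul_left _ _
        · rw [← sub_mul]
          exact hp.mul_right _
    obtain ⟨G, hG⟩ := h3 F
    rw [← h1, h2, sub_zero] at hG
    by_cases hG0 : G = 0
    · rw [hG, hG0, mul_zero]
    · exfalso
      apply hG0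
      refine ih G.totalDegree ?_ G ?_ rfl
      · rw [← hd, hG, totalDegree_mul_of_isDomain (X_ne_zero l) hG0, totalDegree_X]
        omega
      · rw [hG, map_mul, aeval_X] at hF
        exact (hP.mem_or_mem hF).resolve_left (X_notMem ht _)

/-- Jacobian minors of the Hankel permanental ideal. -/
theorem minor_hk {t m n : ℕ} (ht : 2 ≤ t) (hm : t ≤ m) (hn : t ≤ n)
    (hP : (hankelIdeal k t m n).IsPrime) {κ : Type} [Fintype κ] [DecidableEq κ]
    (col : κ → Fin (m + n - 1)) (hcol : Function.Injective col)
    (hcard : m + n - 1 < t + Fintype.card κ) (f : κ → MvPolynomial (Fin (m + n - 1)) k)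
    (hf : ∀ i, f i ∈ hankelIdeal k t m n) :
    (Matrix.of fun i j : κ => pderiv (col j) (f i)).det ∈ hankelIdeal k t m n :=
  minor_mem' _ _ (indep ht hm hn hP) col hcol (by simpa using hcard) f hf

/-- Restriction of a sequence to the positions of the matrix. -/
def res {A : Type*} (N : ℕ) (z : ℕ → A) (i : Fin N) : A := z (i.val + 1)

/-- Extension by zero. -/
def ext0 {A : Type*} [Zero A] (N : ℕ) (v : Fin N → A) (j : ℕ) : A :=
  if h : 1 ≤ j ∧ j - 1 < N then v ⟨j - 1, h.2⟩ else 0

lemma ext0_succ {A : Type*} [Zero A] (N : ℕ) (v : Fin N → A) (i : Fin N) :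
    ext0 N v (i.val + 1) = v i := by
  unfold ext0
  rw [dif_pos ⟨by omega, by simp⟩]
  congr 1

variable {K : Type v} [Field K] [Algebra k K]

variable (k) in
/-- The Jacobian matrix at `q`. -/
noncomputable def jac (t m n : ℕ) (q : ℕ → K) :
    Matrix ((Fin t ↪ Fin m) × (Fin t ↪ Fin n)) (Fin (m + n - 1)) K :=
  Matrix.of fun i j => aeval (res (m + n - 1) q) (pderiv j (gen k t m n i))

variable (k) in
lemma tan_iff {t m n : ℕ} (q δ : ℕ → K) (hq : Van t m n q) :
    Tan t m n q δ ↔ (jac k t m n q).mulVec (res (m + n - 1) δ) = 0 := by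
  unfold Tan
  rw [van_iff (k := k) (aeval fun i => (TrivSqZeroExt.inl (res (m + n - 1) q i) +
    TrivSqZeroExt.inr (res (m + n - 1) δ i) : DualNumber K)).toRingHom _ (fun i => by simp [res])]
  have h0 : ∀ i, aeval (res (m + n - 1) q) (gen k t m n i) = 0 :=
    (van_iff (k := k) (aeval (res (m + n - 1) q)).toRingHom q (fun i => by simp [res])).1 hq
  rw [funext_iff]
  refine forall_congr' fun i => ?_
  simp only [AlgHom.toRingHom_eq_coe, RingHom.coe_coe]
  rw [aeval_dual, h0]
  simp only [TrivSqZeroExt.inl_zero, zero_add, Matrix.mulVec, dotProduct, jac, of_apply,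
    Pi.zero_apply]
  constructor
  · intro h
    have h1 := congrArg TrivSqZeroExt.snd h
    rw [TrivSqZeroExt.snd_inr, TrivSqZeroExt.snd_zero] at h1
    rw [← h1]
    exact Finset.sum_congr rfl fun j _ => mul_comm _ _
  · intro h
    rw [← TrivSqZeroExt.inr_zero, ← h]
    congr 1
    exact Finset.sum_congr rfl fun j _ => mul_comm _ _

variable (k) in
/-- The rows with a nonzero minor. -/
lemma exists_rows {t m n : ℕ} (q : ℕ → K) (hq : Van t m n q) (B : Finset (Fin (m + n - 1)))
    (h : ∀ δ : ℕ → K, Tan t m n q δ → (∀ j ∈ B, δ (j.val + 1) = 0) →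
        ∀ j, 1 ≤ j → j ≤ m + n - 1 → δ j = 0) :
    ∃ e : {j // j ∉ B} → (Fin t ↪ Fin m) × (Fin t ↪ Fin n),
      (Matrix.of fun a b : {j // j ∉ B} => jac k t m n q (e a) b.1).det ≠ 0 := by
  classical
  refine exists_minor (Matrix.of fun i (b : {j // j ∉ B}) => jac k t m n q i b.1) fun v hv => ?_
  let w : Fin (m + n - 1) → K := fun j => if h : j ∉ B then v ⟨j, h⟩ else 0
  have h1 : Tan t m n q (ext0 (m + n - 1) w) := by
    rw [tan_iff k _ _ hq]
    rw [← hv]
    ext i
    simp only [Matrix.mulVec, dotProduct, of_apply, res, ext0_succ]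
    rw [← Finset.sum_filter_of_ne (p := fun j => j ∉ B) (s := Finset.univ)
      (f := fun j => jac k t m n q i j * w j)
      (fun j _ hj2 hj3 => hj2 (by simp [w, hj3]))]
    rw [Finset.sum_subtype (Finset.univ.filter fun j => j ∉ B) (p := fun j => j ∉ B) (by simp)
      (fun j => jac k t m n q i j * w j)]
    exact Finset.sum_congr rfl fun j _ => by simp [w, j.2]
  have h2 := h _ h1 (fun j hj => by rw [ext0_succ]; simp [w, hj])
  funext b
  have h3 := h2 (b.1.val + 1) (by omega) (by omega)
  rw [ext0_succ] at h3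
  simpa [w, b.2] using h3

/-- First order criterion, internal form. -/
theorem crit1' {t m n : ℕ} (ht : 2 ≤ t) (hm : t ≤ m) (hn : t ≤ n) (q : ℕ → K)
    (hq : Van t m n q) (B : Finset (Fin (m + n - 1))) (hB : B.card < t)
    (h : ∀ δ : ℕ → K, Tan t m n q δ → (∀ j ∈ B, δ (j.val + 1) = 0) →
        ∀ j, 1 ≤ j → j ≤ m + n - 1 → δ j = 0) : ¬ (hankelIdeal k t m n).IsPrime := by
  classical
  intro hP
  obtain ⟨e, he⟩ := exists_rows k q hq B h
  apply he
  have hc : Fintype.card {j // j ∉ B} = m + n - 1 - B.card := by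
    rw [Fintype.card_subtype_compl]
    simp
  have h1 := minor_hk (k := k) ht hm hn hP (κ := {j // j ∉ B}) Subtype.val
    Subtype.val_injective (by rw [hc]; omega)
    (fun a => gen k t m n (e a)) (fun a => gen_mem _ _ _ _)
  have h2 := ker_of_van (k := k) (aeval (res (m + n - 1) q)).toRingHom q
    (fun i => by simp [res]) hq h1
  rw [RingHom.map_det] at h2
  exact h2

end Hankel

end Pool.Agent.Helper86K9.HK.Cr
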