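import Mathlib
import Pool.Agent.R831.PermIdeal

/-!
# Hankel permanental ideals: definitions

Positions are counted from `1`: the entry in row `r` (`r = 0, 1, …`) and column `c`
(`c = 1, 2, …`) of the Hankel matrix of `z : ℕ → R` is `z (r + c)`; `z 0` is never used, the
positions of the `m × n` matrix are `1, …, m + n - 1`.
-/

set_option autoImplicit false

namespace Pool.Agent.Helper86K9.HK

open Matrix

/-- The `m × n` Hankel matrix of the sequence `z` (rows `0, …, m-1`, columns `1, …, n`). -/
def hk {R : Type*} (m n : ℕ) (z : ℕ → R) : Matrix (Fin m) (Fin n) R :=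
  Matrix.of fun i j => z (i.val + (j.val + 1))

/-- All `t × t` permanents of the Hankel matrix of `z` vanish. -/
def Van {R : Type*} [CommRing R] (t m n : ℕ) (z : ℕ → R) : Prop :=
  ∀ (r : Fin t ↪ Fin m) (c : Fin t ↪ Fin n), ((hk m n z).submatrix r c).permanent = 0

/-- The `m × n` Hankel matrix of the indeterminates (`0`-based names of the indeterminates). -/
noncomputable def hankelX (k : Type*) [CommRing k] (m n : ℕ) :
    Matrix (Fin m) (Fin n) (MvPolynomial (Fin (m + n - 1)) k) :=
  Matrix.of fun i j => MvPolynomial.X ⟨i.val + j.val, by omega⟩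

/-- The ideal `P_t` of the `m × n` Hankel matrix. -/
noncomputable def hankelIdeal (k : Type*) [CommRing k] (t m n : ℕ) :
    Ideal (MvPolynomial (Fin (m + n - 1)) k) :=
  Pool.Agent.R831.PermIdeal.permIdeal t (hankelX k m n)

/-- Row `r` of the Hankel matrix as a linear form in the elements `x 1, …, x n` of an algebra. -/
def row {A S : Type*} [CommRing A] [CommRing S] [Algebra A S] (n : ℕ) (z : ℕ → A) (x : ℕ → S)
    (r : ℕ) : S :=
  ∑ c ∈ Finset.Icc 1 n, z (r + c) • x c

/-- The universal algebra with elements `sqx c` of square zero. -/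
abbrev Sq (A : Type*) [CommRing A] : Type _ :=
  MvPolynomial ℕ A ⧸ Ideal.span (Set.range fun c : ℕ => (MvPolynomial.X c ^ 2 : MvPolynomial ℕ A))

/-- The square zero generators of `Sq A`. -/
noncomputable def sqx (A : Type*) [CommRing A] (c : ℕ) : Sq A :=
  Ideal.Quotient.mk _ (MvPolynomial.X c)

/-- `δ` is a tangent vector at `q`: all `t × t` permanents vanish at `q + ε δ`. -/
def Tan {k : Type*} [CommRing k] (t m n : ℕ) (q δ : ℕ → k) : Prop :=
  Van t m n fun j => (TrivSqZeroExt.inl (q j) + TrivSqZeroExt.inr (δ j) : DualNumber k)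

/-- The point `q + ε u + η v + ε η w` over `k[ε, η]/(ε², η²)`. -/
def pt2 {k : Type*} [CommRing k] (q u v w : ℕ → k) (j : ℕ) : DualNumber (DualNumber k) :=
  TrivSqZeroExt.inl (TrivSqZeroExt.inl (q j) + TrivSqZeroExt.inr (u j)) +
    TrivSqZeroExt.inr (TrivSqZeroExt.inl (v j) + TrivSqZeroExt.inr (w j))

end Pool.Agent.Helper86K9.HK
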