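import Pool.Agent.Helper86K9.HK.Third

/-!
The relations for `y = x`.
-/

set_option autoImplicit false

namespace Pool.Agent.Helper86K9.HK

open Finset

universe u

section

variable {k : Type u} [Field k] {p x y A e : ℕ}

theorem drel_eq1 (hT : S_TAN1.{u}) (h3 : S_ALG3.{u}) (h2 : (2 : k) ≠ 0) (P : Par p x y A e)
    (δ : ℕ → k)
    (hδ : Tan (p * x + y + 1) (p * x + y + 1) (p * x + y + e) (pt p x y A) δ) (D r : ℕ)
    (hp : 1 ≤ p) (hyx : y = x) (hD : 1 ≤ D) (hDA : D < A) (hDx : D + x ≤ e)
    (hr : InR p x y r) :
    δ (r + D) + δ (r + (D + x + (p * x + y))) = 0 := by
  classical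
  have hx := P.hx
  have hA := P.hA
  have hAy := P.hAy
  have hy : 1 ≤ y := le_trans hA hAy
  have hAe := P.hAe
  have hAx := P.hAx hp
  have hx' := P.hx' hp
  have hey := P.hy
  set C : Finset ℕ := insert D (insert (D + x + (p * x + y))
    ((Icc A (A + (p * x + y))).erase (D + x))) with hCdef
  have memC : ∀ c, c ∈ C ↔ c = D ∨ c = D + x + (p * x + y) ∨
      (c ≠ D + x ∧ (A ≤ c ∧ c ≤ A + (p * x + y))) := by
    intro c
    rw [hCdef, mem_insert, mem_insert, mem_erase, mem_Icc]
  set xx := xc k C with hxx
  have hsq : ∀ c, xx c * xx c = 0 := xc_sq h3 C
  have iso := isolate (k := k) xx hT h2 P hsq δ hδ r hr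
  have px : ∀ i, i ≤ p → i * x ≤ p * x := fun i hi => Nat.mul_le_mul_right x hi
  have px' : ∀ i, i < p → i * x + x ≤ p * x := by
    intro i hi
    have := Nat.mul_le_mul_right x (Nat.succ_le_of_lt hi)
    rwa [Nat.succ_mul] at this
  have px1 : x ≤ p * x := by
    have := px 1 hp
    rwa [one_mul] at this
  set F : Finset ℕ := {D + x, D + (p * x + y)} with hF
  have memF : ∀ c, c ∈ F ↔ c = D + x ∨ c = D + (p * x + y) := by
    intro c
    rw [hF]
    simp
  set Ch : Finset ℕ := {D, D + x + (p * x + y), D + (p * x + y)} with hCh
  have memCh : ∀ c, c ∈ Ch ↔ c = D ∨ c = D + x + (p * x + y) ∨ c = D + (p * x + y) := by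
    intro c
    rw [hCh]
    simp
  set P1 : Sq k := xx D + xx (D + x + (p * x + y)) with hP1
  set Q1 : Sq k := xx D + xx (D + (p * x + y)) - xx (D + x + (p * x + y)) with hQ1
  have third : ∀ i j, i < p → 1 ≤ j → j < x → (i + 1 < p ∨ j ≠ A - D) →
      bz (p * x + y + e) xx (A + p * x + (p * x + y) - i * x - j) = 0 := by
    intro i j hi hj1 hj h
    rcases Nat.lt_or_ge (i + 1) p with hip | hip
    · exact bz_third P xx hip hj
    · obtain rfl : p = i + 1 := by omega
      apply bz_xc_zero
      intro c hc
      rw [memC] at hc
      have e1 : ((i * x : ℕ) : ℤ) = i * x := by push_cast; ring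
      have e2 : (((i + 1 : ℕ) * x : ℕ) : ℤ) = (i + 1 : ℕ) * x := by push_cast; ring
      rw [← e1, ← e2]
      rw [Nat.succ_mul] at hc ⊢
      generalize i * x = I at *
      omega
  have hvp : ∀ j : ℕ, 1 ≤ j → j ≠ A - D → bz (p * x + y + e) xx (A - (j : ℤ)) = 0 := by
    intro j hj hj2
    apply bz_xc_zero
    intro c hc
    rw [memC] at hc
    generalize p * x = X at *
    omega
  have Z := zed P xx (fun c => if c ∈ F then 1 else xx c)
    (fun j => if j = A - D then P1 else 1)
    (fun j => if j = A - D then Q1 else 1)
    (by
      intro i hi
      have h5 := px i hi
      rw [if_neg]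
      · unfold uu
        rw [bz_eq (c := A + p * x - i * x)]
        · rw [Nat.cast_sub (by omega)]
          push_cast
          ring
        · omega
        · omega
      · rw [memF]
        rintro (h | h)
        · rcases Nat.lt_or_ge i p with hip | hip
          · have := px' i hip
            omega
          · obtain rfl : i = p := by omega
            omega
        · omega) (by
      rw [if_neg]
      · unfold ww
        rw [bz_eq (c := A + (p * x + y))]
        · push_cast
          ring
        · omega
        · omega
      · rw [memF]
        omega) (by
      intro j hj hjx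
      by_cases hjD : j = A - D
      · rw [if_pos hjD]
        rw [prod_last _ hp, prod_last (fun i => if A + p * x - (i * x + j) ∈ F then (1 : Sq k)
          else xx (A + p * x - (i * x + j))) hp]
        have pm : (p - 1) * x = p * x - x := by rw [Nat.sub_mul, one_mul]
        have e1 : ∀ i ∈ range (p - 1), row (p * x + y + e) (pt p x y A : ℕ → k) xx
            (i * x + j) = bz (p * x + y + e) xx (A + p * x - (i : ℕ) * x - j) +
            bz (p * x + y + e) xx (A + p * x - (i + 1 : ℕ) * x - j) := by
          intro i hi
          rw [mem_range] at hi
          rw [row_first P xx (by omega) hjx, third i j (by omega) hj hjx (by omega), add_zero]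
        have e0 : bz (p * x + y + e) xx (A + p * x - (p - 1 : ℕ) * x - j) = 0 := by
          apply bz_xc_zero
          intro c hc
          rw [memC] at hc
          have e2 : ((p * x : ℕ) : ℤ) = p * x := by push_cast; ring
          have e3 : (((p - 1) * x : ℕ) : ℤ) = (p - 1 : ℕ) * x := by push_cast; ring
          rw [← e2, ← e3, pm]
          omega
        rw [prod_congr rfl e1]
        rw [path0 (fun i => bz (p * x + y + e) xx (A + p * x - (i : ℕ) * x - j))
          (fun i => bz_sq _ _ hsq _) (p - 1) e0]
        have e2 : row (p * x + y + e) (pt p x y A : ℕ → k) xx ((p - 1) * x + j) = P1 := by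
          rw [row_first P xx (by omega) hjx, e0, zero_add, hP1]
          congr 1
          · apply bz_eq
            · rw [Nat.sub_add_cancel hp, hjD, Nat.cast_sub hDA.le]
              push_cast
              ring
            · omega
            · omega
          · apply bz_eq
            · rw [hjD, Nat.cast_sub hDA.le, Nat.cast_sub hp]
              push_cast
              ring
            · omega
            · omega
        rw [e2]
        congr 1
        rw [if_pos, mul_one]
        · refine prod_congr rfl fun i hi => ?_
          rw [mem_range] at hi
          have h5 := px' (i + 1) (by omega)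
          rw [Nat.succ_mul] at h5
          rw [if_neg]
          · apply bz_eq
            · rw [Nat.cast_sub (by omega)]
              push_cast
              ring
            · omega
            · omega
          · rw [memF]
            omega
        · rw [memF]
          left
          rw [pm]
          omega
      · rw [if_neg hjD, mul_one]
        have e1 : ∀ i ∈ range p, row (p * x + y + e) (pt p x y A : ℕ → k) xx
            (i * x + j) = bz (p * x + y + e) xx (A + p * x - i * x - j) +
            bz (p * x + y + e) xx (A + p * x - (i + 1 : ℕ) * x - j) := by
          intro i hi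
          rw [mem_range] at hi
          rw [row_first P xx (by omega) hjx, third i j (by omega) hj hjx (by omega), add_zero]
        rw [prod_congr rfl e1]
        rw [path0 (fun i => bz (p * x + y + e) xx (A + p * x - (i : ℕ) * x - j))
          (fun i => bz_sq _ _ hsq _)]
        · refine prod_congr rfl fun i hi => ?_
          rw [mem_range] at hi
          have h6 := px' i hi
          rw [if_neg]
          · apply bz_eq
            · rw [Nat.cast_sub (by omega)]
              push_cast
              ring
            · omega
            · omega
          · rw [memF]
            rintro (h | h)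
            · have h7 : D + j + (i + 1) * x = A + p * x := by
                rw [Nat.succ_mul]
                omega
              have := no_coll h7 (by omega) (by omega)
              omega
            · omega
        · rw [← hvp j hj hjD]
          congr 1
          ring) (by
      intro j hj hjy
      by_cases hjD : j = A - D
      · rw [if_pos hjD, if_pos (by rw [memF]; omega), one_mul, row_second P xx hj, hQ1]
        congr 1
        · congr 1
          · apply bz_eq
            · omega
            · omega
            · omega
          · apply bz_eq
            · rw [hjD, Nat.cast_sub hDA.le]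
              push_cast
              ring
            · omega
            · omega
        · apply bz_eq
          · rw [hjD, Nat.cast_sub hDA.le, hyx]
            push_cast
            ring
          · omega
          · omega
      · rw [if_neg hjD, mul_one, if_neg (by rw [memF]; omega), row_second P xx hj,
          hvp j hj hjD, bz_xc_zero (z := (A : ℤ) + (p * x + y) + y - j), zero_add, sub_zero]
        · apply bz_eq
          · rw [Nat.cast_sub (by omega)]
            push_cast
            ring
          · omega
          · omega
        · intro c hc
          rw [memC] at hc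
          have e2 : ((p * x : ℕ) : ℤ) = p * x := by push_cast; ring
          rw [← e2]
          omega)
  have hP : ∏ j ∈ Ico 1 x, (if j = A - D then P1 else 1) = P1 := by
    rw [prod_ite_eq', if_pos]
    rw [mem_Ico]
    omega
  have hQ : ∏ j ∈ Ico 1 y, (if j = A - D then Q1 else 1) = Q1 := by
    rw [prod_ite_eq', if_pos]
    rw [mem_Ico]
    omega
  rw [hP, hQ] at Z
  rw [Z] at iso
  have fin := finish (k := k) h3 (n := p * x + y + e) (C := C) (Ch := Ch)
    (I := Icc A (A + (p * x + y))) (F := F) (by
      intro c hc
      rw [memC] at hc
      rw [mem_Icc]
      omega) (by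
      intro c hc
      rw [memCh] at hc
      rw [memC]
      omega) (by
      ext c
      rw [mem_sdiff, mem_sdiff, memC, mem_Icc, memF, memCh]
      omega) (fun c => if c = D + (p * x + y) then 0 else 1) (P1 * Q1) (by
      intro c hc
      have e5 : ∏ c ∈ Ch, xx c = xx D * (xx (D + x + (p * x + y)) * xx (D + (p * x + y))) := by
        rw [hCh, prod_insert, prod_insert, prod_singleton]
        · rw [mem_singleton]
          omega
        · simp only [mem_insert, mem_singleton]
          omega
      rw [← hxx, e5, hP1, hQ1]
      have a0 := hsq D
      have b0 := hsq (D + x + (p * x + y))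
      have c0 := hsq (D + (p * x + y))
      set a := xx D
      set b := xx (D + x + (p * x + y))
      set w1 := xx (D + (p * x + y))
      rcases (memCh c).1 hc with rfl | rfl | rfl
      · rw [if_neg (by omega), map_one]
        linear_combination a0 * (a + w1 - b) + a0 * b - a * b0
      · rw [if_neg (by omega), map_one]
        linear_combination b0 * (a + w1 - b) + a0 * b - a * b0
      · rw [if_pos rfl, map_zero]
        linear_combination c0 * (a + b) + w1 * a0 - w1 * b0) δ r iso
  rw [hCh, sum_insert, sum_insert, sum_singleton, if_pos rfl, if_neg (by omega),
    if_neg (by omega)] at fin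
  · linear_combination fin
  · rw [mem_singleton]
    omega
  · simp only [mem_insert, mem_singleton]
    omega


end

end Pool.Agent.Helper86K9.HK
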