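import Pool.Agent.Helper86K9.HK.Eq1

/-!
The relations for `y = x`.
-/

set_option autoImplicit false

namespace Pool.Agent.Helper86K9.HK

open Finset

universe u

section

variable {k : Type u} [Field k] {p x y A e : ℕ}

theorem drel_eq2 (hT : S_TAN1.{u}) (h3 : S_ALG3.{u}) (h2 : (2 : k) ≠ 0) (P : Par p x y A e)
    (δ : ℕ → k)
    (hδ : Tan (p * x + y + 1) (p * x + y + 1) (p * x + y + e) (pt p x y A) δ) (D r : ℕ)
    (hp : 1 ≤ p) (hyx : y = x) (hD : 1 ≤ D) (hDA : D < A) (hDx : D + x ≤ e)
    (hr : InR p x y r) :
    δ (r + (D + x + (p * x + y))) - δ (r + D) = 0 := by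
  classical
  have hx := P.hx
  have hA := P.hA
  have hAy := P.hAy
  have hy : 1 ≤ y := le_trans hA hAy
  have hAe := P.hAe
  have hAx := P.hAx hp
  have hx' := P.hx' hp
  have hey := P.hy
  set C : Finset ℕ := insert D (insert (D + x + (p * x + y))
    ((Icc A (A + (p * x + y))).erase (D + (p * x + y)))) with hCdef
  have memC : ∀ c, c ∈ C ↔ c = D ∨ c = D + x + (p * x + y) ∨
      (c ≠ D + (p * x + y) ∧ (A ≤ c ∧ c ≤ A + (p * x + y))) := by
    intro c
    rw [hCdef, mem_insert, mem_insert, mem_erase, mem_Icc]
  set xx := xc k C with hxx
  have hsq : ∀ c, xx c * xx c = 0 := xc_sq h3 C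
  have iso := isolate (k := k) xx hT h2 P hsq δ hδ r hr
  have px : ∀ i, i ≤ p → i * x ≤ p * x := fun i hi => Nat.mul_le_mul_right x hi
  have px' : ∀ i, i < p → i * x + x ≤ p * x := by
    intro i hi
    have := Nat.mul_le_mul_right x (Nat.succ_le_of_lt hi)
    rwa [Nat.succ_mul] at this
  have px1 : x ≤ p * x := by
    have := px 1 hp
    rwa [one_mul] at this
  set Ch : Finset ℕ := insert D (insert (D + x + (p * x + y))
    ((range p).image fun i => D + (i + 1) * x)) with hCh
  have memCh : ∀ c, c ∈ Ch ↔ c = D ∨ c = D + x + (p * x + y) ∨
      ∃ i, i < p ∧ D + (i + 1) * x = c := by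
    intro c
    rw [hCh, mem_insert, mem_insert, mem_image]
    simp only [mem_range]
  set P1 : Sq k := ∏ i ∈ range p, row (p * x + y + e) (pt p x y A : ℕ → k) xx (i * x + (A - D))
    with hP1
  set Q1 : Sq k := xx D - xx (D + x + (p * x + y)) with hQ1
  have third : ∀ i j, i < p → 1 ≤ j → j < x → (i + 1 < p ∨ j ≠ A - D) →
      bz (p * x + y + e) xx (A + p * x + (p * x + y) - i * x - j) = 0 := by
    intro i j hi hj1 hj h
    rcases Nat.lt_or_ge (i + 1) p with hip | hip
    · exact bz_third P xx hip hj
    · obtain rfl : p = i + 1 := by omega
      apply bz_xc_zero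
      intro c hc
      rw [memC] at hc
      have e1 : ((i * x : ℕ) : ℤ) = i * x := by push_cast; ring
      have e2 : (((i + 1 : ℕ) * x : ℕ) : ℤ) = (i + 1 : ℕ) * x := by push_cast; ring
      rw [← e1, ← e2]
      rw [Nat.succ_mul] at hc ⊢
      generalize i * x = I at *
      omega
  have hvp : ∀ j : ℕ, 1 ≤ j → j ≠ A - D → bz (p * x + y + e) xx (A - (j : ℤ)) = 0 := by
    intro j hj hj2
    apply bz_xc_zero
    intro c hc
    rw [memC] at hc
    generalize p * x = X at *
    omega
  have Z := zed P xx (fun c => if c ∈ chn p x y D then 1 else xx c)
    (fun j => if j = A - D then P1 else 1)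
    (fun j => if j = A - D then Q1 else 1)
    (by
      intro i hi
      have h5 := px i hi
      rw [if_neg]
      · unfold uu
        rw [bz_eq (c := A + p * x - i * x)]
        · rw [Nat.cast_sub (by omega)]
          push_cast
          ring
        · omega
        · omega
      · rw [mem_chn]
        rintro (h | ⟨i', hi', h⟩)
        · omega
        · have h6 : D + (i' + i) * x = A + p * x := by
            rw [Nat.add_mul]
            omega
          have := no_coll h6 (by omega) (by omega)
          omega) (by
      rw [if_neg]
      · unfold ww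
        rw [bz_eq (c := A + (p * x + y))]
        · push_cast
          ring
        · omega
        · omega
      · rw [mem_chn]
        rintro (h | ⟨i', hi', h⟩)
        · omega
        · have h5 := px i' hi'
          omega) (by
      intro j hj hjx
      by_cases hjD : j = A - D
      · rw [if_pos hjD, hP1, ← hjD]
        conv_lhs => rw [← one_mul (∏ i ∈ range p, _)]
        congr 1
        symm
        refine prod_eq_one fun i hi => if_pos ?_
        rw [mem_chn]
        right
        rw [mem_range] at hi
        refine ⟨p - i, by omega, ?_⟩
        rw [Nat.sub_mul]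
        have := px' i hi
        omega
      · rw [if_neg hjD, mul_one]
        have e1 : ∀ i ∈ range p, row (p * x + y + e) (pt p x y A : ℕ → k) xx
            (i * x + j) = bz (p * x + y + e) xx (A + p * x - i * x - j) +
            bz (p * x + y + e) xx (A + p * x - (i + 1 : ℕ) * x - j) := by
          intro i hi
          rw [mem_range] at hi
          rw [row_first P xx (by omega) hjx, third i j (by omega) hj hjx (by omega), add_zero]
        rw [prod_congr rfl e1]
        rw [path0 (fun i => bz (p * x + y + e) xx (A + p * x - (i : ℕ) * x - j))
          (fun i => bz_sq _ _ hsq _)]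
        · refine prod_congr rfl fun i hi => ?_
          rw [mem_range] at hi
          have h6 := px' i hi
          rw [if_neg]
          · apply bz_eq
            · rw [Nat.cast_sub (by omega)]
              push_cast
              ring
            · omega
            · omega
          · rw [mem_chn]
            rintro (h | ⟨i', hi', h⟩)
            · omega
            · have h7 : D + j + (i' + i) * x = A + p * x := by
                rw [Nat.add_mul]
                omega
              have := no_coll h7 (by omega) (by omega)
              omega
        · rw [← hvp j hj hjD]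
          congr 1
          ring) (by
      intro j hj hjy
      by_cases hjD : j = A - D
      · rw [if_pos hjD, if_pos (by rw [mem_chn]; left; omega), one_mul, row_second P xx hj, hQ1,
          bz_xc_zero (z := (A : ℤ) + (p * x + y) - j), add_zero]
        · congr 1
          · apply bz_eq
            · omega
            · omega
            · omega
          · apply bz_eq
            · rw [hjD, Nat.cast_sub hDA.le, hyx]
              push_cast
              ring
            · omega
            · omega
        · intro c hc
          rw [memC] at hc
          have e2 : ((p * x : ℕ) : ℤ) = p * x := by push_cast; ring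
          rw [← e2]
          omega
      · rw [if_neg hjD, mul_one, if_neg, row_second P xx hj,
          hvp j hj hjD, bz_xc_zero (z := (A : ℤ) + (p * x + y) + y - j), zero_add, sub_zero]
        · apply bz_eq
          · rw [Nat.cast_sub (by omega)]
            push_cast
            ring
          · omega
          · omega
        · intro c hc
          rw [memC] at hc
          have e2 : ((p * x : ℕ) : ℤ) = p * x := by push_cast; ring
          rw [← e2]
          omega
        · rw [mem_chn]
          rintro (h | ⟨i', hi', h⟩)
          · omega
          · have h5 := px i' hi'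
            omega)
  have hP : ∏ j ∈ Ico 1 x, (if j = A - D then P1 else 1) = P1 := by
    rw [prod_ite_eq', if_pos]
    rw [mem_Ico]
    omega
  have hQ : ∏ j ∈ Ico 1 y, (if j = A - D then Q1 else 1) = Q1 := by
    rw [prod_ite_eq', if_pos]
    rw [mem_Ico]
    omega
  rw [hP, hQ] at Z
  rw [Z] at iso
  -- the value of the special factors
  set v : ℕ → Sq k := fun i => bz (p * x + y + e) xx (A + p * x - (i : ℕ) * x - (A - D : ℕ))
    with hv
  have vsq : ∀ i, v i * v i = 0 := fun i => bz_sq _ _ hsq _
  have hvi : ∀ i, i ≤ p → v i = xx (D + (p - i) * x) := by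
    intro i hi
    have h5 := px i hi
    rw [Nat.sub_mul]
    show bz _ _ _ = _
    apply bz_eq
    · rw [Nat.cast_add, Nat.cast_sub h5, Nat.cast_sub hDA.le]
      push_cast
      ring
    · omega
    · omega
  have hprodv : ∏ i ∈ range p, xx (D + (i + 1) * x) = ∏ i ∈ range p, v i := by
    rw [← prod_range_reflect]
    refine prod_congr rfl fun i hi => ?_
    rw [mem_range] at hi
    rw [hvi i (by omega)]
    congr 3
    omega
  have hP1v : P1 = (∏ i ∈ range (p - 1), (v i + v (i + 1))) *
      (v (p - 1) + (xx D + xx (D + x + (p * x + y)))) := by
    rw [hP1, prod_last _ hp]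
    congr 1
    · refine prod_congr rfl fun i hi => ?_
      rw [mem_range] at hi
      rw [row_first P xx (by omega) (by omega), third i _ (by omega) (by omega) (by omega)
        (by omega), add_zero]
    · have e8 : v p = xx D := by
        rw [hvi p le_rfl, Nat.sub_self, zero_mul, add_zero]
      rw [row_first P xx (by omega) (by omega), ← e8, add_assoc]
      congr 1
      congr 1
      · rw [Nat.sub_add_cancel hp]
      · apply bz_eq
        · rw [Nat.cast_sub hDA.le, Nat.cast_sub hp]
          push_cast
          ring
        · omega
        · omega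
  have hinj : Set.InjOn (fun i => D + (i + 1) * x) (range p : Set ℕ) := by
    intro i _ j _ h
    have := Nat.eq_of_mul_eq_mul_right (by omega) (Nat.add_left_cancel h)
    omega
  have hn1 : D + x + (p * x + y) ∉ (range p).image fun i => D + (i + 1) * x := by
    rw [mem_image]
    rintro ⟨i, hi, h⟩
    have := px (i + 1) (mem_range.1 hi)
    omega
  have hn2 : D ∉ insert (D + x + (p * x + y)) ((range p).image fun i => D + (i + 1) * x) := by
    rw [mem_insert, mem_image]
    rintro (h | ⟨i, hi, h⟩)
    · omega
    · rw [Nat.succ_mul] at h
      omega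
  have fin := finish (k := k) h3 (n := p * x + y + e) (C := C) (Ch := Ch)
    (I := Icc A (A + (p * x + y))) (F := chn p x y D) (by
      intro c hc
      rw [memC] at hc
      rw [mem_Icc]
      omega) (by
      intro c hc
      rw [memCh] at hc
      rw [memC]
      rcases hc with h | h | ⟨i, hi, rfl⟩
      · exact Or.inl h
      · exact Or.inr (Or.inl h)
      · have h5 := px (i + 1) hi
        have h6 : (i + 1) * x = i * x + x := Nat.succ_mul i x
        right
        right
        omega) (by
      ext c
      rw [mem_sdiff, mem_sdiff, memC, mem_Icc, mem_chn, memCh]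
      constructor
      · rintro ⟨h4, h5⟩
        refine ⟨Or.inr (Or.inr ⟨fun h => h5 (Or.inl h), h4⟩), ?_⟩
        rintro (h | h | ⟨i, hi, h⟩)
        · omega
        · omega
        · exact h5 (Or.inr ⟨i + 1, hi, h⟩)
      · rintro ⟨h4, h5⟩
        have h6 : c ≠ D := fun h => h5 (Or.inl h)
        have h7 : c ≠ D + x + (p * x + y) := fun h => h5 (Or.inr (Or.inl h))
        have h8 : c ≠ D + (p * x + y) ∧ A ≤ c ∧ c ≤ A + (p * x + y) := by tauto
        refine ⟨h8.2, ?_⟩
        rintro (h | ⟨i, hi, h⟩)
        · exact h8.1 h
        · rcases Nat.eq_zero_or_pos i with rfl | hi0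
          · apply h6
            rw [← h, zero_mul, add_zero]
          · exact h5 (Or.inr (Or.inr ⟨i - 1, by omega, by
              rw [Nat.sub_add_cancel hi0]
              exact h⟩)))
    (fun c => if c = D then -1 else if c = D + x + (p * x + y) then 1 else 0) (P1 * Q1) (by
      intro c hc
      have e5 : ∏ c ∈ Ch, xx c = xx D * (xx (D + x + (p * x + y)) * ∏ i ∈ range p, v i) := by
        rw [hCh, prod_insert hn2, prod_insert hn1, prod_image hinj, hprodv]
      rw [← hxx, e5, hP1v, hQ1]
      have a0 := hsq D
      have b0 := hsq (D + x + (p * x + y))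
      have hlast := path v vsq (p - 1) (p - 1) le_rfl
      have hll : (∏ i ∈ range p, v i) * v (p - 1) = 0 := by
        rw [prod_last _ hp, mul_assoc, vsq, mul_zero]
      rw [Nat.sub_add_cancel hp] at hlast
      set E := ∏ i ∈ range (p - 1), (v i + v (i + 1))
      set V := ∏ i ∈ range p, v i
      set a := xx D
      set b := xx (D + x + (p * x + y))
      rcases (memCh c).1 hc with rfl | rfl | ⟨i, hi, rfl⟩
      · rw [if_pos rfl, map_neg, map_one]
        linear_combination (E * v (p - 1) + E * a) * a0 - E * a * b0 - a * b * hlast
      · rw [if_neg (by omega), if_pos rfl, map_one]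
        linear_combination (E * b) * a0 - (E * v (p - 1) + E * b) * b0 + a * b * hlast
      · have h6 : (i + 1) * x = i * x + x := Nat.succ_mul i x
        have h5 := px (i + 1) hi
        rw [if_neg (by omega), if_neg (by omega), map_zero]
        have h4 := path v vsq (p - 1) (p - (i + 1)) (by omega)
        rw [hvi (p - (i + 1)) (by omega), show p - (p - (i + 1)) = i + 1 by omega,
          Nat.sub_add_cancel hp] at h4
        linear_combination ((v (p - 1) + (a + b)) * (a - b)) * h4 + (a - b) * hll + V * a0 -
          V * b0) δ r iso
  rw [hCh, sum_insert hn2, sum_insert hn1, if_pos rfl, if_neg (by omega), if_pos rfl,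
    sum_eq_zero] at fin
  · linear_combination fin
  · intro c hc
    rw [mem_image] at hc
    obtain ⟨i, hi, rfl⟩ := hc
    have h6 : (i + 1) * x = i * x + x := Nat.succ_mul i x
    have h5 := px (i + 1) (mem_range.1 hi)
    rw [if_neg (by omega), if_neg (by omega), mul_zero]


end

end Pool.Agent.Helper86K9.HK
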