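import Pool.Agent.Helper86K9.HK.Mem
import Pool.Agent.Helper86K9.HK.Crit1

/-!
# [FIN1] The case `m = t`, `n = t - 1 + e`
-/

set_option autoImplicit false

namespace Pool.Agent.Helper86K9.HK

open Finset

universe u

namespace Fin1L

section

variable {k : Type u} [Field k] (h2 : (2 : k) ≠ 0) {p x y e : ℕ} (δ : ℕ → k)
  (R1 : ∀ D r, 1 ≤ D → D < x → InR p x y r →
    ∑ i ∈ range (p + 1), δ (D + r + i * x) + δ (D + r + (p * x + y)) = 0)
  (R2 : ∀ D r, x < D → D ≤ e → InR p x y r →
    ∑ i ∈ range p, δ (D + r + i * x) - δ (D + r + p * x) + δ (D + r + (p * x + y)) = 0)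
  (R3 : ∀ D r, 1 ≤ p → 1 ≤ D → D < x → D + x ≤ e → InR p x y r →
    ∑ i ∈ range p, δ (D + r + (i + 1) * x) = 0)

include h2 R1 R2 R3

theorem classE (hp : 1 ≤ p) (D : ℕ) (hD : 1 ≤ D) (hDx : D < x) (hDe : D + x ≤ e) :
    (∀ j, 1 ≤ j → j ≤ 2 * p → δ (D + j * x) = 0) ∧
    (∀ j, 1 ≤ j → j ≤ p → δ (p * x + y + D + j * x) = 0) ∧
    δ (p * x + y + D) = - δ D ∧
    δ (2 * (p * x + y) + D) = δ D ∧
    δ (p * x + y + (p + 1) * x + D) = δ (D + (2 * p + 1) * x) ∧
    δ (2 * (p * x + y) + x + D) = δ (p * x + y + (p + 1) * x + D) := by
  have hR : ∀ j, j ≤ p → InR p x y (j * x) := fun j hj => Or.inl ⟨j, hj, rfl⟩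
  have hRX : InR p x y (p * x + y) := Or.inr rfl
  -- relation 3 at `r = j x`
  have s : ∀ j, j ≤ p → ∑ i ∈ range p, δ (D + (j + i + 1) * x) = 0 := by
    intro j hj
    rw [← R3 D (j * x) hp hD hDx hDe (hR j hj)]
    refine sum_congr rfl fun i _ => ?_
    congr 1
    ring
  -- relation 1 at `r = j x`
  have a1 : ∀ j, j ≤ p → δ (D + j * x) + δ (p * x + y + D + j * x) = 0 := by
    intro j hj
    have h1 := R1 D (j * x) hD hDx (hR j hj)
    rw [sum_range_succ'] at h1
    have h3 : ∑ i ∈ range p, δ (D + j * x + (i + 1) * x) = 0 := R3 D (j * x) hp hD hDx hDe (hR j hj)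
    rw [h3, zero_add, zero_mul, add_zero] at h1
    rw [← h1]
    congr 2
    ring
  -- relation 2 at `r = j x`
  have a2 : ∀ j, j ≤ p → δ (p * x + y + D + (j + 1) * x) = δ (D + (j + 1 + p) * x) := by
    intro j hj
    have h1 := R2 (D + x) (j * x) (by omega) hDe (hR j hj)
    have h3 : ∑ i ∈ range p, δ (D + x + j * x + i * x) = 0 := by
      rw [← s j hj]
      refine sum_congr rfl fun i _ => ?_
      congr 1
      ring
    rw [h3, zero_sub] at h1
    have e1 : D + x + j * x + p * x = D + (j + 1 + p) * x := by ring
    have e2 : D + x + j * x + (p * x + y) = p * x + y + D + (j + 1) * x := by ring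
    rw [e1, e2] at h1
    linear_combination h1
  -- periodicity
  have per : ∀ j, j < p → δ (D + (j + 1) * x) = δ (D + (j + 1 + p) * x) := by
    intro j hj
    have h1 := s j hj.le
    have h3 := s (j + 1) hj
    have h4 := sum_range_succ (fun i => δ (D + (j + i + 1) * x)) p
    have h5 := sum_range_succ' (fun i => δ (D + (j + i + 1) * x)) p
    have h6 : ∑ i ∈ range p, δ (D + (j + (i + 1) + 1) * x) =
        ∑ i ∈ range p, δ (D + (j + 1 + i + 1) * x) := by
      refine sum_congr rfl fun i _ => ?_
      congr 1
      ring
    rw [h4, h6, h1, h3, zero_add, zero_add, add_zero] at h5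
    rw [← h5]
    congr 1
    ring
  have z1 : ∀ j, 1 ≤ j → j ≤ p → δ (D + j * x) = 0 := by
    intro j hj hjp
    obtain ⟨i, rfl⟩ : ∃ i, j = i + 1 := ⟨j - 1, by omega⟩
    have h1 := a1 (i + 1) hjp
    have h3 := a2 i (by omega)
    have h4 := per i (by omega)
    have : 2 * δ (D + (i + 1) * x) = 0 := by
      linear_combination h1 - h3 + h4
    exact (mul_eq_zero.1 this).resolve_left h2
  have z2 : ∀ j, 1 ≤ j → j ≤ 2 * p → δ (D + j * x) = 0 := by
    intro j hj hjp
    rcases Nat.lt_or_ge p j with h | h
    · have h1 := per (j - p - 1) (by omega)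
      rw [z1 (j - p - 1 + 1) (by omega) (by omega), show j - p - 1 + 1 + p = j by omega] at h1
      exact h1.symm
    · exact z1 j hj h
  refine ⟨z2, ?_, ?_, ?_, ?_, ?_⟩
  · intro j hj hjp
    have h1 := a1 j hjp
    rw [z1 j hj hjp, zero_add] at h1
    exact h1
  · have h1 := a1 0 (Nat.zero_le _)
    rw [zero_mul, add_zero, add_zero] at h1
    linear_combination h1
  · have h0 := a1 0 (Nat.zero_le _)
    rw [zero_mul, add_zero, add_zero] at h0
    have h1 := R1 D (p * x + y) hD hDx hRX
    rw [sum_range_succ', R3 D (p * x + y) hp hD hDx hDe hRX, zero_add, zero_mul, add_zero] at h1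
    have e1 : D + (p * x + y) + (p * x + y) = 2 * (p * x + y) + D := by ring
    have e2 : D + (p * x + y) = p * x + y + D := by ring
    rw [e1, e2] at h1
    linear_combination h1 - h0
  · have h1 := a2 p le_rfl
    rw [show p * x + y + (p + 1) * x + D = p * x + y + D + (p + 1) * x by ring, h1]
    congr 1
    ring
  · have h1 := R2 (D + x) (p * x + y) (by omega) hDe hRX
    have h3 : ∑ i ∈ range p, δ (D + x + (p * x + y) + i * x) = 0 := by
      rw [← R3 D (p * x + y) hp hD hDx hDe hRX]
      refine sum_congr rfl fun i _ => ?_
      congr 1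
      ring
    rw [h3, zero_sub] at h1
    have e1 : D + x + (p * x + y) + p * x = p * x + y + (p + 1) * x + D := by ring
    have e2 : D + x + (p * x + y) + (p * x + y) = 2 * (p * x + y) + x + D := by ring
    rw [e1, e2] at h1
    linear_combination h1

theorem core (hp : 1 ≤ p) (hx : 2 ≤ x) (hxy : x ≤ y) (hy : y ≤ 2 * x - 1)
    (he : e = 2 * x - 1 ∨ (e = 2 * x - 2 ∧ 3 ≤ x))
    (R5 : (∀ r c, InR p x y r → InR p x y c → ¬ (r = p * x + y ∧ c = p * x + y) →
        δ (x + r + c) = 0) → δ (x + (p * x + y) + (p * x + y)) = 0)
    (H1 : ∀ D, 1 ≤ D → D < x → D + x ≤ e → δ D = 0)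
    (H2 : ∀ j, 1 ≤ j → j ≤ p + 1 → δ (j * x) = 0)
    (H3 : ∀ j, 1 ≤ j → j ≤ p + 1 → δ (p * x + y + j * x) = 0)
    (H4 : e = 2 * x - 2 → ∀ j, x - 1 + j * x ≤ p * x + y → δ (x - 1 + j * x) = 0)
    (H5 : e = 2 * x - 2 → y = 2 * x - 1 → δ (2 * (p * x + y)) = 0) :
    ∀ h, 1 ≤ h → h ≤ 2 * (p * x + y) + e → δ h = 0 := by
  intro h
  induction h using Nat.strong_induction_on with
  | _ h ih =>
  intro h1 hle
  have cE := classE h2 δ R1 R2 R3 hp
  have hX : ∀ a b : ℕ, a * x < b * x → a < b := fun a b => Nat.lt_of_mul_lt_mul_right
  have hpx : (p + 1) * x = p * x + x := by ring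
  have hpx2 : (p + 2) * x = p * x + 2 * x := by ring
  rcases Nat.lt_or_ge (p * x + y) h with c1 | c1
  · rcases Nat.lt_or_ge (p * x + y + (p * x + x)) h with c2 | c2
    · rcases Nat.lt_or_ge (2 * (p * x + y)) h with c3 | c3
      · -- beyond `2X`
        obtain ⟨D, rfl⟩ : ∃ D, h = 2 * (p * x + y) + D := ⟨h - 2 * (p * x + y), by omega⟩
        rcases Nat.lt_or_ge D x with c4 | c4
        · by_cases c5 : D + x ≤ e
          · rw [(cE D (by omega) c4 c5).2.2.2.1]
            exact H1 D (by omega) c4 c5
          · have hD : D = x - 1 := by omega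
            have h3 := R1 (x - 1) (p * x + y) (by omega) (by omega) (Or.inr rfl)
            rw [sum_eq_zero, zero_add] at h3
            · rw [hD, ← h3]
              congr 1
              omega
            · intro i hi
              have : i * x ≤ p * x := Nat.mul_le_mul_right x (by rw [mem_range] at hi; omega)
              exact ih _ (by omega) (by omega) (by omega)
        · rcases Nat.lt_or_ge x D with c5 | c5
          · obtain ⟨D', rfl⟩ : ∃ D', D = x + D' := ⟨D - x, by omega⟩
            have h3 := (cE D' (by omega) (by omega) (by omega)).2.2.2.2.2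
            rw [← add_assoc, h3]
            exact ih _ (by omega) (by omega) (by omega)
          · obtain rfl : D = x := by omega
            have h3 := R5 (by
              intro r c hr hc hrc
              have b1 : r ≤ p * D + y := by
                rcases hr with ⟨i, hi, rfl⟩ | rfl
                · have := Nat.mul_le_mul_right D hi
                  omega
                · exact le_rfl
              have b2 : c ≤ p * D + y := by
                rcases hc with ⟨i, hi, rfl⟩ | rfl
                · have := Nat.mul_le_mul_right D hi
                  omega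
                · exact le_rfl
              exact ih _ (by omega) (by omega) (by omega))
            rw [← h3]
            congr 1
            omega
      · -- `X + (p+1) x < h ≤ 2X`
        obtain ⟨D, rfl⟩ : ∃ D, h = p * x + y + (p + 1) * x + D :=
          ⟨h - (p * x + y + (p + 1) * x), by omega⟩
        by_cases c5 : D + x ≤ e
        · rw [(cE D (by omega) (by omega) c5).2.2.2.2.1]
          have hpx3 : (2 * p + 1) * x = 2 * (p * x) + x := by ring
          exact ih _ (by omega) (by omega) (by omega)
        · have hD : D = x - 1 := by omega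
          have he2 : e = 2 * x - 2 := by omega
          rw [← H5 he2 (by omega)]
          congr 1
          omega
    · -- `X < h ≤ X + (p+1) x`
      obtain ⟨h', rfl⟩ : ∃ h', h = p * x + y + h' := ⟨h - (p * x + y), by omega⟩
      have hdm := Nat.div_add_mod h' x
      have hml := Nat.mod_lt h' (by omega : x > 0)
      set q := h' / x with hq
      set D := h' % x with hD
      have hh' : h' = D + q * x := by rw [mul_comm q x]; omega
      have hq1 : q < p + 2 := by
        apply hX
        omega
      rcases Nat.eq_zero_or_pos D with d0 | d0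
      · have : 1 ≤ q := by
          rcases Nat.eq_zero_or_pos q with q0 | q0
          · rw [q0, zero_mul] at hh'
            omega
          · exact q0
        rw [hh', d0, zero_add]
        exact H3 q this (by omega)
      · have hq2 : q ≤ p := by
          by_contra hcon
          have hqq : q = p + 1 := by omega
          rw [hqq] at hh'
          omega
        by_cases c5 : D + x ≤ e
        · rcases Nat.eq_zero_or_pos q with q0 | q0
          · rw [hh', q0, zero_mul, add_zero, (cE D d0 hml c5).2.2.1, H1 D d0 hml c5, neg_zero]
          · rw [hh', ← add_assoc]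
            exact (cE D d0 hml c5).2.1 q q0 hq2
        · have hDx : D = x - 1 := by omega
          have h3 := R1 (x - 1) (q * x) (by omega) (by omega) (Or.inl ⟨q, hq2, rfl⟩)
          rw [sum_eq_zero, zero_add] at h3
          · rw [hh', hDx, ← h3]
            congr 1
            omega
          · intro i hi
            have : i * x ≤ p * x := Nat.mul_le_mul_right x (by rw [mem_range] at hi; omega)
            exact ih _ (by omega) (by omega) (by omega)
  · -- `h ≤ X`
    have hdm := Nat.div_add_mod h x
    have hml := Nat.mod_lt h (by omega : x > 0)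
    set q := h / x with hq
    set D := h % x with hD
    have hh : h = D + q * x := by rw [mul_comm q x]; omega
    have hq1 : q < p + 2 := by
      apply hX
      omega
    rcases Nat.eq_zero_or_pos D with d0 | d0
    · have : 1 ≤ q := by
        rcases Nat.eq_zero_or_pos q with q0 | q0
        · rw [q0, zero_mul] at hh
          omega
        · exact q0
      rw [hh, d0, zero_add]
      exact H2 q this (by omega)
    · by_cases c5 : D + x ≤ e
      · rcases Nat.eq_zero_or_pos q with q0 | q0
        · rw [hh, q0, zero_mul, add_zero]
          exact H1 D d0 hml c5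
        · rw [hh]
          exact (cE D d0 hml c5).1 q q0 (by omega)
      · have hDx : D = x - 1 := by omega
        rw [hh, hDx]
        exact H4 (by omega) q (by omega)

end

end Fin1L

open Fin1L in
/-- [FIN1]. -/
theorem fin1 (hDR : S_DREL.{u}) : S_FIN1.{u} := by
  classical
  intro k _ h2 p x y e hp hx hxy hy he hne
  have hpar : Par p x y x e := by
    refine ⟨by omega, by omega, by omega, hxy, by omega, fun _ => le_rfl, fun _ => by omega⟩
  have hvan : Van (p * x + y + 1) (p * x + y + 1) (p * x + y + e) (pt p x y x : ℕ → k) :=
    mem k p x y x 1 e le_rfl (by omega) (by omega) (by omega)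
      (by rw [show 1 + e - 1 = e by omega]; exact hpar)
  have hpx : 2 * p ≤ p * x := by
    have := Nat.mul_le_mul_left p hx
    omega
  -- the criterion with the relations
  have main : ∀ B : Finset ℕ, B.card ≤ p * x + y →
      (∀ δ : ℕ → k, (∀ j ∈ B, δ j = 0) →
        (∀ D r, 1 ≤ D → D < x → InR p x y r →
          ∑ i ∈ range (p + 1), δ (D + r + i * x) + δ (D + r + (p * x + y)) = 0) →
        (∀ D, 1 ≤ D → D < x → D + x ≤ e → δ (p * x + y + D) = - δ D ∧
          (y = x → δ (p * x + y + D) = 0) ∧ (∀ j, 1 ≤ j → j ≤ 2 * p → δ (D + j * x) = 0)) →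
        (∀ D, 1 ≤ D → D < x → D + x ≤ e → δ D = 0) ∧
        (∀ j, 1 ≤ j → j ≤ p + 1 → δ (j * x) = 0) ∧
        (∀ j, 1 ≤ j → j ≤ p + 1 → δ (p * x + y + j * x) = 0) ∧
        (e = 2 * x - 2 → ∀ j, x - 1 + j * x ≤ p * x + y → δ (x - 1 + j * x) = 0) ∧
        (e = 2 * x - 2 → y = 2 * x - 1 → δ (2 * (p * x + y)) = 0)) →
      ¬ (hankelIdeal k (p * x + y + 1) (p * x + y + 1) (p * x + y + e)).IsPrime := by
    intro B hB hH
    apply crit1 k (p * x + y + 1) (p * x + y + 1) (p * x + y + e) (by omega) le_rfl (by omega)
      (pt p x y x) hvan B (by omega)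
    intro δ hδ hδB j hj hj'
    obtain ⟨R1, R2, R3, R4, R5⟩ := hDR k h2 p x y x e hpar δ hδ
    have cE := classE h2 δ R1 R2 R3 hp
    obtain ⟨H1, H2, H3, H4, H5⟩ := hH δ hδB R1 (fun D hD hDx hDe =>
      ⟨(cE D hD hDx hDe).2.2.1, fun hyx => by
        have := R4 D 0 hp hyx hD hDx hDe (Or.inl ⟨0, Nat.zero_le _, by ring⟩)
        rw [← this]
        congr 1
        ring, (cE D hD hDx hDe).1⟩)
    exact core h2 δ R1 R2 R3 hp hx hxy hy he R5 H1 H2 H3 H4 H5 j hj (by omega)
  -- the sets
  set I2 : Finset ℕ := (range (p + 1)).image fun j => (j + 1) * x with hI2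
  set I3 : Finset ℕ := (range (p + 1)).image fun j => p * x + y + (j + 1) * x with hI3
  have c2 : I2.card ≤ p + 1 := card_image_le.trans (card_range _).le
  have c3 : I3.card ≤ p + 1 := card_image_le.trans (card_range _).le
  have m2 : ∀ j, 1 ≤ j → j ≤ p + 1 → j * x ∈ I2 := by
    intro j hj hjp
    rw [hI2, mem_image]
    exact ⟨j - 1, by rw [mem_range]; omega, by rw [Nat.sub_add_cancel hj]⟩
  have m3 : ∀ j, 1 ≤ j → j ≤ p + 1 → p * x + y + j * x ∈ I3 := by
    intro j hj hjp
    rw [hI3, mem_image]
    exact ⟨j - 1, by rw [mem_range]; omega, by rw [Nat.sub_add_cancel hj]⟩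
  have hX : ∀ a b : ℕ, a * x < b * x → a < b := fun a b => Nat.lt_of_mul_lt_mul_right
  have hpx1 : (p + 1) * x = p * x + x := by ring
  have hpx2 : (p + 2) * x = p * x + 2 * x := by ring
  have I1 : (Icc 1 (e - x)).card = e - x := by rw [Nat.card_Icc]; omega
  by_cases hyx : y = x
  · -- `y = x`
    set I4 : Finset ℕ := (range (p + 1)).image fun j => x - 1 + j * x with hI4
    have c4 : I4.card ≤ p + 1 := card_image_le.trans (card_range _).le
    have m4 : ∀ j, j ≤ p → x - 1 + j * x ∈ I4 := by
      intro j hjp
      rw [hI4, mem_image]
      exact ⟨j, by rw [mem_range]; omega, rfl⟩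
    rcases he with he | ⟨he, hx3⟩
    · apply main (I2 ∪ I3)
      · have := card_union_le I2 I3
        omega
      · intro δ hB R1 cE
        refine ⟨?_, ?_, ?_, fun h => ?_, fun h => ?_⟩
        · intro D hD hDx hDe
          obtain ⟨e1, e2, -⟩ := cE D hD hDx hDe
          rw [e2 hyx] at e1
          linear_combination e1
        · exact fun j hj hjp => hB _ (mem_union_left _ (m2 j hj hjp))
        · exact fun j hj hjp => hB _ (mem_union_right _ (m3 j hj hjp))
        · omega
        · omega
    · apply main (I2 ∪ (I3 ∪ I4))
      · have h3 := card_union_le I2 (I3 ∪ I4)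
        have h4 := card_union_le I3 I4
        have h5 : 3 * p ≤ p * x := by
          have := Nat.mul_le_mul_left p hx3
          omega
        omega
      · intro δ hB R1 cE
        refine ⟨?_, ?_, ?_, fun h => ?_, fun h => ?_⟩
        · intro D hD hDx hDe
          obtain ⟨e1, e2, -⟩ := cE D hD hDx hDe
          rw [e2 hyx] at e1
          linear_combination e1
        · exact fun j hj hjp => hB _ (mem_union_left _ (m2 j hj hjp))
        · exact fun j hj hjp => hB _ (mem_union_right _ (mem_union_left _ (m3 j hj hjp)))
        · intro j hj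
          have : j < p + 1 := by
            apply hX
            omega
          exact hB _ (mem_union_right _ (mem_union_right _ (m4 j (by omega))))
        · omega
  · rcases he with he | ⟨he, hx3⟩
    · apply main (Icc 1 (e - x) ∪ (I2 ∪ I3))
      · have h3 := card_union_le (Icc 1 (e - x)) (I2 ∪ I3)
        have h4 := card_union_le I2 I3
        omega
      · intro δ hB R1 cE
        refine ⟨?_, ?_, ?_, fun h => ?_, fun h => ?_⟩
        · intro D hD hDx hDe
          exact hB _ (mem_union_left _ (by rw [mem_Icc]; omega))
        · exact fun j hj hjp => hB _ (mem_union_right _ (mem_union_left _ (m2 j hj hjp)))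
        · exact fun j hj hjp => hB _ (mem_union_right _ (mem_union_right _ (m3 j hj hjp)))
        · omega
        · omega
    · have h5 : 3 * p ≤ p * x := by
        have := Nat.mul_le_mul_left p hx3
        omega
      by_cases hy2 : y = 2 * x - 1
      · by_cases hp1 : p = 1
        · -- `p = 1`, `x ≥ 4`
          have hx4 : 4 ≤ x := by
            by_contra hcon
            exact hne ⟨hp1, by omega, by omega, by omega⟩
          set I4 : Finset ℕ := (range (p + 2)).image fun j => x - 1 + j * x with hI4
          have c4 : I4.card ≤ p + 2 := card_image_le.trans (card_range _).le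
          have m4 : ∀ j, j ≤ p + 1 → x - 1 + j * x ∈ I4 := by
            intro j hjp
            rw [hI4, mem_image]
            exact ⟨j, by rw [mem_range]; omega, rfl⟩
          apply main (Icc 1 (e - x) ∪ (I2 ∪ (I3 ∪ (I4 ∪ {2 * (p * x + y)}))))
          · have h3 := card_union_le (Icc 1 (e - x)) (I2 ∪ (I3 ∪ (I4 ∪ {2 * (p * x + y)})))
            have h4 := card_union_le I2 (I3 ∪ (I4 ∪ {2 * (p * x + y)}))
            have h6 := card_union_le I3 (I4 ∪ {2 * (p * x + y)})
            have h7 := card_union_le I4 {2 * (p * x + y)}
            rw [card_singleton] at h7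
            have h8 : p * x = x := by rw [hp1, one_mul]
            omega
          · intro δ hB R1 cE
            refine ⟨?_, ?_, ?_, fun h => ?_, fun h => ?_⟩
            · intro D hD hDx hDe
              exact hB _ (mem_union_left _ (by rw [mem_Icc]; omega))
            · exact fun j hj hjp => hB _ (mem_union_right _ (mem_union_left _ (m2 j hj hjp)))
            · exact fun j hj hjp => hB _ (mem_union_right _ (mem_union_right _
                (mem_union_left _ (m3 j hj hjp))))
            · intro j hj
              have : j < p + 2 := by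
                apply hX
                omega
              exact hB _ (mem_union_right _ (mem_union_right _ (mem_union_right _
                (mem_union_left _ (m4 j (by omega))))))
            · intro _
              exact hB _ (mem_union_right _ (mem_union_right _ (mem_union_right _
                (mem_union_right _ (mem_singleton_self _)))))
        · -- `p ≥ 2`
          set I4 : Finset ℕ := (range (p + 1)).image fun j => x - 1 + (j + 1) * x with hI4
          have c4 : I4.card ≤ p + 1 := card_image_le.trans (card_range _).le
          have m4 : ∀ j, 1 ≤ j → j ≤ p + 1 → x - 1 + j * x ∈ I4 := by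
            intro j hj hjp
            rw [hI4, mem_image]
            exact ⟨j - 1, by rw [mem_range]; omega, by rw [Nat.sub_add_cancel hj]⟩
          apply main (Icc 1 (e - x) ∪ (I2 ∪ (I3 ∪ (I4 ∪ {2 * (p * x + y)}))))
          · have h3 := card_union_le (Icc 1 (e - x)) (I2 ∪ (I3 ∪ (I4 ∪ {2 * (p * x + y)})))
            have h4 := card_union_le I2 (I3 ∪ (I4 ∪ {2 * (p * x + y)}))
            have h6 := card_union_le I3 (I4 ∪ {2 * (p * x + y)})
            have h7 := card_union_le I4 {2 * (p * x + y)}
            rw [card_singleton] at h7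
            omega
          · intro δ hB R1 cE
            have hz : ∀ j, 1 ≤ j → x - 1 + j * x ≤ p * x + y → δ (x - 1 + j * x) = 0 := by
              intro j hj1 hj
              have : j < p + 2 := by
                apply hX
                omega
              exact hB _ (mem_union_right _ (mem_union_right _ (mem_union_right _
                (mem_union_left _ (m4 j hj1 (by omega))))))
            refine ⟨?_, ?_, ?_, fun h => ?_, fun h => ?_⟩
            · intro D hD hDx hDe
              exact hB _ (mem_union_left _ (by rw [mem_Icc]; omega))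
            · exact fun j hj hjp => hB _ (mem_union_right _ (mem_union_left _ (m2 j hj hjp)))
            · exact fun j hj hjp => hB _ (mem_union_right _ (mem_union_right _
                (mem_union_left _ (m3 j hj hjp))))
            · intro j hj
              rcases Nat.eq_zero_or_pos j with j0 | j0
              · -- the coordinate `x - 1`
                have h6 := R1 (x - 1) 0 (by omega) (by omega)
                  (Or.inl ⟨0, Nat.zero_le _, by ring⟩)
                rw [sum_range_succ'] at h6
                have h7 : ∑ i ∈ range p, δ (x - 1 + 0 + (i + 1) * x) = 0 := by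
                  apply sum_eq_zero
                  intro i hi
                  rw [add_zero]
                  have : (i + 1) * x ≤ p * x :=
                    Nat.mul_le_mul_right x (by rw [mem_range] at hi; omega)
                  exact hz (i + 1) (by omega) (by omega)
                have h8 : δ (x - 1 + 0 + (p * x + y)) = 0 := by
                  rw [← (cE (x - 2) (by omega) (by omega) (by omega)).2.2 (p + 2) (by omega)
                    (by omega)]
                  congr 1
                  omega
                rw [h7, h8, zero_add, add_zero, zero_mul, add_zero, add_zero] at h6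
                rw [j0, zero_mul, add_zero]
                exact h6
              · exact hz j j0 hj
            · intro _
              exact hB _ (mem_union_right _ (mem_union_right _ (mem_union_right _
                (mem_union_right _ (mem_singleton_self _)))))
      · set I4 : Finset ℕ := (range (p + 1)).image fun j => x - 1 + j * x with hI4
        have c4 : I4.card ≤ p + 1 := card_image_le.trans (card_range _).le
        have m4 : ∀ j, j ≤ p → x - 1 + j * x ∈ I4 := by
          intro j hjp
          rw [hI4, mem_image]
          exact ⟨j, by rw [mem_range]; omega, rfl⟩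
        apply main (Icc 1 (e - x) ∪ (I2 ∪ (I3 ∪ I4)))
        · have h3 := card_union_le (Icc 1 (e - x)) (I2 ∪ (I3 ∪ I4))
          have h4 := card_union_le I2 (I3 ∪ I4)
          have h6 := card_union_le I3 I4
          omega
        · intro δ hB R1 cE
          refine ⟨?_, ?_, ?_, fun h => ?_, fun h => ?_⟩
          · intro D hD hDx hDe
            exact hB _ (mem_union_left _ (by rw [mem_Icc]; omega))
          · exact fun j hj hjp => hB _ (mem_union_right _ (mem_union_left _ (m2 j hj hjp)))
          · exact fun j hj hjp => hB _ (mem_union_right _ (mem_union_right _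
              (mem_union_left _ (m3 j hj hjp))))
          · intro j hj
            have : j < p + 1 := by
              apply hX
              omega
            exact hB _ (mem_union_right _ (mem_union_right _ (mem_union_right _
              (m4 j (by omega)))))
          · omega

end Pool.Agent.Helper86K9.HK
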