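import Pool.Agent.Helper86K9.HK.Crit1
import Pool.Agent.Helper86K9.HK.Tan

/-!
# The Hankel case `t = m = 5`, `n = 6`
-/

set_option autoImplicit false
set_option linter.unusedSimpArgs false
set_option linter.style.longLine false

namespace Pool.Agent.Helper86K9.HK

universe u

section

variable {S : Type*} [CommRing S]

lemma five_pow {x : S} (h : x * x = 0) :
    x ^ 2 = 0 ∧ x ^ 3 = 0 ∧ x ^ 4 = 0 ∧ x ^ 5 = 0 := by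
  have h2 : x ^ 2 = 0 := by rw [pow_two, h]
  exact ⟨h2, by rw [pow_succ, h2, zero_mul], by rw [pow_succ, pow_succ, h2, zero_mul, zero_mul],
    by rw [pow_succ, pow_succ, pow_succ, h2, zero_mul, zero_mul, zero_mul]⟩

variable {x1 x2 x3 x4 x5 x6 : S} (h1 : x1 * x1 = 0) (h2 : x2 * x2 = 0) (h3 : x3 * x3 = 0)
  (h4 : x4 * x4 = 0) (h5 : x5 * x5 = 0) (h6 : x6 * x6 = 0)

include h1 h2 h3 h4 h5 h6

lemma five_N0 :
    (x1 - x2 - x4 - x5 + x6) * (-x1 - x3 - x4 + x5) * (-x2 - x3 + x4 - x6) * (-x1 - x2 + x3 - x5 - x6) =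
      3 * (x1 * x2 * x3 * x4) - 2 * (x1 * x2 * x3 * x6) - 2 * (x1 * x2 * x4 * x5) + 4 * (x1 * x2 * x5 * x6) + 2 * (x1 * x3 * x4 * x5) + x1 * x3 * x4 * x6 - 2 * (x1 * x4 * x5 * x6) - x2 * x3 * x4 * x5 + 2 * (x2 * x3 * x4 * x6) + 2 * (x2 * x3 * x5 * x6) + x3 * x4 * x5 * x6 := by
  obtain ⟨a1, b1, c1, d1⟩ := five_pow h1
  obtain ⟨a2, b2, c2, d2⟩ := five_pow h2
  obtain ⟨a3, b3, c3, d3⟩ := five_pow h3
  obtain ⟨a4, b4, c4, d4⟩ := five_pow h4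
  obtain ⟨a5, b5, c5, d5⟩ := five_pow h5
  obtain ⟨a6, b6, c6, d6⟩ := five_pow h6
  ring_nf
  simp only [a1, a2, a3, a4, a5, a6, b1, b2, b3, b4, b5, b6, c1, c2, c3, c4, c5, c6, d1, d2, d3,
    d4, d5, d6, mul_zero, zero_mul, add_zero, zero_add, sub_zero, zero_sub, neg_zero]
  try ring


lemma five_N1 :
    (x1 + x2 - x3 - x5 - x6) * (-x1 - x3 - x4 + x5) * (-x2 - x3 + x4 - x6) * (-x1 - x2 + x3 - x5 - x6) =
      -1 * (2 * (x1 * x2 * x4 * x5)) - 2 * (x1 * x2 * x4 * x6) + 4 * (x1 * x2 * x5 * x6) + 2 * (x1 * x3 * x4 * x5) + 2 * (x1 * x3 * x4 * x6) - 2 * (x1 * x4 * x5 * x6) + 2 * (x2 * x3 * x4 * x5) + 2 * (x2 * x3 * x4 * x6) + 2 * (x2 * x4 * x5 * x6) := by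
  obtain ⟨a1, b1, c1, d1⟩ := five_pow h1
  obtain ⟨a2, b2, c2, d2⟩ := five_pow h2
  obtain ⟨a3, b3, c3, d3⟩ := five_pow h3
  obtain ⟨a4, b4, c4, d4⟩ := five_pow h4
  obtain ⟨a5, b5, c5, d5⟩ := five_pow h5
  obtain ⟨a6, b6, c6, d6⟩ := five_pow h6
  ring_nf
  simp only [a1, a2, a3, a4, a5, a6, b1, b2, b3, b4, b5, b6, c1, c2, c3, c4, c5, c6, d1, d2, d3,
    d4, d5, d6, mul_zero, zero_mul, add_zero, zero_add, sub_zero, zero_sub, neg_zero]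
  try ring


lemma five_N2 :
    (x1 + x2 - x3 - x5 - x6) * (x1 - x2 - x4 - x5 + x6) * (-x2 - x3 + x4 - x6) * (-x1 - x2 + x3 - x5 - x6) =
      2 * (x1 * x2 * x4 * x5) - 4 * (x1 * x2 * x4 * x6) - 4 * (x1 * x2 * x5 * x6) - 2 * (x1 * x3 * x4 * x5) + 4 * (x1 * x3 * x4 * x6) + 2 * (x1 * x4 * x5 * x6) - 2 * (x2 * x3 * x4 * x5) + 4 * (x2 * x3 * x4 * x6) + 4 * (x2 * x3 * x5 * x6) + 2 * (x3 * x4 * x5 * x6) := by
  obtain ⟨a1, b1, c1, d1⟩ := five_pow h1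
  obtain ⟨a2, b2, c2, d2⟩ := five_pow h2
  obtain ⟨a3, b3, c3, d3⟩ := five_pow h3
  obtain ⟨a4, b4, c4, d4⟩ := five_pow h4
  obtain ⟨a5, b5, c5, d5⟩ := five_pow h5
  obtain ⟨a6, b6, c6, d6⟩ := five_pow h6
  ring_nf
  simp only [a1, a2, a3, a4, a5, a6, b1, b2, b3, b4, b5, b6, c1, c2, c3, c4, c5, c6, d1, d2, d3,
    d4, d5, d6, mul_zero, zero_mul, add_zero, zero_add, sub_zero, zero_sub, neg_zero]
  try ring


lemma five_N3 :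
    (x1 + x2 - x3 - x5 - x6) * (x1 - x2 - x4 - x5 + x6) * (-x1 - x3 - x4 + x5) * (-x1 - x2 + x3 - x5 - x6) =
      2 * (x1 * x2 * x4 * x6) - 2 * (x1 * x3 * x4 * x6) - 2 * (x2 * x3 * x4 * x6) + 4 * (x2 * x3 * x5 * x6) + 2 * (x2 * x4 * x5 * x6) + 2 * (x3 * x4 * x5 * x6) := by
  obtain ⟨a1, b1, c1, d1⟩ := five_pow h1
  obtain ⟨a2, b2, c2, d2⟩ := five_pow h2
  obtain ⟨a3, b3, c3, d3⟩ := five_pow h3
  obtain ⟨a4, b4, c4, d4⟩ := five_pow h4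
  obtain ⟨a5, b5, c5, d5⟩ := five_pow h5
  obtain ⟨a6, b6, c6, d6⟩ := five_pow h6
  ring_nf
  simp only [a1, a2, a3, a4, a5, a6, b1, b2, b3, b4, b5, b6, c1, c2, c3, c4, c5, c6, d1, d2, d3,
    d4, d5, d6, mul_zero, zero_mul, add_zero, zero_add, sub_zero, zero_sub, neg_zero]
  try ring


lemma five_N4 :
    (x1 + x2 - x3 - x5 - x6) * (x1 - x2 - x4 - x5 + x6) * (-x1 - x3 - x4 + x5) * (-x2 - x3 + x4 - x6) =
      -1 * (3 * (x1 * x2 * x3 * x4)) + 2 * (x1 * x2 * x3 * x6) - 2 * (x1 * x2 * x4 * x6) + x1 * x3 * x4 * x6 + 3 * (x2 * x3 * x4 * x5) - 2 * (x2 * x3 * x5 * x6) + 2 * (x2 * x4 * x5 * x6) - x3 * x4 * x5 * x6 := by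
  obtain ⟨a1, b1, c1, d1⟩ := five_pow h1
  obtain ⟨a2, b2, c2, d2⟩ := five_pow h2
  obtain ⟨a3, b3, c3, d3⟩ := five_pow h3
  obtain ⟨a4, b4, c4, d4⟩ := five_pow h4
  obtain ⟨a5, b5, c5, d5⟩ := five_pow h5
  obtain ⟨a6, b6, c6, d6⟩ := five_pow h6
  ring_nf
  simp only [a1, a2, a3, a4, a5, a6, b1, b2, b3, b4, b5, b6, c1, c2, c3, c4, c5, c6, d1, d2, d3,
    d4, d5, d6, mul_zero, zero_mul, add_zero, zero_add, sub_zero, zero_sub, neg_zero]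
  try ring

end

end Pool.Agent.Helper86K9.HK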