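import Pool.Agent.Helper86K9.HK.Crit2
import Pool.Agent.Helper86K9.HK.Tan

/-!
# The Hankel case `t = m = 4`, `n = 5`
-/

set_option autoImplicit false
set_option linter.unusedSimpArgs false
set_option linter.style.longLine false

namespace Pool.Agent.Helper86K9.HK.F4

universe u

/-- The point `(1, 1, 1, 0, -1, 0, 0, -1)`. -/
def q4 (k : Type*) [CommRing k] (j : ℕ) : k :=
  if j = 1 ∨ j = 2 ∨ j = 3 then 1 else if j = 5 ∨ j = 8 then -1 else 0

/-- The tangent vector `(0, 0, 0, 1, 0, 1, 0, -1)`. -/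
def a4 (k : Type*) [CommRing k] (j : ℕ) : k :=
  if j = 4 ∨ j = 6 then 1 else if j = 8 then -1 else 0

lemma icc5 {S : Type*} [AddCommMonoid S] (f : ℕ → S) :
    ∑ c ∈ Finset.Icc 1 5, f c = f 1 + f 2 + f 3 + f 4 + f 5 := by
  simp [Finset.sum_Icc_succ_top]

section

variable {k S : Type*} [CommRing k] [CommRing S] [Algebra k S] (x : ℕ → S)

lemma q_row0 : row 5 (q4 k) x 0 = x 1 + x 2 + x 3 - x 5 := by
  rw [row, icc5]
  simp [q4]
  ring

lemma q_row1 : row 5 (q4 k) x 1 = x 1 + x 2 - x 4 := by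
  rw [row, icc5]
  simp [q4]
  ring

lemma q_row2 : row 5 (q4 k) x 2 = x 1 - x 3 := by
  rw [row, icc5]
  simp [q4]
  ring

lemma q_row3 : row 5 (q4 k) x 3 = - x 2 - x 5 := by
  rw [row, icc5]
  simp [q4]
  ring

lemma a_row0 : row 5 (a4 k) x 0 = x 4 := by
  rw [row, icc5]
  simp [a4]

lemma a_row1 : row 5 (a4 k) x 1 = x 3 + x 5 := by
  rw [row, icc5]
  simp [a4]

lemma a_row2 : row 5 (a4 k) x 2 = x 2 + x 4 := by
  rw [row, icc5]
  simp [a4]

lemma a_row3 : row 5 (a4 k) x 3 = x 1 + x 3 - x 5 := by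
  rw [row, icc5]
  simp [a4]
  ring

lemma d_row (δ : ℕ → k) (r : ℕ) : row 5 δ x r = algebraMap k S (δ (r + 1)) * x 1 +
      algebraMap k S (δ (r + 2)) * x 2 + algebraMap k S (δ (r + 3)) * x 3 +
      algebraMap k S (δ (r + 4)) * x 4 + algebraMap k S (δ (r + 5)) * x 5 := by
  rw [row, icc5]
  simp only [Algebra.smul_def]

end

section

variable {S : Type*} [CommRing S]

lemma sum1 (L D : ℕ → S) :
    ∑ r ∈ Finset.range 4, D r * ∏ r' ∈ (Finset.range 4).erase r, L r' =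
      D 0 * (L 1 * L 2 * L 3) + D 1 * (L 0 * L 2 * L 3) + D 2 * (L 0 * L 1 * L 3) +
        D 3 * (L 0 * L 1 * L 2) := by
  have e0 : (Finset.range 4).erase 0 = {1, 2, 3} := by decide
  have e1 : (Finset.range 4).erase 1 = {0, 2, 3} := by decide
  have e2 : (Finset.range 4).erase 2 = {0, 1, 3} := by decide
  have e3 : (Finset.range 4).erase 3 = {0, 1, 2} := by decide
  rw [Finset.sum_range_succ, Finset.sum_range_succ, Finset.sum_range_succ, Finset.sum_range_succ,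
    Finset.sum_range_zero, e0, e1, e2, e3, Finset.prod_insert (by decide),
    Finset.prod_pair (by decide), Finset.prod_insert (by decide),
    Finset.prod_pair (by decide), Finset.prod_insert (by decide),
    Finset.prod_pair (by decide), Finset.prod_insert (by decide),
    Finset.prod_pair (by decide)]
  ring

lemma sum2 (L A : ℕ → S) :
    ∑ r ∈ Finset.range 4, ∑ r' ∈ (Finset.range 4).erase r, A r * A r' *
      ∏ r'' ∈ ((Finset.range 4).erase r).erase r', L r'' =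
      2 * (A 0 * A 1 * (L 2 * L 3) + A 0 * A 2 * (L 1 * L 3) + A 0 * A 3 * (L 1 * L 2) +
        A 1 * A 2 * (L 0 * L 3) + A 1 * A 3 * (L 0 * L 2) + A 2 * A 3 * (L 0 * L 1)) := by
  have e0 : (Finset.range 4).erase 0 = {1, 2, 3} := by decide
  have e1 : (Finset.range 4).erase 1 = {0, 2, 3} := by decide
  have e2 : (Finset.range 4).erase 2 = {0, 1, 3} := by decide
  have e3 : (Finset.range 4).erase 3 = {0, 1, 2} := by decide
  have f01 : ({1, 2, 3} : Finset ℕ).erase 1 = {2, 3} := by decide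
  have f02 : ({1, 2, 3} : Finset ℕ).erase 2 = {1, 3} := by decide
  have f03 : ({1, 2, 3} : Finset ℕ).erase 3 = {1, 2} := by decide
  have f10 : ({0, 2, 3} : Finset ℕ).erase 0 = {2, 3} := by decide
  have f12 : ({0, 2, 3} : Finset ℕ).erase 2 = {0, 3} := by decide
  have f13 : ({0, 2, 3} : Finset ℕ).erase 3 = {0, 2} := by decide
  have f20 : ({0, 1, 3} : Finset ℕ).erase 0 = {1, 3} := by decide
  have f21 : ({0, 1, 3} : Finset ℕ).erase 1 = {0, 3} := by decide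
  have f23 : ({0, 1, 3} : Finset ℕ).erase 3 = {0, 1} := by decide
  have f30 : ({0, 1, 2} : Finset ℕ).erase 0 = {1, 2} := by decide
  have f31 : ({0, 1, 2} : Finset ℕ).erase 1 = {0, 2} := by decide
  have f32 : ({0, 1, 2} : Finset ℕ).erase 2 = {0, 1} := by decide
  have s : ∀ (a b c : ℕ), a ≠ b → a ≠ c → b ≠ c → ∀ f : ℕ → S,
      ∑ r ∈ ({a, b, c} : Finset ℕ), f r = f a + (f b + f c) := by
    intro a b c hab hac hbc f
    rw [Finset.sum_insert (by simp [hab, hac]), Finset.sum_pair hbc]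
  rw [Finset.sum_range_succ, Finset.sum_range_succ, Finset.sum_range_succ, Finset.sum_range_succ,
    Finset.sum_range_zero, e0, e1, e2, e3, s 1 2 3 (by decide) (by decide) (by decide),
    s 0 2 3 (by decide) (by decide) (by decide), s 0 1 3 (by decide) (by decide) (by decide),
    s 0 1 2 (by decide) (by decide) (by decide), f01, f02, f03, f10, f12, f13, f20, f21, f23, f30,
    f31, f32, Finset.prod_pair (by decide), Finset.prod_pair (by decide),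
    Finset.prod_pair (by decide), Finset.prod_pair (by decide), Finset.prod_pair (by decide),
    Finset.prod_pair (by decide)]
  ring

variable {x1 x2 x3 x4 x5 : S} (h1 : x1 * x1 = 0) (h2 : x2 * x2 = 0) (h3 : x3 * x3 = 0)
  (h4 : x4 * x4 = 0) (h5 : x5 * x5 = 0)

set_option linter.unusedSectionVars false

include h1 h2 h3 h4 h5

lemma N0 : (x1 + x2 - x4) * (x1 - x3) * (-x2 - x5) = x1 * x2 * x3 + x1 * x3 * x5 - x1 * x2 * x5 +
    x2 * x3 * x5 + x1 * x2 * x4 + x1 * x4 * x5 - x2 * x3 * x4 - x3 * x4 * x5 := by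
  linear_combination (-x2 - x5) * h1 + (-(x1 - x3)) * h2

omit h4 in
lemma N1 : (x1 + x2 + x3 - x5) * (x1 - x3) * (-x2 - x5) = 0 := by
  linear_combination (-x2 - x5) * h1 + (x2 + x5) * h3 - (x1 - x3) * h2 + (x1 - x3) * h5

lemma N2 : (x1 + x2 + x3 - x5) * (x1 + x2 - x4) * (-x2 - x5) = - (x1 * x2 * x3) + x1 * x2 * x4 -
    x1 * x2 * x5 - x1 * x3 * x5 + x1 * x4 * x5 + x2 * x3 * x4 - x2 * x3 * x5 + x3 * x4 * x5 := by
  linear_combination (-x2 - x5) * h1 + (-x2 - 2 * x1 - x3 + x4) * h2 + (x1 + x2 - x4) * h5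

lemma N3 : (x1 + x2 + x3 - x5) * (x1 + x2 - x4) * (x1 - x3) = - (x1 * x2 * x3) - x1 * x2 * x4 -
    x1 * x2 * x5 + x1 * x3 * x5 + x1 * x4 * x5 + x2 * x3 * x4 + x2 * x3 * x5 - x3 * x4 * x5 := by
  linear_combination (x1 + 2 * x2 - x4 - x5) * h1 + (x1 - x3) * h2 + (-x1 - x2 + x4) * h3

set_option maxRecDepth 10000 in
lemma w_zero (d : ℕ → S) :
    (x4 + x2 - x3) * ((d 1 * x1 + d 2 * x2 + d 3 * x3 + d 4 * x4 + d 5 * x5) *
      (x1 * x2 * x3 + x1 * x3 * x5 - x1 * x2 * x5 +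
    x2 * x3 * x5 + x1 * x2 * x4 + x1 * x4 * x5 - x2 * x3 * x4 - x3 * x4 * x5) +
     (d 3 * x1 + d 4 * x2 + d 5 * x3 + d 6 * x4 + d 7 * x5) * (- (x1 * x2 * x3) + x1 * x2 * x4 -
    x1 * x2 * x5 - x1 * x3 * x5 + x1 * x4 * x5 + x2 * x3 * x4 - x2 * x3 * x5 + x3 * x4 * x5) +
     (d 4 * x1 + d 5 * x2 + d 6 * x3 + d 7 * x4 + d 8 * x5) * (- (x1 * x2 * x3) - x1 * x2 * x4 -
    x1 * x2 * x5 + x1 * x3 * x5 + x1 * x4 * x5 + x2 * x3 * x4 + x2 * x3 * x5 - x3 * x4 * x5)) =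
      0 := by
  have a1 : x1 ^ 2 = 0 := by rw [pow_two, h1]
  have a2 : x2 ^ 2 = 0 := by rw [pow_two, h2]
  have a3 : x3 ^ 2 = 0 := by rw [pow_two, h3]
  have a4 : x4 ^ 2 = 0 := by rw [pow_two, h4]
  have a5 : x5 ^ 2 = 0 := by rw [pow_two, h5]
  have b1 : x1 ^ 3 = 0 := by rw [pow_succ, a1, zero_mul]
  have b2 : x2 ^ 3 = 0 := by rw [pow_succ, a2, zero_mul]
  have b3 : x3 ^ 3 = 0 := by rw [pow_succ, a3, zero_mul]
  have b4 : x4 ^ 3 = 0 := by rw [pow_succ, a4, zero_mul]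
  have b5 : x5 ^ 3 = 0 := by rw [pow_succ, a5, zero_mul]
  ring_nf
  simp only [a1, a2, a3, a4, a5, b1, b2, b3, b4, b5, mul_zero, zero_mul, add_zero, zero_add,
    sub_zero, zero_sub, neg_zero]

set_option maxRecDepth 10000 in
lemma obs :
    (x4 + x2 - x3) * (2 * (x4 * (x3 + x5) * ((x1 - x3) * (-x2 - x5)) +
      x4 * (x2 + x4) * ((x1 + x2 - x4) * (-x2 - x5)) +
      x4 * (x1 + x3 - x5) * ((x1 + x2 - x4) * (x1 - x3)) +
      (x3 + x5) * (x2 + x4) * ((x1 + x2 + x3 - x5) * (-x2 - x5)) +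
      (x3 + x5) * (x1 + x3 - x5) * ((x1 + x2 + x3 - x5) * (x1 - x3)) +
      (x2 + x4) * (x1 + x3 - x5) * ((x1 + x2 + x3 - x5) * (x1 + x2 - x4)))) =
        -4 * (x1 * (x2 * (x3 * (x4 * x5)))) := by
  have a1 : x1 ^ 2 = 0 := by rw [pow_two, h1]
  have a2 : x2 ^ 2 = 0 := by rw [pow_two, h2]
  have a3 : x3 ^ 2 = 0 := by rw [pow_two, h3]
  have a4 : x4 ^ 2 = 0 := by rw [pow_two, h4]
  have a5 : x5 ^ 2 = 0 := by rw [pow_two, h5]
  have b1 : x1 ^ 3 = 0 := by rw [pow_succ, a1, zero_mul]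
  have b2 : x2 ^ 3 = 0 := by rw [pow_succ, a2, zero_mul]
  have b3 : x3 ^ 3 = 0 := by rw [pow_succ, a3, zero_mul]
  have b4 : x4 ^ 3 = 0 := by rw [pow_succ, a4, zero_mul]
  have b5 : x5 ^ 3 = 0 := by rw [pow_succ, a5, zero_mul]
  ring_nf
  simp only [a1, a2, a3, a4, a5, b1, b2, b3, b4, b5, mul_zero, zero_mul, add_zero, zero_add,
    sub_zero, zero_sub, neg_zero]
  have c1 : x1 ^ 4 = 0 := by rw [pow_succ, b1, zero_mul]
  have c2 : x2 ^ 4 = 0 := by rw [pow_succ, b2, zero_mul]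
  have c3 : x3 ^ 4 = 0 := by rw [pow_succ, b3, zero_mul]
  have c4 : x4 ^ 4 = 0 := by rw [pow_succ, b4, zero_mul]
  have c5 : x5 ^ 4 = 0 := by rw [pow_succ, b5, zero_mul]
  have d1 : x1 ^ 5 = 0 := by rw [pow_succ, c1, zero_mul]
  have d2 : x2 ^ 5 = 0 := by rw [pow_succ, c2, zero_mul]
  have d3 : x3 ^ 5 = 0 := by rw [pow_succ, c3, zero_mul]
  have d4 : x4 ^ 5 = 0 := by rw [pow_succ, c4, zero_mul]
  have d5 : x5 ^ 5 = 0 := by rw [pow_succ, c5, zero_mul]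
  simp only [c1, c2, c3, c4, c5, d1, d2, d3, d4, d5, mul_zero, zero_mul, add_zero, zero_add,
    sub_zero, zero_sub, neg_zero]

set_option maxRecDepth 10000 in
lemma rels (d : ℕ → S) (h : (d 1 * x1 + d 2 * x2 + d 3 * x3 + d 4 * x4 + d 5 * x5) *
      (x1 * x2 * x3 + x1 * x3 * x5 - x1 * x2 * x5 +
    x2 * x3 * x5 + x1 * x2 * x4 + x1 * x4 * x5 - x2 * x3 * x4 - x3 * x4 * x5) +
     (d 3 * x1 + d 4 * x2 + d 5 * x3 + d 6 * x4 + d 7 * x5) * (- (x1 * x2 * x3) + x1 * x2 * x4 -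
    x1 * x2 * x5 - x1 * x3 * x5 + x1 * x4 * x5 + x2 * x3 * x4 - x2 * x3 * x5 + x3 * x4 * x5) +
     (d 4 * x1 + d 5 * x2 + d 6 * x3 + d 7 * x4 + d 8 * x5) * (- (x1 * x2 * x3) - x1 * x2 * x4 -
    x1 * x2 * x5 + x1 * x3 * x5 + x1 * x4 * x5 + x2 * x3 * x4 + x2 * x3 * x5 - x3 * x4 * x5) =
      0) :
    (-d 1 + 2 * d 3 + 2 * d 4 + d 5 - 2 * d 6 - d 7) * (x1 * (x2 * (x3 * (x4 * x5)))) = 0 ∧
    (-d 1 + 2 * d 3 + d 5 + d 7) * (x1 * (x2 * (x3 * (x4 * x5)))) = 0 ∧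
    (d 2 + 2 * d 5 - d 6 - d 8) * (x1 * (x2 * (x3 * (x4 * x5)))) = 0 ∧
    (-d 2 + 2 * d 4 - 2 * d 5 - d 6 + 2 * d 7 + d 8) * (x1 * (x2 * (x3 * (x4 * x5)))) = 0 := by
  have a1 : x1 ^ 2 = 0 := by rw [pow_two, h1]
  have a2 : x2 ^ 2 = 0 := by rw [pow_two, h2]
  have a3 : x3 ^ 2 = 0 := by rw [pow_two, h3]
  have a4 : x4 ^ 2 = 0 := by rw [pow_two, h4]
  have a5 : x5 ^ 2 = 0 := by rw [pow_two, h5]
  have b1 : x1 ^ 3 = 0 := by rw [pow_succ, a1, zero_mul]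
  have b2 : x2 ^ 3 = 0 := by rw [pow_succ, a2, zero_mul]
  have b3 : x3 ^ 3 = 0 := by rw [pow_succ, a3, zero_mul]
  have b4 : x4 ^ 3 = 0 := by rw [pow_succ, a4, zero_mul]
  have b5 : x5 ^ 3 = 0 := by rw [pow_succ, a5, zero_mul]
  refine ⟨?_, ?_, ?_, ?_⟩
  · have h' := congrArg (fun y => x5 * y) h
    ring_nf at h'
    simp only [a1, a2, a3, a4, a5, b1, b2, b3, b4, b5, mul_zero, zero_mul, add_zero, zero_add,
      sub_zero, zero_sub, neg_zero] at h'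
    linear_combination h'
  · have h' := congrArg (fun y => x2 * y) h
    ring_nf at h'
    simp only [a1, a2, a3, a4, a5, b1, b2, b3, b4, b5, mul_zero, zero_mul, add_zero, zero_add,
      sub_zero, zero_sub, neg_zero] at h'
    linear_combination h'
  · have h' := congrArg (fun y => x3 * y) h
    ring_nf at h'
    simp only [a1, a2, a3, a4, a5, b1, b2, b3, b4, b5, mul_zero, zero_mul, add_zero, zero_add,
      sub_zero, zero_sub, neg_zero] at h'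
    linear_combination h'
  · have h' := congrArg (fun y => x1 * y) h
    ring_nf at h'
    simp only [a1, a2, a3, a4, a5, b1, b2, b3, b4, b5, mul_zero, zero_mul, add_zero, zero_add,
      sub_zero, zero_sub, neg_zero] at h'
    linear_combination h'

end

variable {k : Type u} [Field k]

lemma van_q : Van 4 4 5 (q4 k) := by
  obtain ⟨hsq, -⟩ := alg3 k
  apply alg2 k
  intro T hT hc
  have hT' : T = Finset.range 4 := Finset.eq_of_subset_of_card_le hT (by rw [hc]; simp)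
  have hT2 : Finset.range 4 = {0, 2, 3, 1} := by decide
  rw [hT', hT2, Finset.prod_insert (by decide), Finset.prod_insert (by decide),
    Finset.prod_pair (by decide), q_row0, q_row1, q_row2, q_row3]
  have := N1 (hsq 1) (hsq 2) (hsq 3) (hsq 5)
  linear_combination (sqx k 1 + sqx k 2 - sqx k 4) * this

lemma tan_a : Tan 4 4 5 (q4 k) (a4 k) := by
  obtain ⟨hsq, -⟩ := alg3 k
  refine tan2 k 4 4 5 (q4 k) (a4 k) van_q fun T hT hc => ?_
  have hT' : T = Finset.range 4 := Finset.eq_of_subset_of_card_le hT (by rw [hc]; simp)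
  subst hT'
  rw [sum1, q_row0, q_row1, q_row2, q_row3, a_row0, a_row1, a_row2, a_row3,
    N1 (hsq 1) (hsq 2) (hsq 3) (hsq 5), N0 (hsq 1) (hsq 2) (hsq 3) (hsq 4) (hsq 5),
    N2 (hsq 1) (hsq 2) (hsq 3) (hsq 4) (hsq 5), N3 (hsq 1) (hsq 2) (hsq 3) (hsq 4) (hsq 5)]
  have a1 : sqx k 1 ^ 2 = 0 := by rw [pow_two, hsq]
  have a2 : sqx k 2 ^ 2 = 0 := by rw [pow_two, hsq]
  have a3 : sqx k 3 ^ 2 = 0 := by rw [pow_two, hsq]
  have a4 : sqx k 4 ^ 2 = 0 := by rw [pow_two, hsq]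
  have a5 : sqx k 5 ^ 2 = 0 := by rw [pow_two, hsq]
  ring_nf
  simp only [a1, a2, a3, a4, a5, mul_zero, zero_mul, add_zero, zero_add, sub_zero, zero_sub,
    neg_zero]

lemma no_w (h2 : (2 : k) ≠ 0) (w : ℕ → k) : ¬ Van 4 4 5 (pt2 (q4 k) (a4 k) (a4 k) w) := by
  intro hv
  obtain ⟨hsq, hind⟩ := alg3 k
  have h1 := tan3 k (Sq k) 4 4 5 (q4 k) (a4 k) (a4 k) w hv (sqx k) hsq (Finset.range 4)
    (by simp) (by simp)
  rw [sum1, sum2, q_row0, q_row1, q_row2, q_row3, a_row0, a_row1, a_row2, a_row3,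
    N1 (hsq 1) (hsq 2) (hsq 3) (hsq 5), N0 (hsq 1) (hsq 2) (hsq 3) (hsq 4) (hsq 5),
    N2 (hsq 1) (hsq 2) (hsq 3) (hsq 4) (hsq 5), N3 (hsq 1) (hsq 2) (hsq 3) (hsq 4) (hsq 5),
    d_row, d_row, d_row, d_row] at h1
  have w0 := w_zero (hsq 1) (hsq 2) (hsq 3) (hsq 4) (hsq 5) fun j => algebraMap k (Sq k) (w j)
  have ob := obs (hsq 1) (hsq 2) (hsq 3) (hsq 4) (hsq 5)
  norm_num at h1 w0
  have h3 : algebraMap k (Sq k) (-4) * ∏ c ∈ ({1, 2, 3, 4, 5} : Finset ℕ), sqx k c = 0 := by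
    rw [Finset.prod_insert (by decide), Finset.prod_insert (by decide),
      Finset.prod_insert (by decide), Finset.prod_pair (by decide), map_neg, map_ofNat]
    linear_combination (sqx k 4 + sqx k 2 - sqx k 3) * h1 - w0 - ob
  have h4 := hind _ _ h3
  have h5 : (2 : k) ^ 2 = 0 := by
    rw [← neg_eq_zero, ← h4]
    norm_num
  exact h2 (pow_eq_zero_iff (by norm_num) |>.1 h5)

lemma tan_rel (h2 : (2 : k) ≠ 0) (δ : ℕ → k) (h : Tan 4 4 5 (q4 k) δ) :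
    δ 7 = 0 ∧ δ 4 = δ 6 ∧ δ 1 = 2 * δ 3 + δ 5 ∧ δ 8 = δ 2 + 2 * δ 5 - δ 6 := by
  obtain ⟨hsq, hind⟩ := alg3 k
  have h1 := tan1 k (Sq k) 4 4 5 (q4 k) δ h (sqx k) hsq (Finset.range 4) (by simp) (by simp)
  rw [sum1, q_row0, q_row1, q_row2, q_row3,
    N1 (hsq 1) (hsq 2) (hsq 3) (hsq 5), N0 (hsq 1) (hsq 2) (hsq 3) (hsq 4) (hsq 5),
    N2 (hsq 1) (hsq 2) (hsq 3) (hsq 4) (hsq 5), N3 (hsq 1) (hsq 2) (hsq 3) (hsq 4) (hsq 5),
    d_row, d_row, d_row, d_row] at h1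
  have r := rels (hsq 1) (hsq 2) (hsq 3) (hsq 4) (hsq 5) (fun j => algebraMap k (Sq k) (δ j))
    (by norm_num at h1 ⊢; linear_combination h1)
  obtain ⟨r1, r2, r3, r4⟩ := r
  have hp : ∏ c ∈ ({1, 2, 3, 4, 5} : Finset ℕ), sqx k c =
      sqx k 1 * (sqx k 2 * (sqx k 3 * (sqx k 4 * sqx k 5))) := by
    rw [Finset.prod_insert (by decide), Finset.prod_insert (by decide),
      Finset.prod_insert (by decide), Finset.prod_pair (by decide)]
  have s1 := hind (-δ 1 + 2 * δ 3 + 2 * δ 4 + δ 5 - 2 * δ 6 - δ 7) {1, 2, 3, 4, 5} (by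
    rw [hp, ← r1]; simp [map_ofNat])
  have s2 := hind (-δ 1 + 2 * δ 3 + δ 5 + δ 7) {1, 2, 3, 4, 5} (by
    rw [hp, ← r2]; simp [map_ofNat])
  have s3 := hind (δ 2 + 2 * δ 5 - δ 6 - δ 8) {1, 2, 3, 4, 5} (by
    rw [hp, ← r3]; simp [map_ofNat])
  have s4 := hind (-δ 2 + 2 * δ 4 - 2 * δ 5 - δ 6 + 2 * δ 7 + δ 8) {1, 2, 3, 4, 5} (by
    rw [hp, ← r4]; simp [map_ofNat])
  have t1 : δ 4 - δ 6 - δ 7 = 0 := by
    apply mul_left_cancel₀ h2
    linear_combination s1 - s2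
  have t2 : δ 4 - δ 6 + δ 7 = 0 := by
    apply mul_left_cancel₀ h2
    linear_combination s4 + s3
  have t3 : δ 7 = 0 := by
    apply mul_left_cancel₀ h2
    linear_combination t2 - t1
  refine ⟨t3, by linear_combination t1 + t3, by linear_combination -s2 + t3,
    by linear_combination -s3⟩

end Pool.Agent.Helper86K9.HK.F4

namespace Pool.Agent.Helper86K9.HK

universe u

open F4 in
theorem four (k : Type u) [Field k] (h2 : (2 : k) ≠ 0) : ¬ (hankelIdeal k 4 4 5).IsPrime := by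
  refine crit2 k 4 4 5 (by norm_num) (by norm_num) (by norm_num) (q4 k) van_q {2, 3, 5, 6}
    (by decide) ?_ (a4 k) (a4 k) tan_a tan_a (no_w h2)
  intro δ hδ hB
  obtain ⟨r7, r4, r1, r8⟩ := tan_rel h2 δ hδ
  have b2 := hB 2 (by decide)
  have b3 := hB 3 (by decide)
  have b5 := hB 5 (by decide)
  have b6 := hB 6 (by decide)
  rw [b6] at r4
  rw [b3, b5, mul_zero, add_zero] at r1
  rw [b2, b5, b6, mul_zero, add_zero, sub_zero] at r8
  intro j hj1 hj2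
  have : j ≤ 8 := hj2
  interval_cases j <;> assumption

end Pool.Agent.Helper86K9.HK
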