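import Pool.Agent.Helper86K9.HK.Low

/-!
The relations of the second kind.
-/

set_option autoImplicit false

namespace Pool.Agent.Helper86K9.HK

open Finset

universe u

section

variable {k : Type u} [Field k] {p x y A e : ℕ}

theorem drel_high (hT : S_TAN1.{u}) (h3 : S_ALG3.{u}) (h2 : (2 : k) ≠ 0) (P : Par p x y A e)
    (δ : ℕ → k)
    (hδ : Tan (p * x + y + 1) (p * x + y + 1) (p * x + y + e) (pt p x y A) δ) (D r : ℕ)
    (hD : D ≤ e) (hDA : A < D) (hr : InR p x y r) :
    ∑ i ∈ range p, δ (D + r + i * x) - δ (D + r + p * x) + δ (D + r + (p * x + y)) = 0 := by
  classical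
  have hx := P.hx
  have hA := P.hA
  have hAy := P.hAy
  have hy : 1 ≤ y := le_trans hA hAy
  have hAe := P.hAe
  have hAx := P.hAx
  have hx' := P.hx'
  have hey := P.hy
  set C : Finset ℕ := insert (D + (p * x + y)) (Icc A (A + (p * x + y))) with hCdef
  have memC : ∀ c, c ∈ C ↔ c = D + (p * x + y) ∨ (A ≤ c ∧ c ≤ A + (p * x + y)) := by
    intro c
    rw [hCdef, mem_insert, mem_Icc]
  set xx := xc k C with hxx
  have hsq : ∀ c, xx c * xx c = 0 := xc_sq h3 C
  have iso := isolate (k := k) xx hT h2 P hsq δ hδ r hr
  have px : ∀ i, i ≤ p → i * x ≤ p * x := fun i hi => Nat.mul_le_mul_right x hi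
  have px' : ∀ i, i < p → i * x + x ≤ p * x := by
    intro i hi
    have := Nat.mul_le_mul_right x (Nat.succ_le_of_lt hi)
    rwa [Nat.succ_mul] at this
  have hChC : chn p x y D ⊆ C := by
    intro c hc
    rw [memC]
    rcases mem_chn.1 hc with rfl | ⟨i, hi, rfl⟩
    · left
      rfl
    · right
      have h5 := px i hi
      generalize p * x = X at *
      generalize i * x = I at *
      omega
  -- the special factors
  set P1 : Sq k := ∏ i ∈ range p, row (p * x + y + e) (pt p x y A : ℕ → k) xx
    (i * x + (A + x - D)) with hP1
  set Q1 : Sq k := row (p * x + y + e) (pt p x y A : ℕ → k) xx (p * x + (A + y - D)) with hQ1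
  have third : ∀ i j, i < p → 1 ≤ j → j < x → (i + 1 < p ∨ j ≠ A + x - D) →
      bz (p * x + y + e) xx (A + p * x + (p * x + y) - i * x - j) = 0 := by
    intro i j hi hj1 hj h
    rcases Nat.lt_or_ge (i + 1) p with hip | hip
    · exact bz_third P xx hip hj
    · obtain rfl : p = i + 1 := by omega
      have h8 := hx' (by omega)
      apply bz_xc_zero
      intro c hc
      rw [memC] at hc
      have e1 : ((i * x : ℕ) : ℤ) = i * x := by push_cast; ring
      have e2 : (((i + 1 : ℕ) * x : ℕ) : ℤ) = (i + 1 : ℕ) * x := by push_cast; ring
      rw [← e1, ← e2]
      rw [Nat.succ_mul] at hc ⊢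
      generalize i * x = I at *
      omega
  have hvp : ∀ j : ℕ, 1 ≤ j → bz (p * x + y + e) xx (A - (j : ℤ)) = 0 := by
    intro j hj
    apply bz_xc_zero
    intro c hc
    rw [memC] at hc
    generalize p * x = X at *
    omega
  have hrow : ∀ i j, i < p → 1 ≤ j → j < x → (i + 1 < p ∨ j ≠ A + x - D) →
      row (p * x + y + e) (pt p x y A : ℕ → k) xx (i * x + j) =
      bz (p * x + y + e) xx (A + p * x - i * x - j) +
      bz (p * x + y + e) xx (A + p * x - (i + 1 : ℕ) * x - j) := by
    intro i j hi hj1 hj h
    rw [row_first P xx hi hj, third i j hi hj1 hj h, add_zero]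
  have Z := zed P xx (fun c => if c ∈ chn p x y D then 1 else xx c)
    (fun j => if j = A + x - D then P1 else 1) (fun j => if j = A + y - D then Q1 else 1)
    (by
      intro i hi
      have h5 := px i hi
      rw [if_neg]
      · unfold uu
        rw [bz_eq (c := A + p * x - i * x)]
        · rw [Nat.cast_sub (by omega)]
          push_cast
          ring
        · omega
        · omega
      · rw [mem_chn]
        rintro (h | ⟨i', hi', h⟩)
        · omega
        · have h6 : D + (i' + i) * x = A + p * x := by
            rw [Nat.add_mul]
            omega
          rcases Nat.eq_zero_or_pos p with hp | hp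
          · subst hp
            simp only [Nat.le_zero] at hi hi'
            subst hi
            subst hi'
            omega
          · have := no_coll h6 (by have := hx' hp; omega) (by omega)
            omega) (by
      rw [if_neg]
      · unfold ww
        rw [bz_eq (c := A + (p * x + y))]
        · push_cast
          ring
        · omega
        · omega
      · rw [mem_chn]
        rintro (h | ⟨i', hi', h⟩)
        · omega
        · have h5 := px i' hi'
          omega) (by
      intro j hj hjx
      by_cases hjD : j = A + x - D
      · rw [if_pos hjD, hP1, ← hjD]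
        conv_lhs => rw [← one_mul (∏ i ∈ range p, _)]
        congr 1
        symm
        refine prod_eq_one fun i hi => if_pos ?_
        rw [mem_chn]
        right
        rw [mem_range] at hi
        have h8 := hx' (by omega)
        refine ⟨p - 1 - i, by omega, ?_⟩
        rw [Nat.sub_mul, Nat.sub_mul, one_mul]
        have := px' i hi
        omega
      · rw [if_neg hjD, mul_one,
          prod_congr rfl fun i hi => hrow i j (mem_range.1 hi) hj hjx (Or.inr hjD)]
        rw [path0 (fun i => bz (p * x + y + e) xx (A + p * x - (i : ℕ) * x - j))
          (fun i => bz_sq _ _ hsq _)]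
        · refine prod_congr rfl fun i hi => ?_
          rw [mem_range] at hi
          have h6 := px' i hi
          rw [if_neg]
          · rw [bz_eq (c := A + p * x - (i * x + j))]
            · rw [Nat.cast_sub (by omega)]
              push_cast
              ring
            · omega
            · omega
          · rw [mem_chn]
            rintro (h | ⟨i', hi', h⟩)
            · omega
            · have h7 : D + j + (i' + i) * x = A + p * x := by
                rw [Nat.add_mul]
                omega
              have h8 := hx' (by omega)
              have h9 : D + j + (i' + i) * x = A + x + (p - 1) * x := by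
                rw [h7, Nat.sub_mul]
                omega
              have := no_coll h9 (by omega) (by omega)
              omega
        · rw [← hvp j hj]
          congr 1
          ring) (by
      intro j hj hjy
      by_cases hjD : j = A + y - D
      · rw [if_pos hjD, if_pos, one_mul, hQ1, hjD]
        rw [mem_chn]
        right
        exact ⟨p, le_rfl, by omega⟩
      · rw [if_neg hjD, mul_one, if_neg]
        · rw [row_second P xx hj]
          rw [hvp j hj, bz_xc_zero (z := (A : ℤ) + (p * x + y) + y - j),
            bz_eq (c := A + (p * x + y) - j)]
          · simp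
          · rw [Nat.cast_sub (by omega)]
            push_cast
            ring
          · omega
          · omega
          · intro c hc
            rw [memC] at hc
            have e2 : ((p * x : ℕ) : ℤ) = p * x := by push_cast; ring
            rw [← e2]
            omega
        · rw [mem_chn]
          rintro (h | ⟨i', hi', h⟩)
          · omega
          · rcases Nat.lt_or_ge i' p with hip | hip
            · have h5 := px' i' hip
              have h8 := hx' (by omega)
              omega
            · obtain rfl : i' = p := by omega
              omega)
  -- the value of the special factors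
  set v : ℕ → Sq k := fun i => if i < p then
    bz (p * x + y + e) xx (A + p * x - (i : ℕ) * x - (A + x - D : ℕ))
    else xx (D + (p * x + y)) with hv
  have vsq : ∀ i, v i * v i = 0 := by
    intro i
    rw [hv]
    dsimp only
    split_ifs
    · exact bz_sq _ _ hsq _
    · exact hsq _
  have hvp' : v p = xx (D + (p * x + y)) := by
    rw [hv]
    dsimp only
    rw [if_neg (lt_irrefl p)]
  have hvi : ∀ i, i < p → v i = xx (D + (p - 1 - i) * x) := by
    intro i hi
    have h5 := px' i hi
    have h8 := hx' (by omega)
    rw [Nat.sub_mul, Nat.sub_mul, one_mul]
    rw [hv]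
    dsimp only
    rw [if_pos hi]
    apply bz_eq
    · rw [Nat.cast_add, Nat.cast_sub (by omega), Nat.cast_sub (by omega), Nat.cast_sub (by omega)]
      push_cast
      ring
    · omega
    · omega
  have hprodv : ∏ i ∈ range p, xx (D + i * x) = ∏ i ∈ range p, v i := by
    rw [← prod_range_reflect]
    refine prod_congr rfl fun i hi => ?_
    rw [mem_range] at hi
    rw [hvi i hi]
  have hP1' : p = 0 ∨ (1 ≤ A + x - D ∧ A + x - D < x) := by
    rcases Nat.eq_zero_or_pos p with h | h
    · exact Or.inl h
    · have := hx' h
      right
      omega
  have hP : ∏ j ∈ Ico 1 x, (if j = A + x - D then P1 else 1) = P1 := by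
    rw [prod_ite_eq']
    rcases hP1' with h | h
    · split_ifs
      · rfl
      · rw [hP1, h]
        simp
    · rw [if_pos]
      rw [mem_Ico]
      omega
  have hQ : ∏ j ∈ Ico 1 y, (if j = A + y - D then Q1 else 1) = Q1 := by
    rw [prod_ite_eq', if_pos]
    rw [mem_Ico]
    omega
  rw [hP, hQ] at Z
  rw [Z] at iso
  have hP1v : P1 = ∏ i ∈ range p, (v i + v (i + 1)) := by
    rcases hP1' with h | h
    · rw [hP1, h]
      simp
    · rw [hP1]
      refine prod_congr rfl fun i hi => ?_
      rw [mem_range] at hi
      have h8 := hx' (by omega)
      have hvi' : v i = bz (p * x + y + e) xx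
          (A + p * x - (i : ℕ) * x - (A + x - D : ℕ)) := by
        rw [hv]
        dsimp only
        rw [if_pos hi]
      rcases Nat.lt_or_ge (i + 1) p with hip | hip
      · rw [hrow i _ hi h.1 h.2 (Or.inl hip), hvi']
        congr 1
        rw [hv]
        dsimp only
        rw [if_pos hip]
      · have hip' : i + 1 = p := by omega
        rw [row_first P xx hi h.2, hvi', hip', hvp', add_assoc]
        congr 1
        have e3 : bz (p * x + y + e) xx (A + p * x - (p : ℕ) * x - (A + x - D : ℕ)) = 0 := by
          rw [← hvp (A + x - D) h.1]
          congr 1
          ring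
        rw [e3, zero_add]
        apply bz_eq
        · rw [Nat.cast_sub (by omega)]
          have : ((i : ℤ) + 1) = p := by exact_mod_cast hip'
          rw [← this]
          push_cast
          rw [← this]
          ring
        · omega
        · omega
  have hQ1v : Q1 = xx (D + p * x) - v p := by
    rw [hQ1, row_second P xx (by omega), hvp _ (by omega), zero_add, hvp']
    congr 1
    · apply bz_eq
      · rw [Nat.cast_sub (by omega)]
        push_cast
        ring
      · omega
      · omega
    · apply bz_eq
      · rw [Nat.cast_sub (by omega)]
        push_cast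
        ring
      · omega
      · omega
  have fin := finish (k := k) h3 (n := p * x + y + e) (C := C) (Ch := chn p x y D)
    (I := Icc A (A + (p * x + y))) (F := chn p x y D) (by
      intro c hc
      rw [memC] at hc
      rw [mem_Icc]
      omega) hChC (by
      ext c
      rw [mem_sdiff, mem_sdiff, memC, mem_Icc]
      have : D + (p * x + y) ∈ chn p x y D := mem_chn.2 (Or.inl rfl)
      constructor
      · rintro ⟨h4, h5⟩
        exact ⟨Or.inr h4, h5⟩
      · rintro ⟨h4 | h4, h5⟩
        · subst h4
          exact absurd this h5
        · exact ⟨h4, h5⟩) (fun c => if c = D + p * x then -1 else 1) (P1 * Q1) (by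
      intro c hc
      rw [prod_chn hx hy, ← hxx, prod_range_succ, hprodv, hP1v, hQ1v, ← hvp']
      have hp := path v vsq p p le_rfl
      have hw := hsq (D + p * x)
      have hpp := vsq p
      rw [prod_range_succ] at hp
      rcases mem_chn.1 hc with rfl | ⟨i, hi, rfl⟩
      · rw [if_neg (by omega), map_one, one_mul, ← hvp']
        linear_combination xx (D + p * x) * hp - (∏ i ∈ range p, (v i + v (i + 1))) * hpp
      · rcases Nat.lt_or_ge i p with hip | hip
        · have h9 := px' i hip
          rw [if_neg (by omega), map_one, one_mul]
          have h4 := path v vsq p (p - 1 - i) (by omega)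
          rw [hvi (p - 1 - i) (by omega), show p - 1 - (p - 1 - i) = i by omega,
            prod_range_succ] at h4
          linear_combination (xx (D + p * x) - v p) * h4 - (∏ i ∈ range p, v i) * hpp
        · obtain rfl : i = p := by omega
          rw [if_pos rfl, map_neg, map_one]
          linear_combination (∏ j ∈ range i, (v j + v (j + 1))) * hw -
            xx (D + i * x) * hp) δ r iso
  rw [sum_chn hx hy, sum_range_succ, if_neg (by omega), if_pos rfl] at fin
  have e4 : ∑ i ∈ range p, δ (r + (D + i * x)) * (if D + i * x = D + p * x then (-1 : k) else 1) =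
      ∑ i ∈ range p, δ (D + r + i * x) := by
    refine sum_congr rfl fun i hi => ?_
    have h9 := px' i (mem_range.1 hi)
    rw [if_neg (by omega), mul_one]
    congr 1
    omega
  rw [e4] at fin
  rw [show D + r + p * x = r + (D + p * x) by omega,
    show D + r + (p * x + y) = r + (D + (p * x + y)) by omega]
  linear_combination fin

end

end Pool.Agent.Helper86K9.HK
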