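import Pool.Agent.Helper86K9.HK.Defs

/-!
# Hankel permanental ideals: statements of the leaves
-/

set_option autoImplicit false

namespace Pool.Agent.Helper86K9.HK

open Matrix

universe u

/-! ## [ALG] products of rows in algebras with square zero elements -/

/-- Products of `t` rows vanish in every algebra, for every choice of square zero elements. -/
def S_ALG1 : Prop :=
  ∀ (A S : Type u) [CommRing A] [CommRing S] [Algebra A S] (t m n : ℕ) (z : ℕ → A),
    Van t m n z → ∀ x : ℕ → S, (∀ c, x c * x c = 0) → ∀ T : Finset ℕ, T ⊆ Finset.range m →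
      T.card = t → ∏ r ∈ T, row n z x r = 0

/-- Converse of `S_ALG1`: it suffices to look at the universal algebra `Sq A`. -/
def S_ALG2 : Prop :=
  ∀ (A : Type u) [CommRing A] (t m n : ℕ) (z : ℕ → A),
    (∀ T : Finset ℕ, T ⊆ Finset.range m → T.card = t → ∏ r ∈ T, row n z (sqx A) r = 0) →
      Van t m n z

/-- `sqx A c` has square zero and square free monomials are linearly independent. -/
def S_ALG3 : Prop :=
  ∀ (A : Type u) [CommRing A], (∀ c, sqx A c * sqx A c = 0) ∧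
    ∀ (a : A) (C : Finset ℕ), algebraMap A (Sq A) a * ∏ c ∈ C, sqx A c = 0 → a = 0

/-- First order: what a tangent vector satisfies. -/
def S_TAN1 : Prop :=
  ∀ (k S : Type u) [CommRing k] [CommRing S] [Algebra k S] (t m n : ℕ) (q δ : ℕ → k),
    Tan t m n q δ → ∀ x : ℕ → S, (∀ c, x c * x c = 0) → ∀ T : Finset ℕ, T ⊆ Finset.range m →
      T.card = t → ∑ r ∈ T, row n δ x r * ∏ r' ∈ T.erase r, row n q x r' = 0

/-- First order, converse. -/
def S_TAN2 : Prop :=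
  ∀ (k : Type u) [CommRing k] (t m n : ℕ) (q δ : ℕ → k), Van t m n q →
    (∀ T : Finset ℕ, T ⊆ Finset.range m → T.card = t →
      ∑ r ∈ T, row n δ (sqx k) r * ∏ r' ∈ T.erase r, row n q (sqx k) r' = 0) → Tan t m n q δ

/-- Second order. -/
def S_TAN3 : Prop :=
  ∀ (k S : Type u) [CommRing k] [CommRing S] [Algebra k S] (t m n : ℕ) (q a b w : ℕ → k),
    Van t m n (pt2 q a b w) → ∀ x : ℕ → S, (∀ c, x c * x c = 0) → ∀ T : Finset ℕ,
      T ⊆ Finset.range m → T.card = t →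
        ∑ r ∈ T, row n w x r * ∏ r' ∈ T.erase r, row n q x r' +
          ∑ r ∈ T, ∑ r' ∈ T.erase r, row n a x r * row n b x r' *
            ∏ r'' ∈ (T.erase r).erase r', row n q x r'' = 0

/-- A tangent vector restricts to a tangent vector of a block of consecutive rows. -/
def S_SHIFT : Prop :=
  ∀ (k : Type u) [CommRing k] (t m m' n i : ℕ) (q δ : ℕ → k), i + m' ≤ m → Tan t m n q δ →
    Tan t m' n (fun j => q (i + j)) (fun j => δ (i + j))

/-! ## [CRIT] criteria for non-primality -/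

/-- First order criterion: a point of tangent dimension `≤ t - 1`. -/
def S_CRIT1 : Prop :=
  ∀ (k : Type u) [Field k] (t m n : ℕ), 2 ≤ t → t ≤ m → t ≤ n → ∀ (q : ℕ → k), Van t m n q →
    ∀ B : Finset ℕ, B.card < t →
      (∀ δ : ℕ → k, Tan t m n q δ → (∀ j ∈ B, δ j = 0) →
        ∀ j, 1 ≤ j → j ≤ m + n - 1 → δ j = 0) → ¬ (hankelIdeal k t m n).IsPrime

/-- Second order criterion: a point of tangent dimension `≤ t`, and two tangent vectors which
cannot be combined to a point over `k[ε, η]/(ε², η²)`. -/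
def S_CRIT2 : Prop :=
  ∀ (k : Type u) [Field k] (t m n : ℕ), 2 ≤ t → t ≤ m → t ≤ n → ∀ (q : ℕ → k), Van t m n q →
    ∀ B : Finset ℕ, B.card ≤ t →
      (∀ δ : ℕ → k, Tan t m n q δ → (∀ j ∈ B, δ j = 0) →
        ∀ j, 1 ≤ j → j ≤ m + n - 1 → δ j = 0) →
      ∀ a b : ℕ → k, Tan t m n q a → Tan t m n q b → (∀ w, ¬ Van t m n (pt2 q a b w)) →
        ¬ (hankelIdeal k t m n).IsPrime

/-! ## The point with four (or three) non-zero coordinates

`X = p x + y`, `t = X + 1`, the point is `1` at `A + (p-1) x` (only for `p ≥ 1`), `A + p x`,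
`A + p x + X`, it is `-1` at `A + p x + X + y`, and `0` elsewhere. -/

/-- The point. -/
def pt {k : Type*} [CommRing k] (p x y A : ℕ) (j : ℕ) : k :=
  if (1 ≤ p ∧ j + x = A + p * x) ∨ j = A + p * x ∨ j = A + p * x + (p * x + y) then 1
  else if j = A + p * x + (p * x + y) + y then -1 else 0

/-- The set `R = {0, x, …, p x, X}`. -/
def InR (p x y r : ℕ) : Prop := (∃ i ≤ p, r = i * x) ∨ r = p * x + y

/-- The conditions on the parameters, for `e`. -/
structure Par (p x y A e : ℕ) : Prop where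
  hx : 1 ≤ x
  hA : 1 ≤ A
  hAe : A ≤ e
  hAy : A ≤ y
  hy : e < A + y
  hAx : 1 ≤ p → A ≤ x
  hx' : 1 ≤ p → e < A + x

/-- Membership for `m = X + μ`, `n = X + ν`, `e' = μ + ν - 1`. -/
def S_MEM : Prop :=
  ∀ (k : Type u) [Field k] (p x y A μ ν : ℕ), 1 ≤ μ → 1 ≤ ν → μ ≤ A → A ≤ ν →
    Par p x y A (μ + ν - 1) →
      Van (p * x + y + 1) (p * x + y + μ) (p * x + y + ν) (pt p x y A : ℕ → k)

/-- The relations for tangent vectors, `m = t = X + 1`, `n = X + e`. -/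
def S_DREL : Prop :=
  ∀ (k : Type u) [Field k], (2 : k) ≠ 0 → ∀ (p x y A e : ℕ), Par p x y A e → ∀ δ : ℕ → k,
    Tan (p * x + y + 1) (p * x + y + 1) (p * x + y + e) (pt p x y A) δ →
      (∀ D r, 1 ≤ D → D < A → InR p x y r →
        ∑ i ∈ Finset.range (p + 1), δ (D + r + i * x) + δ (D + r + (p * x + y)) = 0) ∧
      (∀ D r, A < D → D ≤ e → InR p x y r →
        ∑ i ∈ Finset.range p, δ (D + r + i * x) - δ (D + r + p * x) +
          δ (D + r + (p * x + y)) = 0) ∧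
      (∀ D r, 1 ≤ p → 1 ≤ D → D < A → D + x ≤ e → InR p x y r →
        ∑ i ∈ Finset.range p, δ (D + r + (i + 1) * x) = 0) ∧
      (∀ D r, 1 ≤ p → y = x → 1 ≤ D → D < A → D + x ≤ e → InR p x y r →
        δ (D + r + (p * x + y)) = 0) ∧
      ((∀ r c, InR p x y r → InR p x y c → ¬ (r = p * x + y ∧ c = p * x + y) →
        δ (A + r + c) = 0) → δ (A + (p * x + y) + (p * x + y)) = 0)

/-- The additional relations for `m = t + 1`, `n = X + ν`; here the two blocks are the rows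
`r` and `r + 1`, `r ∈ R`. -/
def S_VREL : Prop :=
  ∀ (k : Type u) [Field k], (2 : k) ≠ 0 → ∀ (p x y A ν : ℕ), 2 ≤ A → A ≤ ν →
    Par p x y A (ν + 1) → ∀ δ : ℕ → k,
    Tan (p * x + y + 1) (p * x + y + 2) (p * x + y + ν) (pt p x y A) δ →
      ∀ r c, InR p x y r → InR p x y c → δ (A + 1 + r + c) = 0 ∧ δ (A - 1 + r + c) = 0

/-- [FIN1] The case `m = t`, `n = t - 1 + e`, `3 ≤ e`, `2 ⌈(e+1)/2⌉ ≤ t - 1`. -/
def S_FIN1 : Prop :=
  ∀ (k : Type u) [Field k], (2 : k) ≠ 0 → ∀ (p x y e : ℕ), 1 ≤ p → 2 ≤ x → x ≤ y →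
    y ≤ 2 * x - 1 → (e = 2 * x - 1 ∨ (e = 2 * x - 2 ∧ 3 ≤ x)) →
    ¬ (p = 1 ∧ x = 3 ∧ y = 5 ∧ e = 4) →
      ¬ (hankelIdeal k (p * x + y + 1) (p * x + y + 1) (p * x + y + e)).IsPrime

/-- [FIN2] The case `t < m ≤ n`, `m = X + μ`, `n = X + ν`, `X = t - 1`, `ν ≤ X`. -/
def S_FIN2 : Prop :=
  ∀ (k : Type u) [Field k], (2 : k) ≠ 0 → ∀ (X μ ν : ℕ), 1 ≤ X → 2 ≤ μ → μ ≤ ν → ν ≤ X →
      ¬ (hankelIdeal k (X + 1) (X + μ) (X + ν)).IsPrime

/-- [C4] The case `m = t`, `n = 2t - 3`, `t ≥ 6`: the point is `1` at `1, X-1, X` and `-1` at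
`2X-1, 3X-1`. -/
def S_C4 : Prop :=
  ∀ (k : Type u) [Field k], (2 : k) ≠ 0 → ∀ X : ℕ, 5 ≤ X →
    ¬ (hankelIdeal k (X + 1) (X + 1) (2 * X - 1)).IsPrime

/-! ## [PRM] the known direction: the permanent of a square matrix is a prime element -/

/-- Hankel. -/
def S_PRMH : Prop := ∀ (k : Type u) [Field k] (n : ℕ), 1 ≤ n → (hankelIdeal k n n n).IsPrime

/-- Generic. -/
def S_PRMG : Prop := ∀ (k : Type u) [Field k] (n : ℕ), 1 ≤ n →
  (Pool.Agent.R831.PermIdeal.permIdeal n (Matrix.of fun i j : Fin n =>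
    (MvPolynomial.X (i, j) : MvPolynomial (Fin n × Fin n) k))).IsPrime

/-- Symmetric. -/
def S_PRMS : Prop := ∀ (k : Type u) [Field k] (n : ℕ), 1 ≤ n →
  (Pool.Agent.R831.PermIdeal.permIdeal n (Matrix.of fun i j : Fin n =>
    (MvPolynomial.X s(i, j) : MvPolynomial (Sym2 (Fin n)) k))).IsPrime

/-- [C5] The single shape `t = m = 9`, `n = 12`. -/
def S_C5 : Prop :=
  ∀ (k : Type u) [Field k], (2 : k) ≠ 0 → ¬ (hankelIdeal k 9 9 12).IsPrime

end Pool.Agent.Helper86K9.HK
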