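import Pool.Agent.Helper86K9.HK.Zed

/-!
The relations of the first kind.
-/

set_option autoImplicit false

namespace Pool.Agent.Helper86K9.HK

open Finset

universe u

/-- the generators with index in `C`, all others are zero -/
noncomputable def xc (k : Type u) [Field k] (C : Finset ℕ) (c : ℕ) : Sq k :=
  if c ∈ C then sqx k c else 0

section

variable {k : Type u} [Field k]

lemma xc_sq (h3 : S_ALG3.{u}) (C : Finset ℕ) (c : ℕ) : xc k C c * xc k C c = 0 := by
  unfold xc
  split_ifs
  · exact (h3 k).1 c
  · simp

lemma xc_not {C : Finset ℕ} {c : ℕ} (h : c ∉ C) : xc k C c = 0 := if_neg h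

lemma xc_mem {C : Finset ℕ} {c : ℕ} (h : c ∈ C) : xc k C c = sqx k c := if_pos h

lemma bz_xc_zero {C : Finset ℕ} {n : ℕ} {z : ℤ} (h : ∀ c ∈ C, (c : ℤ) ≠ z) :
    bz n (xc k C) z = 0 := by
  unfold bz
  split_ifs with h1
  · apply xc_not
    intro h2
    exact h _ h2 (by omega)
  · rfl

lemma bz_eq {S : Type*} [Zero S] {n : ℕ} {xx : ℕ → S} {z : ℤ} {c : ℕ} (h : z = c) (h1 : 1 ≤ c)
    (h2 : c ≤ n) : bz n xx z = xx c := by
  subst h
  unfold bz
  rw [if_pos ⟨by omega, by omega⟩, Int.toNat_natCast]

/-- extraction of the scalar relation -/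
lemma finish (h3 : S_ALG3.{u}) {n : ℕ} {C Ch I F : Finset ℕ} (hC : C ⊆ Icc 1 n) (hCh : Ch ⊆ C)
    (hF : I \ F = C \ Ch) (coef : ℕ → k) (PQ : Sq k)
    (hPQ : ∀ c ∈ Ch, xc k C c * PQ = algebraMap k (Sq k) (coef c) * ∏ c ∈ Ch, xc k C c)
    (δ : ℕ → k) (r : ℕ)
    (hz : row n δ (xc k C) r * ((∏ c ∈ I, if c ∈ F then 1 else xc k C c) * PQ) = 0) :
    ∑ c ∈ Ch, δ (r + c) * coef c = 0 := by
  classical
  have hW : (∏ c ∈ I, if c ∈ F then 1 else xc k C c) = ∏ c ∈ C \ Ch, xc k C c := by
    rw [← hF, ← prod_sdiff (sdiff_subset : I \ F ⊆ I)]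
    have e1 : ∏ c ∈ I \ (I \ F), (if c ∈ F then 1 else xc k C c) = 1 := by
      refine prod_eq_one fun c hc => if_pos ?_
      simp only [mem_sdiff] at hc
      tauto
    rw [e1, one_mul]
    refine prod_congr rfl fun c hc => if_neg ?_
    exact (mem_sdiff.1 hc).2
  rw [hW] at hz
  have hsum : row n δ (xc k C) r * ((∏ c ∈ C \ Ch, xc k C c) * PQ) =
      algebraMap k (Sq k) (∑ c ∈ Ch, δ (r + c) * coef c) * ∏ c ∈ C, sqx k c := by
    unfold row
    rw [sum_mul, map_sum, sum_mul]
    rw [← sum_subset (hCh.trans hC)]
    · refine sum_congr rfl fun c hc => ?_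
      rw [Algebra.smul_def, map_mul]
      have e2 : ∏ c ∈ C, sqx k c = (∏ c ∈ C \ Ch, xc k C c) * ∏ c ∈ Ch, xc k C c := by
        rw [prod_sdiff hCh]
        exact prod_congr rfl fun c hc => (xc_mem hc).symm
      rw [e2]
      linear_combination (algebraMap k (Sq k) (δ (r + c)) * ∏ c ∈ C \ Ch, xc k C c) * hPQ c hc
    · intro c hc hc'
      by_cases h : c ∈ C
      · have h4 : c ∈ C \ Ch := mem_sdiff.2 ⟨h, hc'⟩
        rw [← mul_prod_erase _ _ h4, Algebra.smul_def]
        linear_combination (algebraMap k (Sq k) (δ (r + c)) *
          (∏ c ∈ (C \ Ch).erase c, xc k C c) * PQ) * xc_sq (k := k) h3 C c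
      · rw [xc_not h, smul_zero, zero_mul]
  rw [hsum] at hz
  exact (h3 k).2 _ _ hz

end

section

variable {k : Type u} [Field k] {p x y A e : ℕ}

/-- the chain `D + R` -/
def chn (p x y D : ℕ) : Finset ℕ :=
  insert (D + (p * x + y)) ((range (p + 1)).image fun i => D + i * x)

lemma mem_chn {p x y D c : ℕ} :
    c ∈ chn p x y D ↔ c = D + (p * x + y) ∨ ∃ i, i ≤ p ∧ D + i * x = c := by
  unfold chn
  rw [mem_insert, mem_image]
  simp only [mem_range, Nat.lt_succ_iff]

lemma sum_chn {M : Type*} [AddCommMonoid M] (hx : 1 ≤ x) (hy : 1 ≤ y) (D : ℕ) (f : ℕ → M) :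
    ∑ c ∈ chn p x y D, f c = f (D + (p * x + y)) + ∑ i ∈ range (p + 1), f (D + i * x) := by
  unfold chn
  rw [sum_insert, sum_image]
  · intro i _ j _ h
    exact Nat.eq_of_mul_eq_mul_right (by omega) (Nat.add_left_cancel h)
  · rw [mem_image]
    rintro ⟨i, hi, h⟩
    have := Nat.mul_le_mul_right x (Nat.lt_succ_iff.1 (mem_range.1 hi))
    omega

lemma prod_chn {M : Type*} [CommMonoid M] (hx : 1 ≤ x) (hy : 1 ≤ y) (D : ℕ) (f : ℕ → M) :
    ∏ c ∈ chn p x y D, f c = f (D + (p * x + y)) * ∏ i ∈ range (p + 1), f (D + i * x) := by
  unfold chn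
  rw [prod_insert, prod_image]
  · intro i _ j _ h
    exact Nat.eq_of_mul_eq_mul_right (by omega) (Nat.add_left_cancel h)
  · rw [mem_image]
    rintro ⟨i, hi, h⟩
    have := Nat.mul_le_mul_right x (Nat.lt_succ_iff.1 (mem_range.1 hi))
    omega

/-- the residues are different -/
lemma no_coll {x a b i j : ℕ} (h : a + i * x = b + j * x) (h1 : a < b + x) (h2 : b < a + x) :
    a = b := by
  rcases Nat.lt_trichotomy i j with h3 | h3 | h3
  · have := Nat.mul_le_mul_right x (Nat.succ_le_of_lt h3)
    rw [Nat.succ_mul] at this
    omega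
  · subst h3
    omega
  · have := Nat.mul_le_mul_right x (Nat.succ_le_of_lt h3)
    rw [Nat.succ_mul] at this
    omega

theorem drel_low (hT : S_TAN1.{u}) (h3 : S_ALG3.{u}) (h2 : (2 : k) ≠ 0) (P : Par p x y A e)
    (δ : ℕ → k)
    (hδ : Tan (p * x + y + 1) (p * x + y + 1) (p * x + y + e) (pt p x y A) δ) (D r : ℕ)
    (hD : 1 ≤ D) (hDA : D < A) (hr : InR p x y r) :
    ∑ i ∈ range (p + 1), δ (D + r + i * x) + δ (D + r + (p * x + y)) = 0 := by
  classical
  have hx := P.hx
  have hA := P.hA
  have hAy := P.hAy
  have hy : 1 ≤ y := le_trans hA hAy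
  have hAe := P.hAe
  have hAx := P.hAx
  have hx' := P.hx'
  have hey := P.hy
  set C : Finset ℕ := insert D (Icc A (A + (p * x + y))) with hCdef
  have memC : ∀ c, c ∈ C ↔ c = D ∨ (A ≤ c ∧ c ≤ A + (p * x + y)) := by
    intro c
    rw [hCdef, mem_insert, mem_Icc]
  set xx := xc k C with hxx
  have hsq : ∀ c, xx c * xx c = 0 := xc_sq h3 C
  have iso := isolate (k := k) xx hT h2 P hsq δ hδ r hr
  have px : ∀ i, i ≤ p → i * x ≤ p * x := fun i hi => Nat.mul_le_mul_right x hi
  have hChC : chn p x y D ⊆ C := by
    intro c hc
    rw [memC]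
    rcases mem_chn.1 hc with rfl | ⟨i, hi, rfl⟩
    · right
      generalize p * x = X at *
      omega
    · rcases Nat.eq_zero_or_pos i with rfl | hi0
      · left
        simp
      · right
        have h5 := px i hi
        have h6 := Nat.mul_le_mul_right x hi0
        have h7 := hAx (by omega)
        rw [Nat.succ_mul, Nat.zero_mul, Nat.zero_add] at h6
        generalize p * x = X at *
        generalize i * x = I at *
        omega
  -- the special factors
  set P1 : Sq k := ∏ i ∈ range p, row (p * x + y + e) (pt p x y A : ℕ → k) xx (i * x + (A - D))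
    with hP1
  set Q1 : Sq k := row (p * x + y + e) (pt p x y A : ℕ → k) xx (p * x + (A - D)) with hQ1
  have third : ∀ i j, i < p → j < x →
      bz (p * x + y + e) xx (A + p * x + (p * x + y) - i * x - j) = 0 := by
    intro i j hi hj
    apply bz_xc_zero
    intro c hc
    rw [memC] at hc
    have h5 := Nat.mul_le_mul_right x (Nat.succ_le_of_lt hi)
    rw [Nat.succ_mul] at h5
    have e1 : ((i * x : ℕ) : ℤ) = i * x := by push_cast; ring
    have e2 : ((p * x : ℕ) : ℤ) = p * x := by push_cast; ring
    rw [← e1, ← e2]
    generalize p * x = X at *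
    generalize i * x = I at *
    omega
  have hrow : ∀ i j, i < p → j < x → row (p * x + y + e) (pt p x y A : ℕ → k) xx (i * x + j) =
      bz (p * x + y + e) xx (A + p * x - i * x - j) +
      bz (p * x + y + e) xx (A + p * x - (i + 1 : ℕ) * x - j) := by
    intro i j hi hj
    rw [row_first P xx hi hj, third i j hi hj, add_zero]
  have Z := zed P xx (fun c => if c ∈ chn p x y D then 1 else xx c)
    (fun j => if j = A - D then P1 else 1) (fun j => if j = A - D then Q1 else 1)
    (by
      intro i hi
      have h5 := px i hi
      rw [if_neg]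
      · unfold uu
        rw [bz_eq (c := A + p * x - i * x)]
        · rw [Nat.cast_sub (by omega)]
          push_cast
          ring
        · omega
        · omega
      · rw [mem_chn]
        rintro (h | ⟨i', hi', h⟩)
        · omega
        · have h6 : D + (i' + i) * x = A + p * x := by
            rw [Nat.add_mul]
            omega
          rcases Nat.eq_zero_or_pos p with hp | hp
          · subst hp
            simp only [Nat.le_zero] at hi hi'
            subst hi
            subst hi'
            omega
          · have := no_coll h6 (by omega) (by have := hAx hp; omega)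
            omega) (by
      rw [if_neg]
      · unfold ww
        rw [bz_eq (c := A + (p * x + y))]
        · push_cast
          ring
        · omega
        · omega
      · rw [mem_chn]
        rintro (h | ⟨i', hi', h⟩)
        · omega
        · have h5 := px i' hi'
          omega) (by
      intro j hj hjx
      by_cases hjD : j = A - D
      · rw [if_pos hjD, hP1, ← hjD]
        conv_lhs => rw [← one_mul (∏ i ∈ range p, _)]
        congr 1
        symm
        refine prod_eq_one fun i hi => if_pos ?_
        rw [mem_chn]
        right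
        rw [mem_range] at hi
        refine ⟨p - i, by omega, ?_⟩
        rw [Nat.sub_mul]
        have := px i hi.le
        have h6 := Nat.mul_le_mul_right x (Nat.succ_le_of_lt hi)
        rw [Nat.succ_mul] at h6
        omega
      · rw [if_neg hjD, mul_one, prod_congr rfl fun i hi => hrow i j (mem_range.1 hi) hjx]
        rw [path0 (fun i => bz (p * x + y + e) xx (A + p * x - (i : ℕ) * x - j))
          (fun i => bz_sq _ _ hsq _)]
        · refine prod_congr rfl fun i hi => ?_
          rw [mem_range] at hi
          have h5 := px i hi.le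
          have h6 := Nat.mul_le_mul_right x (Nat.succ_le_of_lt hi)
          rw [Nat.succ_mul] at h6
          rw [if_neg]
          · rw [bz_eq (c := A + p * x - (i * x + j))]
            · rw [Nat.cast_sub (by omega)]
              push_cast
              ring
            · omega
            · omega
          · rw [mem_chn]
            rintro (h | ⟨i', hi', h⟩)
            · omega
            · have h7 : D + j + (i' + i) * x = A + p * x := by
                rw [Nat.add_mul]
                omega
              have h8 := hAx (by omega)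
              have := no_coll h7 (by omega) (by omega)
              omega
        · apply bz_xc_zero
          intro c hc
          rw [memC] at hc
          omega) (by
      intro j hj hjy
      by_cases hjD : j = A - D
      · rw [if_pos hjD, if_pos, one_mul, hQ1, hjD]
        rw [mem_chn]
        left
        omega
      · rw [if_neg hjD, mul_one, if_neg]
        · rw [row_second P xx hj]
          rw [bz_xc_zero (z := (A : ℤ) - j), bz_xc_zero (z := (A : ℤ) + (p * x + y) + y - j),
            bz_eq (c := A + (p * x + y) - j)]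
          · simp
          · rw [Nat.cast_sub (by omega)]
            push_cast
            ring
          · omega
          · omega
          · intro c hc
            rw [memC] at hc
            have e2 : ((p * x : ℕ) : ℤ) = p * x := by push_cast; ring
            rw [← e2]
            omega
          · intro c hc
            rw [memC] at hc
            omega
        · rw [mem_chn]
          rintro (h | ⟨i', hi', h⟩)
          · omega
          · have h5 := px i' hi'
            omega)
  -- the value of the special factors
  set v : ℕ → Sq k := fun i => bz (p * x + y + e) xx (A + p * x - (i : ℕ) * x - (A - D : ℕ))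
    with hv
  have vsq : ∀ i, v i * v i = 0 := fun i => bz_sq _ _ hsq _
  have hvi : ∀ i, i ≤ p → v i = xx (D + (p - i) * x) := by
    intro i hi
    have h5 := px i hi
    rw [Nat.sub_mul]
    show bz _ _ _ = _
    apply bz_eq
    · rw [Nat.cast_add, Nat.cast_sub h5, Nat.cast_sub hDA.le]
      push_cast
      ring
    · omega
    · omega
  have hprodv : ∏ i ∈ range (p + 1), xx (D + i * x) = ∏ i ∈ range (p + 1), v i := by
    rw [← prod_range_reflect]
    refine prod_congr rfl fun i hi => ?_
    rw [mem_range] at hi
    rw [hvi i (by omega)]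
    rfl
  have hP1' : p = 0 ∨ A - D < x := by
    rcases Nat.eq_zero_or_pos p with h | h
    · exact Or.inl h
    · have := hAx h
      right
      omega
  have hP : ∏ j ∈ Ico 1 x, (if j = A - D then P1 else 1) = P1 := by
    rw [prod_ite_eq']
    rcases hP1' with h | h
    · split_ifs
      · rfl
      · rw [hP1, h]
        simp
    · rw [if_pos]
      rw [mem_Ico]
      omega
  have hQ : ∏ j ∈ Ico 1 y, (if j = A - D then Q1 else 1) = Q1 := by
    rw [prod_ite_eq', if_pos]
    rw [mem_Ico]
    omega
  rw [hP, hQ] at Z
  rw [Z] at iso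
  have hP1v : P1 = ∏ i ∈ range p, (v i + v (i + 1)) := by
    rcases hP1' with h | h
    · rw [hP1, h]
      simp
    · rw [hP1]
      exact prod_congr rfl fun i hi => hrow i _ (mem_range.1 hi) h
  have hQ1v : Q1 = v p + xx (D + (p * x + y)) := by
    rw [hQ1, row_second P xx (by omega), bz_xc_zero (z := (A : ℤ) + (p * x + y) + y - (A - D : ℕ)),
      sub_zero]
    · congr 1
      · rw [hvi p le_rfl, Nat.sub_self, zero_mul, add_zero]
        apply bz_eq
        · omega
        · omega
        · omega
      · apply bz_eq
        · rw [Nat.cast_sub hDA.le]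
          push_cast
          ring
        · omega
        · omega
    · intro c hc
      rw [memC] at hc
      have e2 : ((p * x : ℕ) : ℤ) = p * x := by push_cast; ring
      rw [← e2]
      omega
  have fin := finish (k := k) h3 (n := p * x + y + e) (C := C) (Ch := chn p x y D)
    (I := Icc A (A + (p * x + y))) (F := chn p x y D) (by
      intro c hc
      rw [memC] at hc
      rw [mem_Icc]
      omega) hChC (by
      ext c
      rw [mem_sdiff, mem_sdiff, memC, mem_Icc]
      have : D ∈ chn p x y D := mem_chn.2 (Or.inr ⟨0, Nat.zero_le _, by simp⟩)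
      constructor
      · rintro ⟨h4, h5⟩
        exact ⟨Or.inr h4, h5⟩
      · rintro ⟨h4 | h4, h5⟩
        · subst h4
          exact absurd this h5
        · exact ⟨h4, h5⟩) (fun _ => 1) (P1 * Q1) (by
      intro c hc
      rw [map_one, one_mul, prod_chn hx hy, ← hxx, hprodv, hP1v, hQ1v]
      have hp := path v vsq p p le_rfl
      have hw := hsq (D + (p * x + y))
      have hlast : (∏ i ∈ range (p + 1), v i) * v p = 0 := by
        rw [prod_range_succ, mul_assoc, vsq, mul_zero]
      rcases mem_chn.1 hc with rfl | ⟨i, hi, rfl⟩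
      · linear_combination xx (D + (p * x + y)) * hp +
          (∏ i ∈ range p, (v i + v (i + 1))) * hw
      · have h4 := path v vsq p (p - i) (by omega)
        rw [hvi (p - i) (by omega), show p - (p - i) = i by omega] at h4
        linear_combination (v p + xx (D + (p * x + y))) * h4 + hlast) δ r iso
  rw [sum_chn hx hy] at fin
  simp only [mul_one] at fin
  rw [← fin, add_comm]
  congr 1
  · congr 1
    omega
  · refine sum_congr rfl fun i _ => ?_
    congr 1
    omega

end

end Pool.Agent.Helper86K9.HK
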