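import Pool.Agent.Helper86K9.HK.Drel

/-!
The additional relations for `m = t + 1`.
-/

set_option autoImplicit false

namespace Pool.Agent.Helper86K9.HK

open Finset

universe u

set_option linter.unusedSectionVars false

section abs

variable {S : Type*} [CommRing S] (u : ℕ → S) (hu : ∀ j, u j * u j = 0) (w : S) (hw : w * w = 0)
  (p : ℕ)

include hu hw

lemma kap_b (j : ℕ) (hj : j ≤ p) :
    u j * ((∏ j ∈ range p, (u j + u (j + 1))) * (u p + w)) = (∏ j ∈ range (p + 1), u j) * w := by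
  have h1 := path u hu p j hj
  have h3 : (∏ j ∈ range (p + 1), u j) * u p = 0 := by
    rw [prod_range_succ, mul_assoc, hu, mul_zero]
  linear_combination (u p + w) * h1 + h3

lemma kap_bw :
    w * ((∏ j ∈ range p, (u j + u (j + 1))) * (u p + w)) = (∏ j ∈ range (p + 1), u j) * w := by
  have h1 := path u hu p p le_rfl
  linear_combination w * h1 + (∏ j ∈ range p, (u j + u (j + 1))) * hw

lemma kap_a (j : ℕ) (hj : j ≤ p) :
    u j * ((∏ j ∈ range p, (u j + u (j + 1))) * (u 0 - w)) =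
      - ((∏ j ∈ range (p + 1), u j) * w) := by
  have h1 := path u hu p j hj
  have h3 : (∏ j ∈ range (p + 1), u j) * u 0 = 0 := by
    rw [prod_range_succ', mul_assoc, hu, mul_zero]
  linear_combination (u 0 - w) * h1 + h3

lemma kap_aw :
    w * ((∏ j ∈ range p, (u j + u (j + 1))) * (u 0 - w)) = (∏ j ∈ range (p + 1), u j) * w := by
  have h1 := path u hu p 0 (Nat.zero_le _)
  linear_combination w * h1 - (∏ j ∈ range p, (u j + u (j + 1))) * hw

lemma kap_f (i : ℕ) (hi : i < p) (f : ℕ → S) (hf : ∀ j ∈ range p, j ≠ i → f j = u j + u (j + 1))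
    (hfi : f i = 1) :
    (∀ j, j ≤ i → u j * ((∏ j ∈ range p, f j) * (u p + w) * (u 0 - w)) =
      - ((∏ j ∈ range (p + 1), u j) * w)) ∧
    (∀ j, i < j → j ≤ p → u j * ((∏ j ∈ range p, f j) * (u p + w) * (u 0 - w)) =
      (∏ j ∈ range (p + 1), u j) * w) ∧
    w * ((∏ j ∈ range p, f j) * (u p + w) * (u 0 - w)) = (∏ j ∈ range (p + 1), u j) * w := by
  -- split the path at `i`
  obtain ⟨m, rfl⟩ : ∃ m, p = i + (1 + m) := ⟨p - i - 1, by omega⟩
  have e1 : ∏ j ∈ range (i + (1 + m)), f j =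
      (∏ j ∈ range i, (u j + u (j + 1))) * ∏ j ∈ range m, (u (i + 1 + j) + u (i + 1 + (j + 1))) := by
    rw [prod_range_add, prod_range_add]
    congr 1
    · refine prod_congr rfl fun j hj => hf j ?_ ?_
      · simp only [mem_range] at hj ⊢
        omega
      · simp only [mem_range] at hj
        omega
    · rw [prod_range_one, add_zero, hfi, one_mul]
      refine prod_congr rfl fun j hj => ?_
      rw [hf (i + (1 + j)) (by simp only [mem_range] at hj ⊢; omega) (by omega)]
      rw [show i + (1 + j) = i + 1 + j by ring]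
      rfl
  have e2 : ∏ j ∈ range (i + (1 + m) + 1), u j =
      (∏ j ∈ range (i + 1), u j) * ∏ j ∈ range (m + 1), u (i + 1 + j) := by
    rw [← prod_range_add]
    congr 2
    ring
  have a1 := fun j hj => path u hu i j hj
  have a2 := path u hu i 0 (Nat.zero_le _)
  have b1 := path (fun j => u (i + 1 + j)) (fun j => hu _) m m le_rfl
  have b2 := fun j hj => path (fun j => u (i + 1 + j)) (fun j => hu _) m j hj
  have e3 : i + (1 + m) = i + 1 + m := by ring
  rw [e1, e2, e3]
  set P1 := ∏ j ∈ range i, (u j + u (j + 1))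
  set P2 := ∏ j ∈ range m, (u (i + 1 + j) + u (i + 1 + (j + 1)))
  set Q1 := ∏ j ∈ range (i + 1), u j with hQ1
  set Q2 := ∏ j ∈ range (m + 1), u (i + 1 + j) with hQ2
  have c1 : Q1 * u 0 = 0 := by rw [hQ1, prod_range_succ', mul_assoc, hu, mul_zero]
  have c2 : Q2 * u (i + 1 + m) = 0 := by rw [hQ2, prod_range_succ, mul_assoc, hu, mul_zero]
  refine ⟨fun j hj => ?_, fun j hj hj' => ?_, ?_⟩
  · linear_combination (P2 * (u (i + 1 + m) + w) * (u 0 - w)) * a1 j hj +
      P2 * (u (i + 1 + m) + w) * c1 - Q1 * w * b1 - Q1 * P2 * hw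
  · have b3 := b2 (j - (i + 1)) (by omega)
    rw [show i + 1 + (j - (i + 1)) = j by omega] at b3
    linear_combination (P1 * (u (i + 1 + m) + w) * (u 0 - w)) * b3 + P1 * (u 0 - w) * c2 +
      Q2 * w * a2 - Q2 * P1 * hw
  · linear_combination P1 * P2 * (u 0 - w) * hw - P1 * P2 * u (i + 1 + m) * hw +
      w * u 0 * P1 * b1 + w * Q2 * a2

end abs

lemma prod_rows2 {M : Type*} [CommMonoid M] (f : ℕ → M) (p : ℕ) {x y : ℕ}
    (hx : p = 0 ∨ 2 ≤ x) (hx1 : 1 ≤ x) (hy : 2 ≤ y) :
    ∏ r ∈ range (p * x + y + 2), f r =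
      ((∏ i ∈ range p, f (i * x)) * f (p * x) * f (p * x + y)) *
      ((∏ i ∈ range p, f (i * x + 1)) * f (p * x + 1) * f (p * x + y + 1)) *
        ((∏ k ∈ Ico 2 x, ∏ i ∈ range p, f (i * x + k)) * ∏ k ∈ Ico 2 y, f (p * x + k)) := by
  rw [prod_range_succ, prod_rows f p hx1 (by omega : 1 ≤ y)]
  have e1 : ∏ k ∈ Ico 1 x, ∏ i ∈ range p, f (i * x + k) =
      (∏ i ∈ range p, f (i * x + 1)) * ∏ k ∈ Ico 2 x, ∏ i ∈ range p, f (i * x + k) := by
    rcases hx with rfl | hx
    · simp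
    · rw [prod_eq_prod_Ico_succ_bot (by omega : 1 < x)]
  rw [e1, prod_eq_prod_Ico_succ_bot (by omega : 1 < y)]
  simp only [mul_assoc, mul_left_comm, mul_comm]

lemma mon2 {M : Type*} [CommMonoid M] (f : ℕ → M) (p A : ℕ) {x y : ℕ}
    (hx : p = 0 ∨ 2 ≤ x) (hx1 : 1 ≤ x) (hy : 2 ≤ y) (hA : 1 ≤ A) :
    ∏ c ∈ insert (A - 1) (Icc A (A + (p * x + y))), f c =
      ((∏ i ∈ range (p + 1), f (A + p * x - i * x)) * f (A + (p * x + y))) *
      ((∏ i ∈ range (p + 1), f (A - 1 + p * x - i * x)) * f (A - 1 + (p * x + y))) *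
        ((∏ j ∈ Ico 2 x, ∏ i ∈ range p, f (A + p * x - (i * x + j))) *
          ∏ j ∈ Ico 2 y, f (A + (p * x + y) - j)) := by
  rw [prod_insert, mon f p A hx1 (by omega : 1 ≤ y)]
  · have e1 : ∏ k ∈ Ico 1 x, ∏ i ∈ range p, f (A + p * x - (i * x + k)) =
        (∏ i ∈ range p, f (A - 1 + p * x - i * x)) *
          ∏ k ∈ Ico 2 x, ∏ i ∈ range p, f (A + p * x - (i * x + k)) := by
      rcases hx with rfl | hx
      · simp
      · rw [prod_eq_prod_Ico_succ_bot (by omega : 1 < x)]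
        congr 1
        refine prod_congr rfl fun i hi => ?_
        congr 1
        omega
    rw [e1, prod_eq_prod_Ico_succ_bot (by omega : 1 < y), prod_range_succ _ p,
      prod_range_succ _ p]
    rw [show A - 1 + p * x - p * x = A - 1 by omega,
      show A + (p * x + y) - 1 = A - 1 + (p * x + y) by omega]
    generalize ∏ k ∈ Ico 2 x, ∏ i ∈ range p, f (A + p * x - (i * x + k)) = a1
    generalize ∏ k ∈ Ico 2 y, f (A + (p * x + y) - k) = a2
    generalize ∏ i ∈ range p, f (A + p * x - i * x) = a3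
    generalize ∏ i ∈ range p, f (A - 1 + p * x - i * x) = a4
    generalize f (A - 1) = a5
    generalize f (A + (p * x + y)) = a6
    generalize f (A - 1 + (p * x + y)) = a7
    generalize f (A + p * x - p * x) = a8
    ac_rfl
  · rw [mem_Icc]
    omega

end Pool.Agent.Helper86K9.HK
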