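import Pool.Agent.Helper86K9.HK.Vrel

/-!
The additional relations for `m = t + 1`, continued.
-/

set_option autoImplicit false

namespace Pool.Agent.Helper86K9.HK

open Finset

universe u

/-- product of the rows of the block -/
def blk {S : Type*} [CommRing S] (p x y : ℕ) (g : ℕ → S) : S :=
  (∏ i ∈ range p, g (i * x)) * g (p * x) * g (p * x + y)

section

variable {k S : Type u} [Field k] [CommRing S] [Algebra k S] (xx : ℕ → S)
  {p x y A e : ℕ} (P : Par p x y A e)

include P

lemma hXne' : ∀ i, i ≤ p → i * x ≠ p * x + y := by
  intro i hi h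
  have := Nat.mul_le_mul_right x hi
  have := P.hA
  have := P.hAy
  omega

lemma hne' : ∀ i j, i * x = j * x → i = j := by
  intro i j h
  have := P.hx
  exact Nat.eq_of_mul_eq_mul_right (by omega) h

/-- the block with one row omitted: a factor which isolates this row -/
lemma conj (hxx : ∀ c, xx c * xx c = 0) (r : ℕ) (hr : InR p x y r) :
    ∃ cj : S, cj * row (p * x + y + e) (pt p x y A : ℕ → k) xx r = 0 ∧
      (cj * blk p x y (Function.update (row (p * x + y + e) (pt p x y A : ℕ → k) xx) r 1) =
        2 * BB p x y A e xx ∨
      cj * blk p x y (Function.update (row (p * x + y + e) (pt p x y A : ℕ → k) xx) r 1) =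
        - 2 * BB p x y A e xx) := by
  set g : ℕ → S := row (p * x + y + e) (pt p x y A : ℕ → k) xx with hg
  have hu : ∀ j, uu p x y A e xx j * uu p x y A e xx j = 0 := fun j => bz_sq _ _ hxx _
  have hw : ww p x y A e xx * ww p x y A e xx = 0 := bz_sq _ _ hxx _
  have hgi : ∀ i, i < p → g (i * x) = uu p x y A e xx i + uu p x y A e xx (i + 1) :=
    fun i hi => row_blk xx P i hi
  have hgp : g (p * x) = uu p x y A e xx p + ww p x y A e xx := row_blk_p xx P
  have hgX : g (p * x + y) = uu p x y A e xx 0 - ww p x y A e xx := row_blk_X xx P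
  have hXne := hXne' P
  have hne := hne' P
  unfold blk
  rcases hr with ⟨i, hi, hri⟩ | hri
  · rcases Nat.lt_or_ge i p with hip | hip
    · refine ⟨uu p x y A e xx i - uu p x y A e xx (i + 1), ?_, Or.inr ?_⟩
      · rw [hri, hgi i hip]
        linear_combination hu i - hu (i + 1)
      · rw [Function.update_of_ne (by rw [hri]; exact fun h => hip.ne' (hne _ _ h)),
          Function.update_of_ne (by rw [hri]; exact (hXne i hi).symm), hgp, hgX]
        exact cyc3 (uu p x y A e xx) hu (ww p x y A e xx) hw p i hip
          (fun j => Function.update g r 1 (j * x)) (by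
            intro j hj hji
            show Function.update g r 1 (j * x) = _
            rw [Function.update_of_ne (by rw [hri]; exact fun h => hji (hne _ _ h)),
              hgi j (mem_range.1 hj)]) (by
            show Function.update g r 1 (i * x) = 1
            rw [hri, Function.update_self])
    · obtain rfl : i = p := by omega
      refine ⟨uu i x y A e xx i - ww i x y A e xx, ?_, Or.inr ?_⟩
      · rw [hri, hgp]
        linear_combination hu i - hw
      · have hpr : ∏ j ∈ range i, Function.update g r 1 (j * x) =
            ∏ j ∈ range i, (uu i x y A e xx j + uu i x y A e xx (j + 1)) := by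
          refine prod_congr rfl fun j hj => ?_
          have hji := mem_range.1 hj
          rw [Function.update_of_ne (by rw [hri]; exact fun h => hji.ne (hne _ _ h)), hgi j hji]
        rw [hpr, show Function.update g r 1 (i * x) = 1 by rw [hri, Function.update_self],
          Function.update_of_ne (by rw [hri]; exact (hXne i le_rfl).symm), hgX, mul_one]
        exact cyc1 (uu i x y A e xx) hu (ww i x y A e xx) hw i
  · refine ⟨uu p x y A e xx 0 + ww p x y A e xx, ?_, Or.inl ?_⟩
    · rw [hri, hgX]
      linear_combination hu 0 - hw
    · have hpr : ∏ j ∈ range p, Function.update g r 1 (j * x) =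
          ∏ j ∈ range p, (uu p x y A e xx j + uu p x y A e xx (j + 1)) := by
        refine prod_congr rfl fun j hj => ?_
        have hji := mem_range.1 hj
        rw [Function.update_of_ne (by rw [hri]; exact hXne j hji.le), hgi j hji]
      rw [hpr, show Function.update g r 1 (p * x + y) = 1 by rw [hri, Function.update_self],
        Function.update_of_ne (by rw [hri]; exact (hXne p le_rfl)), hgp, mul_one]
      exact cyc2 (uu p x y A e xx) hu (ww p x y A e xx) hw p

end

section

variable {k : Type u} [Field k] {p x y A e : ℕ}

/-- the scalar relations of a block with one row omitted force everything to vanish -/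
lemma solve (h2 : (2 : k) ≠ 0) {S : Type u} [CommRing S] [Algebra k S] (xx : ℕ → S)
    (hxx : ∀ c, xx c * xx c = 0) (P : Par p x y A e) (hAe : A + (p * x + y) ≤ p * x + y + e)
    (ε : ℕ → k)
    (H : ∀ (s : ℕ), InR p x y s → ∀ κ : ℕ → k,
      (∀ c ∈ chn p x y A, xx c *
        blk p x y (Function.update (row (p * x + y + e) (pt p x y A : ℕ → k) xx) s 1) =
          algebraMap k S (κ c) * ∏ c ∈ chn p x y A, xx c) →
      ∑ c ∈ chn p x y A, ε c * κ c = 0) :
    ∀ c ∈ chn p x y A, ε c = 0 := by
  have hx := P.hx
  have hA := P.hA
  have hy : 1 ≤ y := le_trans P.hA P.hAy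
  set g : ℕ → S := row (p * x + y + e) (pt p x y A : ℕ → k) xx with hg
  have hu : ∀ j, uu p x y A e xx j * uu p x y A e xx j = 0 := fun j => bz_sq _ _ hxx _
  have hw : ww p x y A e xx * ww p x y A e xx = 0 := bz_sq _ _ hxx _
  have hgi : ∀ i, i < p → g (i * x) = uu p x y A e xx i + uu p x y A e xx (i + 1) :=
    fun i hi => row_blk xx P i hi
  have hgp : g (p * x) = uu p x y A e xx p + ww p x y A e xx := row_blk_p xx P
  have hgX : g (p * x + y) = uu p x y A e xx 0 - ww p x y A e xx := row_blk_X xx P
  have hXne := hXne' P
  have hne := hne' P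
  have px : ∀ i, i ≤ p → i * x ≤ p * x := fun i hi => Nat.mul_le_mul_right x hi
  have hwx : ww p x y A e xx = xx (A + (p * x + y)) := by
    unfold ww
    apply bz_eq
    · push_cast
      ring
    · omega
    · omega
  have hux : ∀ i, i ≤ p → uu p x y A e xx (p - i) = xx (A + i * x) := by
    intro i hi
    have h5 := px i hi
    unfold uu
    apply bz_eq
    · rw [Nat.cast_sub hi]
      push_cast
      ring
    · omega
    · omega
  have hBB : ∏ c ∈ chn p x y A, xx c = (∏ j ∈ range (p + 1), uu p x y A e xx j) *
      ww p x y A e xx := by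
    rw [prod_chn hx hy, hwx, mul_comm]
    congr 1
    rw [← prod_range_reflect]
    refine prod_congr rfl fun i hi => ?_
    rw [mem_range] at hi
    rw [show p + 1 - 1 - i = p - i by omega, ← hux (p - i) (by omega)]
    congr 1
    omega
  -- omit the last row
  have hb := H (p * x + y) (Or.inr rfl) (fun _ => 1) (by
    intro c hc
    have hpr : ∏ j ∈ range p, Function.update g (p * x + y) 1 (j * x) =
        ∏ j ∈ range p, (uu p x y A e xx j + uu p x y A e xx (j + 1)) := by
      refine prod_congr rfl fun j hj => ?_
      have hji := mem_range.1 hj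
      rw [Function.update_of_ne (hXne j hji.le), hgi j hji]
    rw [map_one, one_mul, hBB]
    unfold blk
    rw [hpr, Function.update_self, Function.update_of_ne (hXne p le_rfl), hgp, mul_one]
    rcases mem_chn.1 hc with rfl | ⟨i, hi, rfl⟩
    · rw [← hwx]
      exact kap_bw _ hu _ hw p
    · rw [← hux i hi]
      exact kap_b _ hu _ hw p _ (by omega))
  have ha := H (p * x) (Or.inl ⟨p, le_rfl, rfl⟩) (fun c => if c = A + (p * x + y) then 1 else -1)
    (by
    intro c hc
    have hpr : ∏ j ∈ range p, Function.update g (p * x) 1 (j * x) =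
        ∏ j ∈ range p, (uu p x y A e xx j + uu p x y A e xx (j + 1)) := by
      refine prod_congr rfl fun j hj => ?_
      have hji := mem_range.1 hj
      rw [Function.update_of_ne (fun h => hji.ne (hne _ _ h)), hgi j hji]
    rw [hBB]
    unfold blk
    rw [hpr, Function.update_self, Function.update_of_ne (hXne p le_rfl).symm, hgX, mul_one]
    rcases mem_chn.1 hc with rfl | ⟨i, hi, rfl⟩
    · rw [← hwx, if_pos rfl, map_one, one_mul]
      exact kap_aw _ hu _ hw p
    · have := px i hi
      rw [← hux i hi, if_neg (by omega), map_neg, map_one, neg_one_mul]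
      exact kap_a _ hu _ hw p _ (by omega))
  have hf : ∀ m, 1 ≤ m → m ≤ p → ∑ c ∈ chn p x y A,
      ε c * (if c < A + m * x ∨ c = A + (p * x + y) then 1 else -1) = 0 := by
    intro m hm hmp
    refine H ((p - m) * x) (Or.inl ⟨p - m, by omega, rfl⟩) _ ?_
    intro c hc
    rw [hBB]
    unfold blk
    have hk := kap_f (uu p x y A e xx) hu (ww p x y A e xx) hw p (p - m) (by omega)
      (fun j => Function.update g ((p - m) * x) 1 (j * x)) (by
        intro j hj hji
        show Function.update g ((p - m) * x) 1 (j * x) = _
        rw [Function.update_of_ne (fun h => hji (hne _ _ h)), hgi j (mem_range.1 hj)]) (by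
        show Function.update g ((p - m) * x) 1 ((p - m) * x) = 1
        rw [Function.update_self])
    rw [Function.update_of_ne (fun h => (by omega : ¬ p = p - m) (hne _ _ h)),
      Function.update_of_ne (hXne (p - m) (by omega)).symm, hgp, hgX]
    rcases mem_chn.1 hc with rfl | ⟨i, hi, rfl⟩
    · rw [← hwx, if_pos (Or.inr rfl), map_one, one_mul]
      exact hk.2.2
    · have := px i hi
      rcases Nat.lt_or_ge i m with him | him
      · have h6 := Nat.mul_le_mul_right x (Nat.succ_le_of_lt him)
        rw [Nat.succ_mul] at h6
        rw [← hux i hi, if_pos (Or.inl (by omega)), map_one, one_mul]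
        exact hk.2.1 _ (by omega) (by omega)
      · have h6 := Nat.mul_le_mul_right x him
        rw [← hux i hi, if_neg (by omega), map_neg, map_one, neg_one_mul]
        exact hk.1 _ (by omega)
  -- linear algebra
  rw [sum_chn hx hy] at hb ha
  simp only [mul_one, if_true] at hb ha
  have ha' : ∑ i ∈ range (p + 1), ε (A + i * x) *
      (if A + i * x = A + (p * x + y) then (1 : k) else -1) =
      - ∑ i ∈ range (p + 1), ε (A + i * x) := by
    rw [← sum_neg_distrib]
    refine sum_congr rfl fun i hi => ?_
    have := px i (by rw [mem_range] at hi; omega)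
    rw [if_neg (by omega)]
    ring
  rw [ha'] at ha
  have hw0 : ε (A + (p * x + y)) = 0 := by
    have : 2 * ε (A + (p * x + y)) = 0 := by linear_combination hb + ha
    exact (mul_eq_zero.1 this).resolve_left h2
  have htot : ∑ i ∈ range (p + 1), ε (A + i * x) = 0 := by linear_combination hb - hw0
  have hpart : ∀ m, 1 ≤ m → m ≤ p → ∑ i ∈ range m, ε (A + i * x) = 0 := by
    intro m hm hmp
    have h := hf m hm hmp
    rw [sum_chn hx hy, hw0, zero_mul, zero_add] at h
    have h1 : ∑ i ∈ range (p + 1), ε (A + i * x) *
        (if A + i * x < A + m * x ∨ A + i * x = A + (p * x + y) then (1 : k) else -1) =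
        2 * (∑ i ∈ range m, ε (A + i * x)) - ∑ i ∈ range (p + 1), ε (A + i * x) := by
      have hsub : range m ⊆ range (p + 1) := by
        intro i hi
        rw [mem_range] at *
        omega
      rw [← sum_sdiff hsub, ← sum_sdiff hsub (f := fun i => ε (A + i * x))]
      have s1 : ∑ i ∈ range (p + 1) \ range m, ε (A + i * x) *
          (if A + i * x < A + m * x ∨ A + i * x = A + (p * x + y) then (1 : k) else -1) =
          - ∑ i ∈ range (p + 1) \ range m, ε (A + i * x) := by
        rw [← sum_neg_distrib]
        refine sum_congr rfl fun i hi => ?_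
        rw [mem_sdiff, mem_range, mem_range] at hi
        have := px i (by omega)
        have := Nat.mul_le_mul_right x (not_lt.1 hi.2)
        rw [if_neg (by omega)]
        ring
      have s2 : ∑ i ∈ range m, ε (A + i * x) *
          (if A + i * x < A + m * x ∨ A + i * x = A + (p * x + y) then (1 : k) else -1) =
          ∑ i ∈ range m, ε (A + i * x) := by
        refine sum_congr rfl fun i hi => ?_
        rw [mem_range] at hi
        have h6 := Nat.mul_le_mul_right x (Nat.succ_le_of_lt hi)
        rw [Nat.succ_mul] at h6
        rw [if_pos (Or.inl (by omega)), mul_one]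
      rw [s1, s2]
      ring
    rw [h1, htot, sub_zero] at h
    exact (mul_eq_zero.1 h).resolve_left h2
  have hpart' : ∀ m, m ≤ p + 1 → ∑ i ∈ range m, ε (A + i * x) = 0 := by
    intro m hm
    rcases Nat.eq_zero_or_pos m with rfl | h
    · simp
    · rcases Nat.lt_or_ge p m with h' | h'
      · obtain rfl : m = p + 1 := by omega
        exact htot
      · exact hpart m h h'
  intro c hc
  rcases mem_chn.1 hc with rfl | ⟨i, hi, rfl⟩
  · exact hw0
  · have h1 := hpart' (i + 1) (by omega)
    rw [sum_range_succ, hpart' i (by omega), zero_add] at h1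
    exact h1

end

end Pool.Agent.Helper86K9.HK
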