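import Pool.Agent.Helper86K9.HK.Blk

/-!
The product of all rows outside of the block, for square zero elements supported on a set `C`.
-/

set_option autoImplicit false

namespace Pool.Agent.Helper86K9.HK

open Finset

universe u

/-- The columns `A, …, A + X` in the order of the rows. -/
lemma mon {M : Type*} [CommMonoid M] (f : ℕ → M) (p A : ℕ) {x y : ℕ} (hx : 1 ≤ x) (hy : 1 ≤ y) :
    ∏ c ∈ Icc A (A + (p * x + y)), f c =
      (∏ i ∈ range (p + 1), f (A + p * x - i * x)) * f (A + (p * x + y)) *
        ((∏ j ∈ Ico 1 x, ∏ i ∈ range p, f (A + p * x - (i * x + j))) *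
          ∏ j ∈ Ico 1 y, f (A + (p * x + y) - j)) := by
  have h := prod_rows (fun r => f (if r ≤ p * x then A + p * x - r else
    if r = p * x + y then A + (p * x + y) else A + (p * x + y) + p * x - r)) p hx hy
  have e1 : ∏ r ∈ range (p * x + y + 1), (fun r => f (if r ≤ p * x then A + p * x - r else
    if r = p * x + y then A + (p * x + y) else A + (p * x + y) + p * x - r)) r =
      ∏ c ∈ Icc A (A + (p * x + y)), f c := by
    refine prod_nbij' (fun r => if r ≤ p * x then A + p * x - r else
      if r = p * x + y then A + (p * x + y) else A + (p * x + y) + p * x - r)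
      (fun c => if c ≤ A + p * x then A + p * x - c else
        if c = A + (p * x + y) then p * x + y else A + (p * x + y) + p * x - c) ?_ ?_ ?_ ?_ ?_
    · intro r hr
      rw [mem_range] at hr
      rw [mem_Icc]
      generalize p * x = X at *
      split_ifs <;> omega
    · intro c hc
      rw [mem_Icc] at hc
      rw [mem_range]
      generalize p * x = X at *
      split_ifs <;> omega
    · intro r hr
      rw [mem_range] at hr
      generalize p * x = X at *
      split_ifs <;> omega
    · intro c hc
      rw [mem_Icc] at hc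
      generalize p * x = X at *
      split_ifs <;> omega
    · intro r _
      rfl
  rw [← e1, h]
  have e2 : ∀ i ∈ range p, i * x + x ≤ p * x := by
    intro i hi
    have := Nat.mul_le_mul_right x (Nat.succ_le_of_lt (mem_range.1 hi))
    rwa [Nat.succ_mul] at this
  congr 1
  · congr 1
    · rw [prod_range_succ]
      congr 1
      · refine prod_congr rfl fun i hi => ?_
        rw [if_pos (by have := e2 i hi; omega)]
      · rw [if_pos le_rfl]
    · rw [if_neg (by omega), if_pos rfl]
  · congr 1
    · refine prod_congr rfl fun j hj => prod_congr rfl fun i hi => ?_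
      rw [mem_Ico] at hj
      rw [if_pos (by have := e2 i hi; omega)]
    · refine prod_congr rfl fun j hj => ?_
      rw [mem_Ico] at hj
      rw [if_neg (by omega), if_neg (by omega)]
      congr 1
      omega

section

variable {k S : Type u} [Field k] [CommRing S] [Algebra k S]
  {p x y A e : ℕ} (P : Par p x y A e) (xx : ℕ → S)

include P

lemma row_first {i j : ℕ} (hi : i < p) (hj' : j < x) :
    row (p * x + y + e) (pt p x y A : ℕ → k) xx (i * x + j) =
      bz (p * x + y + e) xx (A + p * x - i * x - j) +
      bz (p * x + y + e) xx (A + p * x - (i + 1 : ℕ) * x - j) +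
      bz (p * x + y + e) xx (A + p * x + (p * x + y) - i * x - j) := by
  have h1 := P.hx
  have h2 := P.hx' (by omega)
  have h3 := P.hA
  have h4 := P.hAy
  have h5 : (i + 1) * x ≤ p * x := Nat.mul_le_mul_right x hi
  have h6 := P.hy
  rw [row_pt _ _ _ _ _ _ h1 (by omega), if_pos (by omega)]
  rw [Nat.succ_mul] at h5
  have e1 : ((i * x : ℕ) : ℤ) = i * x := by push_cast; ring
  have e2 : ((p * x : ℕ) : ℤ) = p * x := by push_cast; ring
  rw [bz_zero _ _ (c := (A : ℤ) + p * x + (p * x + y) + y - ((i * x + j : ℕ) : ℤ))]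
  · rw [sub_zero, add_comm (bz _ _ ((A : ℤ) + p * x - x - ((i * x + j : ℕ) : ℤ)))]
    congr 1
    · congr 1
      · congr 1
        push_cast
        ring
      · congr 1
        push_cast
        ring
    · congr 1
      push_cast
      ring
  · rw [← e2]
    generalize p * x = X at *
    generalize i * x = I at *
    omega

lemma row_second {j : ℕ} (hj : 1 ≤ j) :
    row (p * x + y + e) (pt p x y A : ℕ → k) xx (p * x + j) =
      bz (p * x + y + e) xx (A - j) + bz (p * x + y + e) xx (A + (p * x + y) - j) -
      bz (p * x + y + e) xx (A + (p * x + y) + y - j) := by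
  have h1 := P.hx
  have h2 := P.hAx
  have h3 := P.hA
  have h4 := P.hAy
  have h6 := P.hy
  rw [row_pt _ _ _ _ _ _ h1 (by omega)]
  have e2 : ((p * x : ℕ) : ℤ) = p * x := by push_cast; ring
  have : (if 1 ≤ p then bz (p * x + y + e) xx ((A : ℤ) + p * x - x - ((p * x + j : ℕ) : ℤ))
      else 0) = 0 := by
    split_ifs with h
    · apply bz_zero
      have := h2 h
      rw [← e2]
      generalize p * x = X at *
      omega
    · rfl
  rw [this, zero_add]
  congr 1
  · congr 1
    · congr 1
      push_cast
      ring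
    · congr 1
      push_cast
      ring
  · congr 1
    push_cast
    ring

/-- The terms of the third kind in the rows of the first kind are zero but for `i = p - 1`. -/
lemma bz_third {i j : ℕ} (hi : i + 1 < p) (hj' : j < x) :
    bz (p * x + y + e) xx (A + p * x + (p * x + y) - i * x - j) = 0 := by
  have h2 := P.hx' (by omega)
  have h5 : (i + 1 + 1) * x ≤ p * x := Nat.mul_le_mul_right x hi
  rw [Nat.succ_mul, Nat.succ_mul] at h5
  have e1 : ((i * x : ℕ) : ℤ) = i * x := by push_cast; ring
  have e2 : ((p * x : ℕ) : ℤ) = p * x := by push_cast; ring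
  apply bz_zero
  rw [← e2, ← e1]
  generalize p * x = X at *
  generalize i * x = I at *
  omega

/-- The general shape of the product of `BB` and `GG`. -/
lemma zed (f : ℕ → S) (P1 Q1 : ℕ → S)
    (h0 : ∀ i, i ≤ p → f (A + p * x - i * x) = uu p x y A e xx i)
    (h0' : f (A + (p * x + y)) = ww p x y A e xx)
    (h1 : ∀ j, 1 ≤ j → j < x → ∏ i ∈ range p,
      row (p * x + y + e) (pt p x y A : ℕ → k) xx (i * x + j) =
        (∏ i ∈ range p, f (A + p * x - (i * x + j))) * P1 j)
    (h2 : ∀ j, 1 ≤ j → j < y → row (p * x + y + e) (pt p x y A : ℕ → k) xx (p * x + j) =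
        f (A + (p * x + y) - j) * Q1 j) :
    BB p x y A e xx * GG k p x y A e xx =
      (∏ c ∈ Icc A (A + (p * x + y)), f c) * ((∏ j ∈ Ico 1 x, P1 j) * ∏ j ∈ Ico 1 y, Q1 j) := by
  rw [mon f p A P.hx (le_trans P.hA P.hAy)]
  unfold BB GG
  have e1 : ∏ i ∈ range (p + 1), f (A + p * x - i * x) =
      ∏ i ∈ range (p + 1), uu p x y A e xx i :=
    prod_congr rfl fun i hi => h0 i (by rw [mem_range] at hi; omega)
  have e2 : ∏ j ∈ Ico 1 x, ∏ i ∈ range p,
      row (p * x + y + e) (pt p x y A : ℕ → k) xx (i * x + j) =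
        (∏ j ∈ Ico 1 x, ∏ i ∈ range p, f (A + p * x - (i * x + j))) * ∏ j ∈ Ico 1 x, P1 j := by
    rw [← prod_mul_distrib]
    exact prod_congr rfl fun j hj => h1 j (mem_Ico.1 hj).1 (mem_Ico.1 hj).2
  have e3 : ∏ j ∈ Ico 1 y, row (p * x + y + e) (pt p x y A : ℕ → k) xx (p * x + j) =
        (∏ j ∈ Ico 1 y, f (A + (p * x + y) - j)) * ∏ j ∈ Ico 1 y, Q1 j := by
    rw [← prod_mul_distrib]
    exact prod_congr rfl fun j hj => h2 j (mem_Ico.1 hj).1 (mem_Ico.1 hj).2
  rw [e1, h0', e2, e3]
  ring

end

end Pool.Agent.Helper86K9.HK
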